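import Pool.Agent.Lib.MP_da0a56_lc.Anch

/-! Classification of robust anchored matrices without constant lines. -/

set_option autoImplicit false

namespace Pool.Agent.NearReg
open R

variable {α : Type*}

theorem fin_chainF : ∀ a : R, Fu a → ∀ s, Av s → ∀ t, Av t → O22 a s t a → s = a ∨ t = a := by
  decide +kernel

theorem R1.tr {M : α → α → R} {I Y : Finset α} (h : R1 M I Y) : R2 (fun a b => M b a) Y I := h
theorem R2.tr {M : α → α → R} {I Y : Finset α} (h : R2 M I Y) : R1 (fun a b => M b a) Y I := h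

theorem R1.one_sub {M : α → α → R} {I Y : Finset α} (h : R1 M I Y) :
    R1 (fun a b => 1 - M a b) I Y := by
  intro i hi i' hi' hne y0
  obtain ⟨y, hy, h0, h1⟩ := h i hi i' hi' hne y0
  exact ⟨y, hy, h0, fun e => h1 (sub_right_injective e)⟩

theorem R2.one_sub {M : α → α → R} {I Y : Finset α} (h : R2 M I Y) :
    R2 (fun a b => 1 - M a b) I Y := by
  intro i hi i' hi' hne y0
  obtain ⟨y, hy, h0, h1⟩ := h i hi i' hi' hne y0
  exact ⟨y, hy, h0, fun e => h1 (sub_right_injective e)⟩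

theorem Anch.two {M : α → α → R} {I Y : Finset α} (h : Anch M I Y) {k k' w w' : α} {a b : R}
    (ha : Fu a) (hb : Fu b) (hab : a ≠ b) (hk : k ∈ I) (hk' : k' ∈ I) (hw : w ∈ Y) (hw' : w' ∈ Y)
    (e1 : M k w = a) (e2 : M k' w' = b) :
    (M k w' = 0 ∧ M k' w = 0 ∧ (1 - a) * (1 - b) = 1) ∨ (M k w' = 1 ∧ M k' w = 1 ∧ a * b = 1) ∨
      (M k w' = 0 ∧ M k' w = 1 ∧ a + b = 1) ∨ (M k w' = 1 ∧ M k' w = 0 ∧ a + b = 1) := by
  have ho := h.o22 k hk k' hk' w hw w' hw'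
  rw [e1, e2] at ho
  exact fin_twoF a ha b hb hab _ (h.av hk hw') _ (h.av hk' hw) ho

theorem z_cross {M : α → α → R} {I Y : Finset α} (h : Anch M I Y) {a b : R}
    (ha : Fu a) (hb : Fu b) (hab : a ≠ b) (hT : (1 - a) * (1 - b) = 1) {k k' w w' : α}
    (hk : k ∈ I) (hk' : k' ∈ I) (hw : w ∈ Y) (hw' : w' ∈ Y)
    (e1 : M k w = a) (e2 : M k' w' = b) : M k w' = 0 ∧ M k' w = 0 := by
  have hx := fin_excl a ha b hb
  rcases h.two ha hb hab hk hk' hw hw' e1 e2 with h1 | h1 | h1 | h1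
  · exact ⟨h1.1, h1.2.1⟩
  · exact absurd ⟨hT, h1.2.2⟩ hx.1
  · exact absurd ⟨hT, h1.2.2⟩ hx.2.1
  · exact absurd ⟨hT, h1.2.2⟩ hx.2.1

theorem z_rowEq {M : α → α → R} {I Y : Finset α} (h : Anch M I Y) {a b : R}
    (ha : Fu a) (hb : Fu b) (hab : a ≠ b) (hT : (1 - a) * (1 - b) = 1)
    (hv : ∀ k ∈ I, ∀ w ∈ Y, M k w = 0 ∨ M k w = 1 ∨ M k w = a ∨ M k w = b)
    {k k' w0 w1 w : α} (hk : k ∈ I) (hk' : k' ∈ I) (hw0 : w0 ∈ Y) (hw1 : w1 ∈ Y) (hw : w ∈ Y)
    (e1 : M k w0 = a) (e2 : M k' w1 = b) (na : ∀ m ∈ I, M m w ≠ a) (nb : ∀ m ∈ I, M m w ≠ b) :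
    M k w = M k' w := by
  obtain ⟨c1, c2⟩ := z_cross h ha hb hab hT hk hk' hw0 hw1 e1 e2
  have v1 : M k w = 0 ∨ M k w = 1 := by
    rcases hv k hk w hw with h1 | h1 | h1 | h1
    · exact Or.inl h1
    · exact Or.inr h1
    · exact absurd h1 (na k hk)
    · exact absurd h1 (nb k hk)
  have v2 : M k' w = 0 ∨ M k' w = 1 := by
    rcases hv k' hk' w hw with h1 | h1 | h1 | h1
    · exact Or.inl h1
    · exact Or.inr h1
    · exact absurd h1 (na k' hk')
    · exact absurd h1 (nb k' hk')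
  rcases v1 with v1 | v1 <;> rcases v2 with v2 | v2
  · rw [v1, v2]
  · exfalso
    have ho := h.o22 k hk k' hk' w0 hw0 w hw
    rw [e1, v1, c2, v2] at ho
    rcases fin_a00 a ha 1 ho with h1 | h1
    · exact one_ne_zero h1
    · simp at h1
  · exfalso
    have ho := h.o22 k' hk' k hk w1 hw1 w hw
    rw [e2, v1, c1, v2] at ho
    rcases fin_a00 b hb 1 ho with h1 | h1
    · exact one_ne_zero h1
    · simp at h1
  · rw [v1, v2]

theorem z_half {M : α → α → R} {I Y : Finset α} (h : Anch M I Y) (h1 : R1 M I Y) (h2 : R2 M I Y)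
    {a b : R} (ha : Fu a) (hb : Fu b) (hab : a ≠ b) (hT : (1 - a) * (1 - b) = 1)
    (hv : ∀ k ∈ I, ∀ w ∈ Y, M k w = 0 ∨ M k w = 1 ∨ M k w = a ∨ M k w = b)
    {i i' y y' : α} (hi : i ∈ I) (hi' : i' ∈ I) (hy : y ∈ Y) (hy' : y' ∈ Y)
    (e1 : M i y = a) (e2 : M i' y' = b) :
    ∀ k ∈ I, ∀ w ∈ Y, M k w = a → k = i ∧ w = y := by
  classical
  have key := h.modl' (I' := I.filter (fun k => ∃ w ∈ Y, M k w = a))
    (Y' := Y.filter (fun w => ∃ k ∈ I, M k w = a)) ha h1 h2 (Finset.filter_subset _ _)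
    (Finset.filter_subset _ _) ?_ ?_ ?_
  · intro k hk w hw e
    exact ⟨Finset.card_le_one.1 key.1 k (Finset.mem_filter.2 ⟨hk, w, hw, e⟩) i
        (Finset.mem_filter.2 ⟨hi, y, hy, e1⟩),
      Finset.card_le_one.1 key.2 w (Finset.mem_filter.2 ⟨hw, k, hk, e⟩) y
        (Finset.mem_filter.2 ⟨hy, i, hi, e1⟩)⟩
  · intro k hk w hw
    obtain ⟨hk, w0, hw0, e0⟩ := Finset.mem_filter.1 hk
    obtain ⟨hw, -⟩ := Finset.mem_filter.1 hw
    rcases hv k hk w hw with g | g | g | g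
    · exact Or.inl g
    · exact Or.inr (Or.inl g)
    · exact Or.inr (Or.inr g)
    · exact absurd (e0.symm.trans ((h.rowF hk hw0 hw (e0 ▸ ha) (g ▸ hb)).trans g)) hab
  · intro w hw hn k hk k' hk'
    obtain ⟨hk, w0, hw0, e0⟩ := Finset.mem_filter.1 hk
    obtain ⟨hk', w1, hw1, e1'⟩ := Finset.mem_filter.1 hk'
    have na : ∀ m ∈ I, M m w ≠ a := fun m hm e => hn (Finset.mem_filter.2 ⟨hw, m, hm, e⟩)
    by_cases hb' : ∃ m ∈ I, M m w = b
    · obtain ⟨m, hm, em⟩ := hb'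
      rw [(z_cross h ha hb hab hT hk hm hw0 hw e0 em).1,
        (z_cross h ha hb hab hT hk' hm hw1 hw e1' em).1]
    · push Not at hb'
      rw [z_rowEq h ha hb hab hT hv hk hi' hw0 hy' hw e0 e2 na hb',
        z_rowEq h ha hb hab hT hv hk' hi' hw1 hy' hw e1' e2 na hb']
  · intro k hk hn w hw w' hw'
    obtain ⟨hw, k0, hk0, e0⟩ := Finset.mem_filter.1 hw
    obtain ⟨hw', k1, hk1, e1'⟩ := Finset.mem_filter.1 hw'
    have na : ∀ m ∈ Y, M k m ≠ a := fun m hm e => hn (Finset.mem_filter.2 ⟨hk, m, hm, e⟩)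
    by_cases hb' : ∃ m ∈ Y, M k m = b
    · obtain ⟨m, hm, em⟩ := hb'
      rw [(z_cross h ha hb hab hT hk0 hk hw hm e0 em).2,
        (z_cross h ha hb hab hT hk1 hk hw' hm e1' em).2]
    · push Not at hb'
      have hv' : ∀ w ∈ Y, ∀ k ∈ I, M k w = 0 ∨ M k w = 1 ∨ M k w = a ∨ M k w = b :=
        fun w hw k hk => hv k hk w hw
      have t1 := z_rowEq h.tr ha hb hab hT hv' hw hy' hk0 hi' hk e0 e2 na hb'
      have t2 := z_rowEq h.tr ha hb hab hT hv' hw' hy' hk1 hi' hk e1' e2 na hb'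
      exact t1.trans t2.symm

theorem ac_Z [DecidableEq α] {M : α → α → R} {I Y : Finset α} (h : Anch M I Y) (h1 : R1 M I Y)
    (h2 : R2 M I Y) (hr : ∀ i ∈ I, ∃ y ∈ Y, ∃ y' ∈ Y, M i y ≠ M i y')
    (hc : ∀ y ∈ Y, ∃ i ∈ I, ∃ i' ∈ I, M i y ≠ M i' y)
    {a b : R} (ha : Fu a) (hb : Fu b) (hab : a ≠ b) (hT : (1 - a) * (1 - b) = 1)
    (hv : ∀ k ∈ I, ∀ w ∈ Y, M k w = 0 ∨ M k w = 1 ∨ M k w = a ∨ M k w = b)
    {i i' y y' : α} (hi : i ∈ I) (hi' : i' ∈ I) (hy : y ∈ Y) (hy' : y' ∈ Y)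
    (hii : i ≠ i') (hyy : y ≠ y')
    (e1 : M i y = a) (e2 : M i' y' = b) : I = {i, i'} ∧ Y = {y, y'} := by
  have hv2 : ∀ k ∈ I, ∀ w ∈ Y, M k w = 0 ∨ M k w = 1 ∨ M k w = b ∨ M k w = a := by
    intro k hk w hw
    rcases hv k hk w hw with g | g | g | g <;> simp [g]
  have ua := z_half h h1 h2 ha hb hab hT hv hi hi' hy hy' e1 e2
  have ub := z_half h h1 h2 hb ha hab.symm (by rw [mul_comm]; exact hT) hv2 hi' hi hy' hy e2 e1
  have gr : ∀ w ∈ Y, w ≠ y → w ≠ y' → M i w = M i' w := fun w hw n1 n2 =>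
    z_rowEq h ha hb hab hT hv hi hi' hy hy' hw e1 e2 (fun m hm e => n1 (ua m hm w hw e).2)
      (fun m hm e => n2 (ub m hm w hw e).2)
  have gc : ∀ k ∈ I, k ≠ i → k ≠ i' → M k y = M k y' := fun k hk n1 n2 =>
    z_rowEq h.tr ha hb hab hT (fun w hw k hk => hv k hk w hw) hy hy' hi hi' hk e1 e2
      (fun m hm e => n1 (ua k hk m hm e).1) (fun m hm e => n2 (ub k hk m hm e).1)
  have fromY : (∀ w ∈ Y, w = y ∨ w = y') → ∀ k ∈ I, k = i ∨ k = i' := by
    intro hY k hk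
    by_contra hn
    push Not at hn
    obtain ⟨w, hw, w', hw', hne⟩ := hr k hk
    have := gc k hk hn.1 hn.2
    rcases hY w hw with rfl | rfl <;> rcases hY w' hw' with rfl | rfl <;> simp_all
  have fromI : (∀ k ∈ I, k = i ∨ k = i') → ∀ w ∈ Y, w = y ∨ w = y' := by
    intro hI w hw
    by_contra hn
    push Not at hn
    obtain ⟨k, hk, k', hk', hne⟩ := hc w hw
    have := gr w hw hn.1 hn.2
    rcases hI k hk with rfl | rfl <;> rcases hI k' hk' with rfl | rfl <;> simp_all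
  have fin : (∀ w ∈ Y, w = y ∨ w = y') ∧ (∀ k ∈ I, k = i ∨ k = i') := by
    have hsf := (h.mono (Finset.erase_subset i' I) (Finset.erase_subset y' Y)).sf ha
      (fun k hk w hw => by
        obtain ⟨n1, hk⟩ := Finset.mem_erase.1 hk
        obtain ⟨-, hw⟩ := Finset.mem_erase.1 hw
        rcases hv k hk w hw with g | g | g | g
        · exact Or.inl g
        · exact Or.inr (Or.inl g)
        · exact Or.inr (Or.inr g)
        · exact absurd (ub k hk w hw g).1 n1) ⟨i, Finset.mem_erase.2 ⟨hii, hi⟩⟩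
    have hyE : y ∈ Y.erase y' := Finset.mem_erase.2 ⟨hyy, hy⟩
    have hiE : i ∈ I.erase i' := Finset.mem_erase.2 ⟨hii, hi⟩
    rcases hsf with ⟨k, hk, hcst⟩ | ⟨w, hw, hcst⟩
    · obtain ⟨n1, hk⟩ := Finset.mem_erase.1 hk
      by_cases hki : k = i
      · subst hki
        have hY : ∀ w ∈ Y, w = y ∨ w = y' := by
          intro w hw
          by_cases hwy : w = y'
          · exact Or.inr hwy
          · exact Or.inl (ua k hk w hw
              ((hcst w (Finset.mem_erase.2 ⟨hwy, hw⟩) y hyE).trans e1)).2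
        exact ⟨hY, fromY hY⟩
      · exfalso
        obtain ⟨w, hw, w', hw', hne⟩ := hr k hk
        have g := gc k hk hki n1
        have : ∀ m ∈ Y, M k m = M k y := by
          intro m hm
          by_cases hm' : m = y'
          · rw [hm', g]
          · exact hcst m (Finset.mem_erase.2 ⟨hm', hm⟩) y hyE
        exact hne ((this w hw).trans (this w' hw').symm)
    · obtain ⟨n1, hw⟩ := Finset.mem_erase.1 hw
      by_cases hwy : w = y
      · subst hwy
        have hI : ∀ k ∈ I, k = i ∨ k = i' := by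
          intro k hk
          by_cases hki : k = i'
          · exact Or.inr hki
          · exact Or.inl (ua k hk w hw
              ((hcst k (Finset.mem_erase.2 ⟨hki, hk⟩) i hiE).trans e1)).1
        exact ⟨fromI hI, hI⟩
      · exfalso
        obtain ⟨k, hk, k', hk', hne⟩ := hc w hw
        have g := gr w hw hwy n1
        have : ∀ m ∈ I, M m w = M i w := by
          intro m hm
          by_cases hm' : m = i'
          · rw [hm', g]
          · exact hcst m (Finset.mem_erase.2 ⟨hm', hm⟩) i hiE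
        exact hne ((this k hk).trans (this k' hk').symm)
  constructor
  · ext k
    simp only [Finset.mem_insert, Finset.mem_singleton]
    exact ⟨fin.2 k, by rintro (rfl | rfl) <;> assumption⟩
  · ext k
    simp only [Finset.mem_insert, Finset.mem_singleton]
    exact ⟨fin.1 k, by rintro (rfl | rfl) <;> assumption⟩

theorem t_cross0 {M : α → α → R} {I Y : Finset α} (h : Anch M I Y) {a b : R}
    (ha : Fu a) (hb : Fu b) (hab : a ≠ b) (hT : a + b = 1) {k k' w w' : α}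
    (hk : k ∈ I) (hk' : k' ∈ I) (hw : w ∈ Y) (hw' : w' ∈ Y)
    (e1 : M k w = a) (e2 : M k' w' = b) :
    (M k w' = 0 ∧ M k' w = 1) ∨ (M k w' = 1 ∧ M k' w = 0) := by
  have hx := fin_excl a ha b hb
  rcases h.two ha hb hab hk hk' hw hw' e1 e2 with h1 | h1 | h1 | h1
  · exact absurd ⟨h1.2.2, hT⟩ hx.2.1
  · exact absurd ⟨h1.2.2, hT⟩ hx.2.2
  · exact Or.inl ⟨h1.1, h1.2.1⟩
  · exact Or.inr ⟨h1.1, h1.2.1⟩

theorem t_cross {M : α → α → R} {I Y : Finset α} (h : Anch M I Y) {a b : R}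
    (ha : Fu a) (hb : Fu b) (hab : a ≠ b) (hT : a + b = 1) {i i' y y' : α}
    (hi : i ∈ I) (hi' : i' ∈ I) (hy : y ∈ Y) (hy' : y' ∈ Y)
    (e1 : M i y = a) (e2 : M i' y' = b) (c1 : M i y' = 0) (c2 : M i' y = 1) :
    ∀ k ∈ I, ∀ w ∈ Y, M k w = a → ∀ k' ∈ I, ∀ w' ∈ Y, M k' w' = b →
      M k w' = 0 ∧ M k' w = 1 := by
  have s2 : ∀ k' ∈ I, ∀ w' ∈ Y, M k' w' = b → M i w' = 0 ∧ M k' y = 1 := by
    intro k' hk' w' hw' e
    have ho := h.o22 k' hk' i' hi' w' hw' y' hy'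
    rw [e, e2] at ho
    rcases fin_chainF b hb _ (h.av hk' hy') _ (h.av hi' hw') ho with g | g
    · have g1 := t_cross0 h ha hb hab hT hi hk' hy hy' e1 g
      have g2 := t_cross0 h ha hb hab hT hi hk' hy hw' e1 e
      simp_all
    · have g1 := t_cross0 h ha hb hab hT hi hi' hy hw' e1 g
      have g2 := t_cross0 h ha hb hab hT hi hk' hy hw' e1 e
      simp_all
  intro k hk w hw e k' hk' w' hw' e'
  obtain ⟨d1, d2⟩ := s2 k' hk' w' hw' e'
  have ho := h.o22 k hk i hi w hw y hy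
  rw [e, e1] at ho
  rcases fin_chainF a ha _ (h.av hk hy) _ (h.av hi hw) ho with g | g
  · have g1 := t_cross0 h ha hb hab hT hk hk' hy hw' g e'
    have g2 := t_cross0 h ha hb hab hT hk hk' hw hw' e e'
    simp_all
  · have g1 := t_cross0 h ha hb hab hT hi hk' hw hw' g e'
    have g2 := t_cross0 h ha hb hab hT hk hk' hw hw' e e'
    simp_all

theorem t_half {M : α → α → R} {I Y : Finset α} (h : Anch M I Y) (h1 : R1 M I Y) (h2 : R2 M I Y)
    {a b : R} (ha : Fu a) (hb : Fu b) (hab : a ≠ b) (hT : a + b = 1)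
    (hv : ∀ k ∈ I, ∀ w ∈ Y, M k w = 0 ∨ M k w = 1 ∨ M k w = a ∨ M k w = b)
    {i i' y y' : α} (hi : i ∈ I) (hi' : i' ∈ I) (hy : y ∈ Y) (hy' : y' ∈ Y)
    (e1 : M i y = a) (e2 : M i' y' = b) (c1 : M i y' = 0) (c2 : M i' y = 1) :
    (∀ k ∈ I, k ≠ i → M k y = 1) ∧ (∀ w ∈ Y, w ≠ y → M i w = 0) ∧
      ∀ k ∈ I, ∀ w ∈ Y, M k w = a → k = i := by
  classical
  have cr := t_cross h ha hb hab hT hi hi' hy hy' e1 e2 c1 c2
  have hx := fin_excl a ha b hb
  have a0 := fu_ne_zero a ha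
  have a1 := fu_ne_one a ha
  set Ia := I.filter (fun k => ∃ w ∈ Y, (∃ m ∈ I, M m w = a) ∧ M k w ≠ 1) with hIa
  set Ya := Y.filter (fun w => ∃ k ∈ I, (∃ m ∈ Y, M k m = a) ∧ M k w ≠ 0) with hYa
  have cl1 : ∀ k ∈ Ia, ∀ w ∈ Y, w ∉ Ya → M k w = 0 := by
    intro k hk w hw hn
    obtain ⟨hk, w0, hw0, ⟨k0, hk0, e0⟩, n1⟩ := Finset.mem_filter.1 hk
    have hz : ∀ m ∈ I, (∃ m' ∈ Y, M m m' = a) → M m w = 0 := by
      intro m hm hm'
      by_contra hne
      exact hn (Finset.mem_filter.2 ⟨hw, m, hm, hm', hne⟩)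
    rcases hv k hk w0 hw0 with g | g | g | g
    · have ho := h.o22 k0 hk0 k hk w0 hw0 w hw
      rw [e0, hz k0 hk0 ⟨w0, hw0, e0⟩, g] at ho
      rcases fin_a00 a ha _ ho with g1 | g1
      · exact g1
      · rcases hv k hk w hw with g2 | g2 | g2 | g2
        · exact g2
        · rw [g2] at g1; simp at g1
        · exact hz k hk ⟨w, hw, g2⟩
        · rw [g2] at g1; exact absurd ⟨g1, hT⟩ hx.2.1
    · exact absurd g n1
    · exact hz k hk ⟨w0, hw0, g⟩
    · exact absurd (e0.symm.trans ((h.colF hk0 hk hw0 (e0 ▸ ha) (g ▸ hb)).trans g)) hab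
  have cl2 : ∀ w ∈ Ya, ∀ k ∈ I, k ∉ Ia → M k w = 1 := by
    intro w hw k hk hn
    obtain ⟨hw, k0, hk0, ⟨w0, hw0, e0⟩, n1⟩ := Finset.mem_filter.1 hw
    have hz : ∀ m ∈ Y, (∃ m' ∈ I, M m' m = a) → M k m = 1 := by
      intro m hm hm'
      by_contra hne
      exact hn (Finset.mem_filter.2 ⟨hk, m, hm, hm', hne⟩)
    rcases hv k0 hk0 w hw with g | g | g | g
    · exact absurd g n1
    · have ho := h.o22 k0 hk0 k hk w0 hw0 w hw
      rw [e0, hz w0 hw0 ⟨k0, hk0, e0⟩, g] at ho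
      rcases fin_a11 a ha _ ho with g1 | g1
      · exact g1
      · rcases hv k hk w hw with g2 | g2 | g2 | g2
        · rw [g2] at g1; simp at g1
        · exact g2
        · exact hz w hw ⟨k, hk, g2⟩
        · rw [g2] at g1; exact absurd ⟨g1, hT⟩ hx.2.2
    · exact hz w hw ⟨k0, hk0, g⟩
    · exact absurd (e0.symm.trans ((h.rowF hk0 hw0 hw (e0 ▸ ha) (g ▸ hb)).trans g)) hab
  have key := h.modl' (I' := Ia) (Y' := Ya) ha h1 h2 (Finset.filter_subset _ _)
    (Finset.filter_subset _ _) ?_ ?_ ?_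
  · have hiI : i ∈ Ia := Finset.mem_filter.2 ⟨hi, y, hy, ⟨i, hi, e1⟩, by rw [e1]; exact a1⟩
    have hyY : y ∈ Ya := Finset.mem_filter.2 ⟨hy, i, hi, ⟨y, hy, e1⟩, by rw [e1]; exact a0⟩
    refine ⟨fun k hk hne => ?_, fun w hw hne => ?_, fun k hk w hw e => ?_⟩
    · exact cl2 y hyY k hk (fun hk' => hne (Finset.card_le_one.1 key.1 k hk' i hiI))
    · exact cl1 i hiI w hw (fun hw' => hne (Finset.card_le_one.1 key.2 w hw' y hyY))
    · exact Finset.card_le_one.1 key.1 k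
        (Finset.mem_filter.2 ⟨hk, w, hw, ⟨k, hk, e⟩, by rw [e]; exact a1⟩) i hiI
  · intro k hk w hw
    obtain ⟨hk, w0, hw0, ⟨k0, hk0, e0⟩, n1⟩ := Finset.mem_filter.1 hk
    obtain ⟨hw, -⟩ := Finset.mem_filter.1 hw
    rcases hv k hk w hw with g | g | g | g
    · exact Or.inl g
    · exact Or.inr (Or.inl g)
    · exact Or.inr (Or.inr g)
    · exact absurd (cr k0 hk0 w0 hw0 e0 k hk w hw g).2 n1
  · intro w hw hn k hk k' hk'
    rw [cl1 k hk w hw hn, cl1 k' hk' w hw hn]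
  · intro k hk hn w hw w' hw'
    rw [cl2 w hw k hk hn, cl2 w' hw' k hk hn]

theorem ac_T [DecidableEq α] {M : α → α → R} {I Y : Finset α} (h : Anch M I Y) (h1 : R1 M I Y)
    (h2 : R2 M I Y)
    {a b : R} (ha : Fu a) (hb : Fu b) (hab : a ≠ b) (hT : a + b = 1)
    (hv : ∀ k ∈ I, ∀ w ∈ Y, M k w = 0 ∨ M k w = 1 ∨ M k w = a ∨ M k w = b)
    {i i' y y' : α} (hi : i ∈ I) (hi' : i' ∈ I) (hy : y ∈ Y) (hy' : y' ∈ Y)
    (hii : i ≠ i') (hyy : y ≠ y')
    (e1 : M i y = a) (e2 : M i' y' = b) (c1 : M i y' = 0) (c2 : M i' y = 1) :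
    I = {i, i'} ∧ Y = {y, y'} := by
  obtain ⟨p1, p2, p3⟩ := t_half h h1 h2 ha hb hab hT hv hi hi' hy hy' e1 e2 c1 c2
  have eb : 1 - b = a := by rw [← hT]; ring
  have ea : 1 - a = b := by rw [← hT]; ring
  obtain ⟨q1, q2, q3⟩ := t_half h.one_sub h1.one_sub h2.one_sub ha hb hab hT
    (fun k hk w hw => by
      rcases hv k hk w hw with g | g | g | g <;> simp [g, ea, eb])
    hi' hi hy' hy (by simp [e2, eb]) (by simp [e1, ea]) (by simp [c2]) (by simp [c1])
  have q1' : ∀ k ∈ I, k ≠ i' → M k y' = 0 := fun k hk hne => by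
    have := q1 k hk hne
    simpa using this
  have q2' : ∀ w ∈ Y, w ≠ y' → M i' w = 1 := fun w hw hne => by
    have := q2 w hw hne
    exact (sub_eq_zero.1 this).symm
  have q3' : ∀ k ∈ I, ∀ w ∈ Y, M k w = b → k = i' := fun k hk w hw e =>
    q3 k hk w hw (by simp [e, eb])
  have key := h.modl' (I' := (I.erase i).erase i') (Y' := (Y.erase y).erase y') ha h1 h2
    ((Finset.erase_subset _ _).trans (Finset.erase_subset _ _))
    ((Finset.erase_subset _ _).trans (Finset.erase_subset _ _)) ?_ ?_ ?_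
  · have hI : ∀ k ∈ I, k = i ∨ k = i' := by
      intro k hk
      by_contra hn
      push Not at hn
      obtain ⟨w, hw, hw0, hw1⟩ := h1 k hk i hi hn.1 y
      obtain ⟨w', hw', hw0', hw1'⟩ := h1 k hk i' hi' hn.2 y'
      have n1 : w ≠ y' := by
        rintro rfl
        exact hw1 ((q1' k hk hn.2).trans c1.symm)
      have n2 : w' ≠ y := by
        rintro rfl
        exact hw1' ((p1 k hk hn.1).trans c2.symm)
      have := Finset.card_le_one.1 key.2 w (by simp [hw, hw0, n1]) w' (by simp [hw', hw0', n2])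
      subst this
      rw [p2 w hw hw0] at hw1
      rw [q2' w hw n1] at hw1'
      rcases hv k hk w hw with g | g | g | g
      · exact hw1 g
      · exact hw1' g
      · exact hn.1 (p3 k hk w hw g)
      · exact hn.2 (q3' k hk w hw g)
    have hY : ∀ w ∈ Y, w = y ∨ w = y' := by
      intro w hw
      by_contra hn
      push Not at hn
      obtain ⟨k, hk, hk0, hk1⟩ := h2 w hw y hy hn.1 i
      rcases hI k hk with rfl | rfl
      · exact hk0 rfl
      · exact hk1 ((q2' w hw hn.2).trans c2.symm)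
    constructor
    · ext k
      simp only [Finset.mem_insert, Finset.mem_singleton]
      exact ⟨hI k, by rintro (rfl | rfl) <;> assumption⟩
    · ext k
      simp only [Finset.mem_insert, Finset.mem_singleton]
      exact ⟨hY k, by rintro (rfl | rfl) <;> assumption⟩
  · intro k hk w hw
    simp only [Finset.mem_erase] at hk hw
    rcases hv k hk.2.2 w hw.2.2 with g | g | g | g
    · exact Or.inl g
    · exact Or.inr (Or.inl g)
    · exact Or.inr (Or.inr g)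
    · exact absurd (q3' k hk.2.2 w hw.2.2 g) hk.1
  · intro w hw hn k hk k' hk'
    simp only [Finset.mem_erase] at hk hk' hn
    by_cases hwy : w = y
    · subst hwy
      rw [p1 k hk.2.2 hk.2.1, p1 k' hk'.2.2 hk'.2.1]
    · have : w = y' := by
        by_contra h'
        exact hn ⟨h', hwy, hw⟩
      subst this
      rw [q1' k hk.2.2 hk.1, q1' k' hk'.2.2 hk'.1]
  · intro k hk hn w hw w' hw'
    simp only [Finset.mem_erase] at hw hw' hn
    by_cases hki : k = i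
    · subst hki
      rw [p2 w hw.2.2 hw.2.1, p2 w' hw'.2.2 hw'.2.1]
    · have : k = i' := by
        by_contra h'
        exact hn ⟨h', hki, hk⟩
      subst this
      rw [q2' w hw.2.2 hw.1, q2' w' hw'.2.2 hw'.1]

/-- classification of robust anchored matrices without constant lines -/
theorem Anch.ac [DecidableEq α] {M : α → α → R} {I Y : Finset α} (h : Anch M I Y)
    (h1 : R1 M I Y) (h2 : R2 M I Y) (hI : I.Nonempty)
    (hr : ∀ i ∈ I, ∃ y ∈ Y, ∃ y' ∈ Y, M i y ≠ M i y')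
    (hc : ∀ y ∈ Y, ∃ i ∈ I, ∃ i' ∈ I, M i y ≠ M i' y) :
    ∃ i i' y y', i ≠ i' ∧ y ≠ y' ∧ I = {i, i'} ∧ Y = {y, y'} ∧ Fu (M i y) ∧ Fu (M i' y') ∧
      M i y ≠ M i' y' := by
  have hex : ∃ i ∈ I, ∃ y ∈ Y, ∃ i' ∈ I, ∃ y' ∈ Y, Fu (M i y) ∧ Fu (M i' y') ∧
      M i y ≠ M i' y' := by
    by_contra hcon
    push Not at hcon
    have : ∃ f, Fu f ∧ ∀ i ∈ I, ∀ y ∈ Y, In3 f (M i y) := by
      by_cases hF : ∃ i ∈ I, ∃ y ∈ Y, Fu (M i y)
      · obtain ⟨i, hi, y, hy, hf⟩ := hF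
        refine ⟨M i y, hf, fun k hk w hw => ?_⟩
        rcases (av_iff _).1 (h.av hk hw) with g | g | g
        · exact Or.inl g
        · exact Or.inr (Or.inl g)
        · exact Or.inr (Or.inr (hcon k hk w hw i hi y hy g hf))
      · push Not at hF
        obtain ⟨f, hf⟩ := fu_ex
        refine ⟨f, hf, fun k hk w hw => ?_⟩
        rcases (av_iff _).1 (h.av hk hw) with g | g | g
        · exact Or.inl g
        · exact Or.inr (Or.inl g)
        · exact absurd g (hF k hk w hw)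
    obtain ⟨f, hf, h3⟩ := this
    rcases h.sf hf h3 hI with ⟨i, hi, hcst⟩ | ⟨y, hy, hcst⟩
    · obtain ⟨y, hy, y', hy', hne⟩ := hr i hi
      exact hne (hcst y hy y' hy')
    · obtain ⟨i, hi, i', hi', hne⟩ := hc y hy
      exact hne (hcst i hi i' hi')
  obtain ⟨i, hi, y, hy, i', hi', y', hy', ha, hb, hab⟩ := hex
  have hii : i ≠ i' := by
    rintro rfl
    exact hab (h.rowF hi hy hy' ha hb)
  have hyy : y ≠ y' := by
    rintro rfl
    exact hab (h.colF hi hi' hy ha hb)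
  have tr : ∀ k ∈ I, ∀ w ∈ Y, ∀ k' ∈ I, ∀ w' ∈ Y, Fu (M k w) → Fu (M k' w') →
      M k w ≠ M k' w' → Tr (M k w) (M k' w') := by
    intro k hk w hw k' hk' w' hw' f1 f2 hne
    rcases h.two f1 f2 hne hk hk' hw hw' rfl rfl with g | g | g | g
    · exact Or.inl g.2.2
    · exact Or.inr (Or.inl g.2.2)
    · exact Or.inr (Or.inr g.2.2)
    · exact Or.inr (Or.inr g.2.2)
  have hv : ∀ k ∈ I, ∀ w ∈ Y, M k w = 0 ∨ M k w = 1 ∨ M k w = M i y ∨ M k w = M i' y' := by
    intro k hk w hw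
    rcases (av_iff _).1 (h.av hk hw) with g | g | g
    · exact Or.inl g
    · exact Or.inr (Or.inl g)
    · by_contra hn
      push Not at hn
      exact fin_threeF _ ha _ hb hab (tr i hi y hy i' hi' y' hy' ha hb hab) _ g hn.2.2.1.symm
        hn.2.2.2.symm (tr i hi y hy k hk w hw ha g hn.2.2.1.symm)
        (tr i' hi' y' hy' k hk w hw hb g hn.2.2.2.symm)
  have main : I = {i, i'} ∧ Y = {y, y'} := by
    rcases h.two ha hb hab hi hi' hy hy' rfl rfl with g | g | g | g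
    · exact ac_Z h h1 h2 hr hc ha hb hab g.2.2 hv hi hi' hy hy' hii hyy rfl rfl
    · refine ac_Z (a := 1 - M i y) (b := 1 - M i' y') h.one_sub h1.one_sub h2.one_sub ?_ ?_
        ((fu_one_sub _).2 ha) ((fu_one_sub _).2 hb) (fun e => hab (sub_right_injective e))
        (by rw [← g.2.2]; ring) ?_ hi hi' hy hy' hii hyy rfl rfl
      · intro k hk
        obtain ⟨w, hw, w', hw', hne⟩ := hr k hk
        exact ⟨w, hw, w', hw', fun e => hne (sub_right_injective e)⟩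
      · intro w hw
        obtain ⟨k, hk, k', hk', hne⟩ := hc w hw
        exact ⟨k, hk, k', hk', fun e => hne (sub_right_injective e)⟩
      · intro k hk w hw
        rcases hv k hk w hw with g | g | g | g <;> simp [g]
    · exact ac_T h h1 h2 ha hb hab g.2.2 hv hi hi' hy hy' hii hyy rfl rfl g.1 g.2.1
    · have := ac_T h h1 h2 hb ha hab.symm (by rw [add_comm]; exact g.2.2)
        (fun k hk w hw => by rcases hv k hk w hw with g | g | g | g <;> simp [g])
        hi' hi hy' hy hii.symm hyy.symm rfl rfl g.2.1 g.1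
      exact ⟨this.1.trans (Finset.pair_comm _ _), this.2.trans (Finset.pair_comm _ _)⟩
  exact ⟨i, i', y, y', hii, hyy, main.1, main.2, ha, hb, hab⟩

end Pool.Agent.NearReg
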