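import Pool.Agent.Lib.MP_da0a56_lc.PV

/-! Two columns differing in exactly two rows: the two-valued case. -/

set_option autoImplicit false

namespace Pool.Agent.NearReg
open R

variable {α : Type*}

def NC (Q : α → α → R) (L : Finset α) (y : α) : Prop := ∃ c ∈ L, ∃ c' ∈ L, Q c y ≠ Q c' y

theorem NC.mono {Q : α → α → R} {L L' : Finset α} {y : α} (h : NC Q L y) (hL : L ⊆ L') :
    NC Q L' y := by
  obtain ⟨c, hc, c', hc', hne⟩ := h
  exact ⟨c, hL hc, c', hL hc', hne⟩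

theorem NC.not_const {Q : α → α → R} {L : Finset α} {y : α} (h : NC Q L y) (t : R)
    (ht : ∀ c ∈ L, Q c y = t) : False := by
  obtain ⟨c, hc, c', hc', hne⟩ := h
  exact hne ((ht c hc).trans (ht c' hc').symm)

theorem NC.ex_ne {Q : α → α → R} {L : Finset α} {y : α} (h : NC Q L y) (t : R) :
    ∃ c ∈ L, Q c y ≠ t := by
  by_contra hn
  push Not at hn
  exact h.not_const t hn

theorem NC.sep {Q : α → α → R} {L : Finset α} {y y' : α} (h : NC Q L y) (h' : NC Q L y') :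
    ∃ c ∈ L, ∃ c' ∈ L, Q c y ≠ Q c' y ∧ Q c y' ≠ Q c' y' := by
  obtain ⟨a, ha, b, hb, hab⟩ := h
  by_cases e : Q a y' = Q b y'
  · obtain ⟨c, hc, hne⟩ := h'.ex_ne (Q a y')
    by_cases e2 : Q c y = Q a y
    · exact ⟨c, hc, b, hb, by rw [e2]; exact hab, by rw [← e]; exact hne⟩
    · exact ⟨c, hc, a, ha, e2, hne⟩
  · exact ⟨a, ha, b, hb, hab, e⟩

structure NQ (Q : α → α → R) (C D I : Finset α) (i0 i1 x j : α) (p : R) : Prop
    extends NV Q C D I i0 i1 x j p where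
  rr : RobR Q C D
  rc : RobC Q C D
  hC : ∀ c ∈ C, c = i0 ∨ c = i1 ∨ c ∈ I
  n01 : i0 ≠ i1
  card : 1 < I.card

namespace NQ
variable {Q : α → α → R} {C D I : Finset α} {i0 i1 x j : α} {p : R}

theorem modq (h : NQ Q C D I i0 i1 x j p) {L : Finset α} (hL : L ⊆ I) (h2 : 1 < L.card) {f : R}
    (hf : Fu f) (H2 : ∀ c ∈ L, ∀ y ∈ D, NC Q L y → In3 f (Q c y))
    (H1 : ∀ c ∈ I, c ∉ L → ∀ y ∈ D, ∀ y' ∈ D, NC Q L y → NC Q L y' → Q c y = Q c y')
    (Hg : ∀ y ∈ D, ∀ y' ∈ D, NC Q L y → NC Q L y' → Q i1 y = Q i1 y') : False := by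
  classical
  have := (h.anch.mono hL (Finset.filter_subset (NC Q L) D)).modl hf
    (fun c hc y hy => H2 c hc y (Finset.mem_filter.1 hy).1 (Finset.mem_filter.1 hy).2) ?_ ?_
  · omega
  · intro c hc c' hc' hne y0
    obtain ⟨d, hd, n1, n2⟩ := h.rr.row2 (h.hI (hL hc)) (h.hI (hL hc')) hne y0
    exact ⟨d, Finset.mem_filter.2 ⟨hd, c, hc, c', hc', n2⟩, n1, n2⟩
  · intro y hy y' hy' hne c0
    obtain ⟨hy, ny⟩ := Finset.mem_filter.1 hy
    obtain ⟨hy', ny'⟩ := Finset.mem_filter.1 hy'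
    obtain ⟨c, hc, n1, n2⟩ := h.rc.col2 hy hy' hne c0
    refine ⟨c, ?_, n1, n2⟩
    by_contra hn
    rcases h.hC c hc with rfl | rfl | hI
    · exact n2 (by rw [h.z0, h.z0])
    · exact n2 (Hg y hy y' hy' ny ny')
    · exact n2 (H1 c hI hn y hy y' hy' ny ny')

/-- two columns with the same entry in row i1 differ in two rows of I -/
theorem two_rows (h : NQ Q C D I i0 i1 x j p) {y y' : α} (hy : y ∈ D) (hy' : y' ∈ D)
    (hne : y ≠ y') (e : Q i1 y = Q i1 y') {L : Finset α}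
    (hL : ∀ c ∈ I, Q c y ≠ Q c y' → c ∈ L) : 1 < L.card := by
  have aux : ∀ c0, ∃ c ∈ L, c ≠ c0 := by
    intro c0
    obtain ⟨c, hc, n1, n2⟩ := h.rc.col2 hy hy' hne c0
    rcases h.hC c hc with rfl | rfl | hI
    · exact absurd (by rw [h.z0, h.z0]) n2
    · exact absurd e n2
    · exact ⟨c, hL c hI n2, n1⟩
  obtain ⟨c, hc, -⟩ := aux i0
  obtain ⟨c', hc', n⟩ := aux c
  exact Finset.one_lt_card.2 ⟨c, hc, c', hc', n.symm⟩

theorem alpha (h : NQ Q C D I i0 i1 x j 0) : False := by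
  classical
  have hnc : ∀ y ∈ D, Q i1 y ≠ 0 → NC Q I y := by
    intro y hy hg
    by_contra hn
    obtain ⟨c0, hc0⟩ : I.Nonempty := Finset.card_pos.1 (by have := h.card; omega)
    have hs : ∀ c ∈ I, Q c y = Q c0 y := by
      intro c hc
      by_contra hne
      exact hn ⟨c, hc, c0, hc0, hne⟩
    have nx : y ≠ x := by
      rintro rfl
      exact hg (h.zx _)
    have nj : y ≠ j := by
      rintro rfl
      exact hg h.pj
    rcases fin_al0 _ _ (h.v1 hc0 hy) with g | g | g | g | g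
    · obtain ⟨c, hc, n1, n2⟩ := h.rc.col2 hy h.hx nx i1
      rcases h.hC c hc with rfl | rfl | hI
      · exact n2 (by rw [h.z0, h.z0])
      · exact n1 rfl
      · exact n2 (by rw [hs c hI, g, h.zx])
    · obtain ⟨c, hc, n1, n2⟩ := h.rc.col2 hy h.hj nj i1
      rcases h.hC c hc with rfl | rfl | hI
      · exact n2 (by rw [h.z0, h.z0])
      · exact n1 rfl
      · exact n2 (by rw [hs c hI, g, h.oj c hI])
    · obtain ⟨c, hc, c', hc', n1, n2, n3⟩ := h.rc y hy x h.hx nx i0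
      have a : ∀ c ∈ C, c ≠ i0 → Q c y = Q i1 y := by
        intro c hc n
        rcases h.hC c hc with rfl | rfl | hI
        · exact absurd rfl n
        · rfl
        · rw [hs c hI, g]
      exact n3 (by simp [sd, h.zx, a c hc n1, a c' hc' n2])
    · obtain ⟨c, hc, c', hc', n1, n2, n3⟩ := h.rc y hy j h.hj nj i0
      have a : ∀ c ∈ C, c ≠ i0 → Q c y - Q c j = Q i1 y := by
        intro c hc n
        rcases h.hC c hc with rfl | rfl | hI
        · exact absurd rfl n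
        · rw [h.pj, sub_zero]
        · rw [hs c hI, h.oj c hI, g]
      apply n3
      have e1 := a c hc n1
      have e2 := a c' hc' n2
      simp only [sd]
      linear_combination e1 - e2
    · exact hg g
  obtain ⟨y0, hy0, -, g0⟩ := h.rr.row2 h.hi1 h.hi0 h.n01.symm x
  obtain ⟨y1, hy1, n01, g1⟩ := h.rr.row2 h.hi1 h.hi0 h.n01.symm y0
  rw [h.z0] at g0 g1
  have Tl : ∀ y ∈ D, Q i1 y ≠ 0 → ∀ y' ∈ D, Q i1 y' ≠ 0 → ∀ c ∈ I, ∀ c' ∈ I, Q c y ≠ Q c' y →
      Q c y' ≠ Q c' y' → Q i1 y = Q i1 y' ∧ Q c y = Q c y' ∧ Q c' y = Q c' y' :=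
    fun y hy g y' hy' g' c hc c' hc' n n' =>
      fin_T _ g _ _ n (h.vc hc hc' hy) _ g' _ _ n' (h.vc hc hc' hy') (h.v4 hc hc' hy hy')
  have two : ∀ y ∈ D, Q i1 y ≠ 0 → ∀ a ∈ I, ∀ b ∈ I, Q a y ≠ Q b y → ∀ c ∈ I,
      Q c y = Q a y ∨ Q c y = Q b y := by
    intro y hy g a ha b hb hab c hc
    by_cases e : Q a y = Q c y
    · exact Or.inl e.symm
    · exact Or.inr (fin_2val _ g _ _ hab (h.vc ha hb hy) _ e (h.vc ha hc hy)).symm
  obtain ⟨c0, hc0, c0', hc0', hl⟩ := hnc y0 hy0 g0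
  set hh := Q c0 y0 with hhh
  set ll := Q c0' y0 with hll
  have vals : ∀ y ∈ D, Q i1 y ≠ 0 → Q i1 y = Q i1 y0 ∧ ∀ c ∈ I, Q c y = hh ∨ Q c y = ll := by
    intro y hy g
    obtain ⟨a, ha, b, hb, n1, n2⟩ := (hnc y hy g).sep (hnc y0 hy0 g0)
    obtain ⟨e1, e2, e3⟩ := Tl y hy g y0 hy0 g0 a ha b hb n1 n2
    refine ⟨e1, fun c hc => ?_⟩
    rcases two y hy g a ha b hb n1 c hc with e | e
    · rw [e, e2]; exact two y0 hy0 g0 c0 hc0 c0' hc0' hl a ha
    · rw [e, e3]; exact two y0 hy0 g0 c0 hc0 c0' hc0' hl b hb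
  set T : α → Finset α := fun y => I.filter (fun c => Q c y = hh) with hT
  have mT : ∀ y c, c ∈ T y ↔ c ∈ I ∧ Q c y = hh := fun y c => Finset.mem_filter
  have nest : ∀ y ∈ D, Q i1 y ≠ 0 → ∀ y' ∈ D, Q i1 y' ≠ 0 → T y ⊆ T y' ∨ T y' ⊆ T y := by
    intro y hy g y' hy' g'
    by_contra hn
    push Not at hn
    obtain ⟨a, ha, na⟩ := Finset.not_subset.1 hn.1
    obtain ⟨b, hb, nb⟩ := Finset.not_subset.1 hn.2
    rw [mT] at ha hb na nb
    have n1 : Q a y' ≠ hh := fun e => na ⟨ha.1, e⟩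
    have n2 : Q b y ≠ hh := fun e => nb ⟨hb.1, e⟩
    have := Tl y hy g y' hy' g' a ha.1 b hb.1 (by rw [ha.2]; exact n2.symm) (by rw [hb.2]; exact n1)
    exact n1 (this.2.1.symm.trans ha.2)
  have vc1 : Vc 0 (Q i1 y0) hh ll := h.vc hc0 hc0' hy0
  have vc2 : Vc 0 (Q i1 y0) ll hh := h.vc hc0' hc0 hy0
  obtain ⟨κ, f, hf, hκ⟩ := fin_al2 _ g0 _ _ hl vc1
  obtain ⟨κ', f', -, hκ'⟩ := fin_al2 _ g0 _ _ hl.symm vc2
  have main : ∀ n : ℕ, ∀ y ∈ D, Q i1 y ≠ 0 → ∀ y' ∈ D, Q i1 y' ≠ 0 → y ≠ y' → T y ⊆ T y' →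
      (T y' \ T y).card = n → False := by
    intro n
    induction n using Nat.strong_induction_on with
    | _ n ih =>
      intro y hy g y' hy' g' hne hsub hn
      set L := T y' \ T y with hLdef
      have mL : ∀ c, c ∈ L ↔ c ∈ I ∧ Q c y' = hh ∧ Q c y ≠ hh := by
        intro c
        rw [hLdef, Finset.mem_sdiff, mT, mT]
        tauto
      have hLI : L ⊆ I := fun c hc => ((mL c).1 hc).1
      have Ly : ∀ c ∈ L, Q c y = ll := fun c hc =>
        ((vals y hy g).2 c (hLI hc)).resolve_left ((mL c).1 hc).2.2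
      have hcard : 1 < L.card := by
        refine h.two_rows hy hy' hne ((vals y hy g).1.trans (vals y' hy' g').1.symm) ?_
        intro c hc n
        rw [mL]
        have n1 : Q c y ≠ hh := fun e => n (e.trans ((mT _ _).1 (hsub ((mT _ _).2 ⟨hc, e⟩))).2.symm)
        refine ⟨hc, ?_, n1⟩
        rcases (vals y' hy' g').2 c hc with e | e
        · exact e
        · exact absurd ((((vals y hy g).2 c hc).resolve_left n1).trans e.symm) n
      have hz : ∀ w ∈ D, NC Q L w → Q i1 w = 0 := by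
        intro w hw nw
        by_contra gw
        obtain ⟨c2, hc2, n2⟩ := nw.ex_ne hh
        obtain ⟨c1, hc1, n1⟩ := nw.ex_ne ll
        have e1 : Q c1 w = hh := ((vals w hw gw).2 c1 (hLI hc1)).resolve_right n1
        have s1 : T w ⊆ T y' := by
          rcases nest w hw gw y' hy' g' with s | s
          · exact s
          · exact absurd ((mT _ _).1 (s ((mT _ _).2 ⟨hLI hc2, ((mL _).1 hc2).2.1⟩))).2 n2
        have s2 : T y ⊆ T w := by
          rcases nest w hw gw y hy g with s | s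
          · exact absurd ((mT _ _).1 (s ((mT _ _).2 ⟨hLI hc1, e1⟩))).2 ((mL _).1 hc1).2.2
          · exact s
        refine ih (T y' \ T w).card ?_ w hw gw y' hy' g' ?_ s1 rfl
        · rw [← hn]
          apply Finset.card_lt_card
          rw [Finset.ssubset_iff_of_subset (Finset.sdiff_subset_sdiff (subset_refl _) s2)]
          exact ⟨c1, hc1, fun hh' => (Finset.mem_sdiff.1 hh').2 ((mT _ _).2 ⟨hLI hc1, e1⟩)⟩
        · rintro rfl
          exact n2 ((mL _).1 hc2).2.1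
      obtain ⟨ch, hch, nch⟩ := (hnc y hy g).ex_ne ll
      have ech : Q ch y = hh := ((vals y hy g).2 ch hch).resolve_right nch
      refine h.modq hLI hcard hf ?_ ?_ ?_
      · intro c hc w hw nw
        have v := h.v4 hch (hLI hc) hy hw
        rw [(vals y hy g).1, hz w hw nw, ech, Ly c hc] at v
        exact (hκ _ _ v).1
      · intro c hc hcL
        by_cases e : Q c y = hh
        · have aux : ∀ w ∈ D, NC Q L w → Q c w = κ := by
            intro w hw nw
            obtain ⟨c1, hc1, c2, hc2, n12⟩ := nw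
            have v := h.v4 hc (hLI hc1) hy hw
            have v' := h.v4 hc (hLI hc2) hy hw
            rw [(vals y hy g).1, hz w hw ⟨c1, hc1, c2, hc2, n12⟩, e, Ly _ hc1] at v
            rw [(vals y hy g).1, hz w hw ⟨c1, hc1, c2, hc2, n12⟩, e, Ly _ hc2] at v'
            exact (hκ _ _ v).2 _ n12 v'
          intro w hw w' hw' nw nw'
          rw [aux w hw nw, aux w' hw' nw']
        · have e' : Q c y' = ll := by
            rcases (vals y' hy' g').2 c hc with e1 | e1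
            · exact absurd ((mL c).2 ⟨hc, e1, e⟩) hcL
            · exact e1
          have aux : ∀ w ∈ D, NC Q L w → Q c w = κ' := by
            intro w hw nw
            obtain ⟨c1, hc1, c2, hc2, n12⟩ := nw
            have v := h.v4 hc (hLI hc1) hy' hw
            have v' := h.v4 hc (hLI hc2) hy' hw
            rw [(vals y' hy' g').1, hz w hw ⟨c1, hc1, c2, hc2, n12⟩, e', ((mL _).1 hc1).2.1] at v
            rw [(vals y' hy' g').1, hz w hw ⟨c1, hc1, c2, hc2, n12⟩, e', ((mL _).1 hc2).2.1] at v'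
            exact (hκ' _ _ v).2 _ n12 v'
          intro w hw w' hw' nw nw'
          rw [aux w hw nw, aux w' hw' nw']
      · intro w hw w' hw' nw nw'
        rw [hz w hw nw, hz w' hw' nw']
  rcases nest y0 hy0 g0 y1 hy1 g1 with s | s
  · exact main _ y0 hy0 g0 y1 hy1 g1 n01.symm s rfl
  · exact main _ y1 hy1 g1 y0 hy0 g0 n01 s rfl

end NQ

end Pool.Agent.NearReg
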