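import Pool.Agent.Lib.MP_da0a56_lc.Ring

/-! Anchored matrices: entries in {0, 1, fundamental}. -/

set_option autoImplicit false

namespace Pool.Agent.NearReg
open R

def O22 (a b c d : R) : Prop :=
  Av a ∧ Av b ∧ Av c ∧ Av d ∧ Ok (a - b) ∧ Ok (c - d) ∧ Ok (a - c) ∧ Ok (b - d) ∧
    Ok (a * d - b * c) ∧ Ok (b + c - a - d) ∧ Ok ((a - 1) * (d - 1) - (b - 1) * (c - 1))

instance (a b c d : R) : Decidable (O22 a b c d) := by unfold O22; infer_instance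

def In3 (f x : R) : Prop := x = 0 ∨ x = 1 ∨ x = f

instance (f x : R) : Decidable (In3 f x) := by unfold In3; infer_instance

theorem fin_chain : ∀ f : R, Fu f → ∀ a, In3 f a → ∀ b, In3 f b → ∀ c, In3 f c →
    O22 a b c a → b = a ∨ c = a := by decide +kernel

theorem fin_other : ∀ f : R, Fu f → ∀ t, In3 f t → ∀ s, In3 f s → s ≠ t → ∀ a, In3 f a → a ≠ t →
    ∀ b, In3 f b → b ≠ t → a ≠ b → a = s ∨ b = s := by decide +kernel

theorem fin_tripod : ∀ f : R, Fu f → ∀ g0, In3 f g0 → g0 ≠ 0 → ∀ g1, In3 f g1 → g1 ≠ 1 →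
    ∀ g2, In3 f g2 → g2 ≠ f → O22 g0 0 1 g1 → O22 g0 0 f g2 → O22 g1 1 f g2 →
    ¬ Ok ((g1 - 1 - 0 + g0) * (g2 - f - 0 + g0) - (1 - 1 - 0 + g0) * (f - f - 0 + g0)) := by
  decide +kernel

theorem fin_twoF : ∀ a : R, Fu a → ∀ b, Fu b → a ≠ b → ∀ s, Av s → ∀ t, Av t → O22 a s t b →
    (s = 0 ∧ t = 0 ∧ (1 - a) * (1 - b) = 1) ∨ (s = 1 ∧ t = 1 ∧ a * b = 1) ∨
      (s = 0 ∧ t = 1 ∧ a + b = 1) ∨ (s = 1 ∧ t = 0 ∧ a + b = 1) := by decide +kernel

def Tr (a b : R) : Prop := (1 - a) * (1 - b) = 1 ∨ a * b = 1 ∨ a + b = 1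

instance (a b : R) : Decidable (Tr a b) := by unfold Tr; infer_instance

theorem fin_threeF : ∀ a : R, Fu a → ∀ b, Fu b → a ≠ b → Tr a b → ∀ c, Fu c → a ≠ c → b ≠ c →
    Tr a c → ¬ Tr b c := by decide +kernel

theorem fin_excl : ∀ a : R, Fu a → ∀ b, Fu b →
    ¬ ((1 - a) * (1 - b) = 1 ∧ a * b = 1) ∧ ¬ ((1 - a) * (1 - b) = 1 ∧ a + b = 1) ∧
      ¬ (a * b = 1 ∧ a + b = 1) := by decide +kernel

theorem fin_a00 : ∀ a : R, Fu a → ∀ m, O22 a 0 0 m → m = 0 ∨ (1 - a) * (1 - m) = 1 := by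
  decide +kernel

theorem fin_a11 : ∀ a : R, Fu a → ∀ m, O22 a 1 1 m → m = 1 ∨ a * m = 1 := by
  decide +kernel

theorem O22.swapc {a b c d : R} (h : O22 a b c d) : O22 b a d c := by
  obtain ⟨h1, h2, h3, h4, h5, h6, h7, h8, h9, h10, h11⟩ := h
  refine ⟨h2, h1, h4, h3, ?_, ?_, h8, h7, ?_, ?_, ?_⟩
  · exact ok_congr h5.neg (by ring)
  · exact ok_congr h6.neg (by ring)
  · exact ok_congr h9.neg (by ring)
  · exact ok_congr h10.neg (by ring)
  · exact ok_congr h11.neg (by ring)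

theorem O22.tr {a b c d : R} (h : O22 a b c d) : O22 a c b d := by
  obtain ⟨h1, h2, h3, h4, h5, h6, h7, h8, h9, h10, h11⟩ := h
  refine ⟨h1, h3, h2, h4, h7, h8, h5, h6, ?_, ?_, ?_⟩
  · exact ok_congr h9 (by ring)
  · exact ok_congr h10 (by ring)
  · exact ok_congr h11 (by ring)

theorem av_one_sub : ∀ a : R, Av a → Av (1 - a) := by decide +kernel

theorem O22.one_sub {a b c d : R} (h : O22 a b c d) :
    O22 (1 - a) (1 - b) (1 - c) (1 - d) := by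
  obtain ⟨h1, h2, h3, h4, h5, h6, h7, h8, h9, h10, h11⟩ := h
  refine ⟨av_one_sub _ h1, av_one_sub _ h2, av_one_sub _ h3, av_one_sub _ h4, ?_, ?_, ?_, ?_,
    ?_, ?_, ?_⟩
  · exact ok_congr h5.neg (by ring)
  · exact ok_congr h6.neg (by ring)
  · exact ok_congr h7.neg (by ring)
  · exact ok_congr h8.neg (by ring)
  · exact ok_congr h11 (by ring)
  · exact ok_congr h10.neg (by ring)
  · exact ok_congr h9 (by ring)

variable {α : Type*}

/-- second difference -/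
def sd (M : α → α → R) (c0 d0 c d : α) : R := M c d - M c d0 - M c0 d + M c0 d0

structure Anch (M : α → α → R) (I Y : Finset α) : Prop where
  o22 : ∀ i ∈ I, ∀ i' ∈ I, ∀ y ∈ Y, ∀ y' ∈ Y, O22 (M i y) (M i y') (M i' y) (M i' y')
  d2 : ∀ c0 ∈ I, ∀ c1 ∈ I, ∀ c2 ∈ I, ∀ d0 ∈ Y, ∀ d1 ∈ Y, ∀ d2 ∈ Y,
    Ok (sd M c0 d0 c1 d1 * sd M c0 d0 c2 d2 - sd M c0 d0 c1 d2 * sd M c0 d0 c2 d1)

theorem Anch.mono {M : α → α → R} {I Y I' Y' : Finset α} (h : Anch M I Y) (hI : I' ⊆ I)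
    (hY : Y' ⊆ Y) : Anch M I' Y' :=
  ⟨fun i hi i' hi' y hy y' hy' => h.o22 i (hI hi) i' (hI hi') y (hY hy) y' (hY hy'),
   fun c0 h0 c1 h1 c2 h2 d0 g0 d1 g1 d2 g2 =>
    h.d2 c0 (hI h0) c1 (hI h1) c2 (hI h2) d0 (hY g0) d1 (hY g1) d2 (hY g2)⟩

theorem Anch.tr {M : α → α → R} {I Y : Finset α} (h : Anch M I Y) :
    Anch (fun a b => M b a) Y I :=
  ⟨fun y hy y' hy' i hi i' hi' => (h.o22 i hi i' hi' y hy y' hy').tr,
   fun d0 g0 d1 g1 d2 g2 c0 h0 c1 h1 c2 h2 =>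
    ok_congr (h.d2 c0 h0 c1 h1 c2 h2 d0 g0 d1 g1 d2 g2) (by simp only [sd]; ring)⟩

theorem Anch.one_sub {M : α → α → R} {I Y : Finset α} (h : Anch M I Y) :
    Anch (fun a b => 1 - M a b) I Y :=
  ⟨fun i hi i' hi' y hy y' hy' => (h.o22 i hi i' hi' y hy y' hy').one_sub,
   fun c0 h0 c1 h1 c2 h2 d0 g0 d1 g1 d2 g2 =>
    ok_congr (h.d2 c0 h0 c1 h1 c2 h2 d0 g0 d1 g1 d2 g2) (by simp only [sd]; ring)⟩

theorem Anch.av {M : α → α → R} {I Y : Finset α} (h : Anch M I Y) {i y : α} (hi : i ∈ I)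
    (hy : y ∈ Y) : Av (M i y) := (h.o22 i hi i hi y hy y hy).1

theorem Anch.rowF {M : α → α → R} {I Y : Finset α} (h : Anch M I Y) {i y y' : α} (hi : i ∈ I)
    (hy : y ∈ Y) (hy' : y' ∈ Y) (h1 : Fu (M i y)) (h2 : Fu (M i y')) : M i y = M i y' :=
  fu_eq _ _ h1 h2 (h.o22 i hi i hi y hy y' hy').2.2.2.2.1

theorem Anch.colF {M : α → α → R} {I Y : Finset α} (h : Anch M I Y) {i i' y : α} (hi : i ∈ I)
    (hi' : i' ∈ I) (hy : y ∈ Y) (h1 : Fu (M i y)) (h2 : Fu (M i' y)) : M i y = M i' y :=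
  fu_eq _ _ h1 h2 (h.o22 i hi i' hi' y hy y hy).2.2.2.2.2.2.1

/-- An anchored matrix with at most one fundamental value has a constant line. -/
theorem Anch.sf {M : α → α → R} {I Y : Finset α} (h : Anch M I Y) {f : R} (hf : Fu f)
    (h3 : ∀ i ∈ I, ∀ y ∈ Y, In3 f (M i y)) (hI : I.Nonempty) :
    (∃ i ∈ I, ∀ y ∈ Y, ∀ y' ∈ Y, M i y = M i y') ∨
      (∃ y ∈ Y, ∀ i ∈ I, ∀ i' ∈ I, M i y = M i' y) := by
  classical
  by_contra hcon
  push Not at hcon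
  obtain ⟨hr, hc⟩ := hcon
  have hmax : ∀ t : R, ∃ it ∈ I, ∀ i ∈ I, ∀ y ∈ Y, M i y = t → M it y = t := by
    intro t
    obtain ⟨it, hit, hm⟩ := Finset.exists_max_image I
      (fun i => (Y.filter (fun y => M i y = t)).card) hI
    refine ⟨it, hit, fun i hi y hy hiy => ?_⟩
    by_contra hne
    have hsub : Y.filter (fun y => M it y = t) ⊂ Y.filter (fun y => M i y = t) := by
      rw [Finset.ssubset_iff_of_subset]
      · exact ⟨y, by simp [hy, hiy], by simp [hne]⟩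
      · intro y' hy'
        rw [Finset.mem_filter] at hy' ⊢
        refine ⟨hy'.1, ?_⟩
        have ho := h.o22 i hi it hit y hy y' hy'.1
        rw [hy'.2, ← hiy] at ho
        rcases fin_chain f hf _ (h3 i hi y hy) _ (h3 i hi y' hy'.1) _ (h3 it hit y hy) ho with
          h1 | h1
        · rw [h1, hiy]
        · exact absurd (h1.trans hiy) hne
    exact absurd (hm i hi) (not_le.2 (Finset.card_lt_card hsub))
  choose it hit hm using hmax
  have hw : ∀ t : R, ∃ w ∈ Y, M (it t) w ≠ t := by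
    intro t
    obtain ⟨y, hy, y', hy', hne⟩ := hr (it t) (hit t)
    by_cases h1 : M (it t) y = t
    · exact ⟨y', hy', fun h2 => hne (h1.trans h2.symm)⟩
    · exact ⟨y, hy, h1⟩
  choose w hw hw' using hw
  have hent : ∀ t s : R, In3 f t → In3 f s → s ≠ t → M (it s) (w t) = s := by
    intro t s ht hs hst
    obtain ⟨i, hi, i', hi', hne⟩ := hc (w t) (hw t)
    have hn : ∀ k ∈ I, M k (w t) ≠ t := fun k hk hk' => hw' t (hm t k hk _ (hw t) hk')
    rcases fin_other f hf t ht s hs hst _ (h3 i hi _ (hw t)) (hn i hi) _ (h3 i' hi' _ (hw t))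
      (hn i' hi') hne with h1 | h1
    · exact hm s i hi _ (hw t) h1
    · exact hm s i' hi' _ (hw t) h1
  have i0 : In3 f 0 := Or.inl rfl
  have i1 : In3 f 1 := Or.inr (Or.inl rfl)
  have i2 : In3 f f := Or.inr (Or.inr rfl)
  have n01 : (0 : R) ≠ 1 := zero_ne_one
  have n0f : (0 : R) ≠ f := (fu_ne_zero f hf).symm
  have n1f : (1 : R) ≠ f := (fu_ne_one f hf).symm
  have e01 := hent 1 0 i1 i0 n01
  have e02 := hent f 0 i2 i0 n0f
  have e10 := hent 0 1 i0 i1 n01.symm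
  have e12 := hent f 1 i2 i1 n1f
  have e20 := hent 0 f i0 i2 n0f.symm
  have e21 := hent 1 f i1 i2 n1f.symm
  have a1 := h.o22 _ (hit 0) _ (hit 1) _ (hw 0) _ (hw 1)
  have a2 := h.o22 _ (hit 0) _ (hit f) _ (hw 0) _ (hw f)
  have a3 := h.o22 _ (hit 1) _ (hit f) _ (hw 1) _ (hw f)
  have a4 := h.d2 _ (hit 0) _ (hit 1) _ (hit f) _ (hw 0) _ (hw 1) _ (hw f)
  simp only [sd] at a4
  rw [e01, e10] at a1
  rw [e02, e20] at a2
  rw [e12, e21] at a3
  rw [e01, e02, e10, e12, e20, e21] at a4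
  exact fin_tripod f hf _ (h3 _ (hit 0) _ (hw 0)) (hw' 0) _ (h3 _ (hit 1) _ (hw 1)) (hw' 1) _
    (h3 _ (hit f) _ (hw f)) (hw' f) a1 a2 a3 a4

/-- distinct rows differ in at least two columns -/
def R1 (M : α → α → R) (I Y : Finset α) : Prop :=
  ∀ i ∈ I, ∀ i' ∈ I, i ≠ i' → ∀ y0, ∃ y ∈ Y, y ≠ y0 ∧ M i y ≠ M i' y

/-- distinct columns differ in at least two rows -/
def R2 (M : α → α → R) (I Y : Finset α) : Prop :=
  ∀ y ∈ Y, ∀ y' ∈ Y, y ≠ y' → ∀ i0, ∃ i ∈ I, i ≠ i0 ∧ M i y ≠ M i y'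

theorem modl_aux (M : α → α → R) {f : R} (hf : Fu f) : ∀ (n : ℕ) (I Y : Finset α),
    I.card + Y.card = n → Anch M I Y → (∀ i ∈ I, ∀ y ∈ Y, In3 f (M i y)) → R1 M I Y →
    R2 M I Y → I.card ≤ 1 ∧ Y.card ≤ 1 := by
  classical
  intro n
  induction n using Nat.strong_induction_on with
  | _ n ih =>
    intro I Y hn hA h3 h1 h2
    have hIY : 1 < I.card → 1 < Y.card := by
      intro hI
      obtain ⟨i, hi, i', hi', hne⟩ := Finset.one_lt_card.1 hI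
      obtain ⟨y, hy, -, -⟩ := h1 i hi i' hi' hne i
      obtain ⟨y', hy', hyy, -⟩ := h1 i hi i' hi' hne y
      exact Finset.one_lt_card.2 ⟨y, hy, y', hy', hyy.symm⟩
    have hYI : 1 < Y.card → 1 < I.card := by
      intro hY
      obtain ⟨y, hy, y', hy', hne⟩ := Finset.one_lt_card.1 hY
      obtain ⟨i, hi, -, -⟩ := h2 y hy y' hy' hne y
      obtain ⟨i', hi', hii, -⟩ := h2 y hy y' hy' hne i
      exact Finset.one_lt_card.2 ⟨i, hi, i', hi', hii.symm⟩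
    by_contra hcon
    have hI : 1 < I.card := by
      by_contra h
      exact hcon ⟨not_lt.1 h, not_lt.1 (fun h' => h (hYI h'))⟩
    have hY := hIY hI
    rcases hA.sf hf h3 (Finset.card_pos.1 (by omega)) with ⟨i, hi, hc⟩ | ⟨y, hy, hc⟩
    · have hcard := Finset.card_erase_of_mem hi
      have := ih ((I.erase i).card + Y.card) (by omega) (I.erase i) Y rfl
        (hA.mono (Finset.erase_subset _ _) (subset_refl _))
        (fun k hk y hy => h3 k (Finset.mem_of_mem_erase hk) y hy)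
        (fun k hk k' hk' hne y0 =>
          h1 k (Finset.mem_of_mem_erase hk) k' (Finset.mem_of_mem_erase hk') hne y0)
        (fun y hy y' hy' hne i0 => by
          obtain ⟨k, hk, hk0, hk1⟩ := h2 y hy y' hy' hne i0
          refine ⟨k, Finset.mem_erase.2 ⟨?_, hk⟩, hk0, hk1⟩
          rintro rfl
          exact hk1 (hc y hy y' hy'))
      omega
    · have hcard := Finset.card_erase_of_mem hy
      have := ih (I.card + (Y.erase y).card) (by omega) I (Y.erase y) rfl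
        (hA.mono (subset_refl _) (Finset.erase_subset _ _))
        (fun k hk w hw => h3 k hk w (Finset.mem_of_mem_erase hw))
        (fun k hk k' hk' hne y0 => by
          obtain ⟨w, hw, hw0, hw1⟩ := h1 k hk k' hk' hne y0
          refine ⟨w, Finset.mem_erase.2 ⟨?_, hw⟩, hw0, hw1⟩
          rintro rfl
          exact hw1 (hc k hk k' hk'))
        (fun w hw w' hw' hne i0 =>
          h2 w (Finset.mem_of_mem_erase hw) w' (Finset.mem_of_mem_erase hw') hne i0)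
      omega

/-- module lemma -/
theorem Anch.modl {M : α → α → R} {I Y : Finset α} (h : Anch M I Y) {f : R} (hf : Fu f)
    (h3 : ∀ i ∈ I, ∀ y ∈ Y, In3 f (M i y)) (h1 : R1 M I Y) (h2 : R2 M I Y) :
    I.card ≤ 1 ∧ Y.card ≤ 1 := modl_aux M hf _ I Y rfl h h3 h1 h2

/-- module lemma inside a robust matrix -/
theorem Anch.modl' {M : α → α → R} {I Y I' Y' : Finset α} (h : Anch M I Y) {f : R} (hf : Fu f)
    (h1 : R1 M I Y) (h2 : R2 M I Y) (hI : I' ⊆ I) (hY : Y' ⊆ Y)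
    (h3 : ∀ i ∈ I', ∀ y ∈ Y', In3 f (M i y))
    (hc : ∀ y ∈ Y, y ∉ Y' → ∀ i ∈ I', ∀ i' ∈ I', M i y = M i' y)
    (hr : ∀ i ∈ I, i ∉ I' → ∀ y ∈ Y', ∀ y' ∈ Y', M i y = M i y') :
    I'.card ≤ 1 ∧ Y'.card ≤ 1 := by
  refine (h.mono hI hY).modl hf h3 ?_ ?_
  · intro i hi i' hi' hne y0
    obtain ⟨y, hy, hy0, hy1⟩ := h1 i (hI hi) i' (hI hi') hne y0
    refine ⟨y, ?_, hy0, hy1⟩
    by_contra hn
    exact hy1 (hc y hy hn i hi i' hi')
  · intro y hy y' hy' hne i0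
    obtain ⟨i, hi, hi0, hi1⟩ := h2 y (hY hy) y' (hY hy') hne i0
    refine ⟨i, ?_, hi0, hi1⟩
    by_contra hn
    exact hi1 (hr i hi hn y hy y' hy')

end Pool.Agent.NearReg
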