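import Pool.Agent.Lib.MP_da0a56_lc.Alpha

/-! Two columns differing in exactly two rows: the three-valued case, and the weak structure
theorem for valid matrices. -/

set_option autoImplicit false

namespace Pool.Agent.NearReg
open R

variable {α : Type*}

namespace NQ
variable {Q : α → α → R} {C D I : Finset α} {i0 i1 x j : α} {p : R}

theorem bt (h : NQ Q C D I i0 i1 x j p) (hp : Fu p) {y : α} (hy : y ∈ D) {L : Finset α}
    (hL : L ⊆ I) (n : NC Q L y) : BT p (Q i1 y) := by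
  obtain ⟨c, hc, c', hc', hne⟩ := n
  exact fin_b1 p hp _ _ _ hne (h.vc (hL hc) (hL hc') hy)

theorem modt (h : NQ Q C D I i0 i1 x j p) (hp : Fu p) {L : Finset α} (hL : L ⊆ I)
    (h2 : 1 < L.card) {τ : R} (hτ : BT p τ) (Hg : ∀ y ∈ D, NC Q L y → Q i1 y = τ)
    (H1 : ∀ c ∈ I, c ∉ L → ∀ y ∈ D, ∀ y' ∈ D, NC Q L y → NC Q L y' → Q c y = Q c y') :
    False := by
  obtain ⟨f, hf, h3⟩ := fin_b1' p hp τ hτ
  refine h.modq hL h2 hf (fun c hc y hy n => ?_) H1 (fun y hy y' hy' n n' => ?_)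
  · have := h.v1 (hL hc) hy
    rw [Hg y hy n] at this
    exact h3 _ this
  · rw [Hg y hy n, Hg y' hy' n']

theorem swap (h : NQ Q C D I i0 i1 x j p) :
    NQ (fun c d => Q c j - Q c d) C D I i0 i1 j x p := by
  have e : ∀ c0 c d0 d, sd (fun c d => Q c j - Q c d) c0 d0 c d = (-1) * sd Q c0 d0 c d := by
    intro c0 c d0 d
    simp only [sd]; ring
  have u : Un (-1) := un_one.neg
  exact
    { pv := h.pv.scale u (fun c0 _ c _ d0 _ d _ => e c0 c d0 d)
      hI := h.hI
      hi0 := h.hi0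
      hi1 := h.hi1
      hx := h.hj
      hj := h.hx
      z0 := fun d => by simp [h.z0]
      zx := fun c => by simp
      oj := fun c hc => by simp [h.zx, h.oj c hc]
      pj := by simp [h.zx, h.pj]
      rr := h.rr.scale u e
      rc := h.rc.scale u e
      hC := h.hC
      n01 := h.n01
      card := h.card }

theorem beta_exc (h : NQ Q C D I i0 i1 x j p) (hp : Fu p)
    (hE : ∃ y ∈ D, Q i1 y = 0 ∧ ∃ y' ∈ D, Q i1 y' = p ∧ ∃ c ∈ I, Q c y = 1 ∧ Q c y' = p) :
    False := by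
  classical
  obtain ⟨b0, bp, b1, bd, nok, n1, n2, n3⟩ := fin_bdef p hp
  have p0 := fu_ne_zero p hp
  have p1 := fu_ne_one p hp
  have tA : BT p 0 := Or.inl rfl
  have tB : BT p p := Or.inr (Or.inl rfl)
  set E : α → Prop := fun y => y ∈ D ∧ Q i1 y = 0 ∧ ∃ y' ∈ D, Q i1 y' = p ∧
    ∃ c ∈ I, Q c y = 1 ∧ Q c y' = p with hEdef
  have b3 : ∀ y ∈ D, Q i1 y = 0 → ∀ y' ∈ D, Q i1 y' = p → ∀ c ∈ I, Q c y = 1 → Q c y' = p →
      ∀ c' ∈ I, (Q c' y = 0 ∧ Q c' y' = p) ∨ (Q c' y = 1 ∧ Q c' y' = 1) ∨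
        (Q c' y = 1 ∧ Q c' y' = p) := by
    intro y hy g y' hy' g' c hc e e' c' hc'
    have v := h.v4 hc hc' hy hy'
    rw [g, g', e, e'] at v
    exact fin_b3 p hp _ _ v
  have b2 : ∀ y ∈ D, Q i1 y = 0 → ∀ y' ∈ D, Q i1 y' = p → ∀ c ∈ I, Q c y ≠ 0 → Q c y' ≠ 1 →
      (Q c y = 1 ∧ Q c y' = p) ∨ (Q c y = 1 - p ∧ Q c y' = 0) := by
    intro y hy g y' hy' g' c hc e e'
    have v := h.v2 hc hy hy'
    rw [g, g'] at v
    rcases fin_b2 p hp 0 tA p tB p0.symm _ (by rw [b0]; exact e) _ (by rw [bp]; exact e') v with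
      k | k
    · exact k.2.2
    · exact absurd k.1 p0
  have val : ∀ y, E y → ∀ c ∈ I, Q c y = 0 ∨ Q c y = 1 := by
    rintro y ⟨hy, g, y', hy', g', c, hc, e, e'⟩ c' hc'
    rcases b3 y hy g y' hy' g' c hc e e' c' hc' with k | k | k
    · exact Or.inl k.1
    · exact Or.inr k.1
    · exact Or.inr k.1
  set T : α → Finset α := fun y => I.filter (fun c => Q c y = 0) with hT
  have mT : ∀ y c, c ∈ T y ↔ c ∈ I ∧ Q c y = 0 := fun y c => Finset.mem_filter
  have step1 : ∀ y, E y → ∀ w ∈ D, Q i1 w = 0 → ∀ c ∈ T y, Q c w ≠ 0 → E w ∧ T w ⊂ T y := by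
    intro y hy w hw g c hc n
    obtain ⟨hcI, hc0⟩ := (mT _ _).1 hc
    obtain ⟨hyD, gy, y', hy', g', c1, hc1, e, e'⟩ := hy
    have ep : Q c y' = p := by
      rcases b3 y hyD gy y' hy' g' c1 hc1 e e' c hcI with k | k | k
      · exact k.2
      · exact absurd (hc0.symm.trans k.1) zero_ne_one
      · exact k.2
    have e1 : Q c w = 1 := by
      rcases b2 w hw g y' hy' g' c hcI n (by rw [ep]; exact p1) with k | k
      · exact k.1
      · exact absurd (ep.symm.trans k.2) p0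
    refine ⟨⟨hw, g, y', hy', g', c, hcI, e1, ep⟩, ?_⟩
    rw [Finset.ssubset_iff_of_subset]
    · exact ⟨c, hc, fun k => n ((mT _ _).1 k).2⟩
    · intro c' hc'
      obtain ⟨hI', h0'⟩ := (mT _ _).1 hc'
      rw [mT]
      refine ⟨hI', ?_⟩
      rcases val y ⟨hyD, gy, y', hy', g', c1, hc1, e, e'⟩ c' hI' with k | k
      · exact k
      · exfalso
        have ho := h.anch.o22 c hcI c' hI' y hyD w hw
        rw [hc0, e1, k, h0'] at ho
        exact fin_0110 ho
  have stepB : ∀ y, E y → ∀ w ∈ D, Q i1 w = p → (∀ c ∈ I, Q c y = 1 → Q c w = 1) ∨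
      ((∀ c ∈ T y, Q c w = p) ∧ ∀ c ∈ I, Q c w ≠ 0) := by
    intro y hy w hw g
    by_cases k : ∀ c ∈ I, Q c y = 1 → Q c w = 1
    · exact Or.inl k
    · push Not at k
      obtain ⟨c, hc, e, n⟩ := k
      have ep : Q c w = p := by
        rcases b2 y hy.1 hy.2.1 w hw g c hc (by rw [e]; exact one_ne_zero) n with k | k
        · exact k.2
        · exact absurd (k.1.symm.trans e) n3
      refine Or.inr ⟨fun c' hc' => ?_, fun c' hc' => ?_⟩
      · obtain ⟨hI', h0'⟩ := (mT _ _).1 hc'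
        rcases b3 y hy.1 hy.2.1 w hw g c hc e ep c' hI' with k | k | k
        · exact k.2
        · exact absurd (h0'.symm.trans k.1) zero_ne_one
        · exact k.2
      · rcases b3 y hy.1 hy.2.1 w hw g c hc e ep c' hc' with k | k | k
        · rw [k.2]; exact p0
        · rw [k.2]; exact one_ne_zero
        · rw [k.2]; exact p0
  obtain ⟨ya, hya⟩ : ∃ y, E y := by
    obtain ⟨y, hy, g, r⟩ := hE
    exact ⟨y, hy, g, r⟩
  have AB : ∀ w ∈ D, ∀ L ⊆ I, NC Q L w → Q i1 w = 0 ∨ Q i1 w = p := by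
    intro w hw L hL n
    have tw := h.bt hp hw hL n
    by_contra hn
    push Not at hn
    obtain ⟨hyD, gy, y', hy', g', c1, hc1, e, e'⟩ := hya
    obtain ⟨c, hc, ne⟩ := n.ex_ne (bdef p (Q i1 w))
    have hcI := hL hc
    have v := h.v2 hcI hw hyD
    have v' := h.v2 hcI hw hy'
    rw [gy] at v
    rw [g'] at v'
    have k1 : Q c ya = 0 := by
      by_contra k
      rcases fin_b2 p hp _ tw 0 tA hn.1 _ ne _ (by rw [b0]; exact k) v with k | k
      · exact hn.1 k.1
      · exact hn.2 k.2.1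
    have k2 : Q c y' = 1 := by
      by_contra k
      rcases fin_b2 p hp _ tw p tB hn.2 _ ne _ (by rw [bp]; exact k) v' with k | k
      · exact hn.1 k.1
      · exact p0 k.1
    rcases b3 ya hyD gy y' hy' g' c1 hc1 e e' c hcI with k | k | k
    · exact p1 (k.2.symm.trans k2)
    · exact zero_ne_one (k1.symm.trans k.1)
    · exact zero_ne_one (k1.symm.trans k.1)
  obtain ⟨y, hyE, hmin⟩ := Finset.exists_min_image (D.filter E) (fun y => (T y).card)
    ⟨ya, Finset.mem_filter.2 ⟨hya.1, hya⟩⟩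
  have hy : E y := (Finset.mem_filter.1 hyE).2
  have hyD := hy.1
  have gy := hy.2.1
  have TI : ∀ y, T y ⊆ I := fun y => Finset.filter_subset _ _
  have A0 : ∀ w ∈ D, Q i1 w = 0 → ∀ c ∈ T y, Q c w = 0 := by
    intro w hw g c hc
    by_contra n
    obtain ⟨k1, k2⟩ := step1 y hy w hw g c hc n
    exact absurd (hmin w (Finset.mem_filter.2 ⟨hw, k1⟩)) (not_le.2 (Finset.card_lt_card k2))
  have one : ∀ y, E y → ∀ c ∈ I, c ∉ T y → Q c y = 1 := fun y hy c hc n =>
    (val y hy c hc).resolve_left (fun k => n ((mT _ _).2 ⟨hc, k⟩))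
  have hT1 : (T y).card ≤ 1 := by
    by_contra hn
    have aux : ∀ w ∈ D, NC Q (T y) w → Q i1 w = p ∧ ∀ c ∈ I, c ∉ T y → Q c w = 1 := by
      intro w hw n
      rcases AB w hw _ (TI y) n with g | g
      · exact (n.not_const 0 (A0 w hw g)).elim
      · rcases stepB y hy w hw g with k | k
        · exact ⟨g, fun c hc nc => k c hc (one y hy c hc nc)⟩
        · exact (n.not_const p k.1).elim
    exact h.modt hp (TI y) (not_le.1 hn) tB (fun w hw n => (aux w hw n).1)
      (fun c hc nc w hw w' hw' n n' => by rw [(aux w hw n).2 c hc nc, (aux w' hw' n').2 c hc nc])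
  obtain ⟨c0, hc0⟩ : (T y).Nonempty := by
    have nj : y ≠ j := by
      rintro rfl
      exact p0 (h.pj.symm.trans gy)
    obtain ⟨c, hc, k1, k2⟩ := h.rc.col2 hyD h.hj nj i1
    rcases h.hC c hc with rfl | rfl | hI
    · exact absurd (by rw [h.z0, h.z0]) k2
    · exact absurd rfl k1
    · refine ⟨c, (mT _ _).2 ⟨hI, (val y hy c hI).resolve_right ?_⟩⟩
      rw [← h.oj c hI]; exact k2
  have hTy : ∀ c ∈ T y, c = c0 := fun c hc => Finset.card_le_one.1 hT1 c hc c0 hc0
  have hc0I := TI y hc0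
  have y1 : ∀ c ∈ I, c ≠ c0 → Q c y = 1 := fun c hc n => one y hy c hc (fun k => n (hTy c k))
  have uniq : ∀ w, E w → w = y := by
    by_contra hn
    push Not at hn
    obtain ⟨wa, hwa, nwa⟩ := hn
    obtain ⟨y2, hy2E, hmin2⟩ := Finset.exists_min_image ((D.filter E).erase y)
      (fun y => (T y).card) ⟨wa, Finset.mem_erase.2 ⟨nwa, Finset.mem_filter.2 ⟨hwa.1, hwa⟩⟩⟩
    obtain ⟨ny2, hy2E⟩ := Finset.mem_erase.1 hy2E
    have hy2 : E y2 := (Finset.mem_filter.1 hy2E).2
    have hLI : (T y2).erase c0 ⊆ I := (Finset.erase_subset _ _).trans (TI y2)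
    have hcard : 1 < ((T y2).erase c0).card := by
      refine h.two_rows hy2.1 hyD ny2 (hy2.2.1.trans gy.symm) ?_
      intro c hc n
      have nc : c ≠ c0 := by
        rintro rfl
        exact n ((A0 y2 hy2.1 hy2.2.1 c hc0).trans ((mT _ _).1 hc0).2.symm)
      refine Finset.mem_erase.2 ⟨nc, (mT _ _).2 ⟨hc, (val y2 hy2 c hc).resolve_right ?_⟩⟩
      rw [← y1 c hc nc]; exact n
    have aux : ∀ w ∈ D, NC Q ((T y2).erase c0) w → Q i1 w = p ∧ Q c0 w = p ∧
        ∀ c ∈ I, c ∉ T y2 → Q c w = 1 := by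
      intro w hw n
      rcases AB w hw _ hLI n with g | g
      · exfalso
        obtain ⟨c, hc, nc⟩ := n.ex_ne 0
        obtain ⟨k1, k2⟩ := step1 y2 hy2 w hw g c (Finset.mem_of_mem_erase hc) nc
        by_cases e : w = y
        · subst e
          exact n.not_const 1 (fun c hc => y1 c (hLI hc) (Finset.mem_erase.1 hc).1)
        · exact absurd (hmin2 w (Finset.mem_erase.2 ⟨e, Finset.mem_filter.2 ⟨hw, k1⟩⟩))
            (not_le.2 (Finset.card_lt_card k2))
      · refine ⟨g, ?_, ?_⟩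
        · rcases stepB y hy w hw g with k | k
          · exact (n.not_const 1 (fun c hc =>
              k c (hLI hc) (y1 c (hLI hc) (Finset.mem_erase.1 hc).1))).elim
          · exact k.1 c0 hc0
        · rcases stepB y2 hy2 w hw g with k | k
          · exact fun c hc nc => k c hc (one y2 hy2 c hc nc)
          · exact (n.not_const p (fun c hc => k.1 c (Finset.mem_of_mem_erase hc))).elim
    refine h.modt hp hLI hcard tB (fun w hw n => (aux w hw n).1) ?_
    intro c hc nc w hw w' hw' n n'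
    by_cases e : c = c0
    · rw [e, (aux w hw n).2.1, (aux w' hw' n').2.1]
    · have : c ∉ T y2 := fun k => nc (Finset.mem_erase.2 ⟨e, k⟩)
      rw [(aux w hw n).2.2 c hc this, (aux w' hw' n').2.2 c hc this]
  set L := I.filter (fun c => ∃ w ∈ D, w ≠ y ∧ Q i1 w = 0 ∧ Q c w ≠ 0) with hLdef
  have hLI : L ⊆ I := Finset.filter_subset _ _
  have Lc0 : ∀ c ∈ L, c ≠ c0 := by
    intro c hc e
    obtain ⟨-, w, hw, -, g, n⟩ := Finset.mem_filter.1 hc
    exact n (A0 w hw g c (e ▸ hc0))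
  by_cases hL : 1 < L.card
  · have aux : ∀ w ∈ D, NC Q L w → Q i1 w = 0 ∧ w ≠ y := by
      intro w hw n
      rcases AB w hw _ hLI n with g | g
      · refine ⟨g, ?_⟩
        rintro rfl
        exact n.not_const 1 (fun c hc => y1 c (hLI hc) (Lc0 c hc))
      · exfalso
        obtain ⟨c, hc, nc⟩ := n.ex_ne 1
        obtain ⟨hcI, w0, hw0, nw0, g0, n0⟩ := Finset.mem_filter.1 hc
        rcases b2 w0 hw0 g0 w hw g c hcI n0 nc with k | k
        · exact nw0 (uniq w0 ⟨hw0, g0, w, hw, g, c, hcI, k.1, k.2⟩)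
        · rcases stepB y hy w hw g with k' | k'
          · exact nc (k' c hcI (y1 c hcI (Lc0 c hc)))
          · exact k'.2 c hcI k.2
    refine h.modt hp hLI hL tA (fun w hw n => (aux w hw n).1) ?_
    intro c hc nc w hw w' hw' n n'
    have z : ∀ w ∈ D, NC Q L w → Q c w = 0 := by
      intro w hw n
      by_contra k
      exact nc (Finset.mem_filter.2 ⟨hc, w, hw, (aux w hw n).2, (aux w hw n).1, k⟩)
    rw [z w hw n, z w' hw' n']
  · have hLI' : I.erase c0 ⊆ I := Finset.erase_subset _ _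
    have nx : y ≠ x := by
      rintro rfl
      obtain ⟨-, -, -, -, -, c, -, e, -⟩ := hy
      exact zero_ne_one ((h.zx c).symm.trans e)
    have hcard : 1 < (I.erase c0).card := by
      refine h.two_rows hyD h.hx nx (gy.trans (h.zx _).symm) ?_
      intro c hc n
      refine Finset.mem_erase.2 ⟨?_, hc⟩
      rintro rfl
      exact n (((mT _ _).1 hc0).2.trans (h.zx _).symm)
    have aux : ∀ w ∈ D, NC Q (I.erase c0) w → Q i1 w = p ∧ Q c0 w = p := by
      intro w hw n
      rcases AB w hw _ hLI' n with g | g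
      · exfalso
        by_cases e : w = y
        · subst e
          exact n.not_const 1 (fun c hc => y1 c (hLI' hc) (Finset.mem_erase.1 hc).1)
        · have nwx : w ≠ x := by
            rintro rfl
            exact n.not_const 0 (fun c _ => h.zx c)
          refine hL (h.two_rows hw h.hx nwx (g.trans (h.zx _).symm) ?_)
          intro c hc k
          exact Finset.mem_filter.2 ⟨hc, w, hw, e, g, by rw [h.zx] at k; exact k⟩
      · refine ⟨g, ?_⟩
        rcases stepB y hy w hw g with k | k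
        · exact (n.not_const 1 (fun c hc =>
            k c (hLI' hc) (y1 c (hLI' hc) (Finset.mem_erase.1 hc).1))).elim
        · exact k.1 c0 hc0
    refine h.modt hp hLI' hcard tB (fun w hw n => (aux w hw n).1) ?_
    intro c hc nc w hw w' hw' n n'
    have e : c = c0 := by
      by_contra k
      exact nc (Finset.mem_erase.2 ⟨k, hc⟩)
    rw [e, (aux w hw n).2, (aux w' hw' n').2]

theorem beta (h : NQ Q C D I i0 i1 x j p) (hp : Fu p) : False := by
  classical
  by_cases hE1 : ∃ y ∈ D, Q i1 y = 0 ∧ ∃ y' ∈ D, Q i1 y' = p ∧ ∃ c ∈ I, Q c y = 1 ∧ Q c y' = p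
  · exact h.beta_exc hp hE1
  by_cases hE2 : ∃ y ∈ D, Q i1 y = 0 ∧ ∃ y' ∈ D, Q i1 y' = p ∧
      ∃ c ∈ I, Q c y = 1 - p ∧ Q c y' = 0
  · obtain ⟨y, hy, g, y', hy', g', c, hc, e, e'⟩ := hE2
    refine h.swap.beta_exc hp ⟨y', hy', ?_, y, hy, ?_, c, hc, ?_, ?_⟩
    · simp [h.pj, g']
    · simp [h.pj, g]
    · simp [h.oj c hc, e']
    · simp [h.oj c hc, e]
  obtain ⟨b0, bp, b1, bd, nok, n1, n2, n3⟩ := fin_bdef p hp
  have disj : ∀ y ∈ D, BT p (Q i1 y) → ∀ y' ∈ D, BT p (Q i1 y') → ∀ c ∈ I,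
      Q c y ≠ bdef p (Q i1 y) → Q c y' ≠ bdef p (Q i1 y') → Q i1 y = Q i1 y' := by
    intro y hy t y' hy' t' c hc n n'
    by_contra hne
    rcases fin_b2 p hp _ t _ t' hne _ n _ n' (h.v2 hc hy hy') with
      ⟨g, g', k | k⟩ | ⟨g, g', k | k⟩
    · exact hE1 ⟨y, hy, g, y', hy', g', c, hc, k.1, k.2⟩
    · exact hE2 ⟨y, hy, g, y', hy', g', c, hc, k.1, k.2⟩
    · exact hE1 ⟨y', hy', g, y, hy, g', c, hc, k.1, k.2⟩
    · exact hE2 ⟨y', hy', g, y, hy, g', c, hc, k.1, k.2⟩
  have small : ∀ τ, BT p τ →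
      ¬ 1 < (I.filter (fun c => ∃ y ∈ D, Q i1 y = τ ∧ Q c y ≠ bdef p τ)).card := by
    intro τ hτ hL
    have hLI : I.filter (fun c => ∃ y ∈ D, Q i1 y = τ ∧ Q c y ≠ bdef p τ) ⊆ I :=
      Finset.filter_subset _ _
    have aux : ∀ w ∈ D, NC Q (I.filter (fun c => ∃ y ∈ D, Q i1 y = τ ∧ Q c y ≠ bdef p τ)) w →
        Q i1 w = τ := by
      intro w hw n
      obtain ⟨c, hc, nc⟩ := n.ex_ne (bdef p (Q i1 w))
      obtain ⟨hcI, y, hy, g, ny⟩ := Finset.mem_filter.1 hc
      rw [← g] at ny hτ ⊢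
      exact disj w hw (h.bt hp hw hLI n) y hy hτ c hcI nc ny
    refine h.modt hp hLI hL hτ aux ?_
    intro c hc nc w hw w' hw' n n'
    have z : ∀ w ∈ D, Q i1 w = τ → Q c w = bdef p τ := by
      intro w hw g
      by_contra k
      exact nc (Finset.mem_filter.2 ⟨hc, w, hw, g, k⟩)
    rw [z w hw (aux w hw n), z w' hw' (aux w' hw' n')]
  have same : ∀ y ∈ D, ∀ y' ∈ D, BT p (Q i1 y) → Q i1 y = Q i1 y' → y = y' := by
    intro y hy y' hy' t e
    by_contra hne
    refine small _ t (h.two_rows hy hy' hne e ?_)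
    intro c hc n
    by_cases k : Q c y = bdef p (Q i1 y)
    · exact Finset.mem_filter.2 ⟨hc, y', hy', e.symm, fun k' => n (k.trans k'.symm)⟩
    · exact Finset.mem_filter.2 ⟨hc, y, hy, rfl, k⟩
  obtain ⟨c, hc, c', hc', hne⟩ := Finset.one_lt_card.1 h.card
  obtain ⟨y, hy, -, ny⟩ := h.rr.row2 (h.hI hc) (h.hI hc') hne x
  obtain ⟨y', hy', nyy, ny'⟩ := h.rr.row2 (h.hI hc) (h.hI hc') hne y
  have CD : ∀ y ∈ D, Q c y ≠ Q c' y → Q i1 y = 1 ∨ Q i1 y = p - 1 := by
    intro y hy n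
    have t := h.bt hp hy (subset_refl I) ⟨c, hc, c', hc', n⟩
    rcases t with g | g | g | g
    · have := same y hy x h.hx (Or.inl g) (g.trans (h.zx _).symm)
      subst this
      exact absurd (by rw [h.zx, h.zx]) n
    · have := same y hy j h.hj (Or.inr (Or.inl g)) (g.trans h.pj.symm)
      subst this
      exact absurd (by rw [h.oj c hc, h.oj c' hc']) n
    · exact Or.inl g
    · exact Or.inr g
  have t := h.bt hp hy (subset_refl I) ⟨c, hc, c', hc', ny⟩
  have o1 := (h.v2 hc hy hy').2.2.1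
  have o2 := (h.v2 hc hy' hy).2.2.1
  rcases CD y hy ny with g | g <;> rcases CD y' hy' ny' with g' | g'
  · exact nyy (same y hy y' hy' t (g.trans g'.symm)).symm
  · rw [g, g'] at o1; exact nok o1
  · rw [g, g'] at o2; exact nok o2
  · exact nyy (same y hy y' hy' t (g.trans g'.symm)).symm

end NQ

theorem two_cols [DecidableEq α] {P : α → α → R} {C D : Finset α} (h : PV P C D)
    (rr : RobR P C D) (rc : RobC P C D) (hC : 4 ≤ C.card) {x j i0 i1 : α} (hx : x ∈ D)
    (hj : j ∈ D) (hne : j ≠ x)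
    (hc : ∀ c ∈ C, ∀ c' ∈ C, c ≠ i0 → c ≠ i1 → c' ≠ i0 → c' ≠ i1 → sd P c' x c j = 0) :
    False := by
  have key : ∀ a b, (∀ c ∈ C, ∀ c' ∈ C, c ≠ a → c ≠ b → c' ≠ a → c' ≠ b → sd P c' x c j = 0) →
      ∀ c ∈ C, c ≠ a → c ≠ b → a ∈ C ∧ a ≠ b ∧ sd P a x c j ≠ 0 := by
    intro a b hab c hcC na nb
    obtain ⟨c1, h1, c2, h2, m1, m2, m3⟩ := rc j hj x hx hne b
    have aux : ∀ d ∈ C, d ≠ b → ¬ (a ∈ C ∧ a ≠ b ∧ sd P a x c j ≠ 0) → sd P d x c j = 0 := by
      intro d hd nd hn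
      by_cases e : d = a
      · subst e
        by_contra k
        exact hn ⟨hd, nd, k⟩
      · exact hab c hcC d hd na nb e nd
    by_contra hn
    have e1 := aux c1 h1 m1 hn
    have e2 := aux c2 h2 m2 hn
    apply m3
    simp only [sd] at e1 e2 ⊢
    linear_combination e2 - e1
  set I := (C.erase i0).erase i1 with hI
  have hcard : 1 < I.card := by
    have a1 := Finset.pred_card_le_card_erase (s := C) (a := i0)
    have a2 := Finset.pred_card_le_card_erase (s := C.erase i0) (a := i1)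
    rw [hI]
    omega
  have mI : ∀ c, c ∈ I ↔ c ≠ i1 ∧ c ≠ i0 ∧ c ∈ C := by
    intro c; simp [hI]
  obtain ⟨c1, hc1⟩ : I.Nonempty := Finset.card_pos.1 (by omega)
  obtain ⟨n1, n0, hc1C⟩ := (mI c1).1 hc1
  obtain ⟨hi0, n01, s0⟩ := key i0 i1 hc c1 hc1C n0 n1
  obtain ⟨hi1, -, s1⟩ := key i1 i0 (fun c h1 c' h2 a b a' b' => hc c h1 c' h2 b a b' a') c1 hc1C
    n1 n0
  have u0 : Un (sd P i0 x c1 j) := (h.p1 i0 hi0 c1 hc1C x hx j hj).un s0
  have u1 : Un (sd P i1 x c1 j) := (h.p1 i1 hi1 c1 hc1C x hx j hj).un s1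
  set κ := ri (sd P i0 x c1 j) with hκ
  have uκ : Un κ := un_ri _ u0
  have eκ : κ * sd P i0 x c1 j = 1 := ri_mul _ u0
  have e : ∀ c0 c d0 d, sd (fun c d => κ * sd P i0 x c d) c0 d0 c d = κ * sd P c0 d0 c d := by
    intro c0 c d0 d
    simp only [sd]; ring
  have nq : NQ (fun c d => κ * sd P i0 x c d) C D I i0 i1 x j (κ * sd P i0 x i1 j) :=
    { pv := h.nrm i0 x uκ
      hI := fun c hc => ((mI c).1 hc).2.2
      hi0 := hi0
      hi1 := hi1
      hx := hx
      hj := hj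
      z0 := fun d => by simp [sd]
      zx := fun c => by simp [sd]
      oj := fun c hcI => by
        obtain ⟨m1, m0, mC⟩ := (mI c).1 hcI
        have := hc c mC c1 hc1C m0 m1 n0 n1
        rw [← eκ]
        simp only [sd] at this ⊢
        linear_combination κ * this
      pj := rfl
      rr := rr.scale uκ e
      rc := rc.scale uκ e
      hC := fun c hc => by
        rw [mI]
        by_cases a : c = i0
        · exact Or.inl a
        · by_cases b : c = i1
          · exact Or.inr (Or.inl b)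
          · exact Or.inr (Or.inr ⟨b, a, hc⟩)
      n01 := n01
      card := hcard }
  by_cases hz : κ * sd P i0 x i1 j = 0
  · rw [hz] at nq
    exact nq.alpha
  · refine nq.beta ((fu_iff _).2 ⟨(uκ.ok.mul (h.p1 i0 hi0 i1 hi1 x hx j hj)).un hz, ?_⟩)
    have : κ * sd P i0 x i1 j - 1 = -(κ * sd P i1 x c1 j) := by
      rw [← eκ]
      simp only [sd]; ring
    rw [this]
    exact (uκ.mul u1).neg

/-- a valid matrix with at least four rows and columns is not robust -/
theorem weak_sigma [DecidableEq α] {P : α → α → R} {D : Finset α} (hD : 4 ≤ D.card) :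
    ∀ (n : ℕ) (C : Finset α), C.card = n + 4 → PV P C D → RobR P C D → RobC P C D → False := by
  intro n
  induction n with
  | zero =>
    intro C hC h rr rc
    obtain ⟨c1, c2, c3, c4, n12, n13, n14, n23, n24, n34, rfl⟩ := Finset.card_eq_four.1 hC
    obtain ⟨D', hD', hc'⟩ := Finset.exists_subset_card_eq hD
    obtain ⟨d1, d2, d3, d4, m12, m13, m14, m23, m24, m34, rfl⟩ := Finset.card_eq_four.1 hc'
    have g1 : d1 ∈ D := hD' (by simp)
    have g2 : d2 ∈ D := hD' (by simp)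
    have g3 : d3 ∈ D := hD' (by simp)
    have g4 : d4 ∈ D := hD' (by simp)
    have a1 : c1 ∈ ({c1, c2, c3, c4} : Finset α) := by simp
    have a2 : c2 ∈ ({c1, c2, c3, c4} : Finset α) := by simp
    have fin : ∀ x ∈ D, ∀ j ∈ D, j ≠ x → sd P c1 x c2 j = 0 → False := by
      intro x hx j hj hne e
      refine two_cols (i0 := c3) (i1 := c4) h rr rc (by omega) hx hj hne ?_
      intro c hc c' hc' k1 k2 k3 k4
      simp only [Finset.mem_insert, Finset.mem_singleton] at hc hc'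
      simp only [sd] at e ⊢
      rcases hc with rfl | rfl | rfl | rfl <;> rcases hc' with rfl | rfl | rfl | rfl <;>
        first | exact absurd rfl k1 | exact absurd rfl k2 | exact absurd rfl k3 |
          exact absurd rfl k4 | linear_combination e | linear_combination -e | ring
    have o := h.p1 c1 a1 c2 a2
    rcases four_vals (sd P c1 d1 c2 d2) (sd P c1 d1 c2 d3) (sd P c1 d1 c2 d4) (o d1 g1 d2 g2)
      (o d1 g1 d3 g3) (o d1 g1 d4 g4) (ok_congr (o d3 g3 d2 g2) (by simp only [sd]; ring))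
      (ok_congr (o d4 g4 d2 g2) (by simp only [sd]; ring))
      (ok_congr (o d4 g4 d3 g3) (by simp only [sd]; ring)) with k | k | k | k | k | k
    · exact fin d1 g1 d2 g2 m12.symm k
    · exact fin d1 g1 d3 g3 m13.symm k
    · exact fin d1 g1 d4 g4 m14.symm k
    · exact fin d3 g3 d2 g2 m23 (by simp only [sd] at k ⊢; linear_combination k)
    · exact fin d4 g4 d2 g2 m24 (by simp only [sd] at k ⊢; linear_combination k)
    · exact fin d4 g4 d3 g3 m34 (by simp only [sd] at k ⊢; linear_combination k)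
  | succ n ih =>
    intro C hC h rr rc
    obtain ⟨c0, hc0⟩ : C.Nonempty := Finset.card_pos.1 (by omega)
    have hsub := Finset.erase_subset c0 C
    refine ih (C.erase c0) (by rw [Finset.card_erase_of_mem hc0]; omega)
      (h.mono hsub (subset_refl _)) (fun c hc c' hc' => rr c (hsub hc) c' (hsub hc')) ?_
    intro d hd d' hd' hne c1
    by_contra hn
    push Not at hn
    refine two_cols (i0 := c0) (i1 := c1) h rr rc (by omega) hd' hd hne ?_
    intro c hc c' hc' k1 k2 k3 k4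
    exact hn c (Finset.mem_erase.2 ⟨k1, hc⟩) c' (Finset.mem_erase.2 ⟨k3, hc'⟩) k2 k4

end Pool.Agent.NearReg
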