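import Pool.Agent.Lib.MP_da0a56_lc.Pair

/-! Two by two blocks of stuck pairs. -/

set_option autoImplicit false

namespace Pool.Agent.NearReg
open R

def T2 (a b c d : R) : Prop := O22 a b c d ∧ a ≠ b ∧ a ≠ c ∧ a - b = c - d

instance (a b c d : R) : Decidable (T2 a b c d) := by unfold T2; infer_instance

theorem fin_c20 : ∀ a : R, Av a → ∀ b, Av b → ∀ c, Av c → T2 a b c (c - a + b) →
    ∀ a', Av a' → ∀ b', O22 a b a' b' → O22 c (c - a + b) a' b' → ∀ c', Av c' →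
    T2 a' b' c' (c' - a' + b') → O22 a b c' (c' - a' + b') →
    O22 c (c - a + b) c' (c' - a' + b') → a - b = a' - b' := by decide +kernel

theorem T2.eq {a b c d : R} (h : T2 a b c d) : d = c - a + b := by
  linear_combination h.2.2.2

theorem fin_c2 {a b c d a' b' c' d' : R} (h : T2 a b c d) (h' : T2 a' b' c' d')
    (o1 : O22 a b a' b') (o2 : O22 c d a' b') (o3 : O22 a b c' d') (o4 : O22 c d c' d') :
    a - b = a' - b' := by
  have e := h.eq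
  have e' := h'.eq
  subst e e'
  exact fin_c20 a h.1.1 b h.1.2.1 c h.1.2.2.1 h a' h'.1.1 b' o1 o2 c' h'.1.2.2.1 h' o3 o4

set_option synthInstance.maxSize 2000 in
theorem fin_c30 : ∀ a : R, Av a → ∀ b, Av b → ∀ c, Av c → T2 a b c (c - a + b) →
    ∀ g, Av g → ∀ k, Av k → T2 g (g - k + c) k c → ∀ h, O22 a b (g - k + c) h →
    O22 c (c - a + b) (g - k + c) h → O22 g h k (c - a + b) → ∀ m, O22 m a k c →
    O22 m a g (g - k + c) → O22 m b k (c - a + b) → O22 m b g h →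
    m - k = a - c ∨ h - (c - a + b) = g - k + c - c := by decide +kernel

theorem fin_c3 {a b c d g g' k h m : R} (h1 : T2 a b c d) (h2 : T2 g g' k c)
    (o1 : O22 a b g' h) (o2 : O22 c d g' h) (o3 : O22 g h k d) (o4 : O22 m a k c)
    (o5 : O22 m a g g') (o6 : O22 m b k d) (o7 : O22 m b g h) :
    m - k = a - c ∨ h - d = g' - c := by
  have e := h1.eq
  have e' : g' = g - k + c := by linear_combination -h2.2.2.2
  subst e e'
  exact fin_c30 a h1.1.1 b h1.1.2.1 c h1.1.2.2.1 h1 g h2.1.1 k h2.1.2.2.1 h2 h o1 o2 o3 m o4 o5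
    o6 o7

theorem fin_c40 : ∀ a : R, Av a → ∀ b, Av b → ∀ c, Av c → T2 a b c (c - a + b) →
    ∀ g, O22 a b g g → O22 c (c - a + b) g g → ∀ h, O22 a b h h → O22 c (c - a + b) h h →
    ∀ k, ¬ T2 k g (k - g + h) h := by decide +kernel

theorem fin_c4 {a b c d g h k l : R} (h1 : T2 a b c d) (h2 : T2 k g l h)
    (o1 : O22 a b g g) (o2 : O22 c d g g) (o3 : O22 a b h h) (o4 : O22 c d h h) : False := by
  have e := h1.eq
  have e' : l = k - g + h := by linear_combination -h2.2.2.2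
  subst e e'
  exact fin_c40 a h1.1.1 b h1.1.2.1 c h1.1.2.2.1 h1 g o1 o2 h o3 o4 k h2

variable {α : Type*}

def Blk (P : α → α → R) (s1 s2 y1 y2 : α) : Prop :=
  P s1 y1 - P s1 y2 = P s2 y1 - P s2 y2 ∧ P s1 y1 ≠ P s1 y2 ∧ P s1 y1 ≠ P s2 y1

theorem Blk.swr {P : α → α → R} {s1 s2 y1 y2 : α} (h : Blk P s1 s2 y1 y2) :
    Blk P s2 s1 y1 y2 :=
  ⟨h.1.symm, fun q => h.2.1 (by linear_combination h.1 + q), h.2.2.symm⟩

theorem Blk.swc {P : α → α → R} {s1 s2 y1 y2 : α} (h : Blk P s1 s2 y1 y2) :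
    Blk P s1 s2 y2 y1 :=
  ⟨by linear_combination -h.1, h.2.1.symm, fun q => h.2.2 (by linear_combination h.1 + q)⟩

theorem Blk.tr {P : α → α → R} {s1 s2 y1 y2 : α} (h : Blk P s1 s2 y1 y2) :
    Blk (fun c d => P d c) y1 y2 s1 s2 :=
  ⟨by linear_combination h.1, h.2.2, h.2.1⟩

theorem Blk.scale {P : α → α → R} {s1 s2 y1 y2 : α} (h : Blk P s1 s2 y1 y2) {κ : R}
    (hκ : Un κ) : Blk (fun c d => κ * P c d) s1 s2 y1 y2 :=
  ⟨by linear_combination κ * h.1, fun q => h.2.1 (hκ.cancel q), fun q => h.2.2 (hκ.cancel q)⟩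

theorem Blk.t2 {P : α → α → R} {s1 s2 y1 y2 : α} (h : Blk P s1 s2 y1 y2) {I Y : Finset α}
    (hA : Anch P I Y) (a1 : s1 ∈ I) (a2 : s2 ∈ I) (b1 : y1 ∈ Y) (b2 : y2 ∈ Y) :
    T2 (P s1 y1) (P s1 y2) (P s2 y1) (P s2 y2) :=
  ⟨hA.o22 s1 a1 s2 a2 y1 b1 y2 b2, h.2.1, h.2.2, h.1⟩

theorem Anch.c2 {P : α → α → R} {I Y : Finset α} (hA : Anch P I Y) {s1 s2 a1 a2 y1 y2 : α}
    (m1 : s1 ∈ I) (m2 : s2 ∈ I) (m3 : a1 ∈ I) (m4 : a2 ∈ I) (b1 : y1 ∈ Y) (b2 : y2 ∈ Y)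
    (h : Blk P s1 s2 y1 y2) (h' : Blk P a1 a2 y1 y2) : P a1 y1 - P a1 y2 = P s1 y1 - P s1 y2 :=
  (fin_c2 (h.t2 hA m1 m2 b1 b2) (h'.t2 hA m3 m4 b1 b2) (hA.o22 _ m1 _ m3 _ b1 _ b2)
    (hA.o22 _ m2 _ m3 _ b1 _ b2) (hA.o22 _ m1 _ m4 _ b1 _ b2) (hA.o22 _ m2 _ m4 _ b1 _ b2)).symm

theorem Anch.c3 {P : α → α → R} {I Y : Finset α} (hA : Anch P I Y) {s1 s2 a y1 y2 b : α}
    (m1 : s1 ∈ I) (m2 : s2 ∈ I) (m3 : a ∈ I) (b1 : y1 ∈ Y) (b2 : y2 ∈ Y) (b3 : b ∈ Y)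
    (h : Blk P s1 s2 y1 y2) (h' : Blk P a s2 b y1) :
    P s1 b - P s2 b = P s1 y1 - P s2 y1 ∨ P a y2 - P s2 y2 = P a y1 - P s2 y1 :=
  fin_c3 (h.t2 hA m1 m2 b1 b2) (h'.t2 hA m3 m2 b3 b1) (hA.o22 _ m1 _ m3 _ b1 _ b2)
    (hA.o22 _ m2 _ m3 _ b1 _ b2) (hA.o22 _ m3 _ m2 _ b3 _ b2) (hA.o22 _ m1 _ m2 _ b3 _ b1)
    (hA.o22 _ m1 _ m3 _ b3 _ b1) (hA.o22 _ m1 _ m2 _ b3 _ b2) (hA.o22 _ m1 _ m3 _ b3 _ b2)

theorem Anch.c4 {P : α → α → R} {I Y : Finset α} (hA : Anch P I Y) {s1 s2 a1 a2 y1 y2 b : α}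
    (m1 : s1 ∈ I) (m2 : s2 ∈ I) (m3 : a1 ∈ I) (m4 : a2 ∈ I) (b1 : y1 ∈ Y) (b2 : y2 ∈ Y)
    (b3 : b ∈ Y) (h : Blk P s1 s2 y1 y2) (h' : Blk P a1 a2 b y1) (e1 : P a1 y2 = P a1 y1)
    (e2 : P a2 y2 = P a2 y1) : False := by
  have o1 := hA.o22 _ m1 _ m3 _ b1 _ b2
  have o2 := hA.o22 _ m2 _ m3 _ b1 _ b2
  have o3 := hA.o22 _ m1 _ m4 _ b1 _ b2
  have o4 := hA.o22 _ m2 _ m4 _ b1 _ b2
  rw [e1] at o1 o2
  rw [e2] at o3 o4
  exact fin_c4 (h.t2 hA m1 m2 b1 b2) (h'.t2 hA m3 m4 b3 b1) o1 o2 o3 o4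

/-- anchoring by a constant nonzero column -/
theorem PV.anch1 {P : α → α → R} {C D I : Finset α} (h : PV P C D) {e x j : α} (he : e ∈ C)
    (hx : x ∈ D) (hj : j ∈ D) (hI : I ⊆ C) (z0 : ∀ d, P e d = 0) (zx : ∀ c, P c x = 0) {l : R}
    (hl : Un l) (oj : ∀ c ∈ I, P c j = l) : Anch (fun c d => ri l * P c d) I D := by
  refine (h.scale (Q := fun c d => ri l * P c d) (un_ri _ hl)
    (fun c0 _ c _ d0 _ d _ => by simp only [sd]; ring)).anch he hx hj hI (subset_refl _)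
    (fun d => by simp [z0]) (fun c => by simp [zx]) (fun c hc => ?_)
  simp only [oj c hc]
  exact ri_mul _ hl

/-- two different labels -/
theorem PV.twolab [DecidableEq α] {P : α → α → R} {C D : Finset α} (h : PV P C D)
    {x j s1 s2 a1 a2 y1 y2 : α} (hx : x ∈ D) (hj : j ∈ D) (m1 : s1 ∈ C) (m2 : s2 ∈ C)
    (m3 : a1 ∈ C) (m4 : a2 ∈ C) (b1 : y1 ∈ D) (b2 : y2 ∈ D) (zx : ∀ c, P c x = 0)
    (e1 : P s2 j = P s1 j) (e2 : P a2 j = P a1 j) (n : P s1 j ≠ P a1 j)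
    (n1 : P s1 y1 ≠ P s2 y1) (n2 : P s1 y2 ≠ P s2 y2) (n3 : P a1 y1 ≠ P a2 y1)
    (n4 : P a1 y2 ≠ P a2 y2) : P a1 y1 - P a1 y2 = P s1 y1 - P s1 y2 := by
  have ul : Un (P s1 j - P a1 j) :=
    Ok.un (ok_congr (h.p1 a1 m3 s1 m1 x hx j hj) (by simp [sd, zx])) (sub_ne_zero.2 n)
  have uκ := un_ri _ ul
  set κ := ri (P s1 j - P a1 j) with hκ
  have eQ : ∀ c d, κ * sd P a1 x c d = κ * (P c d - P a1 d) := fun c d => by simp [sd, zx]
  have nv : NV (fun c d => κ * sd P a1 x c d) C D {s1, s2} a1 a2 x j 0 :=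
    { pv := h.nrm a1 x uκ
      hI := by
        intro c hc
        simp only [Finset.mem_insert, Finset.mem_singleton] at hc
        rcases hc with rfl | rfl <;> assumption
      hi0 := m3
      hi1 := m4
      hx := hx
      hj := hj
      z0 := fun d => by simp [sd]
      zx := fun c => by simp [sd]
      oj := fun c hc => by
        simp only [Finset.mem_insert, Finset.mem_singleton] at hc
        rw [eQ]
        rcases hc with rfl | rfl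
        · exact ri_mul _ ul
        · rw [e1]; exact ri_mul _ ul
      pj := by rw [eQ, e2, sub_self, mul_zero] }
  have i1 : s1 ∈ ({s1, s2} : Finset α) := by simp
  have i2 : s2 ∈ ({s1, s2} : Finset α) := by simp
  have key := fin_T _ (by
      rw [eQ]
      exact fun q => n3 (sub_eq_zero.1 (uκ.mul_eq_zero q)).symm) _ _ (by
      rw [eQ, eQ]
      exact fun q => n1 (by linear_combination uκ.cancel q)) (nv.vc i1 i2 b1) _ (by
      rw [eQ]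
      exact fun q => n4 (sub_eq_zero.1 (uκ.mul_eq_zero q)).symm) _ _ (by
      rw [eQ, eQ]
      exact fun q => n2 (by linear_combination uκ.cancel q)) (nv.vc i1 i2 b2) (nv.v4 i1 i2 b1 b2)
  have := key.2.1
  rw [eQ, eQ] at this
  linear_combination -uκ.cancel this

theorem SP.blk [DecidableEq α] {P : α → α → R} {s1 s2 y1 y2 : α} {u v : α → R}
    (h : SP P {s1, s2} {y1, y2} u v 1 1) (n : s1 ≠ s2) (n' : y1 ≠ y2) :
    Blk P s1 s2 y1 y2 ∧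
    (∀ a, ∑ y ∈ ({y1, y2} : Finset α), u y * P a y ≠ 1 → P a y1 - P a y2 ≠ P s1 y1 - P s1 y2) ∧
    (∀ b, ∑ i ∈ ({s1, s2} : Finset α), v i * P i b ≠ 1 → P s1 b - P s2 b ≠ P s1 y1 - P s2 y1) := by
  have su := h.su
  have sv := h.sv
  have p1 := h.pu s1 (by simp)
  have p2 := h.pu s2 (by simp)
  have q1 := h.vp y1 (by simp)
  rw [Finset.sum_pair n'] at su p1 p2
  rw [Finset.sum_pair n] at sv q1
  have u1 := h.uu y1 (by simp)
  refine ⟨⟨u1.cancel ?_, fun q => ?_, fun q => ?_⟩, fun a ha q => ha ?_, fun b hb q => hb ?_⟩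
  · linear_combination p1 - p2 - (P s1 y2 - P s2 y2) * su
  · rw [q] at p1
    exact zero_ne_one (by linear_combination p1 - P s1 y2 * su)
  · rw [q] at q1
    exact zero_ne_one (by linear_combination q1 - P s2 y1 * sv)
  · rw [Finset.sum_pair n']
    linear_combination p1 + u y1 * q + (P a y2 - P s1 y2) * su
  · rw [Finset.sum_pair n]
    linear_combination q1 + v s1 * q + (P s2 b - P s2 y1) * sv

end Pool.Agent.NearReg
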