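import Pool.Agent.Lib.MP_da0a56_lc.Kappa

/-! A polynomial set of rank values determines the rank function. -/

set_option autoImplicit false

namespace Pool.Agent.NearReg
open R

structure RF {α : Type*} [DecidableEq α] (r : Finset α → ℕ) : Prop where
  emp : r ∅ = 0
  mono : ∀ X Y, X ⊆ Y → r X ≤ r Y
  ins : ∀ a X, r (insert a X) ≤ r X + 1
  sub : ∀ X Y, r (X ∪ Y) + r (X ∩ Y) ≤ r X + r Y

namespace RF
variable {α : Type*} [DecidableEq α] {r : Finset α → ℕ}

theorem union_le (h : RF r) (X Z : Finset α) : r (X ∪ Z) ≤ r X + Z.card := by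
  induction Z using Finset.induction_on with
  | empty => simp
  | insert a Z ha ih =>
    rw [Finset.union_insert, Finset.card_insert_of_notMem ha]
    have := h.ins a (X ∪ Z)
    omega

theorem le_card (h : RF r) (X : Finset α) : r X ≤ X.card := by
  have := h.union_le ∅ X
  rwa [Finset.empty_union, h.emp, zero_add] at this

theorem ind_sub (h : RF r) {B C : Finset α} (hB : r B = B.card) (hC : C ⊆ B) : r C = C.card := by
  have a := h.union_le C (B \ C)
  rw [Finset.union_sdiff_of_subset hC, Finset.card_sdiff_of_subset hC] at a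
  have b := h.le_card C
  have c := Finset.card_le_card hC
  omega

theorem dim (h : RF r) {X Y : Finset α} (hXY : X ⊆ Y) (a : α) :
    r (insert a Y) + r X ≤ r Y + r (insert a X) := by
  have s := h.sub Y (insert a X)
  rw [Finset.union_insert, Finset.union_eq_left.2 hXY] at s
  have m := h.mono X (Y ∩ insert a X) (Finset.subset_inter hXY (Finset.subset_insert _ _))
  omega

theorem ext (h : RF r) {X Y : Finset α} (hXY : X ⊆ Y) (hlt : r X < r Y) :
    ∃ y ∈ Y, y ∉ X ∧ r (insert y X) = r X + 1 := by
  by_contra hn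
  push Not at hn
  have key : ∀ Z : Finset α, Z ⊆ Y → r (X ∪ Z) ≤ r X := by
    intro Z
    induction Z using Finset.induction_on with
    | empty => simp
    | insert a Z ha ih =>
      intro hZ
      have i1 := ih ((Finset.subset_insert _ _).trans hZ)
      rw [Finset.union_insert]
      have d := h.dim (Finset.subset_union_left (s₁ := X) (s₂ := Z)) a
      have : r (insert a X) ≤ r X := by
        by_cases q : a ∈ X
        · rw [Finset.insert_eq_of_mem q]
        · have := hn a (hZ (Finset.mem_insert_self _ _)) q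
          have := h.ins a X
          omega
      omega
  have := key Y (subset_refl _)
  rw [Finset.union_eq_right.2 hXY] at this
  omega

theorem bas (h : RF r) {C X : Finset α} (hCX : C ⊆ X) (hC : r C = C.card) :
    ∃ I, C ⊆ I ∧ I ⊆ X ∧ r I = I.card ∧ r I = r X := by
  classical
  obtain ⟨I, hI, hm⟩ := Finset.exists_max_image
    (X.powerset.filter (fun I => C ⊆ I ∧ r I = I.card)) Finset.card
    ⟨C, Finset.mem_filter.2 ⟨Finset.mem_powerset.2 hCX, subset_refl _, hC⟩⟩
  obtain ⟨i1, i2, i3⟩ := Finset.mem_filter.1 hI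
  have i1 := Finset.mem_powerset.1 i1
  refine ⟨I, i2, i1, i3, le_antisymm (h.mono _ _ i1) ?_⟩
  by_contra q
  obtain ⟨y, hy, ny, e⟩ := h.ext i1 (not_le.1 q)
  have := hm (insert y I) (Finset.mem_filter.2 ⟨Finset.mem_powerset.2 (Finset.insert_subset hy i1),
    i2.trans (Finset.subset_insert _ _), by rw [e, i3, Finset.card_insert_of_notMem ny]⟩)
  rw [Finset.card_insert_of_notMem ny] at this
  omega

def Fm (r : Finset α → ℕ) (e x : α) (X : Finset α) : Prop :=
  r (insert x X) = r X + 1 ∧ r (insert e (insert x X)) = r X + 1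

theorem cmp (h : RF r) {e x : α} {X X' : Finset α} (hs : X ⊆ X') (f : Fm r e x X)
    (f' : Fm r e x X') : r (insert e X) + r X' = r (insert e X') + r X := by
  have a := h.dim hs e
  have b := h.dim (Finset.insert_subset_insert e hs) x
  rw [Finset.insert_comm x e, Finset.insert_comm x e, f.2, f'.2] at b
  omega

end RF

namespace Tab
variable {α : Type*} [DecidableEq α] {T : Tab α}

theorem cell {rM rN : Finset α → ℕ} (hM : RF rM) (hN : RF rN) {ρ : ℕ}
    (hT : ∀ B, T.bs B ↔ B.card = ρ ∧ rN B = ρ) (bM : ∀ X, rM X ≤ ρ) (bN : ∀ X, rN X ≤ ρ)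
    {e x : α} {C U X0 : Finset α} (he : e ∉ U) (hx : x ∉ U) (h0 : T.FB x C U X0)
    (H1 : ∀ X, insert x C ⊆ X → X ⊆ insert e (insert x U) → rM X = rN X)
    (H2 : ∀ X, C ⊆ X → X ⊆ insert x U → rM X = rN X) {s : Finset (Finset α)}
    (hs : ∀ X, T.FB x C U X → (∃ Y ∈ s, T.Conn e x C U X Y) ∨
        (T.w x X x e ≠ 0 ∧ ∃ Y, T.Conn e x C U X Y ∧ T.Nb e x C U Y))
    (hex : e ≠ x) (HQ : ∀ Y ∈ s, rM (insert e Y) = rN (insert e Y)) :
    ∀ X, C ⊆ X → X ⊆ insert e (insert x U) → rM X = rN X := by
  have a0 : ∀ X, C ⊆ X → X ⊆ U → rM X = rN X := fun X h1 h2 =>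
    H2 X h1 (h2.trans (Finset.subset_insert _ _))
  have a1 : ∀ X, C ⊆ X → X ⊆ U → rM (insert x X) = rN (insert x X) := fun X h1 h2 =>
    H2 _ (h1.trans (Finset.subset_insert _ _)) (Finset.insert_subset_insert _ h2)
  have a2 : ∀ X, C ⊆ X → X ⊆ U → rM (insert e (insert x X)) = rN (insert e (insert x X)) :=
    fun X h1 h2 => H1 _ ((Finset.insert_subset_insert _ h1).trans (Finset.subset_insert _ _))
      (Finset.insert_subset_insert _ (Finset.insert_subset_insert _ h2))
  have tr : ∀ X X', C ⊆ X → X ⊆ X' → X' ⊆ U → RF.Fm rN e x X → RF.Fm rN e x X' →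
      (rM (insert e X) = rN (insert e X) ↔ rM (insert e X') = rN (insert e X')) := by
    intro X X' h1 h2 h3 f f'
    have g : RF.Fm rM e x X := by
      unfold RF.Fm
      rw [a0 X h1 (h2.trans h3), a1 X h1 (h2.trans h3), a2 X h1 (h2.trans h3)]
      exact f
    have g' : RF.Fm rM e x X' := by
      unfold RF.Fm
      rw [a0 X' (h1.trans h2) h3, a1 X' (h1.trans h2) h3, a2 X' (h1.trans h2) h3]
      exact f'
    have c1 := hM.cmp h2 g g'
    have c2 := hN.cmp h2 f f'
    rw [a0 X h1 (h2.trans h3), a0 X' (h1.trans h2) h3] at c1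
    omega
  have fbr : ∀ X, T.FB x C U X → X.card + 1 = ρ ∧ rN X + 1 = ρ ∧ rN (insert x X) = ρ := by
    intro X hX
    obtain ⟨b1, b2⟩ := (hT _).1 hX.2.2
    rw [Finset.card_insert_of_notMem (hX.nx hx)] at b1
    have := hN.ins x X
    have := hN.le_card X
    omega
  have fbF : ∀ X, T.FB x C U X → RF.Fm rN e x X := by
    intro X hX
    obtain ⟨b1, b2, b3⟩ := fbr X hX
    have := bN (insert e (insert x X))
    have := hN.mono _ _ (Finset.subset_insert e (insert x X))
    constructor <;> omega
  have epsr : ∀ X, T.FB x C U X → ∀ i ∈ X,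
      (T.w x X i e ≠ 0 ↔ rN (insert e (insert x (X.erase i))) = ρ) := by
    intro X hX i hi
    have nB : e ∉ insert x X := by
      simp only [Finset.mem_insert, not_or]
      exact ⟨hex, fun q => he (hX.2.1 q)⟩
    have := T.exch _ hX.2.2 i (Finset.mem_insert_of_mem hi) e nB
    unfold w
    rw [← this, hT, Finset.erase_insert_of_ne (ne_of_mem_of_not_mem hi (hX.nx hx)).symm]
    refine ⟨fun q => q.2, fun q => ⟨?_, q⟩⟩
    rw [Finset.card_insert_of_notMem (fun r => nB (Finset.insert_subset_insert _
      (Finset.erase_subset _ _) r)), Finset.card_insert_of_notMem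
      (fun r => hX.nx hx (Finset.mem_of_mem_erase r)), Finset.card_erase_add_one hi]
    exact (fbr X hX).1
  have delr : ∀ X, T.FB x C U X → ∀ y, y ∉ X → y ≠ x →
      (T.w x X x y ≠ 0 ↔ rN (insert y X) = ρ) := by
    intro X hX y hy n
    have nB : y ∉ insert x X := by
      simp only [Finset.mem_insert, not_or]
      exact ⟨n, hy⟩
    have := T.exch _ hX.2.2 x (Finset.mem_insert_self _ _) y nB
    unfold w
    rw [← this, hT, Finset.erase_insert (hX.nx hx)]
    refine ⟨fun q => q.2, fun q => ⟨?_, q⟩⟩
    rw [Finset.card_insert_of_notMem hy]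
    exact (fbr X hX).1
  have stp : ∀ X X', T.Step e x C U X X' →
      (rM (insert e X) = rN (insert e X) ↔ rM (insert e X') = rN (insert e X')) := by
    intro X X' st
    have hX' := st.fb hx
    obtain ⟨hX, i, hi, hC, y, hy, hy', hw, q, rfl⟩ := st
    obtain ⟨b1, b2, b3⟩ := fbr X hX
    rcases q with q | q
    · have CX : C ⊆ X.erase i := fun c hc => Finset.mem_erase.2 ⟨fun r => hC (r ▸ hc), hX.1 hc⟩
      have f : RF.Fm rN e x (X.erase i) := by
        have i1 := hN.ind_sub (C := insert x (X.erase i))
          (b3.trans ((hT _).1 hX.2.2).1.symm)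
          (Finset.insert_subset_insert _ (Finset.erase_subset _ _))
        have i2 := hN.ind_sub i1 (Finset.subset_insert _ _)
        rw [Finset.card_insert_of_notMem (fun r => hX.nx hx (Finset.mem_of_mem_erase r))] at i1
        have i3 := Finset.card_erase_add_one hi
        have i4 := mt (epsr X hX i hi).2 (not_not.2 q)
        have i5 := bN (insert e (insert x (X.erase i)))
        have i6 := hN.mono _ _ (Finset.subset_insert e (insert x (X.erase i)))
        constructor <;> omega
      exact (tr _ _ CX (Finset.erase_subset _ _) hX.2.1 f (fbF X hX)).symm.trans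
        (tr _ _ CX (Finset.subset_insert _ _) hX'.2.1 f (fbF _ hX'))
    · have f : RF.Fm rN e x (insert y X) := by
        have i4 := mt (delr X hX y hy' (fun r => hx (r ▸ hy))).2 (not_not.2 q)
        have i1 := bN (insert y X)
        have i2 := hN.mono _ _ (Finset.subset_insert y X)
        have i3 := hN.mono _ _ (Finset.insert_subset_insert x (Finset.subset_insert y X))
        have i5 := bN (insert e (insert x (insert y X)))
        have i6 := hN.mono _ _ (Finset.subset_insert e (insert x (insert y X)))
        constructor <;> omega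
      have yU : insert y X ⊆ U := Finset.insert_subset hy hX.2.1
      exact (tr _ _ hX.1 (Finset.subset_insert _ _) yU (fbF X hX) f).trans
        (tr _ _ hX'.1 (Finset.insert_subset_insert _ (Finset.erase_subset _ _)) yU
          (fbF _ hX') f).symm
  have cn : ∀ X X', T.Conn e x C U X X' →
      (rM (insert e X) = rN (insert e X) ↔ rM (insert e X') = rN (insert e X')) := by
    intro X X' c
    induction c with
    | refl => rfl
    | tail _ st ih => exact ih.trans (stp _ _ st)
  have lev0 : ∀ X, T.FB x C U X → T.w x X x e = 0 → rM (insert e X) = rN (insert e X) := by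
    intro X hX l
    rcases hs X hX with ⟨Y, hY, c⟩ | ⟨q, -⟩
    · exact (cn _ _ c).2 (HQ Y hY)
    · exact absurd l q
  have all : ∀ X, T.FB x C U X → rM (insert e X) = rN (insert e X) := by
    intro X hX
    rcases hs X hX with ⟨Y, hY, c⟩ | ⟨q, Y, c, i, hi, hC, y, hy, hy', hw, l⟩
    · exact (cn _ _ c).2 (HQ Y hY)
    · refine (cn _ _ c).2 ?_
      have hY := c.fb hx hX
      have hY' := hY.piv hx hi hC hy hw
      have g := lev0 _ hY' l
      by_cases fr : T.w x Y i e = 0 ∨ T.w x Y x y = 0
      · exact (stp _ _ ⟨hY, i, hi, hC, y, hy, hy', hw, fr, rfl⟩).2 g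
      · push Not at fr
        have eY : e ∉ Y := fun r => he (hY.2.1 r)
        have r1 := (delr Y hY e eY hex).1 (by rw [c.lev hx]; exact q)
        have r2 := mt (delr _ hY' e (fun r => he (hY'.2.1 r)) hex).2 (not_not.2 l)
        have r3 := (delr Y hY y hy' (fun r => hx (r ▸ hy))).1 fr.2
        have r4 := (epsr Y hY i hi).1 fr.1
        have CX : C ⊆ Y.erase i :=
          fun c hc => Finset.mem_erase.2 ⟨fun r => hC (r ▸ hc), hY.1 hc⟩
        rw [← a0 _ (hY.1.trans (Finset.subset_insert _ _)) (Finset.insert_subset hy hY.2.1)] at r3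
        rw [← a2 _ CX ((Finset.erase_subset _ _).trans hY.2.1), Finset.insert_comm] at r4
        have r5 := hM.ins x (insert e (Y.erase i))
        have r6 := hM.dim (Finset.insert_subset_insert e (Finset.erase_subset i Y)) y
        have r7 := hM.mono _ _ (Finset.insert_subset_insert y (Finset.subset_insert e Y))
        rw [Finset.insert_comm y e (Y.erase i)] at r6
        have r8 := bN (insert e (insert y (Y.erase i)))
        have r9 := bM (insert e Y)
        omega
  have low : ∀ X, C ⊆ X → X ⊆ U → rM (insert e X) = rN (insert e X) := by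
    intro X h1 h2
    by_cases f : RF.Fm rN e x X
    · obtain ⟨b1, b2, b3⟩ := fbr X0 h0
      have bi := b3.trans ((hT _).1 h0.2.2).1.symm
      obtain ⟨I, i1, i2, i3, i4⟩ := hN.bas h1
        (hN.ind_sub bi (h0.1.trans (Finset.subset_insert _ _)))
      have nxI : x ∉ I := fun r => hx (h2 (i2 r))
      have fI : RF.Fm rN e x I := by
        have d1 := hN.dim i2 x
        have d2 := hN.ins x I
        have d3 := hN.mono _ _ (Finset.insert_subset_insert e (Finset.insert_subset_insert x i2))
        have d4 := hN.mono _ _ (Finset.subset_insert e (insert x I))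
        have := f.1
        have := f.2
        constructor <;> omega
      obtain ⟨J, j1, j2, j3, j4⟩ := hN.bas (Finset.insert_subset_insert x (i2.trans h2))
        (by rw [fI.1, i3, Finset.card_insert_of_notMem nxI])
      have mx : x ∈ J := j1 (Finset.mem_insert_self _ _)
      have IJ : I ⊆ J.erase x := fun a ha =>
        Finset.mem_erase.2 ⟨fun r => nxI (r ▸ ha), j1 (Finset.mem_insert_of_mem ha)⟩
      have JU : J.erase x ⊆ U := fun a ha =>
        (Finset.mem_insert.1 (j2 (Finset.mem_of_mem_erase ha))).resolve_left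
          (Finset.ne_of_mem_erase ha)
      have hJ : T.FB x C U (J.erase x) := by
        refine ⟨i1.trans IJ, JU, ?_⟩
        rw [Finset.insert_erase mx, hT]
        have := hN.mono _ _ (Finset.insert_subset_insert x h0.2.1)
        have := bN (insert x U)
        constructor <;> omega
      exact (tr _ _ i1 i2 h2 fI f).1 ((tr _ _ i1 IJ JU fI (fbF _ hJ)).2 (all _ hJ))
    · have e0 := a0 X h1 h2
      have e1 := a1 X h1 h2
      have e2 := a2 X h1 h2
      have m1 := hM.dim (Finset.subset_insert x X) e
      have n1 := hN.dim (Finset.subset_insert x X) e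
      have m2 := hM.mono _ _ (Finset.insert_subset_insert e (Finset.subset_insert x X))
      have n2 := hN.mono _ _ (Finset.insert_subset_insert e (Finset.subset_insert x X))
      have m3 := hM.ins e X
      have n3 := hN.ins e X
      have n4 := hN.ins x X
      have n5 := hN.mono _ _ (Finset.subset_insert x X)
      have n6 := hN.mono _ _ (Finset.subset_insert e (insert x X))
      unfold RF.Fm at f
      omega
  intro X h1 h2
  by_cases q : x ∈ X
  · exact H1 X (Finset.insert_subset q h1) h2
  by_cases q' : e ∈ X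
  · rw [← Finset.insert_erase q']
    refine low _ (fun c hc => Finset.mem_erase.2 ⟨fun r => he (h0.2.1 (h0.1 (r ▸ hc))), h1 hc⟩)
      (fun a ha => ?_)
    obtain ⟨n, m⟩ := Finset.mem_erase.1 ha
    rcases Finset.mem_insert.1 (h2 m) with r | r
    · exact absurd r n
    · exact (Finset.mem_insert.1 r).resolve_left (fun r => q (r ▸ m))
  · exact H2 X h1 (fun a ha => (Finset.mem_insert.1 (h2 ha)).resolve_left (fun r => q' (r ▸ ha)))

theorem cert {n : ℕ} {T : Tab (Fin n)} {rN : Finset (Fin n) → ℕ} (hN : RF rN)
    (hT : ∀ B, T.bs B ↔ B.card = rN Finset.univ ∧ rN B = rN Finset.univ) :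
    ∃ Q : Finset (Finset (Fin n)), Q.card ≤ 2 + n * n * (49 + 48 * n) ∧
      ∀ rM, RF rM → (∀ X ∈ Q, rM X = rN X) → ∀ X, rM X = rN X := by
  obtain ⟨B, -, -, b1, b2⟩ := hN.bas (Finset.empty_subset Finset.univ) (by simp [hN.emp])
  have hB : T.bs B := (hT B).2 ⟨b1.symm.trans b2, b2⟩
  set C : ℕ → Finset (Fin n) := fun a => B.filter (fun b => a ≤ b.val) with hC
  set U : ℕ → Finset (Fin n) := fun d => B ∪ Finset.univ.filter (fun y => y.val < d) with hU
  have mC : ∀ a b, b ∈ C a ↔ b ∈ B ∧ a ≤ b.val := fun a b => Finset.mem_filter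
  have mU : ∀ d y, y ∈ U d ↔ y ∈ B ∨ y.val < d := fun d y => by simp [hU]
  have fb0 : ∀ x ∈ B, ∀ d, T.FB x (C (x.val + 1)) ((U d).erase x) (B.erase x) := by
    intro x hx d
    refine ⟨fun c hc => ?_, Finset.erase_subset_erase _ Finset.subset_union_left, ?_⟩
    · rw [mC] at hc
      exact Finset.mem_erase.2 ⟨fun r => by subst r; omega, hc.1⟩
    · rwa [Finset.insert_erase hx]
  have ne0 : ∀ (x e : Fin n), e ∉ B → e ∉ (U e.val).erase x := by
    intro x e he q
    have := Finset.mem_of_mem_erase q
    rw [mU] at this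
    rcases this with r | r
    · exact he r
    · omega
  have : ∀ p : Fin n × Fin n, ∃ s : Finset (Finset (Fin n)), s.card ≤ 49 + 48 * n ∧
      (p.1 ∈ B → p.2 ∉ B → ∀ X, T.FB p.1 (C (p.1.val + 1)) ((U p.2.val).erase p.1) X →
        (∃ Y ∈ s, T.Conn p.2 p.1 (C (p.1.val + 1)) ((U p.2.val).erase p.1) X Y) ∨
        (T.w p.1 X p.1 p.2 ≠ 0 ∧ ∃ Y, T.Conn p.2 p.1 (C (p.1.val + 1)) ((U p.2.val).erase p.1) X Y ∧
          T.Nb p.2 p.1 (C (p.1.val + 1)) ((U p.2.val).erase p.1) Y)) := by
    rintro ⟨x, e⟩
    by_cases q : x ∈ B ∧ e ∉ B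
    · obtain ⟨s, s1, -, s3⟩ := reps (ne0 x e q.2) (Finset.notMem_erase _ _)
        (fun r => q.2 (r ▸ q.1)) (fb0 x q.1 e.val)
      refine ⟨s, ?_, fun _ _ => s3⟩
      have := Finset.card_le_univ (B.erase x)
      rw [Fintype.card_fin] at this
      omega
    · exact ⟨∅, by simp, fun a b => absurd ⟨a, b⟩ q⟩
  choose s s1 s2 using this
  refine ⟨insert B (insert Finset.univ
    (Finset.univ.biUnion (fun p => (s p).image (insert p.2)))), ?_, fun rM hM hQ => ?_⟩
  · have a := Finset.card_insert_le B (insert Finset.univ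
      (Finset.univ.biUnion (fun p => (s p).image (insert p.2))))
    have b := Finset.card_insert_le Finset.univ
      (Finset.univ.biUnion (fun p => (s p).image (insert p.2)))
    have c := Finset.card_biUnion_le_card_mul Finset.univ (fun p => (s p).image (insert p.2))
      (49 + 48 * n) (fun p _ => Finset.card_image_le.trans (s1 p))
    rw [Finset.card_univ, Fintype.card_prod, Fintype.card_fin] at c
    omega
  have q1 := hQ B (Finset.mem_insert_self _ _)
  have q2 := hQ Finset.univ (Finset.mem_insert_of_mem (Finset.mem_insert_self _ _))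
  have bM : ∀ X, rM X ≤ rN Finset.univ := fun X => q2 ▸ hM.mono _ _ (Finset.subset_univ X)
  have bN : ∀ X, rN X ≤ rN Finset.univ := fun X => hN.mono _ _ (Finset.subset_univ X)
  have main : ∀ a d : ℕ, ∀ X, C a ⊆ X → X ⊆ U d → rM X = rN X := by
    intro a
    induction a with
    | zero =>
      intro d X h1 _
      have : B ⊆ X := fun b hb => h1 ((mC _ _).2 ⟨hb, Nat.zero_le _⟩)
      have := hM.mono _ _ this
      have := hN.mono _ _ ‹B ⊆ X›
      have := bM X
      have := bN X
      omega
    | succ a iha =>
      intro d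
      induction d with
      | zero =>
        intro X _ h2
        have : X ⊆ B := fun y hy => ((mU _ _).1 (h2 hy)).resolve_right (by omega)
        rw [hM.ind_sub (q1.trans b1) this, hN.ind_sub b1 this]
      | succ d ihd =>
        by_cases hx : ∃ x ∈ B, x.val = a
        swap
        · intro X h1 h2
          refine iha _ X (fun c hc => h1 ?_) h2
          rw [mC] at hc ⊢
          refine ⟨hc.1, ?_⟩
          have : c.val ≠ a := fun r => hx ⟨c, hc.1, r⟩
          omega
        by_cases he : ∃ e, e ∉ B ∧ e.val = d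
        swap
        · intro X h1 h2
          refine ihd X h1 (fun y hy => ?_)
          have := h2 hy
          rw [mU] at this ⊢
          by_cases r : y ∈ B
          · exact Or.inl r
          · have h3 : y.val ≠ d := fun t => he ⟨y, r, t⟩
            have h4 := this.resolve_left r
            exact Or.inr (by omega)
        obtain ⟨x, hx, rfl⟩ := hx
        obtain ⟨e, he, rfl⟩ := he
        have e1 : insert x ((U e.val).erase x) = U e.val :=
          Finset.insert_erase ((mU _ _).2 (Or.inl hx))
        have e2 : insert e (U e.val) = U (e.val + 1) := by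
          ext y
          rw [Finset.mem_insert, mU, mU, Fin.ext_iff]
          constructor
          · rintro (r | r | r)
            · exact Or.inr (by omega)
            · exact Or.inl r
            · exact Or.inr (by omega)
          · rintro (r | r)
            · exact Or.inr (Or.inl r)
            · omega
        have := cell hM hN hT bM bN (ne0 x e he) (Finset.notMem_erase _ _) (fb0 x hx e.val)
          (fun X h1 h2 => iha (e.val + 1) X (fun c hc => h1 (by
            rw [mC] at hc
            rw [Finset.mem_insert, mC, Fin.ext_iff]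
            by_cases r : c.val = x.val
            · exact Or.inl r
            · exact Or.inr ⟨hc.1, by omega⟩)) (by rwa [e1, e2] at h2))
          (fun X h1 h2 => ihd X h1 (by rwa [e1] at h2)) (s2 (x, e) hx he)
          (fun r => he (r ▸ hx)) (fun Y hY => hQ _ (Finset.mem_insert_of_mem
            (Finset.mem_insert_of_mem (Finset.mem_biUnion.2 ⟨(x, e), Finset.mem_univ _,
              Finset.mem_image_of_mem _ hY⟩))))
        rwa [e1, e2] at this
  intro X
  refine main n n X (fun c hc => ?_) (fun y _ => (mU _ _).2 (Or.inr y.isLt))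
  have := ((mC _ _).1 hc).2
  have := c.isLt
  omega

end Tab

end Pool.Agent.NearReg
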