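import Pool.Agent.Lib.MP_da0a56_lc.Tab

/-! Faces, free pivots, components and stuck pairs. -/

set_option autoImplicit false

namespace Pool.Agent.NearReg
open R

namespace Tab
variable {α : Type*} [DecidableEq α] (T : Tab α)

def w (x : α) (X : Finset α) (i f : α) : R := T.t (insert x X) i f

def FB (x : α) (C U X : Finset α) : Prop := C ⊆ X ∧ X ⊆ U ∧ T.bs (insert x X)

def Step (e x : α) (C U X X' : Finset α) : Prop :=
  T.FB x C U X ∧ ∃ i ∈ X, i ∉ C ∧ ∃ y ∈ U, y ∉ X ∧ T.w x X i y ≠ 0 ∧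
    (T.w x X i e = 0 ∨ T.w x X x y = 0) ∧ X' = insert y (X.erase i)

def Conn (e x : α) (C U : Finset α) : Finset α → Finset α → Prop :=
  Relation.ReflTransGen (T.Step e x C U)

variable {T} {e x : α} {C U X X' : Finset α}

theorem ins_piv {i y : α} (n : i ≠ x) :
    insert x (insert y (X.erase i)) = insert y ((insert x X).erase i) := by
  ext a
  simp only [Finset.mem_insert, Finset.mem_erase]
  constructor
  · rintro (rfl | rfl | ⟨h1, h2⟩)
    · exact Or.inr ⟨n.symm, Or.inl rfl⟩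
    · exact Or.inl rfl
    · exact Or.inr ⟨h1, Or.inr h2⟩
  · rintro (rfl | ⟨h1, rfl | h2⟩)
    · exact Or.inr (Or.inl rfl)
    · exact Or.inl rfl
    · exact Or.inr (Or.inr ⟨h1, h2⟩)

theorem FB.nx (h : T.FB x C U X) (hx : x ∉ U) : x ∉ X := fun q => hx (h.2.1 q)

theorem FB.mono {C' U' : Finset α} (h : T.FB x C' U' X) (hC : C ⊆ C') (hU : U' ⊆ U) :
    T.FB x C U X := ⟨hC.trans h.1, h.2.1.trans hU, h.2.2⟩

theorem w_bs (hB : T.bs (insert x X)) (hx : x ∉ X) {i y : α} (hi : i ∈ X)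
    (h : T.w x X i y ≠ 0) : T.bs (insert x (insert y (X.erase i))) := by
  rw [ins_piv (ne_of_mem_of_not_mem hi hx)]
  exact piv_bs hB (Finset.mem_insert_of_mem hi) h

theorem w_new (hB : T.bs (insert x X)) (hx : x ∉ X) {i y : α} (hi : i ∈ X)
    (h : T.w x X i y ≠ 0) (g : α) :
    T.w x (insert y (X.erase i)) y g = ri (T.w x X i y) * T.w x X i g := by
  unfold w
  rw [ins_piv (ne_of_mem_of_not_mem hi hx)]
  exact piv_new hB (Finset.mem_insert_of_mem hi) h g

theorem w_old (hB : T.bs (insert x X)) (hx : x ∉ X) {i y : α} (hi : i ∈ X)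
    (h : T.w x X i y ≠ 0) {k : α} (hk : k ∈ insert x X) (n : k ≠ i) (g : α) :
    T.w x (insert y (X.erase i)) k g =
      T.w x X k g - T.w x X k y * ri (T.w x X i y) * T.w x X i g := by
  unfold w
  rw [ins_piv (ne_of_mem_of_not_mem hi hx)]
  exact piv_old hB (Finset.mem_insert_of_mem hi) h hk n g

theorem w_x (hB : T.bs (insert x X)) (hx : x ∉ X) {i y : α} (hi : i ∈ X)
    (h : T.w x X i y ≠ 0) (g : α) :
    T.w x (insert y (X.erase i)) x g =
      T.w x X x g - T.w x X x y * ri (T.w x X i y) * T.w x X i g :=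
  w_old hB hx hi h (Finset.mem_insert_self _ _) (fun q => hx (q ▸ hi)) g

theorem w_ok (hB : T.bs (insert x X)) {i : α} (hi : i ∈ X) (f : α) : Ok (T.w x X i f) :=
  T.ok _ hB i (Finset.mem_insert_of_mem hi) f

theorem w_okx (hB : T.bs (insert x X)) (f : α) : Ok (T.w x X x f) :=
  T.ok _ hB x (Finset.mem_insert_self _ _) f

theorem w_un (hB : T.bs (insert x X)) {i f : α} (hi : i ∈ X) (h : T.w x X i f ≠ 0) :
    Un (T.w x X i f) := (w_ok hB hi f).un h

theorem w_unx (hB : T.bs (insert x X)) {f : α} (h : T.w x X x f ≠ 0) :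
    Un (T.w x X x f) := (w_okx hB f).un h

theorem w_id1 (hB : T.bs (insert x X)) {i : α} (hi : i ∈ X) : T.w x X i i = 1 :=
  T.id1 _ hB i (Finset.mem_insert_of_mem hi)

theorem w_id0 (hB : T.bs (insert x X)) {i k : α} (hi : i ∈ X) (hk : k ∈ X) (n : i ≠ k) :
    T.w x X i k = 0 :=
  T.id0 _ hB i (Finset.mem_insert_of_mem hi) k (Finset.mem_insert_of_mem hk) n

theorem w_xx (hB : T.bs (insert x X)) : T.w x X x x = 1 :=
  T.id1 _ hB x (Finset.mem_insert_self _ _)

theorem w_x0 (hB : T.bs (insert x X)) (hx : x ∉ X) {k : α} (hk : k ∈ X) : T.w x X x k = 0 :=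
  T.id0 _ hB x (Finset.mem_insert_self _ _) k (Finset.mem_insert_of_mem hk)
    (fun q => hx (q ▸ hk))

theorem w_0x (hB : T.bs (insert x X)) (hx : x ∉ X) {k : α} (hk : k ∈ X) : T.w x X k x = 0 :=
  T.id0 _ hB k (Finset.mem_insert_of_mem hk) x (Finset.mem_insert_self _ _)
    (fun q => hx (q ▸ hk))

theorem FB.piv (h : T.FB x C U X) (hx : x ∉ U) {i y : α} (hi : i ∈ X) (hC : i ∉ C) (hy : y ∈ U)
    (hw : T.w x X i y ≠ 0) : T.FB x C U (insert y (X.erase i)) :=
  ⟨fun _ hc => Finset.mem_insert_of_mem (Finset.mem_erase.2 ⟨fun q => hC (q ▸ hc), h.1 hc⟩),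
   Finset.insert_subset hy ((Finset.erase_subset _ _).trans h.2.1),
   w_bs h.2.2 (h.nx hx) hi hw⟩

theorem Step.fb (h : T.Step e x C U X X') (hx : x ∉ U) : T.FB x C U X' := by
  obtain ⟨hF, i, hi, hC, y, hy, -, hw, -, rfl⟩ := h
  exact hF.piv hx hi hC hy hw

theorem Step.lev (h : T.Step e x C U X X') (hx : x ∉ U) : T.w x X' x e = T.w x X x e := by
  obtain ⟨hF, i, hi, hC, y, hy, -, hw, hf, rfl⟩ := h
  rw [w_x hF.2.2 (hF.nx hx) hi hw]
  rcases hf with q | q <;> rw [q] <;> ring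

theorem piv_piv {i y : α} (hi : i ∈ X) (hy : y ∉ X) :
    insert i ((insert y (X.erase i)).erase y) = X := by
  rw [Finset.erase_insert (fun q => hy (Finset.mem_of_mem_erase q)), Finset.insert_erase hi]

theorem Step.symm (h : T.Step e x C U X X') (hx : x ∉ U) : T.Step e x C U X' X := by
  have hF' := h.fb hx
  obtain ⟨hF, i, hi, hC, y, hy, hyX, hw, hf, rfl⟩ := h
  have hB := hF.2.2
  have nx := hF.nx hx
  have u := un_ri _ (w_un hB hi hw)
  refine ⟨hF', y, Finset.mem_insert_self _ _, fun q => hyX (hF.1 q), i, hF.2.1 hi, ?_, ?_, ?_,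
    (piv_piv hi hyX).symm⟩
  · simp only [Finset.mem_insert, Finset.mem_erase, not_or]
    exact ⟨fun q => hyX (q ▸ hi), fun q => q.1 rfl⟩
  · rw [w_new hB nx hi hw, w_id1 hB hi, mul_one]
    exact u.ne_zero
  · rcases hf with q | q
    · left
      rw [w_new hB nx hi hw, q, mul_zero]
    · right
      rw [w_x hB nx hi hw, q, w_x0 hB nx hi]; ring

theorem Step.mono {C' U' : Finset α} (h : T.Step e x C' U' X X') (hC : C ⊆ C') (hU : U' ⊆ U) :
    T.Step e x C U X X' := by
  obtain ⟨hF, i, hi, hC', y, hy, r⟩ := h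
  exact ⟨hF.mono hC hU, i, hi, fun q => hC' (hC q), y, hU hy, r⟩

theorem Conn.refl (X : Finset α) : T.Conn e x C U X X := Relation.ReflTransGen.refl

theorem Conn.trans {X'' : Finset α} (h : T.Conn e x C U X X') (h' : T.Conn e x C U X' X'') :
    T.Conn e x C U X X'' := Relation.ReflTransGen.trans h h'

theorem Step.conn (h : T.Step e x C U X X') : T.Conn e x C U X X' :=
  Relation.ReflTransGen.single h

theorem Conn.symm (h : T.Conn e x C U X X') (hx : x ∉ U) : T.Conn e x C U X' X := by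
  induction h with
  | refl => exact Conn.refl _
  | tail _ s ih => exact (s.symm hx).conn.trans ih

theorem Conn.fb (h : T.Conn e x C U X X') (hx : x ∉ U) (hF : T.FB x C U X) :
    T.FB x C U X' := by
  induction h with
  | refl => exact hF
  | tail _ s _ => exact s.fb hx

theorem Conn.lev (h : T.Conn e x C U X X') (hx : x ∉ U) : T.w x X' x e = T.w x X x e := by
  induction h with
  | refl => rfl
  | tail _ s ih => rw [s.lev hx, ih]

theorem Conn.mono {C' U' : Finset α} (h : T.Conn e x C' U' X X') (hC : C ⊆ C') (hU : U' ⊆ U) :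
    T.Conn e x C U X X' := by
  induction h with
  | refl => exact Conn.refl _
  | tail _ s ih => exact ih.trans (s.mono hC hU).conn

theorem w_ex_out (hB : T.bs (insert x X)) (hB' : T.bs (insert x X')) (hx : x ∉ X) {i : α}
    (hi : i ∈ X) (hi' : i ∉ X') : ∃ y ∈ X', y ∉ X ∧ T.w x X i y ≠ 0 := by
  obtain ⟨y, h1, h2, h3⟩ := ex_out hB hB' (Finset.mem_insert_of_mem hi) (by
    simp only [Finset.mem_insert, not_or]
    exact ⟨fun q => hx (q ▸ hi), hi'⟩)
  simp only [Finset.mem_insert, not_or] at h1 h2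
  exact ⟨y, h1.resolve_left h2.1, h2.2, h3⟩

theorem w_ex_in (hB : T.bs (insert x X)) (hB' : T.bs (insert x X')) (hx : x ∉ X') {y : α}
    (hy : y ∈ X') (hy' : y ∉ X) : ∃ i ∈ X, i ∉ X' ∧ T.w x X i y ≠ 0 := by
  obtain ⟨i, h1, h2, h3⟩ := ex_in hB hB' (Finset.mem_insert_of_mem hy) (by
    simp only [Finset.mem_insert, not_or]
    exact ⟨fun q => hx (q ▸ hy), hy'⟩)
  simp only [Finset.mem_insert, not_or] at h1 h2
  exact ⟨i, h1.resolve_left h2.1, h2.2, h3⟩

theorem ins_sdiff (hx : x ∉ X) : insert x X \ insert x X' = X \ X' := by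
  ext a
  simp only [Finset.mem_sdiff, Finset.mem_insert, not_or]
  constructor
  · rintro ⟨rfl | h1, h2, h3⟩
    · exact absurd rfl h2
    · exact ⟨h1, h3⟩
  · rintro ⟨h1, h2⟩
    exact ⟨Or.inr h1, fun q => hx (q ▸ h1), h2⟩

theorem w_trans (hB : T.bs (insert x X)) (hB' : T.bs (insert x X')) (hx : x ∉ X) (hx' : x ∉ X')
    {k : α} (hk : k ∈ X') (f : α) : T.w x X' k f = ∑ i ∈ X \ X', T.w x X' k i * T.w x X i f +
      (if k ∈ X then T.w x X k f else 0) := by
  have := trans_sdiff hB hB' (Finset.mem_insert_of_mem hk) f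
  rw [ins_sdiff hx] at this
  have e : k ∈ insert x X ↔ k ∈ X := by
    simp only [Finset.mem_insert]
    exact ⟨fun q => q.resolve_left (fun q => hx' (q ▸ hk)), Or.inr⟩
  simp only [e] at this
  exact this

theorem w_transx (hB : T.bs (insert x X)) (hB' : T.bs (insert x X')) (hx : x ∉ X)
    (f : α) : T.w x X' x f = ∑ i ∈ X \ X', T.w x X' x i * T.w x X i f + T.w x X x f := by
  have := trans_sdiff hB hB' (Finset.mem_insert_self _ _) f
  rw [ins_sdiff hx, if_pos (Finset.mem_insert_self _ _)] at this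
  exact this

theorem w_card (hB : T.bs (insert x X)) (hB' : T.bs (insert x X')) (hx : x ∉ X) (hx' : x ∉ X') :
    X.card = X'.card := by
  have := T.card _ _ hB hB'
  rw [Finset.card_insert_of_notMem hx, Finset.card_insert_of_notMem hx'] at this
  omega

theorem w_card_sdiff (hB : T.bs (insert x X)) (hB' : T.bs (insert x X')) (hx : x ∉ X)
    (hx' : x ∉ X') : (X \ X').card = (X' \ X).card :=
  Finset.card_sdiff_comm (w_card hB hB' hx hx')

variable (T) in
/-- one half of a stuck pair -/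
def St1 (e x : α) (X X' : Finset α) : Prop :=
  (∀ i ∈ X, i ∉ X' → T.w x X i e ≠ 0) ∧ (∀ y ∈ X', y ∉ X → T.w x X x y ≠ 0)

theorem descent (hx : x ∉ U) : ∀ (n : ℕ) (X X' : Finset α), (X \ X').card = n →
    T.FB x C U X → T.FB x C U X' → ∃ Y Y', T.Conn e x C U X Y ∧ T.Conn e x C U X' Y' ∧
      T.St1 e x Y Y' ∧ T.St1 e x Y' Y := by
  intro n
  induction n using Nat.strong_induction_on with
  | _ n ih =>
    intro X X' hn hF hF'
    have key : ∀ X X' : Finset α, T.FB x C U X → T.FB x C U X' → ¬ T.St1 e x X X' →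
        ∃ Y, T.Step e x C U X Y ∧ (Y \ X').card < (X \ X').card := by
      intro X X' hF hF' hs
      have : ∃ i ∈ X, i ∉ X' ∧ ∃ y ∈ X', y ∉ X ∧ T.w x X i y ≠ 0 ∧
          (T.w x X i e = 0 ∨ T.w x X x y = 0) := by
        unfold St1 at hs
        by_cases h1 : ∀ i ∈ X, i ∉ X' → T.w x X i e ≠ 0
        · have h2 : ¬ ∀ y ∈ X', y ∉ X → T.w x X x y ≠ 0 := fun q => hs ⟨h1, q⟩
          push Not at h2
          obtain ⟨y, hy, hy', q⟩ := h2
          obtain ⟨i, hi, hi', hw⟩ := w_ex_in hF.2.2 hF'.2.2 (hF'.nx hx) hy hy'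
          exact ⟨i, hi, hi', y, hy, hy', hw, Or.inr q⟩
        · push Not at h1
          obtain ⟨i, hi, hi', q⟩ := h1
          obtain ⟨y, hy, hy', hw⟩ := w_ex_out hF.2.2 hF'.2.2 (hF.nx hx) hi hi'
          exact ⟨i, hi, hi', y, hy, hy', hw, Or.inl q⟩
      obtain ⟨i, hi, hi', y, hy, hy', hw, q⟩ := this
      refine ⟨_, ⟨hF, i, hi, fun c => hi' (hF'.1 c), y, hF'.2.1 hy, hy', hw, q, rfl⟩, ?_⟩
      apply Finset.card_lt_card
      rw [Finset.ssubset_iff_of_subset]
      · refine ⟨i, Finset.mem_sdiff.2 ⟨hi, hi'⟩, fun c => ?_⟩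
        rcases Finset.mem_insert.1 (Finset.mem_sdiff.1 c).1 with c | c
        · exact hi' (c ▸ hy)
        · exact (Finset.mem_erase.1 c).1 rfl
      · intro a ha
        obtain ⟨a1, a2⟩ := Finset.mem_sdiff.1 ha
        rcases Finset.mem_insert.1 a1 with c | c
        · exact absurd (c ▸ hy) a2
        · exact Finset.mem_sdiff.2 ⟨Finset.mem_of_mem_erase c, a2⟩
    by_cases s1 : T.St1 e x X X'
    · by_cases s2 : T.St1 e x X' X
      · exact ⟨X, X', Conn.refl _, Conn.refl _, s1, s2⟩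
      · obtain ⟨Y, hY, hlt⟩ := key X' X hF' hF s2
        have hFY := hY.fb hx
        rw [w_card_sdiff hF'.2.2 hF.2.2 (hF'.nx hx) (hF.nx hx),
          w_card_sdiff hFY.2.2 hF.2.2 (hFY.nx hx) (hF.nx hx)] at hlt
        obtain ⟨Z, Z', c1, c2, r⟩ := ih _ (hn ▸ hlt) X Y rfl hF hFY
        exact ⟨Z, Z', c1, hY.conn.trans c2, r⟩
    · obtain ⟨Y, hY, hlt⟩ := key X X' hF hF' s1
      obtain ⟨Z, Z', c1, c2, r⟩ := ih _ (hn ▸ hlt) Y X' rfl (hY.fb hx) hF'
      exact ⟨Z, Z', hY.conn.trans c1, c2, r⟩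

variable (T) in
/-- the normalised matrix at a basis -/
def Pm (e x : α) (X : Finset α) (c d : α) : R :=
  if c ∈ X then T.w x X c d * ri (T.w x X c e) * ri (T.w x X x d) else 0

theorem Pm_e (he : e ∉ X) (d : α) : T.Pm e x X e d = 0 := by simp [Pm, he]

theorem Pm_of {c : α} (hc : c ∈ X) (d : α) :
    T.Pm e x X c d = T.w x X c d * ri (T.w x X c e) * ri (T.w x X x d) := by
  simp only [Pm]
  rw [if_pos hc]

theorem w_Pm (hB : T.bs (insert x X)) {c d : α} (hc : c ∈ X)
    (h1 : T.w x X c e ≠ 0) (h2 : T.w x X x d ≠ 0) :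
    T.w x X c d = T.w x X c e * T.w x X x d * T.Pm e x X c d := by
  rw [Pm_of hc]
  have e1 := ri_mul _ (w_un hB hc h1)
  have e2 := ri_mul _ (w_unx hB h2)
  linear_combination (-(T.w x X c d)) * e1 -
    (T.w x X c d * T.w x X c e * ri (T.w x X c e)) * e2

theorem pv (hB : T.bs (insert x X)) (hx : x ∉ X) (he : e ∉ X) (hex : e ≠ x)
    (hl : T.w x X x e = 0) {C' D' : Finset α}
    (hC : ∀ c ∈ C', c = e ∨ (c ∈ X ∧ T.w x X c e ≠ 0)) (hD : ∀ d ∈ D', T.w x X x d ≠ 0) :
    PV (T.Pm e x X) C' D' := by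
  refine pv_of (T := T) (fun c0 h0 d0 g0 => ?_)
  have mx : x ∈ insert x X := Finset.mem_insert_self _ _
  have eD : ∀ d ∈ D', ri (T.w x X x d) * T.w x X x d = 1 :=
    fun d hd => ri_mul _ (w_unx hB (hD d hd))
  have oD : ∀ d ∈ D', Ok (ri (T.w x X x d)) := fun d hd => (un_ri _ (w_unx hB (hD d hd))).ok
  rcases hC c0 h0 with rfl | ⟨m0, u0⟩
  · refine ⟨_, piv_bs hB mx (hD d0 g0), fun d => ri (T.w x X x d), oD, fun c hc => ?_⟩
    rcases hC c hc with rfl | ⟨m, u⟩
    · exact ⟨d0, Finset.mem_insert_self _ _, 0, ok_zero, fun d _ => by simp [sd]⟩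
    · have n : c ≠ x := fun q => hx (q ▸ m)
      refine ⟨c, Finset.mem_insert_of_mem (Finset.mem_erase.2 ⟨n, Finset.mem_insert_of_mem m⟩),
        ri (T.w x X c c0), (un_ri _ (w_un hB m u)).ok, fun d hd => ?_⟩
      rw [piv_old hB mx (hD d0 g0) (Finset.mem_insert_of_mem m) n]
      simp only [sd, Pm_e he, Pm_of m]
      have := eD d hd
      unfold w at this ⊢
      linear_combination (ri (T.t (insert x X) c c0) * T.t (insert x X) c d0 *
        ri (T.t (insert x X) x d0)) * this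
  · have hB1 := w_bs hB hx m0 u0
    have nx1 : x ∉ insert e (X.erase c0) := by
      simp only [Finset.mem_insert, Finset.mem_erase, not_or]
      exact ⟨hex.symm, fun q => hx q.2⟩
    have dx : ∀ d, T.w x (insert e (X.erase c0)) x d = T.w x X x d := by
      intro d
      rw [w_x hB hx m0 u0, hl]; ring
    have mx1 : x ∈ insert x (insert e (X.erase c0)) := Finset.mem_insert_self _ _
    have hp : T.t (insert x (insert e (X.erase c0))) x d0 ≠ 0 := by
      have := hD d0 g0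
      rwa [← dx] at this
    have old : ∀ k ∈ insert e (X.erase c0), ∀ g,
        T.t (insert d0 ((insert x (insert e (X.erase c0))).erase x)) k g =
          T.w x (insert e (X.erase c0)) k g - T.w x (insert e (X.erase c0)) k d0 *
            ri (T.w x X x d0) * T.w x X x g := by
      intro k hk g
      rw [piv_old hB1 mx1 hp (Finset.mem_insert_of_mem hk) (fun q => nx1 (q ▸ hk)), ← dx, ← dx]
      rfl
    have mem : ∀ k ∈ insert e (X.erase c0),
        k ∈ insert d0 ((insert x (insert e (X.erase c0))).erase x) := fun k hk =>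
      Finset.mem_insert_of_mem (Finset.mem_erase.2
        ⟨fun q => nx1 (q ▸ hk), Finset.mem_insert_of_mem hk⟩)
    refine ⟨_, piv_bs hB1 mx1 hp, fun d => ri (T.w x X x d), oD, fun c hc => ?_⟩
    rcases hC c hc with rfl | ⟨m, u⟩
    · refine ⟨c, mem _ (Finset.mem_insert_self _ _), -1, ok_one.neg, fun d hd => ?_⟩
      rw [old _ (Finset.mem_insert_self _ _), w_new hB hx m0 u0, w_new hB hx m0 u0]
      simp only [sd, Pm_e he, Pm_of m0]
      linear_combination (-(ri (T.w x X c0 c) * T.w x X c0 d0 * ri (T.w x X x d0))) * eD d hd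
    · by_cases n : c = c0
      · subst n
        exact ⟨d0, Finset.mem_insert_self _ _, 0, ok_zero, fun d _ => by simp [sd]⟩
      · have mc : c ∈ insert e (X.erase c0) :=
          Finset.mem_insert_of_mem (Finset.mem_erase.2 ⟨n, m⟩)
        refine ⟨c, mem _ mc, ri (T.w x X c e), (un_ri _ (w_un hB m u)).ok, fun d hd => ?_⟩
        rw [old _ mc, w_old hB hx m0 u0 (Finset.mem_insert_of_mem m) n,
          w_old hB hx m0 u0 (Finset.mem_insert_of_mem m) n]
        simp only [sd, Pm_of m, Pm_of m0]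
        have e1 := eD d hd
        have e2 := ri_mul _ (w_un hB m u)
        linear_combination (ri (T.w x X c e) * (T.w x X c d0 - T.w x X c e * ri (T.w x X c0 e) *
          T.w x X c0 d0) * ri (T.w x X x d0)) * e1 + (ri (T.w x X c0 e) * (T.w x X c0 d *
          ri (T.w x X x d) - T.w x X c0 d0 * ri (T.w x X x d0))) * e2

theorem Pm_x (hB : T.bs (insert x X)) (hx : x ∉ X) (c : α) : T.Pm e x X c x = 0 := by
  unfold Pm
  split_ifs with q
  · rw [w_0x hB hx q]; ring
  · rfl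

end Tab

end Pool.Agent.NearReg
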