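import Pool.Agent.Lib.MP_da0a56_lc.TriA

/-! Few representatives meet all relevant components. -/

set_option autoImplicit false

namespace Pool.Agent.NearReg
open R

theorem card_R : Fintype.card R = 24 := rfl

theorem cover_two {β : Type*} [DecidableEq β] (p : β → Prop) (r : β → β → Prop)
    (h : ∀ a b c, p a → p b → p c → ¬ r b a → ¬ r c a → ¬ r c b → False) :
    ∃ s : Finset β, s.card ≤ 2 ∧ (∀ b ∈ s, p b) ∧ ∀ a, p a → ∃ b ∈ s, r a b := by
  by_cases h1 : ∃ a, p a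
  · obtain ⟨a, ha⟩ := h1
    by_cases h2 : ∃ b, p b ∧ ¬ r b a
    · obtain ⟨b, hb, n⟩ := h2
      refine ⟨{a, b}, Finset.card_le_two, by simp [ha, hb], fun c hc => ?_⟩
      by_contra q
      push Not at q
      exact h a b c ha hb hc n (q a (by simp)) (q b (by simp))
    · push Not at h2
      exact ⟨{a}, by simp, by simp [ha], fun c hc => ⟨a, by simp, h2 c hc⟩⟩
  · push Not at h1
    exact ⟨∅, by simp, by simp, fun c hc => absurd hc (h1 c)⟩

namespace Tab
variable {α : Type*} [DecidableEq α] {T : Tab α}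
variable {e x : α} {U : Finset α}

theorem kappa (he : e ∉ U) (hx : x ∉ U) (hex : e ≠ x) (X0 : Finset α) : ∀ (n : ℕ) (C : Finset α),
    (X0 \ C).card = n → T.FB x C U X0 → ∃ s : Finset (Finset α), s.card ≤ 1 + 48 * n ∧
      (∀ Y ∈ s, T.FB x C U Y) ∧
      ∀ X, T.FB x C U X → T.w x X x e = 0 → ∃ Y ∈ s, T.Conn e x C U X Y := by
  intro n
  induction n with
  | zero =>
    intro C hn h0
    refine ⟨{X0}, by simp, by simp [h0], fun X hX _ => ⟨X0, by simp, ?_⟩⟩
    have e1 : X0 ⊆ X := (Finset.sdiff_eq_empty_iff_subset.1 (Finset.card_eq_zero.1 hn)).trans hX.1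
    have := Finset.eq_of_subset_of_card_le e1 (w_card hX.2.2 h0.2.2 (hX.nx hx) (h0.nx hx)).le
    rw [this]
    exact Conn.refl _
  | succ n ih =>
    intro C hn h0
    obtain ⟨j, hj⟩ : (X0 \ C).Nonempty := Finset.card_pos.1 (by omega)
    obtain ⟨j1, j2⟩ := Finset.mem_sdiff.1 hj
    obtain ⟨s, s1, s2, s3⟩ := ih (insert j C) (by
      rw [Finset.sdiff_insert, Finset.card_erase_of_mem hj]; omega)
      ⟨Finset.insert_subset j1 h0.1, h0.2.1, h0.2.2⟩
    have cx : T.Cx e x j C U := ⟨he, hx, hex, h0.2.1 j1, X0, h0, j1⟩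
    have := fun τ : R => cover_two (T.Cp e x j C U τ) (T.Conn e x C U)
      (fun a b c pa pb pc n1 n2 n3 => no_tri _ e C U a b c rfl ⟨cx, pa, pb, pc,
        fun q => n1 (q.symm hx), fun q => n2 (q.symm hx), fun q => n3 (q.symm hx)⟩)
    choose r r1 r2 r3 using this
    refine ⟨s ∪ Finset.univ.biUnion r, ?_, fun Y hY => ?_, fun X hX l => ?_⟩
    · have a := Finset.card_union_le s (Finset.univ.biUnion r)
      have b := Finset.card_biUnion_le_card_mul Finset.univ r 2 (fun τ _ => r1 τ)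
      rw [Finset.card_univ, card_R] at b
      omega
    · rcases Finset.mem_union.1 hY with q | q
      · exact (s2 Y q).mono (Finset.subset_insert _ _) (subset_refl _)
      · obtain ⟨τ, -, q⟩ := Finset.mem_biUnion.1 q
        exact (r2 τ Y q).fb
    · by_cases o : T.Out e x C U X j
      · obtain ⟨Y, hY, c⟩ := r3 _ X ⟨hX, l, o, rfl⟩
        exact ⟨Y, Finset.mem_union_right _ (Finset.mem_biUnion.2 ⟨_, Finset.mem_univ _, hY⟩), c⟩
      · obtain ⟨V, c, m⟩ := ex_of_not_out o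
        have fV := c.fb hx hX
        obtain ⟨Y, hY, c'⟩ := s3 V ⟨Finset.insert_subset m fV.1, fV.2.1, fV.2.2⟩
          ((c.lev hx).trans l)
        exact ⟨Y, Finset.mem_union_left _ hY,
          c.trans (c'.mono (Finset.subset_insert _ _) (subset_refl _))⟩

variable (T) in
/-- a basis of a face with a neighbour of level zero -/
def Nb (e x : α) (C U Y : Finset α) : Prop :=
  ∃ i ∈ Y, i ∉ C ∧ ∃ y ∈ U, y ∉ Y ∧ T.w x Y i y ≠ 0 ∧ T.w x (insert y (Y.erase i)) x e = 0

theorem reps (he : e ∉ U) (hx : x ∉ U) (hex : e ≠ x) {C X0 : Finset α} (h0 : T.FB x C U X0) :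
    ∃ s : Finset (Finset α), s.card ≤ 49 + 48 * X0.card ∧ (∀ Y ∈ s, T.FB x C U Y) ∧
      ∀ X, T.FB x C U X → (∃ Y ∈ s, T.Conn e x C U X Y) ∨
        (T.w x X x e ≠ 0 ∧ ∃ Y, T.Conn e x C U X Y ∧ T.Nb e x C U Y) := by
  obtain ⟨s, s1, s2, s3⟩ := kappa he hx hex X0 _ C rfl h0
  have := fun c : R => cover_two (fun X => T.FB x C U X ∧ T.w x X x e = c ∧ c ≠ 0 ∧
      ∀ Y, T.Conn e x C U X Y → ¬ T.Nb e x C U Y) (T.Conn e x C U)
    (fun a b _ pa pb _ n1 _ _ => by
      obtain ⟨Y, Y', c1, c2, t1, t2⟩ := descent (e := e) hx _ a b rfl pa.1 pb.1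
      have f1 := c1.fb hx pa.1
      have f2 := c2.fb hx pb.1
      have l1 := (c1.lev hx).trans pa.2.1
      have l2 := (c2.lev hx).trans pb.2.1
      have st : T.St e x Y Y' := ⟨f1.2.2, f2.2.2, f1.nx hx, f2.nx hx, fun q => he (f1.2.1 q),
        fun q => he (f2.2.1 q), t1, t2, l1.trans l2.symm,
        fun q => n1 (c2.trans (q ▸ c1.symm hx))⟩
      refine st.nz (by rw [l1]; exact pa.2.2.1) (fun i hi y hy hw q => ?_)
      obtain ⟨i1, i2⟩ := Finset.mem_sdiff.1 hi
      obtain ⟨y1, y2⟩ := Finset.mem_sdiff.1 hy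
      exact pa.2.2.2 Y c1 ⟨i, i1, fun r => i2 (f2.1 r), y, f2.2.1 y1, y2, hw, q⟩)
  choose r r1 r2 r3 using this
  refine ⟨s ∪ Finset.univ.biUnion r, ?_, fun Y hY => ?_, fun X hX => ?_⟩
  · have a := Finset.card_union_le s (Finset.univ.biUnion r)
    have b := Finset.card_biUnion_le_card_mul Finset.univ r 2 (fun τ _ => r1 τ)
    rw [Finset.card_univ, card_R] at b
    have c := Finset.card_le_card (Finset.sdiff_subset (s := X0) (t := C))
    omega
  · rcases Finset.mem_union.1 hY with q | q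
    · exact s2 Y q
    · obtain ⟨τ, -, q⟩ := Finset.mem_biUnion.1 q
      exact (r2 τ Y q).1
  · by_cases l : T.w x X x e = 0
    · obtain ⟨Y, hY, c⟩ := s3 X hX l
      exact Or.inl ⟨Y, Finset.mem_union_left _ hY, c⟩
    · by_cases o : ∀ Y, T.Conn e x C U X Y → ¬ T.Nb e x C U Y
      · obtain ⟨Y, hY, c⟩ := r3 _ X ⟨hX, rfl, l, o⟩
        exact Or.inl ⟨Y, Finset.mem_union_right _
          (Finset.mem_biUnion.2 ⟨_, Finset.mem_univ _, hY⟩), c⟩
      · push Not at o
        exact Or.inr ⟨l, o⟩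

end Tab

end Pool.Agent.NearReg
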