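import Pool.Agent.Lib.MP_da0a56_lc.Cert

/-! Polynomially many queries leave at most one system of tableaux. -/

set_option autoImplicit false

namespace Pool.Agent.NearReg
open R

def pi3 (x : R) : ZMod 3 := ((x.v / 8 : ℕ) : ZMod 3)

theorem pi3_sub : ∀ x y : R, pi3 (x - y) = pi3 x - pi3 y := by decide +kernel
theorem pi3_mul : ∀ x y : R, pi3 (x * y) = pi3 x * pi3 y := by decide +kernel
theorem pi3_one : pi3 1 = 1 := by decide +kernel
theorem pi3_zero : pi3 0 = 0 := by decide +kernel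
theorem pi3_ok : ∀ x : R, Ok x → (pi3 x = 0 ↔ x = 0) := by decide +kernel
theorem pi3_ri : ∀ x : R, Un x → pi3 (ri x) = pi3 x := by decide +kernel
theorem z3_sq : ∀ a : ZMod 3, a ≠ 0 → a * a = 1 := by decide
theorem z3_ne : ∀ a : ZMod 3, a * a = 1 → a ≠ 0 := by decide
theorem z3_test : ∀ l : ZMod 3, l * l = 1 → ∀ a b a' b' : ZMod 3, a ≠ 0 → b ≠ 0 → a' ≠ 0 →
    b' ≠ 0 → (a + l * b ≠ 0 ↔ a' + l * b' ≠ 0) → a' * a = b' * b := by decide

inductive Pth {α : Type*} [DecidableEq α] (sp : α → α → Prop) (y : α) :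
    α → Finset α → Finset α → Prop
  | base : Pth sp y y ∅ {y}
  | step {y' : α} {I Y : Finset α} (i y'' : α) : Pth sp y y' I Y → i ∉ I → y'' ∉ Y → sp i y' →
      sp i y'' → (∀ w ∈ Y, w ≠ y' → ¬ sp i w) → (∀ k ∈ I, ¬ sp k y'') →
      Pth sp y y'' (insert i I) (insert y'' Y)

namespace Pth
variable {α : Type*} [DecidableEq α] {sp : α → α → Prop} {y y' : α} {I Y : Finset α}

theorem mem_start (h : Pth sp y y' I Y) : y ∈ Y := by
  induction h with
  | base => simp
  | step _ _ _ _ _ _ _ _ _ ih => exact Finset.mem_insert_of_mem ih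

theorem mem_end (h : Pth sp y y' I Y) : y' ∈ Y := by
  induction h with
  | base => simp
  | step _ _ _ _ _ _ _ _ _ _ => exact Finset.mem_insert_self _ _

theorem row_nb (h : Pth sp y y' I Y) : ∀ k ∈ I, ∃ w ∈ Y, sp k w := by
  induction h with
  | base => simp
  | step i y'' _ _ _ _ s2 _ _ ih =>
    intro k hk
    rcases Finset.mem_insert.1 hk with rfl | hk
    · exact ⟨y'', Finset.mem_insert_self _ _, s2⟩
    · obtain ⟨w, hw, s⟩ := ih k hk
      exact ⟨w, Finset.mem_insert_of_mem hw, s⟩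

theorem extend (h : Pth sp y y' I Y) : ∀ i w y'', w ∈ Y → sp i w → sp i y'' →
    ∃ I' Y', Pth sp y y'' I' Y' ∧ I' ⊆ insert i I ∧ Y' ⊆ insert y'' Y := by
  induction h with
  | base =>
    intro i w y'' hw s1 s2
    rw [Finset.mem_singleton] at hw
    subst hw
    by_cases q : y'' = w
    · subst q
      exact ⟨_, _, Pth.base, by simp, by simp⟩
    · exact ⟨_, _, Pth.step i y'' Pth.base (by simp) (by simp [q]) s1 s2 (by simp) (by simp),
        subset_refl _, subset_refl _⟩
  | @step y1 I Y i1 y2 p n1 n2 t1 t2 t3 t4 ih =>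
    intro i w y'' hw s1 s2
    have up : ∀ k ∈ insert i (insert i1 I), (∃ w ∈ Y, sp k w) → sp k y'' →
        ∃ I' Y', Pth sp y y'' I' Y' ∧ I' ⊆ insert i (insert i1 I) ∧
          Y' ⊆ insert y'' (insert y2 Y) := by
      rintro k hk ⟨v, hv, s⟩ s'
      obtain ⟨I', Y', q1, q2, q3⟩ := ih k v y'' hv s s'
      exact ⟨I', Y', q1, q2.trans (Finset.insert_subset hk ((Finset.subset_insert _ _).trans
        (Finset.subset_insert _ _))),
        q3.trans (Finset.insert_subset_insert _ (Finset.subset_insert _ _))⟩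
    have nb : ∀ k ∈ insert i1 I, ∃ w ∈ Y, sp k w := by
      intro k hk
      rcases Finset.mem_insert.1 hk with rfl | hk
      · exact ⟨y1, p.mem_end, t1⟩
      · exact p.row_nb k hk
    by_cases c1 : ∃ w ∈ Y, sp i w
    · exact up i (Finset.mem_insert_self _ _) c1 s2
    by_cases c2 : ∃ k ∈ insert i1 I, sp k y''
    · obtain ⟨k, hk, s⟩ := c2
      exact up k (Finset.mem_insert_of_mem hk) (nb k hk) s
    push Not at c2
    have e : w = y2 := (Finset.mem_insert.1 hw).resolve_right (fun q => c1 ⟨w, q, s1⟩)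
    subst e
    refine ⟨_, _, Pth.step i y'' (Pth.step i1 w p n1 n2 t1 t2 t3 t4) (fun q => c1 (nb i q)) ?_ s1
      s2 ?_ c2, subset_refl _, subset_refl _⟩
    · intro q
      rcases Finset.mem_insert.1 q with q | q
      · exact c2 i1 (Finset.mem_insert_self _ _) (q ▸ t2)
      · exact c1 ⟨y'', q, s2⟩
    · intro v hv nv s
      exact c1 ⟨v, (Finset.mem_insert.1 hv).resolve_left nv, s⟩

end Pth

namespace Tab
variable {α : Type*} [DecidableEq α]

def A (T : Tab α) (B : Finset α) (i f : α) : ZMod 3 := pi3 (T.t B i f)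

variable {T T' : Tab α} {B : Finset α}

theorem A_ne (hB : T.bs B) {i : α} (hi : i ∈ B) (f : α) : T.A B i f ≠ 0 ↔ T.t B i f ≠ 0 :=
  not_congr (pi3_ok _ (T.ok B hB i hi f))

theorem A_new (hB : T.bs B) {i f : α} (hi : i ∈ B) (h : T.t B i f ≠ 0) (g : α) :
    T.A (insert f (B.erase i)) f g = T.A B i f * T.A B i g := by
  unfold A
  rw [piv_new hB hi h, pi3_mul, pi3_ri _ (un hB hi h)]

theorem A_old (hB : T.bs B) {i f : α} (hi : i ∈ B) (h : T.t B i f ≠ 0) {k : α} (hk : k ∈ B)
    (n : k ≠ i) (g : α) : T.A (insert f (B.erase i)) k g =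
      T.A B k g - T.A B k f * T.A B i f * T.A B i g := by
  unfold A
  rw [piv_old hB hi h hk n, pi3_sub, pi3_mul, pi3_mul, pi3_ri _ (un hB hi h)]

theorem eqv_bs {s : α → ZMod 3} (hs : ∀ g, s g * s g = 1) {B' : Finset α} (hB' : T.bs B') :
    ∀ (n : ℕ) (B : Finset α), (B' \ B).card = n → T.bs B → T'.bs B →
      (∀ i ∈ B, ∀ f, T'.A B i f = s i * s f * T.A B i f) → T'.bs B' := by
  intro n
  induction n with
  | zero =>
    intro B hn h h' _
    have := Finset.eq_of_subset_of_card_le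
      (Finset.sdiff_eq_empty_iff_subset.1 (Finset.card_eq_zero.1 hn)) (T.card _ _ h hB').le
    rwa [this]
  | succ n ih =>
    intro B hn h h' e
    obtain ⟨y, hy⟩ : (B' \ B).Nonempty := Finset.card_pos.1 (by omega)
    obtain ⟨y1, y2⟩ := Finset.mem_sdiff.1 hy
    obtain ⟨i, hi, ni, w⟩ := ex_in h hB' y1 y2
    have w' : T'.t B i y ≠ 0 := by
      rw [← A_ne h' hi, e i hi]
      exact mul_ne_zero (mul_ne_zero (z3_ne _ (hs _)) (z3_ne _ (hs _))) ((A_ne h hi y).2 w)
    refine ih (insert y (B.erase i)) ?_ (piv_bs h hi w) (piv_bs h' hi w') (fun k hk f => ?_)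
    · have : B' \ insert y (B.erase i) = (B' \ B).erase y := by
        ext a
        simp only [Finset.mem_sdiff, Finset.mem_insert, Finset.mem_erase, not_or, not_and]
        constructor
        · rintro ⟨a1, a2, a3⟩
          exact ⟨a2, a1, a3 (fun q => ni (q ▸ a1))⟩
        · rintro ⟨a1, a2, a3⟩
          exact ⟨a2, a1, fun _ => a3⟩
      rw [this, Finset.card_erase_of_mem hy]; omega
    · rcases Finset.mem_insert.1 hk with rfl | hk
      · rw [A_new h hi w, A_new h' hi w', e i hi, e i hi]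
        linear_combination (s k * s f * T.A B i k * T.A B i f) * hs i
      · obtain ⟨k1, k2⟩ := Finset.mem_erase.1 hk
        rw [A_old h hi w k2 k1, A_old h' hi w' k2 k1, e i hi, e i hi, e k k2, e k k2]
        linear_combination (-(s k * s f * T.A B k y * T.A B i y * T.A B i f * s y * s y)) * hs i -
          (s k * s f * T.A B k y * T.A B i y * T.A B i f) * hs y

theorem pth_test {sp : α → α → Prop} {y y' : α} {I Y : Finset α} (p : Pth sp y y' I Y)
    (A0 : α → α → ZMod 3) (h0 : ∀ k ∈ I, ∀ w ∈ Y, A0 k w ≠ 0 ↔ sp k w) :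
    ∃ l : ZMod 3, l * l = 1 ∧ ∀ (T : Tab α) (B : Finset α) (s : α → ZMod 3) (i0 : α),
      (∀ g, s g * s g = 1) → T.bs B → I ⊆ B → (∀ w ∈ Y, w ∉ B) → i0 ∈ B → i0 ∉ I →
      (∀ k ∈ I, ∀ w ∈ Y, T.A B k w = s k * s w * A0 k w) →
      (∀ w ∈ Y, w ≠ y → w ≠ y' → T.A B i0 w = 0) →
      (T.bs ((B \ insert i0 I) ∪ Y) ↔
        s y * T.A B i0 y + (if y' = y then 0 else l * (s y' * T.A B i0 y')) ≠ 0) := by
  induction p with
  | base =>
    refine ⟨1, by simp, fun T B s i0 hs hB _ hY hi _ _ _ => ?_⟩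
    have : (B \ insert i0 ∅) ∪ {y} = insert y (B.erase i0) := by
      ext a
      simp only [Finset.mem_union, Finset.mem_sdiff, Finset.mem_insert, Finset.mem_singleton,
        Finset.mem_erase, Finset.notMem_empty, or_false]
      tauto
    rw [this, T.exch B hB i0 hi y (hY y (by simp)), if_pos rfl, add_zero, ← A_ne hB hi]
    exact ⟨fun q => mul_ne_zero (z3_ne _ (hs _)) q, fun q r => q (by rw [r, mul_zero])⟩
  | @step y1 I Y i y2 p n1 n2 t1 t2 t3 t4 ih =>
    obtain ⟨l, hl, ih⟩ := ih (fun k hk w hw =>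
      h0 k (Finset.mem_insert_of_mem hk) w (Finset.mem_insert_of_mem hw))
    have mi : i ∈ insert i I := Finset.mem_insert_self _ _
    have m2 : y2 ∈ insert y2 Y := Finset.mem_insert_self _ _
    have m1 : y1 ∈ insert y2 Y := Finset.mem_insert_of_mem p.mem_end
    have u1 := z3_sq _ ((h0 i mi y1 m1).2 t1)
    have u2 := z3_sq _ ((h0 i mi y2 m2).2 t2)
    refine ⟨-((if y1 = y then 1 else l) * A0 i y2 * A0 i y1), ?_,
      fun T B s i0 hs hB hI hY hi ni hA hz => ?_⟩
    · split_ifs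
      · linear_combination (A0 i y1 * A0 i y1) * u2 + u1
      · linear_combination (A0 i y1 * A0 i y1 * A0 i y2 * A0 i y2) * hl +
          (A0 i y1 * A0 i y1) * u2 + u1
    have iB := hI mi
    have w : T.t B i y2 ≠ 0 := by
      rw [← A_ne hB iB, hA i mi y2 m2]
      exact mul_ne_zero (mul_ne_zero (z3_ne _ (hs _)) (z3_ne _ (hs _))) ((h0 i mi y2 m2).2 t2)
    have ni0 : i0 ≠ i := fun q => ni (q ▸ mi)
    have ny : y2 ≠ y := fun q => n2 (q ▸ p.mem_start)
    have zi : ∀ v ∈ Y, v ≠ y1 → T.A B i v = 0 := by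
      intro v hv nv
      have : A0 i v = 0 := by
        by_contra q
        exact t3 v hv nv ((h0 i mi v (Finset.mem_insert_of_mem hv)).1 q)
      rw [hA i mi v (Finset.mem_insert_of_mem hv), this, mul_zero]
    have key := ih T (insert y2 (B.erase i)) s i0 hs (piv_bs hB iB w)
      (fun k hk => Finset.mem_insert_of_mem (Finset.mem_erase.2
        ⟨fun q => n1 (q ▸ hk), hI (Finset.mem_insert_of_mem hk)⟩))
      (fun v hv q => by
        rcases Finset.mem_insert.1 q with q | q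
        · exact n2 (q ▸ hv)
        · exact hY v (Finset.mem_insert_of_mem hv) (Finset.mem_of_mem_erase q))
      (Finset.mem_insert_of_mem (Finset.mem_erase.2 ⟨ni0, hi⟩))
      (fun q => ni (Finset.mem_insert_of_mem q))
      (fun k hk v hv => by
        have mk := Finset.mem_insert_of_mem (b := i) hk
        have : A0 k y2 = 0 := by
          by_contra q
          exact t4 k hk ((h0 k mk y2 m2).1 q)
        rw [A_old hB iB w (hI mk) (fun q => n1 (q ▸ hk)), hA k mk y2 m2, this,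
          hA k mk v (Finset.mem_insert_of_mem hv)]
        ring)
      (fun v hv a b => by
        rw [A_old hB iB w hi ni0, zi v hv b,
          hz v (Finset.mem_insert_of_mem hv) a (fun q => n2 (q ▸ hv))]
        ring)
    have es : (insert y2 (B.erase i) \ insert i0 I) ∪ Y =
        (B \ insert i0 (insert i I)) ∪ insert y2 Y := by
      have a1 : y2 ≠ i0 := fun q => hY y2 m2 (q ▸ hi)
      have a2 : y2 ∉ I := fun q => hY y2 m2 (hI (Finset.mem_insert_of_mem q))
      ext a
      simp only [Finset.mem_union, Finset.mem_sdiff, Finset.mem_insert, Finset.mem_erase]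
      constructor
      · rintro (⟨rfl | ⟨b1, b2⟩, b3⟩ | b)
        · exact Or.inr (Or.inl rfl)
        · exact Or.inl ⟨b2, by tauto⟩
        · exact Or.inr (Or.inr b)
      · rintro (⟨b1, b2⟩ | rfl | b)
        · exact Or.inl ⟨Or.inr ⟨by tauto, b1⟩, by tauto⟩
        · exact Or.inl ⟨Or.inl rfl, by tauto⟩
        · exact Or.inr b
    rw [es] at key
    rw [key, if_neg ny]
    apply not_congr
    apply Eq.congr_left
    by_cases q : y1 = y
    · subst q
      rw [if_pos rfl, if_pos rfl, A_old hB iB w hi ni0, hA i mi y2 m2, hA i mi y1 m1]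
      linear_combination (-(s y1 * s y1 * s y2 * T.A B i0 y2 * A0 i y2 * A0 i y1)) * hs i -
        (s y2 * T.A B i0 y2 * A0 i y2 * A0 i y1) * hs y1
    · rw [if_neg q, if_neg q, A_old hB iB w hi ni0, A_old hB iB w hi ni0,
        zi y p.mem_start (fun r => q r.symm), hz y1 m1 q (fun r => n2 (r ▸ p.mem_end)),
        hA i mi y2 m2, hA i mi y1 m1]
      linear_combination (-(l * s y1 * s y1 * s y2 * T.A B i0 y2 * A0 i y2 * A0 i y1)) * hs i -
        (l * s y2 * T.A B i0 y2 * A0 i y2 * A0 i y1) * hs y1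

theorem learn {n : ℕ} (B : Finset (Fin n)) (sp : Fin n → Fin n → Prop) :
    ∃ Q : Finset (Finset (Fin n)), Q.card ≤ n * n * n ∧ ∀ T T' : Tab (Fin n), T.bs B → T'.bs B →
      (∀ i ∈ B, ∀ y, y ∉ B → (T.t B i y ≠ 0 ↔ sp i y)) →
      (∀ i ∈ B, ∀ y, y ∉ B → (T'.t B i y ≠ 0 ↔ sp i y)) →
      (∀ X ∈ Q, T.bs X ↔ T'.bs X) → ∀ X, T.bs X → T'.bs X := by
  classical
  set G : Fin n × Fin n × Fin n → Finset (Fin n) × Finset (Fin n) → Prop := fun p r =>
    Pth sp p.2.1 p.2.2 r.1 r.2 ∧ (∀ k ∈ r.1, k ∈ B ∧ k.val < p.1.val) ∧ (∀ w ∈ r.2, w ∉ B) ∧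
      ∀ w ∈ r.2, w ≠ p.2.1 → w ≠ p.2.2 → ¬ sp p.1 w with hG
  have : ∀ p, ∃ r, (∃ r', G p r') → G p r := by
    intro p
    by_cases q : ∃ r', G p r'
    · obtain ⟨r, hr⟩ := q
      exact ⟨r, fun _ => hr⟩
    · exact ⟨(∅, ∅), fun r => absurd r q⟩
  choose ch hch using this
  refine ⟨Finset.univ.image (fun p => (B \ insert p.1 (ch p).1) ∪ (ch p).2), ?_,
    fun T T' hB hB' e e' hQ => ?_⟩
  · refine Finset.card_image_le.trans ?_
    simp [mul_assoc]
  have a1 : ∀ i ∈ B, ∀ y, y ∉ B → (T.A B i y ≠ 0 ↔ sp i y) := fun i hi y hy =>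
    (A_ne hB hi y).trans (e i hi y hy)
  have a2 : ∀ i ∈ B, ∀ y, y ∉ B → (T'.A B i y ≠ 0 ↔ sp i y) := fun i hi y hy =>
    (A_ne hB' hi y).trans (e' i hi y hy)
  have z1 : ∀ i ∈ B, ∀ y, y ∉ B → ¬ sp i y → T.A B i y = 0 := fun i hi y hy q => by
    by_contra r
    exact q ((a1 i hi y hy).1 r)
  have z2 : ∀ i ∈ B, ∀ y, y ∉ B → ¬ sp i y → T'.A B i y = 0 := fun i hi y hy q => by
    by_contra r
    exact q ((a2 i hi y hy).1 r)
  have main : ∀ k : ℕ, ∃ s : Fin n → ZMod 3, (∀ g, s g * s g = 1) ∧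
      ∀ i ∈ B, i.val < k → ∀ f, f ∉ B → T'.A B i f = s i * s f * T.A B i f := by
    intro k
    induction k with
    | zero => exact ⟨fun _ => 1, by simp, fun i _ q => absurd q (by omega)⟩
    | succ k ih =>
      obtain ⟨s, hs, ih⟩ := ih
      by_cases hk : ∃ i0 ∈ B, i0.val = k
      swap
      · refine ⟨s, hs, fun i hi q => ih i hi ?_⟩
        have : i.val ≠ k := fun r => hk ⟨i, hi, r⟩
        omega
      obtain ⟨i0, hi0, rfl⟩ := hk
      set ρ : Fin n → ZMod 3 := fun y => s y * T'.A B i0 y * T.A B i0 y with hρ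
      set Adj : Fin n → Fin n → Prop := fun a b => a ∉ B ∧ b ∉ B ∧
        ∃ i ∈ B, i.val < i0.val ∧ sp i a ∧ sp i b with hAdj
      have test : ∀ y y' I Y, y ∉ B → y' ∉ B → sp i0 y → sp i0 y' → y' ≠ y →
          G (i0, y, y') (I, Y) → ρ y = ρ y' := by
        intro y y' I Y hy hy' s1 s2 n g
        obtain ⟨g1, g2, g3, g4⟩ := hch _ ⟨_, g⟩
        obtain ⟨l, hl, key⟩ := pth_test g1 (T.A B) (fun k hk w hw => a1 k (g2 k hk).1 w (g3 w hw))
        have ni : i0 ∉ (ch (i0, y, y')).1 := fun q => absurd (g2 _ q).2 (lt_irrefl _)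
        have k1 := key T B (fun _ => 1) i0 (by simp) hB (fun k hk => (g2 k hk).1) g3 hi0 ni
          (by simp) (fun w hw a b => z1 i0 hi0 w (g3 w hw) (g4 w hw a b))
        have k2 := key T' B s i0 hs hB' (fun k hk => (g2 k hk).1) g3 hi0 ni
          (fun k hk w hw => ih k (g2 k hk).1 (g2 k hk).2 w (g3 w hw))
          (fun w hw a b => z2 i0 hi0 w (g3 w hw) (g4 w hw a b))
        have k3 := hQ _ (Finset.mem_image_of_mem _ (Finset.mem_univ (i0, y, y')))
        simp only [if_neg n, one_mul] at k1 k2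
        exact z3_test l hl _ _ _ _ ((a1 i0 hi0 y hy).2 s1) ((a1 i0 hi0 y' hy').2 s2)
          (mul_ne_zero (z3_ne _ (hs _)) ((a2 i0 hi0 y hy).2 s1))
          (mul_ne_zero (z3_ne _ (hs _)) ((a2 i0 hi0 y' hy').2 s2)) (k1.symm.trans (k3.trans k2))
      have cst : ∀ y1, y1 ∉ B → sp i0 y1 → ∀ w, Relation.ReflTransGen Adj y1 w →
          ∃ y, y ∉ B ∧ sp i0 y ∧ ρ y = ρ y1 ∧ ∃ I Y, Pth sp y w I Y ∧
            (∀ k ∈ I, k ∈ B ∧ k.val < i0.val) ∧ (∀ v ∈ Y, v ∉ B) ∧
            ∀ v ∈ Y, v ≠ y → ¬ sp i0 v := by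
        intro y1 h1 s1 w c
        induction c with
        | refl => exact ⟨y1, h1, s1, rfl, _, _, Pth.base, by simp, by simpa using h1, by simp⟩
        | @tail w w' _ st ih2 =>
          obtain ⟨y, hy, sy, ey, I, Y, p, p1, p2, p3⟩ := ih2
          obtain ⟨-, nw', i, hi, li, t1, t2⟩ := st
          obtain ⟨I', Y', p', q1, q2⟩ := p.extend i w w' p.mem_end t1 t2
          have r1 : ∀ k ∈ I', k ∈ B ∧ k.val < i0.val := fun k hk => by
            rcases Finset.mem_insert.1 (q1 hk) with rfl | r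
            · exact ⟨hi, li⟩
            · exact p1 k r
          have r2 : ∀ v ∈ Y', v ∉ B := fun v hv => by
            rcases Finset.mem_insert.1 (q2 hv) with rfl | r
            · exact nw'
            · exact p2 v r
          have r3 : ∀ v ∈ Y', v ≠ y → v ≠ w' → ¬ sp i0 v := fun v hv a b =>
            p3 v ((Finset.mem_insert.1 (q2 hv)).resolve_left b) a
          by_cases c1 : sp i0 w' ∧ w' ≠ y
          · exact ⟨w', nw', c1.1, (test y w' I' Y' hy nw' sy c1.1 c1.2
              ⟨p', r1, r2, r3⟩).symm.trans ey, _, _, Pth.base, by simp, by simpa using nw',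
              by simp⟩
          · refine ⟨y, hy, sy, ey, I', Y', p', r1, r2, fun v hv a => ?_⟩
            by_cases b : v = w'
            · exact fun r => c1 ⟨b ▸ r, b ▸ a⟩
            · exact r3 v hv a b
      have cst' : ∀ y1 y2, y1 ∉ B → sp i0 y1 → sp i0 y2 → Relation.ReflTransGen Adj y1 y2 →
          ρ y2 = ρ y1 := by
        intro y1 y2 h1 s1 s2 c
        obtain ⟨y, -, -, ey, I, Y, p, -, -, p3⟩ := cst y1 h1 s1 y2 c
        have : y2 = y := by
          by_contra q
          exact p3 y2 p.mem_end q s2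
        rw [this, ey]
      have sy : ∀ a b, Relation.ReflTransGen Adj a b → Relation.ReflTransGen Adj b a := by
        intro a b c
        induction c with
        | refl => exact Relation.ReflTransGen.refl
        | tail _ st ih2 =>
          obtain ⟨t1, t2, i, hi, li, t3, t4⟩ := st
          exact Relation.ReflTransGen.head ⟨t2, t1, i, hi, li, t4, t3⟩ ih2
      have ρ2 : ∀ y, y ∉ B → sp i0 y → ρ y * ρ y = 1 := fun y hy q => z3_sq _
        (mul_ne_zero (mul_ne_zero (z3_ne _ (hs _)) ((a2 i0 hi0 y hy).2 q)) ((a1 i0 hi0 y hy).2 q))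
      have : ∀ w, ∃ h : ZMod 3, h * h = 1 ∧
          (∀ y, y ∉ B → sp i0 y → Relation.ReflTransGen Adj y w → h = ρ y) ∧
          ((¬ ∃ y, y ∉ B ∧ sp i0 y ∧ Relation.ReflTransGen Adj y w) → h = 1) := by
        intro w
        by_cases q : ∃ y, y ∉ B ∧ sp i0 y ∧ Relation.ReflTransGen Adj y w
        · obtain ⟨y, q1, q2, q3⟩ := q
          exact ⟨ρ y, ρ2 y q1 q2, fun y' r1 r2 r3 => cst' y' y r1 r2 q2 (r3.trans (sy _ _ q3)),
            fun r => absurd ⟨y, q1, q2, q3⟩ r⟩
        · exact ⟨1, by simp, fun y r1 r2 r3 => absurd ⟨y, r1, r2, r3⟩ q, fun _ => rfl⟩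
      choose η η1 η2 η3 using this
      have ηadj : ∀ a b, Adj a b → η a = η b := by
        intro a b ab
        by_cases q : ∃ y, y ∉ B ∧ sp i0 y ∧ Relation.ReflTransGen Adj y a
        · obtain ⟨y, q1, q2, q3⟩ := q
          rw [η2 a y q1 q2 q3, η2 b y q1 q2 (q3.tail ab)]
        · rw [η3 a q, η3 b]
          rintro ⟨y, q1, q2, q3⟩
          exact q ⟨y, q1, q2, q3.trans (sy _ _ (Relation.ReflTransGen.single ab))⟩
      have : ∀ i, ∃ h : ZMod 3, h * h = 1 ∧
          (i ∈ B → i.val < i0.val → ∀ f, f ∉ B → sp i f → h = η f) := by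
        intro i
        by_cases q : ∃ f, f ∉ B ∧ sp i f
        · obtain ⟨f, q1, q2⟩ := q
          exact ⟨η f, η1 f, fun hi li f' r1 r2 => ηadj _ _ ⟨q1, r1, i, hi, li, q2, r2⟩⟩
        · exact ⟨1, by simp, fun _ _ f r1 r2 => absurd ⟨f, r1, r2⟩ q⟩
      choose θ θ1 θ2 using this
      refine ⟨fun g => if g = i0 then 1 else if g ∈ B then θ g * s g else η g * s g,
        fun g => ?_, fun i hi li f hf => ?_⟩
      · beta_reduce
        split_ifs
        · simp
        · linear_combination (s g * s g) * θ1 g + hs g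
        · linear_combination (s g * s g) * η1 g + hs g
      · beta_reduce
        rw [if_neg (show f ≠ i0 from fun q => hf (q ▸ hi0)), if_neg hf]
        by_cases c : sp i f
        swap
        · rw [z1 i hi f hf c, z2 i hi f hf c, mul_zero]
        by_cases q : i = i0
        · subst q
          rw [if_pos rfl, η2 f f hf c Relation.ReflTransGen.refl]
          simp only [hρ]
          have u := z3_sq _ ((a1 i hi f hf).2 c)
          linear_combination (-(T'.A B i f * T.A B i f * T.A B i f)) * hs f - T'.A B i f * u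
        · have li' : i.val < i0.val := by
            have : i.val ≠ i0.val := fun r => q (Fin.ext r)
            omega
          rw [if_neg q, if_pos hi, θ2 i hi li' f hf c, ih i hi li' f hf]
          linear_combination (-(s i * s f * T.A B i f)) * η1 f
  obtain ⟨s, hs, h⟩ := main n
  intro X hX
  refine eqv_bs hs hX _ B rfl hB hB' (fun i hi f => ?_)
  by_cases q : f ∈ B
  · unfold A
    by_cases r : i = f
    · subst r
      rw [T.id1 B hB i hi, T'.id1 B hB' i hi, hs, one_mul]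
    · rw [T.id0 B hB i hi f q r, T'.id0 B hB' i hi f q r, pi3_zero, mul_zero]
  · exact h i hi i.isLt f q

end Tab

end Pool.Agent.NearReg
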