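import Pool.Agent.Lib.MP_da0a56_lc.NegLoc

/-! Dependence in the nested tripod is decided by a field-independent automaton. -/

set_option autoImplicit false

namespace Pool.Agent.Sixth

def st (χ : ℕ → Bool) : ℕ → Fin 6
  | 0 => 1
  | l + 1 => nx (st χ l) (χ (6 * l)) (χ (6 * l + 1)) (χ (6 * l + 2)) (χ (6 * l + 3))
      (χ (6 * l + 4)) (χ (6 * l + 5))

def fl (χ : ℕ → Bool) : ℕ → Bool
  | 0 => false
  | l + 1 => fl χ l || dp (st χ l) (χ (6 * l)) (χ (6 * l + 1)) (χ (6 * l + 2)) (χ (6 * l + 3))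
      (χ (6 * l + 4)) (χ (6 * l + 5))

def Acc (χ : ℕ → Bool) (k : ℕ) : Prop := fl χ k = true ∨ st χ k = 1 ∨ st χ k = 5

section
variable {K : Type*} [CommRing K]

def sv (z s0 : K) (g : ℕ → K) : ℕ → K
  | 0 => s0
  | l + 1 => sv z s0 g l + g (6 * l + 4) + z * g (6 * l + 5)

def tv (g : ℕ → K) : ℕ → K
  | 0 => 0
  | l + 1 => tv g l + g (6 * l + 3) + g (6 * l + 4) + g (6 * l + 5)

def Eqs (z s0 : K) (g : ℕ → K) (l : ℕ) : Prop :=
  g (6 * l) = sv z s0 g l - tv g l - g (6 * l + 3) ∧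
  g (6 * l + 1) = sv z s0 g l - z * tv g l - (z - 1) * g (6 * l + 4) ∧
  g (6 * l + 2) = sv z s0 g l + z * g (6 * l + 5)

def Ch (z : K) (χ : ℕ → Bool) (s0 : K) (g : ℕ → K) (k : ℕ) : Prop :=
  (∀ i < 6 * k, χ i = false → g i = 0) ∧ ∀ l < k, Eqs z s0 g l

theorem sv_congr (z s0 : K) {g g' : ℕ → K} (l : ℕ) (h : ∀ i < 6 * l, g i = g' i) :
    sv z s0 g l = sv z s0 g' l := by
  induction l with
  | zero => rfl
  | succ l ih =>
    simp only [sv]
    rw [ih (fun i hi => h i (by omega)), h _ (by omega), h _ (by omega)]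

theorem tv_congr {g g' : ℕ → K} (l : ℕ) (h : ∀ i < 6 * l, g i = g' i) : tv g l = tv g' l := by
  induction l with
  | zero => rfl
  | succ l ih =>
    simp only [tv]
    rw [ih (fun i hi => h i (by omega)), h _ (by omega), h _ (by omega), h _ (by omega)]

theorem Ch.congr {z : K} {χ : ℕ → Bool} {s0 : K} {g g' : ℕ → K} {k : ℕ} (c : Ch z χ s0 g k)
    (h : ∀ i < 6 * k, g i = g' i) : Ch z χ s0 g' k := by
  refine ⟨fun i hi q => h i hi ▸ c.1 i hi q, fun l hl => ?_⟩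
  have e := c.2 l hl
  unfold Eqs at e ⊢
  rw [← sv_congr z s0 l (fun i hi => h i (by omega)), ← tv_congr l (fun i hi => h i (by omega)),
    ← h _ (by omega), ← h _ (by omega), ← h _ (by omega), ← h _ (by omega), ← h _ (by omega),
    ← h _ (by omega)]
  exact e

theorem Ch.pre {z : K} {χ : ℕ → Bool} {s0 : K} {g : ℕ → K} {k : ℕ} (c : Ch z χ s0 g (k + 1)) :
    Ch z χ s0 g k := ⟨fun i hi => c.1 i (by omega), fun l hl => c.2 l (by omega)⟩

theorem Ch.ext {z : K} {χ : ℕ → Bool} {s0 : K} {g : ℕ → K} {k : ℕ} (c : Ch z χ s0 g k)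
    {n0 n1 n2 : K}
    (h0 : Lg (χ (6 * k)) (χ (6 * k + 3)) (sv z s0 g k - tv g k - n0) n0)
    (h1 : Lg (χ (6 * k + 1)) (χ (6 * k + 4)) (sv z s0 g k - z * tv g k - (z - 1) * n1) n1)
    (h2 : Lg (χ (6 * k + 2)) (χ (6 * k + 5)) (sv z s0 g k + z * n2) n2) :
    ∃ g', Ch z χ s0 g' (k + 1) ∧ (∀ i < 6 * k, g i = g' i) ∧ g' (6 * k + 3) = n0 ∧
      g' (6 * k + 4) = n1 ∧ g' (6 * k + 5) = n2 ∧
      sv z s0 g' (k + 1) = sv z s0 g k + n1 + z * n2 ∧ tv g' (k + 1) = tv g k + n0 + n1 + n2 := by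
  set g' : ℕ → K := fun i => if i < 6 * k then g i else
    if i = 6 * k then sv z s0 g k - tv g k - n0 else
    if i = 6 * k + 1 then sv z s0 g k - z * tv g k - (z - 1) * n1 else
    if i = 6 * k + 2 then sv z s0 g k + z * n2 else
    if i = 6 * k + 3 then n0 else if i = 6 * k + 4 then n1 else n2 with hg
  have a : ∀ i < 6 * k, g i = g' i := fun i hi => by simp [hg, hi]
  have e0 : g' (6 * k) = sv z s0 g k - tv g k - n0 := by simp [hg]
  have e1 : g' (6 * k + 1) = sv z s0 g k - z * tv g k - (z - 1) * n1 := by simp [hg]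
  have e2 : g' (6 * k + 2) = sv z s0 g k + z * n2 := by simp [hg]
  have e3 : g' (6 * k + 3) = n0 := by simp [hg]
  have e4 : g' (6 * k + 4) = n1 := by simp [hg]
  have e5 : g' (6 * k + 5) = n2 := by simp [hg]
  have c' := c.congr a
  have s := sv_congr z s0 k a
  have t := tv_congr k a
  refine ⟨g', ⟨fun i hi q => ?_, fun l hl => ?_⟩, a, e3, e4, e5, ?_, ?_⟩
  · have : i < 6 * k ∨ i = 6 * k ∨ i = 6 * k + 1 ∨ i = 6 * k + 2 ∨ i = 6 * k + 3 ∨
        i = 6 * k + 4 ∨ i = 6 * k + 5 := by omega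
    rcases this with r | rfl | rfl | rfl | rfl | rfl | rfl
    · exact c'.1 i r q
    · rw [e0]; exact h0.1 q
    · rw [e1]; exact h1.1 q
    · rw [e2]; exact h2.1 q
    · rw [e3]; exact h0.2 q
    · rw [e4]; exact h1.2 q
    · rw [e5]; exact h2.2 q
  · by_cases r : l < k
    · exact c'.2 l r
    · obtain rfl : l = k := by omega
      unfold Eqs
      rw [e0, e1, e2, e3, e4, e5, s, t]
      exact ⟨rfl, rfl, rfl⟩
  · simp only [sv]
    rw [e4, e5, s]
  · simp only [tv]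
    rw [e3, e4, e5, t]

theorem inv1 {z : K} (h : L1 z) {χ : ℕ → Bool} {s0 : K} {g : ℕ → K} (k : ℕ)
    (c : Ch z χ s0 g k) : Mem z (st χ k) (sv z s0 g k) (tv g k) ∧
      (fl χ k = false → sv z s0 g k = 0 → tv g k = 0 → ∀ i < 6 * k, g i = 0) := by
  induction k with
  | zero => exact ⟨by simp [Mem, st, tv], fun _ _ _ i hi => by omega⟩
  | succ k ih =>
    obtain ⟨m, r⟩ := ih c.pre
    obtain ⟨e0, e1, e2⟩ := c.2 k (by omega)
    obtain ⟨m', r'⟩ := h _ (χ (6 * k)) (χ (6 * k + 1)) (χ (6 * k + 2)) (χ (6 * k + 3))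
      (χ (6 * k + 4)) (χ (6 * k + 5)) _ _ m (g (6 * k + 3))
      ⟨fun q => e0 ▸ c.1 _ (by omega) q, c.1 _ (by omega)⟩ (g (6 * k + 4))
      ⟨fun q => e1 ▸ c.1 _ (by omega) q, c.1 _ (by omega)⟩ (g (6 * k + 5))
      ⟨fun q => e2 ▸ c.1 _ (by omega) q, c.1 _ (by omega)⟩
    refine ⟨m', fun f s t i hi => ?_⟩
    simp only [fl, Bool.or_eq_false_iff] at f
    obtain ⟨z1, z2, z3, z4, z5⟩ := r' f.2 s t
    have : i < 6 * k ∨ i = 6 * k ∨ i = 6 * k + 1 ∨ i = 6 * k + 2 ∨ i = 6 * k + 3 ∨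
        i = 6 * k + 4 ∨ i = 6 * k + 5 := by omega
    rcases this with q | rfl | rfl | rfl | rfl | rfl | rfl
    · exact r f.1 z1 z2 i q
    · rw [e0, z1, z2, z3]; ring
    · rw [e1, z1, z2, z4]; ring
    · rw [e2, z1, z5]; ring
    · exact z3
    · exact z4
    · exact z5

theorem inv2 {z : K} (h : L2 z) (χ : ℕ → Bool) (k : ℕ) : ∀ s t, Mem z (st χ k) s t →
    ∃ s0 g, Ch z χ s0 g k ∧ sv z s0 g k = s ∧ tv g k = t := by
  induction k with
  | zero =>
    intro s t m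
    exact ⟨s, 0, ⟨fun i hi => by omega, fun i hi => by omega⟩, rfl, (m.2.1 rfl).symm⟩
  | succ k ih =>
    intro s' t' m'
    obtain ⟨s, t, m, n0, h0, n1, h1, n2, h2, e1, e2⟩ := h _ _ _ _ _ _ _ _ _ m'
    obtain ⟨s0, g, c, rfl, rfl⟩ := ih s t m
    obtain ⟨g', c', -, -, -, -, a1, a2⟩ := c.ext h0 h1 h2
    exact ⟨s0, g', c', a1.trans e1, a2.trans e2⟩

theorem inv3 {z : K} (h2 : L2 z) (h : L3 z) (χ : ℕ → Bool) (k : ℕ) (f : fl χ k = true) :
    ∃ s0 g, Ch z χ s0 g k ∧ sv z s0 g k = 0 ∧ tv g k = 0 ∧ ∃ i < 6 * k, g i ≠ 0 := by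
  induction k with
  | zero => simp [fl] at f
  | succ k ih =>
    simp only [fl, Bool.or_eq_true] at f
    rcases f with f | f
    · obtain ⟨s0, g, c, s, t, i, hi, n⟩ := ih f
      obtain ⟨g', c', a, -, -, -, a1, a2⟩ := c.ext (n0 := 0) (n1 := 0) (n2 := 0)
        ⟨fun _ => by rw [s, t]; ring, fun _ => rfl⟩ ⟨fun _ => by rw [s, t]; ring, fun _ => rfl⟩
        ⟨fun _ => by rw [s]; ring, fun _ => rfl⟩
      exact ⟨s0, g', c', by rw [a1, s]; ring, by rw [a2, t]; ring, i, by omega, a i hi ▸ n⟩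
    · obtain ⟨s, t, m, n0, h0, n1, h1, n2, h2', e1, e2, nz⟩ := h _ _ _ _ _ _ _ f
      obtain ⟨s0, g, c, rfl, rfl⟩ := inv2 h2 χ k s t m
      obtain ⟨g', c', -, b0, b1, b2, a1, a2⟩ := c.ext h0 h1 h2'
      refine ⟨s0, g', c', a1.trans e1, a2.trans e2, ?_⟩
      by_contra q
      push Not at q
      exact nz ⟨b0 ▸ q _ (by omega), b1 ▸ q _ (by omega), b2 ▸ q _ (by omega)⟩

def Dep (z : K) (χ : ℕ → Bool) (k : ℕ) : Prop :=
  ∃ s0 g, Ch z χ s0 g k ∧ tv g k = 0 ∧ ∃ i < 6 * k, g i ≠ 0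

theorem dep_iff [Nontrivial K] {z : K} (h1 : L1 z) (h2 : L2 z) (h3 : L3 z) (χ : ℕ → Bool) {k : ℕ}
    (hk : 0 < k) : Dep z χ k ↔ Acc χ k := by
  constructor
  · rintro ⟨s0, g, c, t, i, hi, n⟩
    by_contra q
    unfold Acc at q
    push Not at q
    obtain ⟨m, r⟩ := inv1 h1 k c
    refine n (r (by simpa using q.1) ?_ t i hi)
    have a1 : (st χ k).val ≠ 1 := fun w => q.2.1 (Fin.ext w)
    have a5 : (st χ k).val ≠ 5 := fun w => q.2.2 (Fin.ext w)
    have := (st χ k).isLt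
    have : (st χ k).val = 0 ∨ (st χ k).val = 2 ∨ (st χ k).val = 3 ∨ (st χ k).val = 4 := by omega
    rcases this with w | w | w | w
    · exact (m.1 w).1
    · exact m.2.2.1 w
    · rw [m.2.2.2.1 w, t]
    · rw [m.2.2.2.2 w, t, mul_zero]
  · intro a
    by_cases f : fl χ k = true
    · obtain ⟨s0, g, c, -, t, n⟩ := inv3 h2 h3 χ k f
      exact ⟨s0, g, c, t, n⟩
    · have m : Mem z (st χ k) 1 0 := by
        rcases a with a | a | a
        · exact absurd a f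
        · rw [a]; simp [Mem]
        · rw [a]; simp [Mem]
      obtain ⟨s0, g, c, s, t⟩ := inv2 h2 χ k 1 0 m
      refine ⟨s0, g, c, t, ?_⟩
      by_contra q
      push Not at q
      have e := (c.2 0 hk).2.2
      rw [q _ (by omega), q _ (by omega)] at e
      have z0 : ∀ l, sv z s0 (fun _ => 0) l = s0 := by
        intro l
        induction l with
        | zero => rfl
        | succ l ih => simp [sv, ih]
      rw [sv_congr z s0 k q, z0] at s
      simp [sv, s] at e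

end

end Pool.Agent.Sixth
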