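import Pool.Agent.Lib.MP_da0a56_lc.NegMain

/-! Relaxations are not ternary, in any dimension. -/

set_option autoImplicit false

namespace Pool.Agent.Sixth

theorem ex_bad' {k : ℕ} (hk : 0 < k) (N : Matroid (Fin (6 * k)))
    (hN : ∀ I, N.Indep I ↔ ¬ Acc (chi I) k) (hc : ∀ I, N.Indep I → I.ncard ≤ 3 * k)
    (T : ℕ → Bool) (hT : T 0 = false) : ∃ M : Matroid (Fin (6 * k)), M.E = Set.univ ∧
      (∀ (s : ℕ) (v : Fin (6 * k) → Fin s → ZMod 3),
        ¬ ∀ I, M.Indep I ↔ LinearIndepOn (ZMod 3) v I) ∧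
      ∀ X, X ≠ Hs k T → M.eRk X = N.eRk X := by
  have h2 : ∀ h ∈ Hs k T, ∀ f, f ∉ Hs k T → N.Indep (insert f (Hs k T \ {h})) := by
    intro h hh f hf
    rw [hN]
    refine near_acc (T := T) h.isLt f.isLt hh hf (fun a ha => chi_eq _ ha ?_)
    simp only [Set.mem_insert_iff, Set.mem_sdiff, Set.mem_singleton_iff, mem_Hs, Fin.ext_iff,
      Bool.or_eq_true, Bool.and_eq_true, decide_eq_true_eq, Bool.not_eq_true',
      decide_eq_false_iff_not, beq_iff_eq]
    rw [eq_comm (a := f.val), eq_comm (a := h.val), and_comm]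
  have h3 : ∀ I, N.Indep I → I.ncard ≤ (Hs k T).ncard :=
    fun I hI => (hc I hI).trans (card_Hs k T)
  let a : Fin (6 * k) := ⟨1, by omega⟩
  let b : Fin (6 * k) := ⟨2, by omega⟩
  let c : Fin 3 → Fin (6 * k) := fun i => ⟨3 + i.val, by omega⟩
  have ma : a ∈ Hs k T := by simp [Hs, a, hT]
  have mb : b ∈ Hs k T := by simp [Hs, b, hT]
  have nc : ∀ i, c i ∉ Hs k T := by
    intro i
    have := i.isLt
    simp only [mem_Hs, c, show (3 + i.val) / 6 = 0 by omega, hT,
      decide_eq_false_iff_not]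
    omega
  have nab : a ≠ b := by simp [a, b]
  obtain ⟨M, hE, hM, hr⟩ := ex_relax N (Hs k T) (nc 0) ma h2 h3
  refine ⟨M, hE, ?_, hr⟩
  intro s v hv
  have e0 : insert a (insert b (Hs k T \ {a, b})) = Hs k T := by
    ext x
    simp only [Set.mem_insert_iff, Set.mem_sdiff, Set.mem_singleton_iff]
    constructor
    · rintro (rfl | rfl | q)
      exacts [ma, mb, q.1]
    · tauto
  have e1 : insert a (Hs k T \ {a, b}) = Hs k T \ {b} := by
    ext x
    simp only [Set.mem_insert_iff, Set.mem_sdiff, Set.mem_singleton_iff]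
    constructor
    · rintro (rfl | q)
      exacts [⟨ma, nab⟩, ⟨q.1, fun r => q.2 (Or.inr r)⟩]
    · tauto
  have e2 : insert b (Hs k T \ {a, b}) = Hs k T \ {a} := by
    ext x
    simp only [Set.mem_insert_iff, Set.mem_sdiff, Set.mem_singleton_iff]
    constructor
    · rintro (rfl | q)
      exacts [⟨mb, nab.symm⟩, ⟨q.1, fun r => q.2 (Or.inl r)⟩]
    · tauto
  refine nonrep v (Hs k T \ {a, b}) a b c (fun i => by rw [e0]; exact nc i)
    (fun i j n q => n (Fin.ext (by simpa [c] using q))) ?_ (fun i => ?_) (fun i => ?_)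
    (fun i => ?_) (fun i j hij => ?_)
  · rw [e0, ← hv, hM]
    exact Or.inr rfl
  · rw [e0, ← hv, hM]
    rintro (q | q)
    · have := h3 _ q
      rw [Set.ncard_insert_of_notMem (nc i)] at this
      omega
    · exact nc i (q ▸ Set.mem_insert _ _)
  · rw [e1, ← hv, hM]
    exact Or.inl (h2 b mb _ (nc i))
  · rw [e2, ← hv, hM]
    exact Or.inl (h2 a ma _ (nc i))
  · rw [← hv, hM, hN]
    left
    have := i.isLt
    have := j.isLt
    have hij' : i.val < j.val := hij
    refine far_acc (T := T) hk ⟨6 - i.val - j.val, by omega⟩ (by simp only; omega)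
      (chi_eq _ (by omega) ?_) (chi_eq _ (by omega) ?_) (chi_eq _ (by omega) ?_)
      (chi_eq _ (by omega) ?_) (chi_eq _ (by omega) ?_) (chi_eq _ (by omega) ?_)
      (fun x hx h6 => chi_eq _ hx ?_)
    all_goals simp only [Set.mem_insert_iff, Set.mem_sdiff, Set.mem_singleton_iff, mem_Hs,
      Fin.ext_iff, a, b, c, hT, Nat.reduceDiv, Nat.reduceMod, decide_eq_false_iff_not, bne_iff_ne,
      beq_iff_eq, Bool.false_eq_true, iff_false, iff_true, ne_eq, true_or, or_true,
      not_true_eq_false, and_false, or_false]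
    any_goals omega
    constructor
    · rintro (q | q | q)
      · omega
      · omega
      · exact q.1
    · exact fun q => Or.inr (Or.inr ⟨q, by omega⟩)

end Pool.Agent.Sixth
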