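import Pool.Agent.Lib.MP_da0a56_lc.NegAuto

/-! The vectors of the nested tripod and its circuit-hyperplanes. -/

set_option autoImplicit false

namespace Pool.Agent.Sixth

theorem lin_fun {K V ι : Type*} [Field K] [AddCommGroup V] [Module K V] [Fintype ι] (v : ι → V)
    (I : Set ι) : LinearIndepOn K v I ↔
      ∀ g : ι → K, (∀ i, i ∉ I → g i = 0) → ∑ i, g i • v i = 0 → ∀ i, g i = 0 := by
  rw [linearIndepOn_iff]
  constructor
  · intro h g h1 h2 i
    have := h (Finsupp.equivFunOnFinite.symm g) ((Finsupp.mem_supported' _ _).2 h1) (by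
      rw [Finsupp.linearCombination_apply, Finsupp.sum_fintype _ _ (by simp)]
      exact h2)
    exact DFunLike.congr_fun this i
  · intro h l h1 h2
    rw [Finsupp.linearCombination_apply, Finsupp.sum_fintype _ _ (by simp)] at h2
    ext i
    exact h l ((Finsupp.mem_supported' _ _).1 h1) h2 i

section
variable {K : Type*} [Field K]

def pr (i : ℕ) : (ℕ → K) →ₗ[K] K := LinearMap.proj i

def sL (z : K) : ℕ → ((ℕ → K) →ₗ[K] K)
  | 0 => pr 2 - z • pr 5
  | l + 1 => sL z l + pr (6 * l + 4) + z • pr (6 * l + 5)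

def tL : ℕ → ((ℕ → K) →ₗ[K] K)
  | 0 => 0
  | l + 1 => tL l + pr (6 * l + 3) + pr (6 * l + 4) + pr (6 * l + 5)

theorem pr_apply (i : ℕ) (g : ℕ → K) : pr i g = g i := rfl

theorem sL_apply (z : K) (g : ℕ → K) (l : ℕ) : sL z l g = sv z (g 2 - z * g 5) g l := by
  induction l with
  | zero => simp [sL, sv, pr_apply]
  | succ l ih => simp [sL, sv, pr_apply, ih]

theorem tL_apply (g : ℕ → K) (l : ℕ) : tL l g = tv g l := by
  induction l with
  | zero => simp [tL, tv]
  | succ l ih => simp [tL, tv, pr_apply, ih]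

def Phi (z : K) (k j : ℕ) : (ℕ → K) →ₗ[K] K :=
  if j = 2 then tL k else
  if j % 3 = 0 then pr (6 * (j / 3)) - (sL z (j / 3) - tL (j / 3) - pr (6 * (j / 3) + 3)) else
  if j % 3 = 1 then pr (6 * (j / 3) + 1) -
    (sL z (j / 3) - z • tL (j / 3) - (z - 1) • pr (6 * (j / 3) + 4)) else
  pr (6 * (j / 3) + 2) - (sL z (j / 3) + z • pr (6 * (j / 3) + 5))

theorem phi_iff (z : K) {k : ℕ} (hk : 0 < k) (g : ℕ → K) :
    (∀ j < 3 * k, Phi z k j g = 0) ↔
      (∀ l < k, Eqs z (g 2 - z * g 5) g l) ∧ tv g k = 0 := by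
  constructor
  · intro h
    refine ⟨fun l hl => ⟨?_, ?_, ?_⟩, ?_⟩
    · have := h (3 * l) (by omega)
      rw [Phi, if_neg (by omega), if_pos (by omega), show 3 * l / 3 = l by omega] at this
      simpa [pr_apply, sL_apply, tL_apply, sub_eq_zero] using this
    · have := h (3 * l + 1) (by omega)
      rw [Phi, if_neg (by omega), if_neg (by omega), if_pos (by omega),
        show (3 * l + 1) / 3 = l by omega] at this
      simpa [pr_apply, sL_apply, tL_apply, sub_eq_zero] using this
    · by_cases q : l = 0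
      · subst q
        simp [sv]
      · have := h (3 * l + 2) (by omega)
        rw [Phi, if_neg (by omega), if_neg (by omega), if_neg (by omega),
          show (3 * l + 2) / 3 = l by omega] at this
        simpa [pr_apply, sL_apply, tL_apply, sub_eq_zero] using this
    · have := h 2 (by omega)
      rwa [Phi, if_pos rfl, tL_apply] at this
  · rintro ⟨h, t⟩ j hj
    obtain ⟨e0, e1, e2⟩ := h (j / 3) (by omega)
    unfold Phi
    split_ifs
    · rwa [tL_apply]
    · simpa [pr_apply, sL_apply, tL_apply, sub_eq_zero] using e0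
    · simpa [pr_apply, sL_apply, tL_apply, sub_eq_zero] using e1
    · simpa [pr_apply, sL_apply, tL_apply, sub_eq_zero] using e2

/-- the vectors -/
def wv (z : K) (k : ℕ) (i : Fin (6 * k)) (j : Fin (3 * k)) : K :=
  Phi z k j (Pi.single i.val 1)

open Classical in
noncomputable def chi {n : ℕ} (I : Set (Fin n)) (a : ℕ) : Bool :=
  decide (∃ h : a < n, (⟨a, h⟩ : Fin n) ∈ I)

theorem chi_val {n : ℕ} (I : Set (Fin n)) (i : Fin n) : chi I i.val = false ↔ i ∉ I := by
  simp [chi]

theorem sum_wv (z : K) (k : ℕ) (g : Fin (6 * k) → K) (j : Fin (3 * k)) :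
    (∑ i, g i • wv z k i) j = Phi z k j (fun a => if h : a < 6 * k then g ⟨a, h⟩ else 0) := by
  have : (fun a => if h : a < 6 * k then g ⟨a, h⟩ else 0) =
      ∑ i : Fin (6 * k), g i • (Pi.single i.val 1 : ℕ → K) := by
    ext a
    simp only [Finset.sum_apply, Pi.smul_apply, smul_eq_mul]
    split_ifs with h
    · rw [Finset.sum_eq_single ⟨a, h⟩]
      · simp
      · intro b _ n
        rw [Pi.single_eq_of_ne (fun q => n (Fin.ext q.symm)), mul_zero]
      · simp
    · refine (Finset.sum_eq_zero (fun b _ => ?_)).symm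
      rw [Pi.single_eq_of_ne (fun q : a = b.val => h (q ▸ b.isLt)), mul_zero]
  rw [this, map_sum]
  simp [wv]

theorem lin_iff (z : K) {k : ℕ} (hk : 0 < k) (I : Set (Fin (6 * k))) :
    LinearIndepOn K (wv z k) I ↔ ¬ Dep z (chi I) k := by
  rw [lin_fun]
  constructor
  · rintro h ⟨s0, g, c, t, i, hi, n⟩
    have e : s0 = g 2 - z * g 5 := by
      have := (c.2 0 hk).2.2
      simp only [sv] at this
      linear_combination -this
    subst e
    have a : ∀ a < 6 * k, g a = (fun a => if h : a < 6 * k then g a else 0) a := by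
      intro a ha
      simp [ha]
    refine n (h (fun i => g i.val) (fun i q => c.1 _ i.isLt ((chi_val I i).2 q)) ?_ ⟨i, hi⟩)
    ext j
    rw [sum_wv]
    refine (phi_iff z hk _).2 ⟨?_, tv_congr k a ▸ t⟩ j j.isLt
    have := (c.congr a).2
    rwa [a 2 (by omega), a 5 (by omega)] at this
  · intro h g h1 h2 i
    by_contra n
    obtain ⟨e, t⟩ := (phi_iff z hk (fun a => if h : a < 6 * k then g ⟨a, h⟩ else 0)).1
      (fun j hj => by
        have := congrFun h2 ⟨j, hj⟩
        rwa [sum_wv] at this)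
    refine h ⟨_, _, ⟨fun a ha q => ?_, e⟩, t, i.val, i.isLt, by simpa using n⟩
    rw [dif_pos ha]
    exact h1 _ ((chi_val I ⟨a, ha⟩).1 q)

theorem lin_acc {z : K} (h1 : L1 z) (h2 : L2 z) (h3 : L3 z) {k : ℕ} (hk : 0 < k)
    (I : Set (Fin (6 * k))) : LinearIndepOn K (wv z k) I ↔ ¬ Acc (chi I) k := by
  rw [lin_iff z hk, dep_iff h1 h2 h3 _ hk]

theorem ex_rep {m n : ℕ} (σ : Fin n → Fin m) (hσ : Function.Surjective σ) (w : Fin n → Fin m → K) :
    ∃ v : Fin n → Fin n → K, ∀ I, LinearIndepOn K v I ↔ LinearIndepOn K w I :=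
  ⟨LinearMap.funLeft K K σ ∘ w, fun _ => LinearMap.linearIndepOn_iff_of_injOn _
    (LinearMap.funLeft_injective_of_surjective K K σ hσ).injOn⟩

end

/-- phases of the automaton along a set close to a circuit-hyperplane -/
def Ph (hs fs : Bool) (σ : Fin 6) : Prop :=
  (hs = false → fs = false → σ = 1) ∧ (hs = true → fs = false → σ = 0) ∧
    (hs = false → fs = true → σ = 5) ∧ (hs = true → fs = true → σ = 2 ∨ σ = 3 ∨ σ = 4)

instance (hs fs : Bool) (σ : Fin 6) : Decidable (Ph hs fs σ) := by unfold Ph; infer_instance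

def bit (b : Bool) (hp fp : Fin 7) (j : ℕ) : Bool :=
  decide (fp.val = j) || (!decide (hp.val = j) && (decide (3 ≤ j) == b))

theorem ph_step : ∀ (b : Bool) (hp fp : Fin 7) (hs fs : Bool) (σ : Fin 6), Ph hs fs σ →
    (hp.val ≠ 6 → hs = false ∧ decide (3 ≤ hp.val) = b) →
    (fp.val ≠ 6 → fs = false ∧ decide (3 ≤ fp.val) ≠ b) →
    dp σ (bit b hp fp 0) (bit b hp fp 1) (bit b hp fp 2) (bit b hp fp 3) (bit b hp fp 4)
      (bit b hp fp 5) = false ∧
    Ph (hs || decide (hp.val ≠ 6)) (fs || decide (fp.val ≠ 6)) (nx σ (bit b hp fp 0)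
      (bit b hp fp 1) (bit b hp fp 2) (bit b hp fp 3) (bit b hp fp 4) (bit b hp fp 5)) := by
  decide +kernel

theorem near_acc {χ T : ℕ → Bool} {h f k : ℕ} (hh : h < 6 * k) (hf : f < 6 * k)
    (bh : decide (3 ≤ h % 6) = T (h / 6)) (bf : decide (3 ≤ f % 6) ≠ T (f / 6))
    (hχ : ∀ a < 6 * k, χ a = (decide (f = a) || (!decide (h = a) &&
      (decide (3 ≤ a % 6) == T (a / 6))))) : ¬ Acc χ k := by
  have key : ∀ l ≤ k, fl χ l = false ∧ Ph (decide (h < 6 * l)) (decide (f < 6 * l)) (st χ l) := by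
    intro l
    induction l with
    | zero => intro _; simp [fl, st, Ph]
    | succ l ih =>
      intro hl
      obtain ⟨f0, p0⟩ := ih (by omega)
      let hp : Fin 7 := ⟨if h / 6 = l then h % 6 else 6, by split_ifs <;> omega⟩
      let fp : Fin 7 := ⟨if f / 6 = l then f % 6 else 6, by split_ifs <;> omega⟩
      have vh : hp.val = if h / 6 = l then h % 6 else 6 := rfl
      have vf : fp.val = if f / 6 = l then f % 6 else 6 := rfl
      have eb : ∀ j < 6, χ (6 * l + j) = bit (T l) hp fp j := by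
        intro j hj
        rw [hχ _ (by omega), bit, show (6 * l + j) % 6 = j by omega,
          show (6 * l + j) / 6 = l by omega]
        congr 1
        · rw [decide_eq_decide, vf]
          split_ifs <;> omega
        · congr 2
          rw [decide_eq_decide, vh]
          split_ifs <;> omega
      obtain ⟨d, p⟩ := ph_step (T l) hp fp _ _ _ p0 (fun q => by
          rw [vh] at q ⊢
          split_ifs at q ⊢ with r
          · exact ⟨by simp; omega, r ▸ bh⟩
          · exact absurd rfl q) (fun q => by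
          rw [vf] at q ⊢
          split_ifs at q ⊢ with r
          · exact ⟨by simp; omega, r ▸ bf⟩
          · exact absurd rfl q)
      rw [← eb 0 (by omega), ← eb 1 (by omega), ← eb 2 (by omega), ← eb 3 (by omega),
        ← eb 4 (by omega), ← eb 5 (by omega)] at d p
      refine ⟨by simp only [fl, f0, Bool.false_or]; exact d, ?_⟩
      have a1 : decide (h < 6 * (l + 1)) = (decide (h < 6 * l) || decide (hp.val ≠ 6)) := by
        rw [← Bool.decide_or, decide_eq_decide, vh]
        split_ifs <;> omega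
      have a2 : decide (f < 6 * (l + 1)) = (decide (f < 6 * l) || decide (fp.val ≠ 6)) := by
        rw [← Bool.decide_or, decide_eq_decide, vf]
        split_ifs <;> omega
      rw [a1, a2]
      exact p
  obtain ⟨f0, p⟩ := key k le_rfl
  have := p.2.2.2 (by simpa using hh) (by simpa using hf)
  rintro (q | q | q)
  · rw [f0] at q; exact absurd q (by simp)
  · rw [q] at this; revert this; decide
  · rw [q] at this; revert this; decide

theorem tail_step : ∀ (b : Bool) (σ : Fin 6), (σ = 2 ∨ σ = 3 ∨ σ = 4) →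
    dp σ (!b) (!b) (!b) b b b = false ∧ (nx σ (!b) (!b) (!b) b b b = 2 ∨
      nx σ (!b) (!b) (!b) b b b = 3 ∨ nx σ (!b) (!b) (!b) b b b = 4) := by
  decide +kernel

theorem head_step : ∀ j : Fin 6, 3 ≤ j.val →
    dp 1 true false false (j.val != 3) (j.val != 4) (j.val != 5) = false ∧
    (nx 1 true false false (j.val != 3) (j.val != 4) (j.val != 5) = 2 ∨
      nx 1 true false false (j.val != 3) (j.val != 4) (j.val != 5) = 3 ∨
      nx 1 true false false (j.val != 3) (j.val != 4) (j.val != 5) = 4) := by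
  decide +kernel

theorem far_acc {χ T : ℕ → Bool} {k : ℕ} (hk : 0 < k) (j : Fin 6) (hj : 3 ≤ j.val)
    (h0 : χ 0 = true) (h1 : χ 1 = false) (h2 : χ 2 = false) (h3 : χ 3 = (j.val != 3))
    (h4 : χ 4 = (j.val != 4)) (h5 : χ 5 = (j.val != 5))
    (hχ : ∀ a < 6 * k, 6 ≤ a → χ a = (decide (3 ≤ a % 6) == T (a / 6))) : ¬ Acc χ k := by
  have key : ∀ l, l + 1 ≤ k → fl χ (l + 1) = false ∧
      (st χ (l + 1) = 2 ∨ st χ (l + 1) = 3 ∨ st χ (l + 1) = 4) := by
    intro l
    induction l with
    | zero =>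
      intro _
      simp only [fl, st, Bool.false_or, Nat.mul_zero, Nat.zero_add, h0, h1, h2, h3, h4, h5]
      exact head_step j hj
    | succ l ih =>
      intro hl
      obtain ⟨f0, p0⟩ := ih (by omega)
      have eb : ∀ i < 6, χ (6 * (l + 1) + i) = (decide (3 ≤ i) == T (l + 1)) := by
        intro i hi
        rw [hχ _ (by omega) (by omega), show (6 * (l + 1) + i) % 6 = i by omega,
          show (6 * (l + 1) + i) / 6 = l + 1 by omega]
      have e0 := eb 0 (by omega)
      have es : st χ (l + 1 + 1) = nx (st χ (l + 1)) (χ (6 * (l + 1))) (χ (6 * (l + 1) + 1))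
        (χ (6 * (l + 1) + 2)) (χ (6 * (l + 1) + 3)) (χ (6 * (l + 1) + 4))
        (χ (6 * (l + 1) + 5)) := rfl
      rw [fl, es, f0, Bool.false_or, eb 1 (by omega), eb 2 (by omega), eb 3 (by omega),
        eb 4 (by omega), eb 5 (by omega), show χ (6 * (l + 1)) = _ from e0]
      simpa using tail_step (T (l + 1)) _ p0
  obtain ⟨l, rfl⟩ : ∃ l, k = l + 1 := ⟨k - 1, by omega⟩
  obtain ⟨f0, this⟩ := key l le_rfl
  rintro (q | q | q)
  · rw [f0] at q; exact absurd q (by simp)
  · rw [q] at this; revert this; decide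
  · rw [q] at this; revert this; decide

end Pool.Agent.Sixth
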