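import Mathlib

/-! The local transfer table of the nested tripod, checked over GF(3) and GF(4). -/

set_option autoImplicit false

namespace Pool.Agent.Sixth

def F4 : Type := Fin 4

namespace F4

instance : DecidableEq F4 := inferInstanceAs (DecidableEq (Fin 4))
instance : Fintype F4 := inferInstanceAs (Fintype (Fin 4))

def mk' (n : ℕ) : F4 := (⟨n % 4, Nat.mod_lt _ (by decide)⟩ : Fin 4)

def v (x : F4) : ℕ := (show Fin 4 from x).val

instance : Zero F4 := ⟨mk' 0⟩
instance : One F4 := ⟨mk' 1⟩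
instance : Add F4 := ⟨fun x y => mk' (x.v ^^^ y.v)⟩
instance : Mul F4 := ⟨fun x y => mk' (2625168384 >>> (2 * (4 * x.v + y.v)))⟩
instance : Neg F4 := ⟨fun x => x⟩
instance : Sub F4 := ⟨fun x y => mk' (x.v ^^^ y.v)⟩
instance : Inv F4 := ⟨fun x => mk' (180 >>> (2 * x.v))⟩

instance decAll (p : F4 → Prop) [DecidablePred p] : Decidable (∀ x, p x) :=
  inferInstanceAs (Decidable (∀ x : Fin 4, p x))

instance decEx (p : F4 → Prop) [DecidablePred p] : Decidable (∃ x, p x) :=
  inferInstanceAs (Decidable (∃ x : Fin 4, p x))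

instance : CommRing F4 where
  add_assoc := by decide +kernel
  zero_add := by decide +kernel
  add_zero := by decide +kernel
  add_comm := by decide +kernel
  nsmul := nsmulRec
  zsmul := zsmulRec
  neg_add_cancel := by decide +kernel
  sub_eq_add_neg := by decide +kernel
  mul_assoc := by decide +kernel
  mul_comm := by decide +kernel
  one_mul := by decide +kernel
  mul_one := by decide +kernel
  zero_mul := by decide +kernel
  mul_zero := by decide +kernel
  left_distrib := by decide +kernel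
  right_distrib := by decide +kernel

instance : Field F4 where
  exists_pair_ne := ⟨0, 1, by decide +kernel⟩
  mul_inv_cancel := by decide +kernel
  inv_zero := by decide +kernel
  nnqsmul := _
  nnqsmul_def := fun _ _ => rfl
  qsmul := _
  qsmul_def := fun _ _ => rfl

theorem card : Fintype.card F4 = 4 := rfl

end F4

/-- transition table of the automaton -/
def nx (σ : Fin 6) (b0 b1 b2 b3 b4 b5 : Bool) : Fin 6 :=
  ⟨((43694519629734380077141492454624641490101110542935341054474339879961035721065050303834640413694689928902891373938317679920489445938403454091566284190470443925628378765278620037766887171906324205703586634974235209484864063815518154334139749613061503171412675677959254501083825660331204799482760232631883623944074247808893925279250839982048238632960 >>>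
    (3 * (64 * σ.val + b0.toNat + 2 * b1.toNat + 4 * b2.toNat + 8 * b3.toNat + 16 * b4.toNat +
      32 * b5.toNat))) % 8) % 6, Nat.mod_lt _ (by decide)⟩

/-- dependence table of the automaton -/
def dp (σ : Fin 6) (b0 b1 b2 b3 b4 b5 : Bool) : Bool :=
  Nat.testBit 39245045270060790238913428139332393812027493656145944670506977473959748241595315086561085169871959489942161975148544
    (64 * σ.val + b0.toNat + 2 * b1.toNat + 4 * b2.toNat + 8 * b3.toNat + 16 * b4.toNat +
      32 * b5.toNat)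

section
variable {K : Type*} [CommRing K]

/-- the six subspaces of the plane -/
def Mem (z : K) (σ : Fin 6) (s t : K) : Prop :=
  (σ.val = 0 → s = 0 ∧ t = 0) ∧ (σ.val = 1 → t = 0) ∧ (σ.val = 2 → s = 0) ∧ (σ.val = 3 → s = t) ∧
    (σ.val = 4 → s = z * t)

/-- support condition on one leg -/
def Lg (b c : Bool) (m n : K) : Prop := (b = false → m = 0) ∧ (c = false → n = 0)

instance [DecidableEq K] (z : K) (σ : Fin 6) (s t : K) : Decidable (Mem z σ s t) := by
  unfold Mem; infer_instance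

instance [DecidableEq K] (b c : Bool) (m n : K) : Decidable (Lg b c m n) := by
  unfold Lg; infer_instance

def L1 (z : K) : Prop := ∀ (σ : Fin 6) (b0 b1 b2 b3 b4 b5 : Bool) (s t : K), Mem z σ s t →
  ∀ n0, Lg b0 b3 (s - t - n0) n0 → ∀ n1, Lg b1 b4 (s - z * t - (z - 1) * n1) n1 →
  ∀ n2, Lg b2 b5 (s + z * n2) n2 →
    Mem z (nx σ b0 b1 b2 b3 b4 b5) (s + n1 + z * n2) (t + n0 + n1 + n2) ∧
    (dp σ b0 b1 b2 b3 b4 b5 = false → s + n1 + z * n2 = 0 → t + n0 + n1 + n2 = 0 →
      s = 0 ∧ t = 0 ∧ n0 = 0 ∧ n1 = 0 ∧ n2 = 0)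

def L2 (z : K) : Prop := ∀ (σ : Fin 6) (b0 b1 b2 b3 b4 b5 : Bool) (s' t' : K),
  Mem z (nx σ b0 b1 b2 b3 b4 b5) s' t' → ∃ s t, Mem z σ s t ∧
    ∃ n0, Lg b0 b3 (s - t - n0) n0 ∧ ∃ n1, Lg b1 b4 (s - z * t - (z - 1) * n1) n1 ∧
    ∃ n2, Lg b2 b5 (s + z * n2) n2 ∧ s + n1 + z * n2 = s' ∧ t + n0 + n1 + n2 = t'

def L3 (z : K) : Prop := ∀ (σ : Fin 6) (b0 b1 b2 b3 b4 b5 : Bool),
  dp σ b0 b1 b2 b3 b4 b5 = true → ∃ s t, Mem z σ s t ∧
    ∃ n0, Lg b0 b3 (s - t - n0) n0 ∧ ∃ n1, Lg b1 b4 (s - z * t - (z - 1) * n1) n1 ∧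
    ∃ n2, Lg b2 b5 (s + z * n2) n2 ∧ s + n1 + z * n2 = 0 ∧ t + n0 + n1 + n2 = 0 ∧
      ¬ (n0 = 0 ∧ n1 = 0 ∧ n2 = 0)

end

set_option synthInstance.maxSize 100000
set_option synthInstance.maxHeartbeats 2000000

theorem l1_three : L1 (2 : ZMod 3) := by unfold L1; decide +kernel
theorem l2_three : L2 (2 : ZMod 3) := by unfold L2; decide +kernel
theorem l3_three : L3 (2 : ZMod 3) := by unfold L3; decide +kernel
theorem l1_four : L1 (F4.mk' 2) := by unfold L1; decide +kernel
theorem l2_four : L2 (F4.mk' 2) := by unfold L2; decide +kernel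
theorem l3_four : L3 (F4.mk' 2) := by unfold L3; decide +kernel

theorem L1.map {K K' : Type*} [CommRing K] [CommRing K'] (e : K ≃+* K') {z : K} (h : L1 z) :
    L1 (e z) := by
  intro σ b0 b1 b2 b3 b4 b5 s t hm n0 h0 n1 h1 n2 h2
  obtain ⟨s, rfl⟩ := e.surjective s
  obtain ⟨t, rfl⟩ := e.surjective t
  obtain ⟨n0, rfl⟩ := e.surjective n0
  obtain ⟨n1, rfl⟩ := e.surjective n1
  obtain ⟨n2, rfl⟩ := e.surjective n2
  have := h σ b0 b1 b2 b3 b4 b5 s t
  unfold Mem Lg at *
  rw [← map_one e] at h1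
  simp only [← map_mul, ← map_add, ← map_sub, EmbeddingLike.map_eq_zero_iff,
    EmbeddingLike.apply_eq_iff_eq] at *
  exact this hm n0 h0 n1 h1 n2 h2

theorem L2.map {K K' : Type*} [CommRing K] [CommRing K'] (e : K ≃+* K') {z : K} (h : L2 z) :
    L2 (e z) := by
  intro σ b0 b1 b2 b3 b4 b5 s' t' hm
  obtain ⟨s', rfl⟩ := e.surjective s'
  obtain ⟨t', rfl⟩ := e.surjective t'
  have hm' : Mem z (nx σ b0 b1 b2 b3 b4 b5) s' t' := by
    unfold Mem at *
    simpa only [← map_mul, EmbeddingLike.map_eq_zero_iff, EmbeddingLike.apply_eq_iff_eq] using hm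
  obtain ⟨s, t, m, n0, h0, n1, h1, n2, h2, e1, e2⟩ := h σ b0 b1 b2 b3 b4 b5 s' t' hm'
  refine ⟨e s, e t, ?_, e n0, ?_, e n1, ?_, e n2, ?_, ?_, ?_⟩ <;> try unfold Mem Lg at *
  all_goals try rw [← map_one e]
  all_goals simp only [← map_mul, ← map_add, ← map_sub, EmbeddingLike.map_eq_zero_iff,
    EmbeddingLike.apply_eq_iff_eq]
  all_goals assumption

theorem L3.map {K K' : Type*} [CommRing K] [CommRing K'] (e : K ≃+* K') {z : K} (h : L3 z) :
    L3 (e z) := by
  intro σ b0 b1 b2 b3 b4 b5 hd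
  obtain ⟨s, t, m, n0, h0, n1, h1, n2, h2, e1, e2, e3⟩ := h σ b0 b1 b2 b3 b4 b5 hd
  refine ⟨e s, e t, ?_, e n0, ?_, e n1, ?_, e n2, ?_, ?_, ?_, ?_⟩ <;> try unfold Mem Lg at *
  all_goals try rw [← map_one e]
  all_goals simp only [← map_mul, ← map_add, ← map_sub, EmbeddingLike.map_eq_zero_iff,
    EmbeddingLike.apply_eq_iff_eq]
  all_goals assumption

theorem loc_four : ∃ z : GaloisField 2 2, L1 z ∧ L2 z ∧ L3 z := by
  let : Fintype (GaloisField 2 2) := Fintype.ofFinite _
  have c : Fintype.card F4 = Fintype.card (GaloisField 2 2) := by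
    rw [← Nat.card_eq_fintype_card (α := GaloisField 2 2), GaloisField.card 2 2 (by norm_num)]
    rfl
  have e := FiniteField.ringEquivOfCardEq c
  exact ⟨e (F4.mk' 2), l1_four.map e, l2_four.map e, l3_four.map e⟩

end Pool.Agent.Sixth
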