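import Mathlib

/-! Vector matroids, relaxations and the adversary argument. -/

set_option autoImplicit false

namespace Pool.Agent.Sixth

theorem ncard_le_of_span {K V ι : Type*} [Field K] [AddCommGroup V] [Module K V] [Finite ι]
    (v : ι → V) {I J : Set ι} (hJ : LinearIndepOn K v J)
    (h : ∀ e ∈ J, v e ∈ Submodule.span K (v '' I)) : J.ncard ≤ I.ncard := by
  classical
  let : Fintype J := Fintype.ofFinite _
  let : Fintype (v '' I) := Fintype.ofFinite _
  have := linearIndependent_le_span' _ hJ (v '' I) (by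
    rintro _ ⟨e, rfl⟩
    exact h e e.2)
  rw [Cardinal.mk_fintype, Nat.cast_le] at this
  calc J.ncard = Fintype.card J := by rw [← Nat.card_coe_set_eq, Nat.card_eq_fintype_card]
    _ ≤ Fintype.card (v '' I) := this
    _ = (v '' I).ncard := by rw [← Nat.card_coe_set_eq, Nat.card_eq_fintype_card]
    _ ≤ I.ncard := Set.ncard_image_le (Set.toFinite _)

theorem ex_vec {K V ι : Type*} [Field K] [AddCommGroup V] [Module K V] [Finite ι] (v : ι → V) :
    ∃ M : Matroid ι, M.E = Set.univ ∧ ∀ I, M.Indep I ↔ LinearIndepOn K v I := by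
  refine ⟨(IndepMatroid.ofFinite (E := Set.univ) Set.finite_univ (fun I => LinearIndepOn K v I)
    (linearIndepOn_empty K v) (fun I J hJ h => hJ.mono h) (fun I J hI hJ h => ?_)
    (fun _ _ => Set.subset_univ _)).matroid, rfl, fun _ => Iff.rfl⟩
  by_contra q
  push Not at q
  refine absurd (ncard_le_of_span v hJ (I := I) (fun e he => ?_)) (not_le.2 h)
  by_cases r : e ∈ I
  · exact Submodule.subset_span (Set.mem_image_of_mem v r)
  · by_contra s
    exact q e he r ((linearIndepOn_insert r).2 ⟨hI, s⟩)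

theorem ex_relax {ι : Type*} [Finite ι] (N : Matroid ι) (H : Set ι)
    {f0 h0 : ι} (hf0 : f0 ∉ H) (hh0 : h0 ∈ H)
    (h2 : ∀ h ∈ H, ∀ f, f ∉ H → N.Indep (insert f (H \ {h})))
    (h3 : ∀ I, N.Indep I → I.ncard ≤ H.ncard) :
    ∃ M : Matroid ι, M.E = Set.univ ∧ (∀ I, M.Indep I ↔ N.Indep I ∨ I = H) ∧
      ∀ X, X ≠ H → M.eRk X = N.eRk X := by
  have cd : ∀ h ∈ H, ∀ f, f ∉ H → (insert f (H \ {h})).ncard = H.ncard := by
    intro h hh f hf
    rw [Set.ncard_insert_of_notMem (fun q => hf q.1), Set.ncard_sdiff_singleton_add_one hh]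
  have sub : ∀ I, I ⊆ H → N.Indep I ∨ I = H := by
    intro I hI
    by_cases q : H ⊆ I
    · exact Or.inr (hI.antisymm q)
    · obtain ⟨h, hh, n⟩ := Set.not_subset.1 q
      exact Or.inl ((h2 h hh f0 hf0).subset (fun a ha =>
        Or.inr ⟨hI ha, fun r => n (Set.mem_singleton_iff.1 r ▸ ha)⟩))
  have aug : ∀ I J, N.Indep I → N.Indep J → I.ncard < J.ncard →
      ∃ e ∈ J, e ∉ I ∧ N.Indep (insert e I) := by
    intro I J hI hJ h
    obtain ⟨e, he, r⟩ := hI.exists_insert_of_encard_lt hJ (by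
      rw [← (Set.toFinite I).cast_ncard_eq, ← (Set.toFinite J).cast_ncard_eq]
      exact_mod_cast h)
    exact ⟨e, he.1, he.2, r⟩
  let M : Matroid ι := (IndepMatroid.ofFinite (E := Set.univ) Set.finite_univ
    (fun I => N.Indep I ∨ I = H) (Or.inl N.empty_indep)
    (fun I J hJ h => hJ.elim (fun q => Or.inl (q.subset h)) (fun q => sub I (q ▸ h)))
    (fun I J hI hJ h => by
      rcases hI with hI | rfl
      · rcases hJ with hJ | rfl
        · obtain ⟨e, a, b, c⟩ := aug I J hI hJ h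
          exact ⟨e, a, b, Or.inl c⟩
        · by_cases q : I ⊆ J
          · obtain ⟨e, he, n⟩ := Set.not_subset.1 (fun r : J ⊆ I =>
              absurd (Set.ncard_le_ncard r) (not_le.2 h))
            exact ⟨e, he, n, sub _ (Set.insert_subset he q)⟩
          · obtain ⟨f, hf, n⟩ := Set.not_subset.1 q
            obtain ⟨e, a, b, c⟩ := aug I _ hI (h2 h0 hh0 f n) (by rwa [cd h0 hh0 f n])
            exact ⟨e, (a.resolve_left (fun r => b (r ▸ hf))).1, b, Or.inl c⟩
      · rcases hJ with hJ | rfl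
        · exact absurd (h3 J hJ) (not_le.2 h)
        · exact absurd h (lt_irrefl _))
    (fun _ _ => Set.subset_univ _)).matroid
  have hM : ∀ I, M.Indep I ↔ N.Indep I ∨ I = H := fun _ => Iff.rfl
  refine ⟨M, rfl, hM, fun X hX => le_antisymm ?_ ?_⟩
  · rw [Matroid.eRk_le_iff]
    intro I hI h
    rcases (hM I).1 h with q | rfl
    · exact q.encard_le_eRk_of_subset hI
    · obtain ⟨f, hf, n⟩ := Set.not_subset.1 (fun r : X ⊆ I => hX (r.antisymm hI))
      have := (h2 h0 hh0 f n).encard_le_eRk_of_subset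
        (Set.insert_subset hf (Set.sdiff_subset.trans hI))
      rwa [← (Set.toFinite _).cast_ncard_eq, cd h0 hh0 f n, (Set.toFinite _).cast_ncard_eq] at this
  · rw [Matroid.eRk_le_iff]
    intro I hI h
    exact ((hM I).2 (Or.inl h)).encard_le_eRk_of_subset hI

theorem pig3 : ∀ a0 a1 a2 b0 b1 b2 : ZMod 3, a0 ≠ 0 → a1 ≠ 0 → a2 ≠ 0 → b0 ≠ 0 → b1 ≠ 0 →
    b2 ≠ 0 → (∃ u, a0 = u * a1 ∧ b0 = u * b1) ∨ (∃ u, a0 = u * a2 ∧ b0 = u * b2) ∨
      (∃ u, a1 = u * a2 ∧ b1 = u * b2) := by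
  decide +kernel

theorem nonrep {ι V : Type*} [AddCommGroup V] [Module (ZMod 3) V] (w : ι → V) (Z : Set ι)
    (a b : ι) (c : Fin 3 → ι) (n1 : ∀ i, c i ∉ insert a (insert b Z))
    (n2 : ∀ i j, i ≠ j → c i ≠ c j)
    (h0 : LinearIndepOn (ZMod 3) w (insert a (insert b Z)))
    (h1 : ∀ i, ¬ LinearIndepOn (ZMod 3) w (insert (c i) (insert a (insert b Z))))
    (h2 : ∀ i, LinearIndepOn (ZMod 3) w (insert (c i) (insert a Z)))
    (h3 : ∀ i, LinearIndepOn (ZMod 3) w (insert (c i) (insert b Z)))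
    (h4 : ∀ i j, i < j → LinearIndepOn (ZMod 3) w (insert (c i) (insert (c j) Z))) : False := by
  have : Fact (Nat.Prime 3) := ⟨by norm_num⟩
  have key : ∀ i, ∃ α β : ZMod 3, α ≠ 0 ∧ β ≠ 0 ∧ ∃ p ∈ Submodule.span (ZMod 3) (w '' Z),
      w (c i) = α • w a + (β • w b + p) := by
    intro i
    have m : w (c i) ∈ Submodule.span (ZMod 3) (w '' insert a (insert b Z)) := by
      by_contra q
      exact h1 i ((linearIndepOn_insert (n1 i)).2 ⟨h0, q⟩)
    rw [Set.image_insert_eq, Set.image_insert_eq, Submodule.mem_span_insert] at m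
    obtain ⟨α, y, hy, e⟩ := m
    obtain ⟨β, p, hp, rfl⟩ := Submodule.mem_span_insert.1 hy
    refine ⟨α, β, ?_, ?_, p, hp, e⟩
    · rintro rfl
      refine ((linearIndepOn_insert (fun q => n1 i (Or.inr q))).1 (h3 i)).2 ?_
      rw [Set.image_insert_eq, Submodule.mem_span_insert]
      exact ⟨β, p, hp, by rw [e, zero_smul, zero_add]⟩
    · rintro rfl
      refine ((linearIndepOn_insert (fun q => n1 i
        (q.elim Or.inl (fun r => Or.inr (Or.inr r))))).1 (h2 i)).2 ?_
      rw [Set.image_insert_eq, Submodule.mem_span_insert]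
      exact ⟨α, p, hp, by rw [e, zero_smul, zero_add]⟩
  choose α β hα hβ p hp e using key
  have fin : ∀ i j, i < j → ¬ ∃ u, α i = u * α j ∧ β i = u * β j := by
    rintro i j hij ⟨u, e1, e2⟩
    refine ((linearIndepOn_insert (fun q => q.elim (n2 i j hij.ne)
      (fun r => n1 i (Or.inr (Or.inr r))))).1 (h4 i j hij)).2 ?_
    rw [Set.image_insert_eq, Submodule.mem_span_insert]
    refine ⟨u, p i - u • p j, Submodule.sub_mem _ (hp i) (Submodule.smul_mem _ _ (hp j)), ?_⟩
    rw [e i, e j, e1, e2]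
    module
  rcases pig3 _ _ _ _ _ _ (hα 0) (hα 1) (hα 2) (hβ 0) (hβ 1) (hβ 2) with q | q | q
  · exact fin 0 1 (by decide) q
  · exact fin 0 2 (by decide) q
  · exact fin 1 2 (by decide) q

theorem adversary {α ι : Type*} [Fintype ι] {N : ℕ} (P : Matroid α → Prop)
    (q : List ℕ∞ → Set α) (d : List ℕ∞ → Bool)
    (hyp : ∀ M : Matroid α, M.E = Set.univ → ∀ a : ℕ → ℕ∞,
      (∀ i, i < N → a i = M.eRk (q ((List.range i).map a))) →
      (d ((List.range N).map a) = true ↔ P M))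
    (M0 : Matroid α) (hE : M0.E = Set.univ) (hP : P M0) (H : ι → Set α)
    (inj : Function.Injective H) (hc : N < Fintype.card ι)
    (hM : ∀ t, ∃ M : Matroid α, M.E = Set.univ ∧ ¬ P M ∧ ∀ X, X ≠ H t → M.eRk X = M0.eRk X) :
    False := by
  classical
  let L : ℕ → List ℕ∞ := fun n => Nat.rec [] (fun _ l => l ++ [M0.eRk (q l)]) n
  let a : ℕ → ℕ∞ := fun i => M0.eRk (q (L i))
  have hL : ∀ i, (List.range i).map a = L i := by
    intro i
    induction i with
    | zero => rfl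
    | succ i ih => rw [List.range_succ, List.map_append, ih]; rfl
  have d1 := (hyp M0 hE a (fun i _ => by rw [hL])).2 hP
  have : ∃ t, ∀ i < N, q (L i) ≠ H t := by
    by_contra r
    push Not at r
    choose g g1 g2 using r
    have := Fintype.card_le_of_injective (fun t => (⟨g t, g1 t⟩ : Fin N)) (fun s t e => by
      apply inj
      rw [← g2 s, ← g2 t, show g s = g t from congrArg Fin.val e])
    rw [Fintype.card_fin] at this
    omega
  obtain ⟨t, ht⟩ := this
  obtain ⟨M, e, n, r⟩ := hM t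
  exact n ((hyp M e a (fun i hi => by rw [hL, r _ (ht i hi)])).1 d1)

theorem growth (c d : ℕ) : ∃ k : ℕ, c * (6 * (k + 1)) ^ d + c < 2 ^ k := by
  have h := tendsto_pow_const_div_const_pow_of_one_lt d (r := 2) (by norm_num)
  have p : (0 : ℝ) < 1 / (4 * (c + 1) * 6 ^ d) := by positivity
  obtain ⟨m, hm⟩ := (Filter.eventually_atTop.1 (h.eventually (gt_mem_nhds p)))
  refine ⟨m, ?_⟩
  have a := hm (m + 1) (by omega)
  rw [div_lt_div_iff₀ (by positivity) (by positivity)] at a
  have b : (m + 1) ^ d * (4 * (c + 1) * 6 ^ d) < 1 * 2 ^ (m + 1) := by exact_mod_cast a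
  have e : 1 ≤ (6 * (m + 1)) ^ d := Nat.one_le_pow _ _ (by omega)
  rw [mul_pow] at e ⊢
  rw [pow_succ] at b
  nlinarith

end Pool.Agent.Sixth
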