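import Pool.Agent.Lib.MP_da0a56_lc.NegLin
import Pool.Agent.Lib.MP_da0a56_lc.NegMat

/-! The nested tripod has exponentially many circuit-hyperplanes, and relaxing one of them
destroys ternary representability. -/

set_option autoImplicit false

namespace Pool.Agent.Sixth

def Hs (k : ℕ) (T : ℕ → Bool) : Set (Fin (6 * k)) := {i | decide (3 ≤ i.val % 6) = T (i.val / 6)}

theorem mem_Hs {k : ℕ} {T : ℕ → Bool} {i : Fin (6 * k)} :
    i ∈ Hs k T ↔ decide (3 ≤ i.val % 6) = T (i.val / 6) := Iff.rfl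

theorem chi_eq {n : ℕ} (I : Set (Fin n)) {a : ℕ} (ha : a < n) {b : Bool}
    (h : (⟨a, ha⟩ : Fin n) ∈ I ↔ b = true) : chi I a = b := by
  rw [Bool.eq_iff_iff, ← h]
  simp [chi, ha]

theorem card_Hs (k : ℕ) (T : ℕ → Bool) : 3 * k ≤ (Hs k T).ncard := by
  have := Set.ncard_le_ncard_of_injOn (s := (Set.univ : Set (Fin (3 * k)))) (t := Hs k T)
    (fun j => ⟨6 * (j.val / 3) + j.val % 3 + (if T (j.val / 3) then 3 else 0), by
      have := j.isLt
      split_ifs <;> omega⟩) (fun j _ => by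
      show decide _ = T _
      simp only
      split_ifs with q
      · rw [show (6 * (j.val / 3) + j.val % 3 + 3) / 6 = j.val / 3 by omega, q,
          decide_eq_true_iff]
        omega
      · rw [show (6 * (j.val / 3) + j.val % 3 + 0) / 6 = j.val / 3 by omega,
          Bool.eq_false_iff.2 q, decide_eq_false_iff_not]
        omega) (fun i _ j _ e => by
      have := congrArg Fin.val e
      simp only at this
      ext
      split_ifs at this <;> omega)
  rwa [Set.ncard_univ, Nat.card_eq_fintype_card, Fintype.card_fin] at this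

theorem ex_bad {k : ℕ} (hk : 0 < k) (N : Matroid (Fin (6 * k)))
    (hN : ∀ I, N.Indep I ↔ ¬ Acc (chi I) k) (hc : ∀ I, N.Indep I → I.ncard ≤ 3 * k)
    (T : ℕ → Bool) (hT : T 0 = false) : ∃ M : Matroid (Fin (6 * k)), M.E = Set.univ ∧
      (¬ ∃ v : Fin (6 * k) → Fin (6 * k) → ZMod 3,
        ∀ I, M.Indep I ↔ LinearIndepOn (ZMod 3) v I) ∧
      ∀ X, X ≠ Hs k T → M.eRk X = N.eRk X := by
  have h2 : ∀ h ∈ Hs k T, ∀ f, f ∉ Hs k T → N.Indep (insert f (Hs k T \ {h})) := by
    intro h hh f hf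
    rw [hN]
    refine near_acc (T := T) h.isLt f.isLt hh hf (fun a ha => chi_eq _ ha ?_)
    simp only [Set.mem_insert_iff, Set.mem_sdiff, Set.mem_singleton_iff, mem_Hs, Fin.ext_iff,
      Bool.or_eq_true, Bool.and_eq_true, decide_eq_true_eq, Bool.not_eq_true',
      decide_eq_false_iff_not, beq_iff_eq]
    rw [eq_comm (a := f.val), eq_comm (a := h.val), and_comm]
  have h3 : ∀ I, N.Indep I → I.ncard ≤ (Hs k T).ncard :=
    fun I hI => (hc I hI).trans (card_Hs k T)
  let a : Fin (6 * k) := ⟨1, by omega⟩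
  let b : Fin (6 * k) := ⟨2, by omega⟩
  let c : Fin 3 → Fin (6 * k) := fun i => ⟨3 + i.val, by omega⟩
  have ma : a ∈ Hs k T := by simp [Hs, a, hT]
  have mb : b ∈ Hs k T := by simp [Hs, b, hT]
  have nc : ∀ i, c i ∉ Hs k T := by
    intro i
    have := i.isLt
    simp only [mem_Hs, c, show (3 + i.val) / 6 = 0 by omega, hT,
      decide_eq_false_iff_not]
    omega
  have nab : a ≠ b := by simp [a, b]
  obtain ⟨M, hE, hM, hr⟩ := ex_relax N (Hs k T) (nc 0) ma h2 h3
  refine ⟨M, hE, ?_, hr⟩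
  rintro ⟨v, hv⟩
  have e0 : insert a (insert b (Hs k T \ {a, b})) = Hs k T := by
    ext x
    simp only [Set.mem_insert_iff, Set.mem_sdiff, Set.mem_singleton_iff]
    constructor
    · rintro (rfl | rfl | q)
      exacts [ma, mb, q.1]
    · tauto
  have e1 : insert a (Hs k T \ {a, b}) = Hs k T \ {b} := by
    ext x
    simp only [Set.mem_insert_iff, Set.mem_sdiff, Set.mem_singleton_iff]
    constructor
    · rintro (rfl | q)
      exacts [⟨ma, nab⟩, ⟨q.1, fun r => q.2 (Or.inr r)⟩]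
    · tauto
  have e2 : insert b (Hs k T \ {a, b}) = Hs k T \ {a} := by
    ext x
    simp only [Set.mem_insert_iff, Set.mem_sdiff, Set.mem_singleton_iff]
    constructor
    · rintro (rfl | q)
      exacts [⟨mb, nab.symm⟩, ⟨q.1, fun r => q.2 (Or.inl r)⟩]
    · tauto
  refine nonrep v (Hs k T \ {a, b}) a b c (fun i => by rw [e0]; exact nc i)
    (fun i j n q => n (Fin.ext (by simpa [c] using q))) ?_ (fun i => ?_) (fun i => ?_)
    (fun i => ?_) (fun i j hij => ?_)
  · rw [e0, ← hv, hM]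
    exact Or.inr rfl
  · rw [e0, ← hv, hM]
    rintro (q | q)
    · have := h3 _ q
      rw [Set.ncard_insert_of_notMem (nc i)] at this
      omega
    · exact nc i (q ▸ Set.mem_insert _ _)
  · rw [e1, ← hv, hM]
    exact Or.inl (h2 b mb _ (nc i))
  · rw [e2, ← hv, hM]
    exact Or.inl (h2 a ma _ (nc i))
  · rw [← hv, hM, hN]
    left
    have := i.isLt
    have := j.isLt
    have hij' : i.val < j.val := hij
    refine far_acc (T := T) hk ⟨6 - i.val - j.val, by omega⟩ (by simp only; omega)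
      (chi_eq _ (by omega) ?_) (chi_eq _ (by omega) ?_) (chi_eq _ (by omega) ?_)
      (chi_eq _ (by omega) ?_) (chi_eq _ (by omega) ?_) (chi_eq _ (by omega) ?_)
      (fun x hx h6 => chi_eq _ hx ?_)
    all_goals simp only [Set.mem_insert_iff, Set.mem_sdiff, Set.mem_singleton_iff, mem_Hs,
      Fin.ext_iff, a, b, c, hT, Nat.reduceDiv, Nat.reduceMod, decide_eq_false_iff_not, bne_iff_ne,
      beq_iff_eq, Bool.false_eq_true, iff_false, iff_true, ne_eq, true_or, or_true,
      not_true_eq_false, and_false, or_false]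
    any_goals omega
    constructor
    · rintro (q | q | q)
      · omega
      · omega
      · exact q.1
    · exact fun q => Or.inr (Or.inr ⟨q, by omega⟩)

theorem ex_good {k : ℕ} (hk : 0 < k) : ∃ N : Matroid (Fin (6 * k)), N.E = Set.univ ∧
    (∀ I, N.Indep I ↔ ¬ Acc (chi I) k) ∧ (∀ I, N.Indep I → I.ncard ≤ 3 * k) ∧
    (∃ v : Fin (6 * k) → Fin (6 * k) → ZMod 3, ∀ I, N.Indep I ↔ LinearIndepOn (ZMod 3) v I) ∧
    (∃ v : Fin (6 * k) → Fin (6 * k) → GaloisField 2 2,
      ∀ I, N.Indep I ↔ LinearIndepOn (GaloisField 2 2) v I) := by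
  have : Fact (Nat.Prime 3) := ⟨by norm_num⟩
  obtain ⟨N, hE, hN⟩ := ex_vec (K := ZMod 3) (wv (2 : ZMod 3) k)
  have hA : ∀ I, N.Indep I ↔ ¬ Acc (chi I) k := fun I =>
    (hN I).trans (lin_acc l1_three l2_three l3_three hk I)
  let σ : Fin (6 * k) → Fin (3 * k) := fun i => ⟨i.val / 2, by omega⟩
  have hσ : Function.Surjective σ := fun j => ⟨⟨2 * j.val, by omega⟩, Fin.ext (by simp [σ])⟩
  refine ⟨N, hE, hA, fun I hI => ?_, ?_, ?_⟩
  · classical
    let : Fintype I := Fintype.ofFinite _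
    have := LinearIndependent.fintype_card_le_finrank ((hN I).1 hI)
    rw [Module.finrank_fin_fun] at this
    rwa [← Nat.card_coe_set_eq, Nat.card_eq_fintype_card]
  · obtain ⟨v, hv⟩ := ex_rep σ hσ (wv (2 : ZMod 3) k)
    exact ⟨v, fun I => (hN I).trans (hv I).symm⟩
  · obtain ⟨z, h1, h2, h3⟩ := loc_four
    obtain ⟨v, hv⟩ := ex_rep σ hσ (wv z k)
    exact ⟨v, fun I => (hA I).trans ((hv I).trans (lin_acc h1 h2 h3 hk I)).symm⟩

def Tf {m : ℕ} (t : Fin m → Bool) (l : ℕ) : Bool :=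
  if h : 0 < l ∧ l - 1 < m then t ⟨l - 1, h.2⟩ else false

theorem Hs_inj (m : ℕ) : Function.Injective (fun t : Fin m → Bool => Hs (m + 1) (Tf t)) := by
  intro s t e
  ext l
  have := l.isLt
  have q := Set.ext_iff.1 e ⟨6 * (l.val + 1) + 3, by omega⟩
  simp only [mem_Hs, show (6 * (l.val + 1) + 3) / 6 = l.val + 1 by omega,
    show (6 * (l.val + 1) + 3) % 6 = 3 by omega, Tf] at q
  rw [dif_pos ⟨by omega, by omega⟩, dif_pos ⟨by omega, by omega⟩] at q
  simpa using q

end Pool.Agent.Sixth
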