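import Pool.Agent.Lib.MP_da0a56_lc.AC

/-! Valid matrices modulo row and column constants. -/

set_option autoImplicit false

namespace Pool.Agent.NearReg
open R

variable {α : Type*}

def det3 (a b c d e f g h i : R) : R :=
  a * (e * i - f * h) - b * (d * i - f * g) + c * (d * h - e * g)

structure PV (P : α → α → R) (C D : Finset α) : Prop where
  p1 : ∀ c0 ∈ C, ∀ c ∈ C, ∀ d0 ∈ D, ∀ d ∈ D, Ok (sd P c0 d0 c d)
  p2 : ∀ c0 ∈ C, ∀ c1 ∈ C, ∀ c2 ∈ C, ∀ d0 ∈ D, ∀ d1 ∈ D, ∀ d2 ∈ D,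
    Ok (sd P c0 d0 c1 d1 * sd P c0 d0 c2 d2 - sd P c0 d0 c1 d2 * sd P c0 d0 c2 d1)
  p3 : ∀ c0 ∈ C, ∀ c1 ∈ C, ∀ c2 ∈ C, ∀ c3 ∈ C, ∀ d0 ∈ D, ∀ d1 ∈ D, ∀ d2 ∈ D, ∀ d3 ∈ D,
    Ok (det3 (sd P c0 d0 c1 d1) (sd P c0 d0 c1 d2) (sd P c0 d0 c1 d3)
      (sd P c0 d0 c2 d1) (sd P c0 d0 c2 d2) (sd P c0 d0 c2 d3)
      (sd P c0 d0 c3 d1) (sd P c0 d0 c3 d2) (sd P c0 d0 c3 d3))

theorem PV.mono {P : α → α → R} {C D C' D' : Finset α} (h : PV P C D) (hC : C' ⊆ C)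
    (hD : D' ⊆ D) : PV P C' D' :=
  ⟨fun c0 h0 c h1 d0 g0 d g1 => h.p1 c0 (hC h0) c (hC h1) d0 (hD g0) d (hD g1),
   fun c0 h0 c1 h1 c2 h2 d0 g0 d1 g1 d2 g2 =>
    h.p2 c0 (hC h0) c1 (hC h1) c2 (hC h2) d0 (hD g0) d1 (hD g1) d2 (hD g2),
   fun c0 h0 c1 h1 c2 h2 c3 h3 d0 g0 d1 g1 d2 g2 d3 g3 =>
    h.p3 c0 (hC h0) c1 (hC h1) c2 (hC h2) c3 (hC h3) d0 (hD g0) d1 (hD g1) d2 (hD g2) d3 (hD g3)⟩

theorem PV.tr {P : α → α → R} {C D : Finset α} (h : PV P C D) : PV (fun a b => P b a) D C :=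
  ⟨fun d0 g0 d g1 c0 h0 c h1 => ok_congr (h.p1 c0 h0 c h1 d0 g0 d g1) (by simp only [sd]; ring),
   fun d0 g0 d1 g1 d2 g2 c0 h0 c1 h1 c2 h2 =>
    ok_congr (h.p2 c0 h0 c1 h1 c2 h2 d0 g0 d1 g1 d2 g2) (by simp only [sd]; ring),
   fun d0 g0 d1 g1 d2 g2 d3 g3 c0 h0 c1 h1 c2 h2 c3 h3 =>
    ok_congr (h.p3 c0 h0 c1 h1 c2 h2 c3 h3 d0 g0 d1 g1 d2 g2 d3 g3)
      (by simp only [sd, det3]; ring)⟩

/-- change of normalisation -/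
theorem PV.scale {P Q : α → α → R} {C D : Finset α} (h : PV P C D) {κ : R} (hκ : Un κ)
    (e : ∀ c0 ∈ C, ∀ c ∈ C, ∀ d0 ∈ D, ∀ d ∈ D, sd Q c0 d0 c d = κ * sd P c0 d0 c d) :
    PV Q C D := by
  refine ⟨fun c0 h0 c h1 d0 g0 d g1 => ?_, fun c0 h0 c1 h1 c2 h2 d0 g0 d1 g1 d2 g2 => ?_,
    fun c0 h0 c1 h1 c2 h2 c3 h3 d0 g0 d1 g1 d2 g2 d3 g3 => ?_⟩
  · rw [e c0 h0 c h1 d0 g0 d g1]
    exact hκ.ok.mul (h.p1 c0 h0 c h1 d0 g0 d g1)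
  · rw [e c0 h0 c1 h1 d0 g0 d1 g1, e c0 h0 c2 h2 d0 g0 d2 g2, e c0 h0 c1 h1 d0 g0 d2 g2,
      e c0 h0 c2 h2 d0 g0 d1 g1]
    exact ok_congr ((hκ.mul hκ).ok.mul (h.p2 c0 h0 c1 h1 c2 h2 d0 g0 d1 g1 d2 g2)) (by ring)
  · rw [e c0 h0 c1 h1 d0 g0 d1 g1, e c0 h0 c1 h1 d0 g0 d2 g2, e c0 h0 c1 h1 d0 g0 d3 g3,
      e c0 h0 c2 h2 d0 g0 d1 g1, e c0 h0 c2 h2 d0 g0 d2 g2, e c0 h0 c2 h2 d0 g0 d3 g3,
      e c0 h0 c3 h3 d0 g0 d1 g1, e c0 h0 c3 h3 d0 g0 d2 g2, e c0 h0 c3 h3 d0 g0 d3 g3]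
    exact ok_congr (((hκ.mul hκ).mul hκ).ok.mul
      (h.p3 c0 h0 c1 h1 c2 h2 c3 h3 d0 g0 d1 g1 d2 g2 d3 g3)) (by simp only [det3]; ring)

/-- the normal form relative to a row and a column -/
theorem PV.nrm {P : α → α → R} {C D : Finset α} (h : PV P C D) (z x : α) {κ : R} (hκ : Un κ) :
    PV (fun c d => κ * sd P z x c d) C D :=
  h.scale hκ (fun c0 _ c _ d0 _ d _ => by simp only [sd]; ring)

/-- a valid matrix with a zero row, a zero column and a column of ones is anchored -/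
theorem PV.anch {Q : α → α → R} {C D I Y : Finset α} (h : PV Q C D) {z x j : α} (hz : z ∈ C)
    (hx : x ∈ D) (hj : j ∈ D) (hI : I ⊆ C) (hY : Y ⊆ D) (z0 : ∀ d, Q z d = 0)
    (zx : ∀ c, Q c x = 0) (oj : ∀ c ∈ I, Q c j = 1) : Anch Q I Y := by
  have av : ∀ i ∈ I, ∀ y ∈ Y, Av (Q i y) := by
    intro i hi y hy
    rw [av_iff_ok]
    exact ⟨ok_congr (h.p1 z hz i (hI hi) x hx y (hY hy)) (by simp [sd, z0, zx]),
      ok_congr (h.p1 z hz i (hI hi) j hj y (hY hy)) (by simp [sd, z0, oj i hi])⟩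
  refine ⟨fun i hi i' hi' y hy y' hy' => ⟨av i hi y hy, av i hi y' hy', av i' hi' y hy,
    av i' hi' y' hy', ?_, ?_, ?_, ?_, ?_, ?_, ?_⟩, fun c0 h0 c1 h1 c2 h2 d0 g0 d1 g1 d2 g2 =>
      h.p2 c0 (hI h0) c1 (hI h1) c2 (hI h2) d0 (hY g0) d1 (hY g1) d2 (hY g2)⟩
  · exact ok_congr (h.p1 z hz i (hI hi) y' (hY hy') y (hY hy)) (by simp [sd, z0])
  · exact ok_congr (h.p1 z hz i' (hI hi') y' (hY hy') y (hY hy)) (by simp [sd, z0])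
  · exact ok_congr (h.p1 i' (hI hi') i (hI hi) x hx y (hY hy)) (by simp [sd, zx])
  · exact ok_congr (h.p1 i' (hI hi') i (hI hi) x hx y' (hY hy')) (by simp [sd, zx])
  · exact ok_congr (h.p2 z hz i (hI hi) i' (hI hi') x hx y (hY hy) y' (hY hy'))
      (by simp [sd, z0, zx])
  · exact ok_congr (h.p1 i' (hI hi') i (hI hi) y (hY hy) y' (hY hy')) (by simp only [sd]; ring)
  · exact ok_congr (h.p2 z hz i (hI hi) i' (hI hi') j hj y (hY hy) y' (hY hy'))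
      (by simp [sd, z0, oj i hi, oj i' hi'])

/-- no two rows differ by a constant off one column -/
def RobR (P : α → α → R) (C D : Finset α) : Prop :=
  ∀ c ∈ C, ∀ c' ∈ C, c ≠ c' → ∀ d0, ∃ d ∈ D, ∃ d' ∈ D, d ≠ d0 ∧ d' ≠ d0 ∧ sd P c' d' c d ≠ 0

/-- no two columns differ by a constant off one row -/
def RobC (P : α → α → R) (C D : Finset α) : Prop :=
  ∀ d ∈ D, ∀ d' ∈ D, d ≠ d' → ∀ c0, ∃ c ∈ C, ∃ c' ∈ C, c ≠ c0 ∧ c' ≠ c0 ∧ sd P c' d' c d ≠ 0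

theorem RobR.tr {P : α → α → R} {C D : Finset α} (h : RobR P C D) :
    RobC (fun a b => P b a) D C := by
  intro c hc c' hc' hne d0
  obtain ⟨d, hd, d', hd', n1, n2, n3⟩ := h c hc c' hc' hne d0
  refine ⟨d, hd, d', hd', n1, n2, fun e => n3 ?_⟩
  rw [← e]; simp only [sd]; ring

theorem RobC.tr {P : α → α → R} {C D : Finset α} (h : RobC P C D) :
    RobR (fun a b => P b a) D C := by
  intro c hc c' hc' hne d0
  obtain ⟨d, hd, d', hd', n1, n2, n3⟩ := h c hc c' hc' hne d0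
  refine ⟨d, hd, d', hd', n1, n2, fun e => n3 ?_⟩
  rw [← e]; simp only [sd]; ring

theorem RobR.scale {P Q : α → α → R} {C D : Finset α} (h : RobR P C D) {κ : R} (hκ : Un κ)
    (e : ∀ c0 c d0 d, sd Q c0 d0 c d = κ * sd P c0 d0 c d) : RobR Q C D := by
  intro c hc c' hc' hne d0
  obtain ⟨d, hd, d', hd', n1, n2, n3⟩ := h c hc c' hc' hne d0
  exact ⟨d, hd, d', hd', n1, n2, fun e' => n3 (hκ.mul_eq_zero (by rw [← e, e']))⟩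

theorem RobC.scale {P Q : α → α → R} {C D : Finset α} (h : RobC P C D) {κ : R} (hκ : Un κ)
    (e : ∀ c0 c d0 d, sd Q c0 d0 c d = κ * sd P c0 d0 c d) : RobC Q C D := by
  intro c hc c' hc' hne d0
  obtain ⟨d, hd, d', hd', n1, n2, n3⟩ := h c hc c' hc' hne d0
  exact ⟨d, hd, d', hd', n1, n2, fun e' => n3 (hκ.mul_eq_zero (by rw [← e, e']))⟩

theorem RobR.row2 {P : α → α → R} {C D : Finset α} (h : RobR P C D) {c c' : α} (hc : c ∈ C)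
    (hc' : c' ∈ C) (hne : c ≠ c') (d0 : α) : ∃ d ∈ D, d ≠ d0 ∧ P c d ≠ P c' d := by
  obtain ⟨d, hd, d', hd', n1, n2, n3⟩ := h c hc c' hc' hne d0
  by_cases e : P c d = P c' d
  · refine ⟨d', hd', n2, fun e' => n3 ?_⟩
    simp [sd, e, e']
  · exact ⟨d, hd, n1, e⟩

theorem RobC.col2 {P : α → α → R} {C D : Finset α} (h : RobC P C D) {d d' : α} (hd : d ∈ D)
    (hd' : d' ∈ D) (hne : d ≠ d') (c0 : α) : ∃ c ∈ C, c ≠ c0 ∧ P c d ≠ P c d' :=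
  h.tr.row2 hd hd' hne c0

def V1 (p g s : R) : Prop :=
  Av s ∧ Ok g ∧ Ok (p - g) ∧ Ok (s - g) ∧ Ok (s - 1 - g + p) ∧ Ok (p * s - g)

instance (p g s : R) : Decidable (V1 p g s) := by unfold V1; infer_instance

def Vc (p g s s' : R) : Prop := V1 p g s ∧ V1 p g s' ∧ Ok (s - s')

instance (p g s s' : R) : Decidable (Vc p g s s') := by unfold Vc; infer_instance

def V2 (p g h s t : R) : Prop :=
  V1 p g s ∧ V1 p h t ∧ Ok (g - h) ∧ Ok (s - t) ∧ Ok (s - t - g + h) ∧ Ok (g * t - h * s) ∧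
    Ok (det3 1 1 1 p g h 1 s t)

instance (p g h s t : R) : Decidable (V2 p g h s t) := by unfold V2; infer_instance

def V4 (p g h s t s' t' : R) : Prop :=
  V2 p g h s t ∧ V2 p g h s' t' ∧ O22 s t s' t' ∧ Ok (det3 1 g h 1 s t 1 s' t') ∧
    Ok ((s - 1 - g + p) * (t' - 1 - h + p) - (t - 1 - h + p) * (s' - 1 - g + p)) ∧
    Ok (det3 p g h 1 s t 1 s' t')

instance (p g h s t s' t' : R) : Decidable (V4 p g h s t s' t') := by unfold V4; infer_instance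

/-- normalised valid matrix: zero row i0, zero column x, column j equal to one on rows of I and
to p on row i1 -/
structure NV (Q : α → α → R) (C D I : Finset α) (i0 i1 x j : α) (p : R) : Prop where
  pv : PV Q C D
  hI : I ⊆ C
  hi0 : i0 ∈ C
  hi1 : i1 ∈ C
  hx : x ∈ D
  hj : j ∈ D
  z0 : ∀ d, Q i0 d = 0
  zx : ∀ c, Q c x = 0
  oj : ∀ c ∈ I, Q c j = 1
  pj : Q i1 j = p

namespace NV
variable {Q : α → α → R} {C D I : Finset α} {i0 i1 x j : α} {p : R}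

theorem anch (h : NV Q C D I i0 i1 x j p) : Anch Q I D :=
  h.pv.anch h.hi0 h.hx h.hj h.hI (subset_refl _) h.z0 h.zx h.oj

theorem v1 (h : NV Q C D I i0 i1 x j p) {c y : α} (hc : c ∈ I) (hy : y ∈ D) :
    V1 p (Q i1 y) (Q c y) := by
  have hc' := h.hI hc
  refine ⟨h.anch.av hc hy, ?_, ?_, ?_, ?_, ?_⟩
  · exact ok_congr (h.pv.p1 i0 h.hi0 i1 h.hi1 x h.hx y hy) (by simp [sd, h.z0, h.zx])
  · exact ok_congr (h.pv.p1 i0 h.hi0 i1 h.hi1 y hy j h.hj) (by simp [sd, h.z0, h.pj])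
  · exact ok_congr (h.pv.p1 i1 h.hi1 c hc' x h.hx y hy) (by simp [sd, h.zx])
  · exact ok_congr (h.pv.p1 i1 h.hi1 c hc' j h.hj y hy) (by simp [sd, h.oj c hc, h.pj])
  · exact ok_congr (h.pv.p2 i0 h.hi0 i1 h.hi1 c hc' x h.hx j h.hj y hy)
      (by simp [sd, h.z0, h.zx, h.oj c hc, h.pj])

theorem vc (h : NV Q C D I i0 i1 x j p) {c c' y : α} (hc : c ∈ I) (hc' : c' ∈ I) (hy : y ∈ D) :
    Vc p (Q i1 y) (Q c y) (Q c' y) :=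
  ⟨h.v1 hc hy, h.v1 hc' hy, (h.anch.o22 c hc c' hc' y hy y hy).2.2.2.2.2.2.1⟩

theorem v2 (h : NV Q C D I i0 i1 x j p) {c y y' : α} (hc : c ∈ I) (hy : y ∈ D) (hy' : y' ∈ D) :
    V2 p (Q i1 y) (Q i1 y') (Q c y) (Q c y') := by
  have hc' := h.hI hc
  refine ⟨h.v1 hc hy, h.v1 hc hy', ?_, ?_, ?_, ?_, ?_⟩
  · exact ok_congr (h.pv.p1 i0 h.hi0 i1 h.hi1 y' hy' y hy) (by simp [sd, h.z0])
  · exact ok_congr (h.pv.p1 i0 h.hi0 c hc' y' hy' y hy) (by simp [sd, h.z0])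
  · exact ok_congr (h.pv.p1 i1 h.hi1 c hc' y' hy' y hy) (by simp [sd])
  · exact ok_congr (h.pv.p2 i0 h.hi0 i1 h.hi1 c hc' x h.hx y hy y' hy')
      (by simp [sd, h.z0, h.zx])
  · exact ok_congr (h.pv.p2 i0 h.hi0 i1 h.hi1 c hc' j h.hj y hy y' hy')
      (by simp only [sd, det3, h.z0, h.oj c hc, h.pj]; ring)

theorem v4 (h : NV Q C D I i0 i1 x j p) {c c' y y' : α} (hc : c ∈ I) (hc' : c' ∈ I) (hy : y ∈ D)
    (hy' : y' ∈ D) : V4 p (Q i1 y) (Q i1 y') (Q c y) (Q c y') (Q c' y) (Q c' y') := by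
  refine ⟨h.v2 hc hy hy', h.v2 hc' hy hy', h.anch.o22 c hc c' hc' y hy y' hy', ?_, ?_, ?_⟩
  · exact ok_congr (h.pv.p2 i1 h.hi1 c (h.hI hc) c' (h.hI hc') x h.hx y hy y' hy')
      (by simp only [sd, det3, h.zx]; ring)
  · exact ok_congr (h.pv.p2 i1 h.hi1 c (h.hI hc) c' (h.hI hc') j h.hj y hy y' hy')
      (by simp only [sd, h.oj c hc, h.oj c' hc', h.pj])
  · exact ok_congr (h.pv.p3 i0 h.hi0 i1 h.hi1 c (h.hI hc) c' (h.hI hc') x h.hx j h.hj y hy y' hy')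
      (by simp [sd, h.z0, h.zx, h.oj c hc, h.oj c' hc', h.pj])

end NV

theorem fin_T0 : ∀ s, Av s → ∀ s', Av s' → s ≠ s' → ∀ g : R, g ≠ 0 → Vc 0 g s s' →
    ∀ t, Av t → ∀ t', Av t' → t ≠ t' → ∀ h : R, h ≠ 0 →
    Vc 0 h t t' → V4 0 g h s t s' t' → g = h ∧ s = t ∧ s' = t' := by decide +kernel

theorem fin_T (g : R) (g0 : g ≠ 0) (s s' : R) (hs : s ≠ s') (v : Vc 0 g s s') (h : R) (h0 : h ≠ 0)
    (t t' : R) (ht : t ≠ t') (w : Vc 0 h t t') (u : V4 0 g h s t s' t') :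
    g = h ∧ s = t ∧ s' = t' :=
  fin_T0 s v.1.1 s' v.2.1.1 hs g g0 v t w.1.1 t' w.2.1.1 ht h h0 w u

theorem fin_2val0 : ∀ s, Av s → ∀ s', Av s' → s ≠ s' → ∀ g : R, g ≠ 0 → Vc 0 g s s' →
    ∀ s'', s ≠ s'' → Vc 0 g s s'' → s' = s'' := by decide +kernel

theorem fin_2val (g : R) (g0 : g ≠ 0) (s s' : R) (hs : s ≠ s') (v : Vc 0 g s s') (s'' : R)
    (hs' : s ≠ s'') (w : Vc 0 g s s'') : s' = s'' :=
  fin_2val0 s v.1.1 s' v.2.1.1 hs g g0 v s'' hs' w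

set_option synthInstance.maxSize 2000 in
theorem fin_al20 : ∀ h, Av h → ∀ l, Av l → h ≠ l → ∀ g : R, g ≠ 0 → Vc 0 g h l →
    Fu (if h = 0 ∨ h = 1 then l else 1 - h) ∧
    ∀ n, Av n → ∀ m, Av m → V4 0 g 0 h n l m → In3 (if h = 0 ∨ h = 1 then l else 1 - h) m ∧
      ∀ m', Av m' → m ≠ m' → V4 0 g 0 h n l m' → n = (if h = 0 ∨ l = 1 then 0 else 1) := by
  decide +kernel

theorem fin_al2 (g : R) (g0 : g ≠ 0) (h l : R) (hl : h ≠ l) (v : Vc 0 g h l) : ∃ κ f, Fu f ∧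
    ∀ n m, V4 0 g 0 h n l m → In3 f m ∧ ∀ m', m ≠ m' → V4 0 g 0 h n l m' → n = κ := by
  obtain ⟨h1, h2⟩ := fin_al20 h v.1.1 l v.2.1.1 hl g g0 v
  refine ⟨if h = 0 ∨ l = 1 then 0 else 1, _, h1, fun n m u => ?_⟩
  obtain ⟨h3, h4⟩ := h2 n u.1.2.1.1 m u.2.1.2.1.1 u
  exact ⟨h3, fun m' hm u' => h4 m' u'.2.1.2.1.1 hm u'⟩

theorem fin_al0 : ∀ g s : R, V1 0 g s → s = 0 ∨ s = 1 ∨ s = g ∨ s - 1 = g ∨ g = 0 := by
  decide +kernel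

def BT (p g : R) : Prop := g = 0 ∨ g = p ∨ g = 1 ∨ g = p - 1

instance (p g : R) : Decidable (BT p g) := by unfold BT; infer_instance

def bdef (p g : R) : R := if g = 0 ∨ g = p - 1 then 0 else 1

theorem fin_b10 : ∀ p : R, Fu p → ∀ g s, V1 p g s → ∀ s', s ≠ s' → Vc p g s s' → BT p g := by
  decide +kernel

theorem fin_b1 (p : R) (hp : Fu p) (g s s' : R) (hs : s ≠ s') (v : Vc p g s s') : BT p g :=
  fin_b10 p hp g s v.1 s' hs v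

theorem fin_b1' : ∀ p : R, Fu p → ∀ g, BT p g → ∃ f, Fu f ∧ ∀ s, V1 p g s → In3 f s := by
  decide +kernel

theorem fin_b20 : ∀ p : R, Fu p → ∀ g, BT p g → ∀ h, BT p h → g ≠ h → ∀ s, V1 p g s →
    s ≠ bdef p g → ∀ t, V1 p h t → t ≠ bdef p h → V2 p g h s t →
      (g = 0 ∧ h = p ∧ ((s = 1 ∧ t = p) ∨ (s = 1 - p ∧ t = 0))) ∨
      (h = 0 ∧ g = p ∧ ((t = 1 ∧ s = p) ∨ (t = 1 - p ∧ s = 0))) := by decide +kernel

theorem fin_b2 (p : R) (hp : Fu p) (g : R) (hg : BT p g) (h : R) (hh : BT p h) (hne : g ≠ h)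
    (s : R) (hs : s ≠ bdef p g) (t : R) (ht : t ≠ bdef p h) (v : V2 p g h s t) :
      (g = 0 ∧ h = p ∧ ((s = 1 ∧ t = p) ∨ (s = 1 - p ∧ t = 0))) ∨
      (h = 0 ∧ g = p ∧ ((t = 1 ∧ s = p) ∨ (t = 1 - p ∧ s = 0))) :=
  fin_b20 p hp g hg h hh hne s v.1 hs t v.2.1 ht v

theorem fin_b3 : ∀ p : R, Fu p → ∀ s t, V4 p 0 p 1 p s t →
    (s = 0 ∧ t = p) ∨ (s = 1 ∧ t = 1) ∨ (s = 1 ∧ t = p) := by decide +kernel

theorem fin_bdef : ∀ p : R, Fu p → bdef p 0 = 0 ∧ bdef p p = 1 ∧ bdef p 1 = 1 ∧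
    bdef p (p - 1) = 0 ∧ ¬ Ok (1 - (p - 1)) ∧ p - 1 ≠ 0 ∧ p - 1 ≠ p ∧ 1 - p ≠ 1 := by
  decide +kernel

theorem fin_0110 : ¬ O22 0 1 1 0 := by decide +kernel

end Pool.Agent.NearReg
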