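import Pool.Agent.Lib.MP_da0a56_lc.Face

/-! Stuck pairs of bases. -/

set_option autoImplicit false

namespace Pool.Agent.NearReg
open R

theorem ex_third {α : Type*} [DecidableEq α] {S : Finset α} {a b : α} (ha : a ∈ S) (hb : b ∈ S)
    (n : a ≠ b) (h : S.card ≠ 2) : ∃ c ∈ S, c ≠ a ∧ c ≠ b := by
  by_contra hn
  push Not at hn
  apply h
  rw [← Finset.card_pair n]
  congr 1
  ext c
  simp only [Finset.mem_insert, Finset.mem_singleton]
  refine ⟨fun hc => ?_, by rintro (rfl | rfl) <;> assumption⟩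
  by_cases q : c = a
  · exact Or.inl q
  · exact Or.inr (hn c hc q)

theorem fin_nz1 : ∀ a : R, Fu a → ∀ b, Fu b → Ok (det3 1 1 1 1 a 0 1 0 b) → a * b = a + b := by
  decide +kernel

theorem fin_nz2 : ∀ a : R, Fu a → a * a ≠ a + a := by decide +kernel

theorem fin_nz3 : ∀ a : R, Fu a → ∀ b b', a * b = a + b → a * b' = a + b' → b = b' := by
  decide +kernel

theorem nz_abs {α : Type*} [DecidableEq α] {M : α → α → R} {S S' : Finset α} {u : α → R} {c : R}
    (hc : Un c) (hM : ∀ i ∈ S, ∀ y ∈ S', M i y ≠ 0 → Fu (M i y))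
    (row : ∀ i ∈ S, ∀ y ∈ S', ∀ y' ∈ S', Ok (M i y - M i y'))
    (col : ∀ i ∈ S, ∀ i' ∈ S, ∀ y ∈ S', Ok (M i y - M i' y))
    (d3 : ∀ i ∈ S, ∀ i' ∈ S, ∀ y ∈ S', ∀ y' ∈ S',
      Ok (det3 1 1 1 1 (M i y) (M i y') 1 (M i' y) (M i' y')))
    (su : ∑ y ∈ S', u y = 0) (pu : ∀ i ∈ S, ∑ y ∈ S', u y * M i y = c)
    (cov : ∀ y ∈ S', ∃ i ∈ S, M i y ≠ 0) (ne : S.Nonempty) : False := by
  set sp : α → Finset α := fun i => S'.filter (fun y => M i y ≠ 0) with hsp
  have msp : ∀ i y, y ∈ sp i ↔ y ∈ S' ∧ M i y ≠ 0 := fun i y => Finset.mem_filter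
  have rowv : ∀ i ∈ S, ∀ y ∈ sp i, ∀ y' ∈ sp i, M i y = M i y' := by
    intro i hi y hy y' hy'
    rw [msp] at hy hy'
    exact fu_eq _ _ (hM i hi y hy.1 hy.2) (hM i hi y' hy'.1 hy'.2) (row i hi y hy.1 y' hy'.1)
  have cross : ∀ i ∈ S, ∀ i' ∈ S, ∀ y ∈ sp i, y ∉ sp i' → ∀ y' ∈ sp i', y' ∉ sp i →
      M i y * M i' y' = M i y + M i' y' := by
    intro i hi i' hi' y hy ny y' hy' ny'
    rw [msp] at hy hy' ny ny'
    have z1 : M i' y = 0 := by
      by_contra q
      exact ny ⟨hy.1, q⟩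
    have z2 : M i y' = 0 := by
      by_contra q
      exact ny' ⟨hy'.1, q⟩
    have := d3 i hi i' hi' y hy.1 y' hy'.1
    rw [z1, z2] at this
    exact fin_nz1 _ (hM i hi y hy.1 hy.2) _ (hM i' hi' y' hy'.1 hy'.2) this
  have sumv : ∀ i ∈ S, ∀ y ∈ sp i, M i y * ∑ w ∈ sp i, u w = c := by
    intro i hi y hy
    rw [← pu i hi, Finset.mul_sum, hsp, Finset.sum_filter]
    refine Finset.sum_congr rfl (fun w hw => ?_)
    split_ifs with q
    · rw [rowv i hi y hy w ((msp _ _).2 ⟨hw, q⟩), mul_comm]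
    · rw [not_not.1 q, mul_zero]
  have spne : ∀ i ∈ S, (sp i).Nonempty := by
    intro i hi
    by_contra q
    rw [Finset.not_nonempty_iff_eq_empty] at q
    apply hc.ne_zero
    rw [← pu i hi]
    refine Finset.sum_eq_zero (fun y hy => ?_)
    have : M i y = 0 := by
      by_contra r
      have : y ∈ sp i := (msp _ _).2 ⟨hy, r⟩
      rw [q] at this
      exact absurd this (Finset.notMem_empty _)
    rw [this, mul_zero]
  have notsub : ∀ i i', (sp i').card ≤ (sp i).card → ∀ y ∈ sp i', y ∉ sp i →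
      ∃ w ∈ sp i, w ∉ sp i' := by
    intro i i' hle y hy ny
    by_contra q
    push Not at q
    have : sp i ⊂ sp i' := (Finset.ssubset_iff_of_subset q).2 ⟨y, hy, ny⟩
    exact absurd hle (not_le.2 (Finset.card_lt_card this))
  obtain ⟨i1, hi1, m1⟩ := Finset.exists_max_image S (fun i => (sp i).card) ne
  obtain ⟨y1, hy1⟩ := spne i1 hi1
  have f1 : Fu (M i1 y1) := hM i1 hi1 y1 ((msp _ _).1 hy1).1 ((msp _ _).1 hy1).2
  by_cases full : ∀ y ∈ S', y ∈ sp i1
  · have e : sp i1 = S' := Finset.Subset.antisymm (Finset.filter_subset _ _) full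
    have := sumv i1 hi1 y1 hy1
    rw [e, su, mul_zero] at this
    exact hc.ne_zero this.symm
  push Not at full
  obtain ⟨ya, hya, nya⟩ := full
  obtain ⟨ia, hia, na⟩ := cov ya hya
  obtain ⟨i2, hi2, m2⟩ := Finset.exists_max_image (S.filter (fun i => ∃ y ∈ sp i, y ∉ sp i1))
    (fun i => (sp i).card) ⟨ia, Finset.mem_filter.2 ⟨hia, ya, (msp _ _).2 ⟨hya, na⟩, nya⟩⟩
  obtain ⟨hi2, y2, hy2, ny2⟩ := Finset.mem_filter.1 hi2
  have f2 : Fu (M i2 y2) := hM i2 hi2 y2 ((msp _ _).1 hy2).1 ((msp _ _).1 hy2).2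
  have rel : ∀ i ∈ S, ∀ y ∈ sp i, y ∉ sp i1 → M i1 y1 * M i y = M i1 y1 + M i y := by
    intro i hi y hy ny
    obtain ⟨w, hw, nw⟩ := notsub i1 i (m1 i hi) y hy ny
    rw [rowv i1 hi1 y1 hy1 w hw]
    exact cross i1 hi1 i hi w hw nw y hy ny
  have r2 := rel i2 hi2 y2 hy2 ny2
  have disj : Disjoint (sp i1) (sp i2) := by
    rw [Finset.disjoint_left]
    intro w h1 h2
    have e : M i1 w = M i2 w := fu_eq _ _ (hM i1 hi1 w ((msp _ _).1 h1).1 ((msp _ _).1 h1).2)
      (hM i2 hi2 w ((msp _ _).1 h2).1 ((msp _ _).1 h2).2) (col i1 hi1 i2 hi2 w ((msp _ _).1 h1).1)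
    rw [rowv i2 hi2 y2 hy2 w h2, ← e, ← rowv i1 hi1 y1 hy1 w h1] at r2
    exact fin_nz2 _ f1 r2
  have un : sp i1 ∪ sp i2 = S' := by
    refine Finset.Subset.antisymm (Finset.union_subset (Finset.filter_subset _ _)
      (Finset.filter_subset _ _)) (fun y hy => ?_)
    by_contra q
    rw [Finset.mem_union, not_or] at q
    obtain ⟨i, hi, ni⟩ := cov y hy
    have hyi : y ∈ sp i := (msp _ _).2 ⟨hy, ni⟩
    obtain ⟨w, hw, nw⟩ := notsub i2 i (m2 i (Finset.mem_filter.2 ⟨hi, y, hyi, q.1⟩)) y hyi q.2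
    have c1 := cross i2 hi2 i hi w hw nw y hyi q.2
    rw [← rowv i2 hi2 y2 hy2 w hw, fin_nz3 _ f1 _ _ (rel i hi y hyi q.1) r2] at c1
    exact fin_nz2 _ f2 c1
  rw [← un, Finset.sum_union disj] at su
  have s1 := sumv i1 hi1 y1 hy1
  have s2 := sumv i2 hi2 y2 hy2
  have : c * (M i1 y1 * M i2 y2) = 0 := by
    rw [r2]
    linear_combination (M i1 y1 * M i2 y2) * su - M i2 y2 * s1 - M i1 y1 * s2
  exact (hc.mul (((fu_iff _).1 f1).1.mul ((fu_iff _).1 f2).1)).ne_zero this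

namespace Tab
variable {α : Type*} [DecidableEq α] {T : Tab α} {e x : α} {X X' : Finset α}

variable (T) in
def uu (e x : α) (X X' : Finset α) (y : α) : R := T.w x X x y * T.w x X' y e

variable (T) in
def vv (e x : α) (X X' : Finset α) (i : α) : R := -(T.w x X i e * T.w x X' x i)

variable (T) in
structure St (e x : α) (X X' : Finset α) : Prop where
  hB : T.bs (insert x X)
  hB' : T.bs (insert x X')
  hx : x ∉ X
  hx' : x ∉ X'
  he : e ∉ X
  he' : e ∉ X'
  s1 : T.St1 e x X X'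
  s2 : T.St1 e x X' X
  lev : T.w x X x e = T.w x X' x e
  ne : X ≠ X'

theorem St.symm (h : T.St e x X X') : T.St e x X' X :=
  ⟨h.hB', h.hB, h.hx', h.hx, h.he', h.he, h.s2, h.s1, h.lev.symm, h.ne.symm⟩

theorem St.card (h : T.St e x X X') : (X \ X').card = (X' \ X).card :=
  w_card_sdiff h.hB h.hB' h.hx h.hx'

theorem St.nonempty (h : T.St e x X X') : (X \ X').Nonempty := by
  rw [Finset.sdiff_nonempty]
  exact fun q => h.ne (Finset.eq_of_subset_of_card_le q (w_card h.hB' h.hB h.hx' h.hx).le)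

theorem St.ref_row (h : T.St e x X X') {i : α} (hi : i ∈ X) (hε : T.w x X i e ≠ 0) :
    ∑ y ∈ X' \ X, T.uu e x X X' y * T.Pm e x X i y =
      1 - ri (T.w x X i e) * (if i ∈ X' then T.w x X' i e else 0) := by
  have e1 := w_trans h.hB' h.hB h.hx' h.hx hi e
  have e2 := ri_mul _ (w_un h.hB hi hε)
  have : ∑ y ∈ X' \ X, T.uu e x X X' y * T.Pm e x X i y =
      ri (T.w x X i e) * ∑ y ∈ X' \ X, T.w x X i y * T.w x X' y e := by
    rw [Finset.mul_sum]
    refine Finset.sum_congr rfl (fun y hy => ?_)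
    obtain ⟨y1, y2⟩ := Finset.mem_sdiff.1 hy
    rw [Pm_of hi, uu]
    linear_combination (T.w x X' y e * T.w x X i y * ri (T.w x X i e)) *
      ri_mul _ (w_unx h.hB (h.s1.2 y y1 y2))
  rw [this]
  linear_combination e2 - ri (T.w x X i e) * e1

theorem St.ref_col (h : T.St e x X X') {d : α} (hδ : T.w x X x d ≠ 0) :
    ∑ i ∈ X \ X', T.vv e x X X' i * T.Pm e x X i d = 1 - ri (T.w x X x d) * T.w x X' x d := by
  have e1 := w_transx h.hB h.hB' h.hx d
  have e2 := ri_mul _ (w_unx h.hB hδ)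
  have : ∑ i ∈ X \ X', T.vv e x X X' i * T.Pm e x X i d =
      -(ri (T.w x X x d) * ∑ i ∈ X \ X', T.w x X' x i * T.w x X i d) := by
    rw [Finset.mul_sum, ← Finset.sum_neg_distrib]
    refine Finset.sum_congr rfl (fun i hi => ?_)
    obtain ⟨i1, i2⟩ := Finset.mem_sdiff.1 hi
    rw [Pm_of i1, vv]
    linear_combination (-(T.w x X' x i * T.w x X i d * ri (T.w x X x d))) *
      ri_mul _ (w_un h.hB i1 (h.s1.1 i i1 i2))
  rw [this]
  linear_combination e2 + ri (T.w x X x d) * e1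

theorem St.sp (h : T.St e x X X') :
    SP (T.Pm e x X) (X \ X') (X' \ X) (T.uu e x X X') (T.vv e x X X') 1 1 := by
  have ε : ∀ i ∈ X \ X', T.w x X i e ≠ 0 := fun i hi =>
    h.s1.1 i (Finset.mem_sdiff.1 hi).1 (Finset.mem_sdiff.1 hi).2
  have δ : ∀ y ∈ X' \ X, T.w x X x y ≠ 0 := fun y hy =>
    h.s1.2 y (Finset.mem_sdiff.1 hy).1 (Finset.mem_sdiff.1 hy).2
  have ε' : ∀ y ∈ X' \ X, Un (T.w x X' y e) := fun y hy => w_un h.hB' (Finset.mem_sdiff.1 hy).1
    (h.s2.1 y (Finset.mem_sdiff.1 hy).1 (Finset.mem_sdiff.1 hy).2)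
  have δ' : ∀ i ∈ X \ X', Un (T.w x X' x i) := fun i hi => w_unx h.hB'
    (h.s2.2 i (Finset.mem_sdiff.1 hi).1 (Finset.mem_sdiff.1 hi).2)
  refine
    { uu := fun y hy => (w_unx h.hB (δ y hy)).mul (ε' y hy)
      uv := fun i hi => ((w_un h.hB (Finset.mem_sdiff.1 hi).1 (ε i hi)).mul (δ' i hi)).neg
      su := ?_
      sv := ?_
      pu := fun i hi => ?_
      vp := fun y hy => ?_
      ua := un_one
      ub := un_one
      ci := fun y hy y' hy' n t ht => ?_
      ri := fun i hi i' hi' n t ht => ?_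
      card := h.card
      ne := h.nonempty }
  · have := w_transx h.hB' h.hB h.hx' e
    rw [h.lev] at this
    simp only [uu]
    linear_combination -this
  · have := w_transx h.hB h.hB' h.hx e
    rw [h.lev] at this
    simp only [vv, Finset.sum_neg_distrib, mul_comm (T.w x X _ e)]
    linear_combination this
  · rw [h.ref_row (Finset.mem_sdiff.1 hi).1 (ε i hi), if_neg (Finset.mem_sdiff.1 hi).2]; ring
  · rw [h.ref_col (δ y hy), w_x0 h.hB' h.hx' (Finset.mem_sdiff.1 hy).1]; ring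
  · by_contra hn
    rw [h.card] at hn
    obtain ⟨y2, hy2, n1, n2⟩ := ex_third hy hy' n hn
    have key : ∀ k ∈ X' \ X, ri (T.w x X x y) * T.w x X' k y - ri (T.w x X x y') * T.w x X' k y' =
        t * T.w x X' k e := by
      intro k hk
      obtain ⟨k1, k2⟩ := Finset.mem_sdiff.1 hk
      rw [w_trans h.hB h.hB' h.hx h.hx' k1 y, w_trans h.hB h.hB' h.hx h.hx' k1 y',
        w_trans h.hB h.hB' h.hx h.hx' k1 e]
      simp only [if_neg k2, add_zero, Finset.mul_sum, ← Finset.sum_sub_distrib]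
      refine Finset.sum_congr rfl (fun i hi => ?_)
      have q := ht i hi
      have i1 := (Finset.mem_sdiff.1 hi).1
      rw [Pm_of i1, Pm_of i1] at q
      linear_combination (T.w x X' k i * T.w x X i e) * q - (T.w x X' k i * (T.w x X i y *
        ri (T.w x X x y) - T.w x X i y' * ri (T.w x X x y'))) * ri_mul _ (w_un h.hB i1 (ε i hi))
    have m := (Finset.mem_sdiff.1 hy).1
    have m' := (Finset.mem_sdiff.1 hy').1
    have m2 := (Finset.mem_sdiff.1 hy2).1
    have k1 := key y hy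
    have k2 := key y2 hy2
    rw [w_id1 h.hB' m, w_id0 h.hB' m m' n] at k1
    rw [w_id0 h.hB' m2 m n1, w_id0 h.hB' m2 m' n2] at k2
    have t0 : t = 0 := (ε' y2 hy2).mul_eq_zero' (by linear_combination -k2)
    rw [t0] at k1
    exact (un_ri _ (w_unx h.hB (δ y hy))).ne_zero (by linear_combination k1)
  · by_contra hn
    obtain ⟨i2, hi2, n1, n2⟩ := ex_third hi hi' n hn
    have m := (Finset.mem_sdiff.1 hi).1
    have m' := (Finset.mem_sdiff.1 hi').1
    have m2 := (Finset.mem_sdiff.1 hi2).1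
    have key : ∀ k ∈ X, ri (T.w x X i e) * T.w x X i k - ri (T.w x X i' e) * T.w x X i' k =
        -(t * T.w x X' x k) := by
      intro k hk
      have z := w_transx h.hB' h.hB h.hx' k
      rw [w_x0 h.hB h.hx hk] at z
      have : T.w x X' x k = -∑ y ∈ X' \ X, T.w x X x y * T.w x X' y k := by
        linear_combination -z
      rw [w_trans h.hB' h.hB h.hx' h.hx m k, w_trans h.hB' h.hB h.hx' h.hx m' k, this]
      simp only [if_neg (Finset.mem_sdiff.1 hi).2, if_neg (Finset.mem_sdiff.1 hi').2, add_zero,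
        mul_neg, neg_neg, Finset.mul_sum, ← Finset.sum_sub_distrib]
      refine Finset.sum_congr rfl (fun y hy => ?_)
      have q := ht y hy
      rw [Pm_of m, Pm_of m'] at q
      linear_combination (T.w x X' y k * T.w x X x y) * q - (T.w x X' y k * (T.w x X i y *
        ri (T.w x X i e) - T.w x X i' y * ri (T.w x X i' e))) * ri_mul _ (w_unx h.hB (δ y hy))
    have k1 := key i m
    have k2 := key i2 m2
    rw [w_id1 h.hB m, w_id0 h.hB m' m n.symm] at k1
    rw [w_id0 h.hB m m2 n1.symm, w_id0 h.hB m' m2 n2.symm] at k2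
    have t0 : t = 0 := (δ' i2 hi2).mul_eq_zero' (by linear_combination k2)
    rw [t0] at k1
    exact (un_ri _ (w_un h.hB m (ε i hi))).ne_zero (by linear_combination k1)

/-- stuck pairs at level zero with the same label have size two -/
theorem St.k2 (h : T.St e x X X') (hex : e ≠ x) (hl : T.w x X x e = 0) {C : Finset α} {j : α}
    (hj : T.w x X x j ≠ 0) (hjj : T.w x X x j = T.w x X' x j)
    (ro' : ∀ i ∈ X', i ∉ C → T.w x X' i j ≠ 0 → T.w x X' i e ≠ 0)
    (ro : ∀ i ∈ X, i ∉ C → T.w x X i j ≠ 0 → T.w x X i e ≠ 0)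
    (nd : ∃ i ∈ X, i ∉ C ∧ T.w x X i j ≠ 0) :
    (X \ X').card = 2 ∧ ∀ i ∈ X \ X', ∀ i' ∈ X \ X', T.Pm e x X i j = T.Pm e x X i' j := by
  have sp := h.sp
  have hD : ∀ d ∈ insert j (insert x (X' \ X)), T.w x X x d ≠ 0 := by
    intro d hd
    simp only [Finset.mem_insert, Finset.mem_sdiff] at hd
    rcases hd with rfl | rfl | hd
    · exact hj
    · rw [w_xx h.hB]; exact one_ne_zero
    · exact h.s1.2 d hd.1 hd.2
  have hS : ∀ c ∈ X \ X', c ∈ X ∧ T.w x X c e ≠ 0 := fun c hc =>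
    ⟨(Finset.mem_sdiff.1 hc).1, h.s1.1 c (Finset.mem_sdiff.1 hc).1 (Finset.mem_sdiff.1 hc).2⟩
  have zx : ∀ c, T.Pm e x X c x = 0 := Pm_x h.hB h.hx
  have z0 : ∀ d, T.Pm e x X e d = 0 := Pm_e h.he
  have pvP : ∀ C' : Finset α, (∀ c ∈ C', c = e ∨ (c ∈ X ∧ T.w x X c e ≠ 0)) →
      PV (T.Pm e x X) C' (insert j (insert x (X' \ X))) :=
    fun C' hC => pv h.hB h.hx h.he hex hl hC hD
  have cj : ∀ i ∈ X \ X', ∀ i' ∈ X \ X', T.Pm e x X i j = T.Pm e x X i' j := by
    refine sp.const_col (pvP _ (fun c hc => ?_)) z0 zx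
      (fun q => h.he (Finset.mem_sdiff.1 q).1) (fun q => h.hx' (Finset.mem_sdiff.1 q).1) ?_
    · rcases Finset.mem_insert.1 hc with q | q
      · exact Or.inl q
      · exact Or.inr (hS c q)
    · rw [h.ref_col hj, ← hjj, ri_mul _ (w_unx h.hB hj), sub_self]
  refine ⟨?_, cj⟩
  obtain ⟨i0, hi0⟩ := h.nonempty
  have mx : x ∈ insert j (insert x (X' \ X)) := by simp
  have mj : j ∈ insert j (insert x (X' \ X)) := by simp
  have mS : X' \ X ⊆ insert j (insert x (X' \ X)) :=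
    (Finset.subset_insert _ _).trans (Finset.subset_insert _ _)
  by_cases hz : T.Pm e x X i0 j = 0
  · have z : ∀ i ∈ X \ X', T.w x X i j = 0 := by
      intro i hi
      rw [w_Pm h.hB (hS i hi).1 (hS i hi).2 hj, cj i hi i0 hi0, hz, mul_zero]
    obtain ⟨k, hk, nk, wk⟩ := nd
    have hk' : k ∈ X' := by
      by_contra q
      exact wk (z k (Finset.mem_sdiff.2 ⟨hk, q⟩))
    have εk := ro k hk nk wk
    have wk' : T.w x X' k j = T.w x X k j := by
      rw [w_trans h.hB h.hB' h.hx h.hx' hk' j, if_pos hk,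
        Finset.sum_eq_zero (fun i hi => by rw [z i hi, mul_zero]), zero_add]
    have εk' := ro' k hk' nk (by rw [wk']; exact wk)
    refine sp.two_of_ref (z := k) (pvP (insert k (X \ X')) (fun c hc => ?_))
      (Finset.mem_insert_self _ _) (Finset.subset_insert _ _) mx mj mS zx
      (fun i hi => cj i hi i0 hi0) ?_ ?_
    · rcases Finset.mem_insert.1 hc with q | q
      · rw [q]; exact Or.inr ⟨hk, εk⟩
      · exact Or.inr (hS c q)
    · rw [hz]
      intro q
      apply wk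
      rw [w_Pm h.hB hk εk hj, ← q, mul_zero]
    · rw [h.ref_row hk εk, if_pos hk', sub_sub_cancel]
      exact (un_ri _ (w_un h.hB hk εk)).mul (w_un h.hB' hk' εk')
  · refine sp.two_of_ref (z := e) (pvP (insert e (X \ X')) (fun c hc => ?_))
      (Finset.mem_insert_self _ _) (Finset.subset_insert _ _) mx mj mS zx
      (fun i hi => cj i hi i0 hi0) (by rw [z0]; exact hz) ?_
    · rcases Finset.mem_insert.1 hc with q | q
      · exact Or.inl q
      · exact Or.inr (hS c q)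
    · simp only [z0, mul_zero, Finset.sum_const_zero, sub_zero]
      exact un_one

/-- no stuck pair at a nonzero level without neighbours of level zero -/
theorem St.nz (h : T.St e x X X') (hl : T.w x X x e ≠ 0)
    (nb : ∀ i ∈ X \ X', ∀ y ∈ X' \ X, T.w x X i y ≠ 0 →
      T.w x (insert y (X.erase i)) x e ≠ 0) : False := by
  have sp := h.sp
  have uc := w_unx h.hB hl
  have mx : x ∈ insert x X := Finset.mem_insert_self _ _
  have mX : ∀ i ∈ X \ X', i ∈ X := fun i hi => (Finset.mem_sdiff.1 hi).1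
  have ε0 : ∀ i ∈ X \ X', T.w x X i e ≠ 0 := fun i hi =>
    h.s1.1 i (Finset.mem_sdiff.1 hi).1 (Finset.mem_sdiff.1 hi).2
  have δ0 : ∀ y ∈ X' \ X, T.w x X x y ≠ 0 := fun y hy =>
    h.s1.2 y (Finset.mem_sdiff.1 hy).1 (Finset.mem_sdiff.1 hy).2
  have ε : ∀ i ∈ X \ X', Un (T.w x X i e) := fun i hi => w_un h.hB (mX i hi) (ε0 i hi)
  have δ : ∀ y ∈ X' \ X, Un (T.w x X x y) := fun y hy => w_unx h.hB (δ0 y hy)
  have W : ∀ i ∈ X \ X', ∀ y ∈ X' \ X,
      T.w x X i y = T.w x X i e * T.w x X x y * T.Pm e x X i y := fun i hi y hy =>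
    w_Pm h.hB (mX i hi) (ε0 i hi) (δ0 y hy)
  refine nz_abs (M := fun i y => T.w x X x e * T.Pm e x X i y) (S := X \ X') (S' := X' \ X)
    (u := T.uu e x X X') uc (fun i hi y hy n => ?_) (fun i hi y hy y' hy' => ?_)
    (fun i hi i' hi' y hy => ?_) (fun i hi i' hi' y hy y' hy' => ?_) sp.su (fun i hi => ?_)
    (fun y hy => ?_) sp.ne
  · have w0 : T.w x X i y ≠ 0 := by
      intro q
      apply n
      rw [Pm_of (mX i hi), q]; ring
    have uw := w_un h.hB (mX i hi) w0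
    have nb' := w_unx (w_bs h.hB h.hx (mX i hi) w0) (nb i hi y hy w0)
    rw [w_x h.hB h.hx (mX i hi) w0] at nb'
    have uP : Un (T.Pm e x X i y) := by
      have := uw
      rw [W i hi y hy] at this
      exact ((un_mul _ _).1 this).2
    refine (fu_iff _).2 ⟨uc.mul uP, ?_⟩
    have k := uw.mul nb'
    have : T.w x X i y * (T.w x X x e - T.w x X x y * ri (T.w x X i y) * T.w x X i e) =
        (T.w x X i e * T.w x X x y) * (T.w x X x e * T.Pm e x X i y - 1) := by
      linear_combination (T.w x X x e) * W i hi y hy -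
        (T.w x X x y * T.w x X i e) * ri_mul _ uw
    rw [this] at k
    exact ((un_mul _ _).1 k).2
  · have o := uc.ok.mul (d2 h.hB mx (Finset.mem_insert_of_mem (mX i hi)) y' y)
    refine ok_of_mul (((ε i hi).mul (δ y hy)).mul (δ y' hy')) (ok_congr o ?_)
    have a1 := W i hi y hy
    have a2 := W i hi y' hy'
    unfold w at a1 a2 ⊢
    rw [a1, a2]; ring
  · have o := uc.ok.mul (d2 h.hB (Finset.mem_insert_of_mem (mX i' hi'))
      (Finset.mem_insert_of_mem (mX i hi)) e y)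
    refine ok_of_mul (((ε i hi).mul (ε i' hi')).mul (δ y hy)) (ok_congr o ?_)
    have a1 := W i hi y hy
    have a2 := W i' hi' y hy
    unfold w at a1 a2 ⊢
    rw [a1, a2]; ring
  · have o := uc.ok.mul (d3 h.hB mx (Finset.mem_insert_of_mem (mX i hi))
      (Finset.mem_insert_of_mem (mX i' hi')) e y y')
    refine ok_of_mul ((((ε i hi).mul (ε i' hi')).mul (δ y hy)).mul (δ y' hy')) (ok_congr o ?_)
    have a1 := W i hi y hy
    have a2 := W i' hi' y hy
    have a3 := W i hi y' hy'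
    have a4 := W i' hi' y' hy'
    unfold w at a1 a2 a3 a4 ⊢
    rw [a1, a2, a3, a4]
    simp only [det3]; ring
  · have := sp.pu i hi
    calc ∑ y ∈ X' \ X, T.uu e x X X' y * (T.w x X x e * T.Pm e x X i y)
        = T.w x X x e * ∑ y ∈ X' \ X, T.uu e x X X' y * T.Pm e x X i y := by
          rw [Finset.mul_sum]
          exact Finset.sum_congr rfl (fun y _ => by ring)
      _ = T.w x X x e := by rw [this, mul_one]
  · obtain ⟨i, hi, ni, q⟩ := w_ex_in h.hB h.hB' h.hx' (Finset.mem_sdiff.1 hy).1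
      (Finset.mem_sdiff.1 hy).2
    have m : i ∈ X \ X' := Finset.mem_sdiff.2 ⟨hi, ni⟩
    refine ⟨i, m, fun z => q ?_⟩
    rw [W i m y hy, uc.mul_eq_zero z, mul_zero]

end Tab

end Pool.Agent.NearReg
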