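import Pool.Agent.Lib.MP_da0a56_lc.Tree

/-! Tableaux of represented matroids. -/

set_option autoImplicit false

namespace Pool.Agent.NearReg
open R

structure RT {α L : Type*} [DecidableEq α] [CommRing L] (bs : Finset α → Prop)
    (t : Finset α → α → α → L) : Prop where
  id1 : ∀ B, bs B → ∀ i ∈ B, t B i i = 1
  id0 : ∀ B, bs B → ∀ i ∈ B, ∀ k ∈ B, i ≠ k → t B i k = 0
  trans : ∀ B B', bs B → bs B' → ∀ k ∈ B', ∀ f, t B' k f = ∑ i ∈ B, t B' k i * t B i f
  exch : ∀ B, bs B → ∀ i ∈ B, ∀ y, y ∉ B → (bs (insert y (B.erase i)) ↔ t B i y ≠ 0)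

theorem field_tab {α K V : Type*} [DecidableEq α] [Field K] [AddCommGroup V] [Module K V]
    (M : Matroid α) (hE : M.E = Set.univ) (v : α → V)
    (hv : ∀ I : Set α, M.Indep I ↔ LinearIndepOn K v I) :
    ∃ t : Finset α → α → α → K, RT (fun B : Finset α => M.IsBase B) t ∧
      ∀ B : Finset α, M.IsBase B → ∀ f, ∑ i ∈ B, t B i f • v i = v f := by
  have : ∀ (B : Finset α) (f : α), ∃ c : α → K, M.IsBase B → ∑ i ∈ B, c i • v i = v f := by
    intro B f
    by_cases hB : M.IsBase B
    · have : v f ∈ Submodule.span K (v '' B) := by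
        by_cases q : f ∈ (B : Set α)
        · exact Submodule.subset_span (Set.mem_image_of_mem v q)
        · have d := (hB.insert_dep (e := f) ⟨by simp [hE], q⟩).not_indep
          rw [hv, linearIndepOn_insert q] at d
          by_contra r
          exact d ⟨(hv _).1 hB.indep, r⟩
      obtain ⟨c, hc⟩ := (Submodule.mem_span_image_finset_iff_exists_fun' K).1 this
      exact ⟨c, fun _ => hc⟩
    · exact ⟨0, fun q => absurd q hB⟩
  choose c hc using this
  have uq : ∀ B : Finset α, M.IsBase B → ∀ f, ∀ g : α → K, ∑ i ∈ B, g i • v i = v f →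
      ∀ i ∈ B, c B f i = g i := fun B hB f g hg =>
    linearIndepOn_finset_iffₛ.1 ((hv _).1 hB.indep) _ _ ((hc B f hB).trans hg.symm)
  have idd : ∀ B : Finset α, M.IsBase B → ∀ i ∈ B, ∀ k ∈ B,
      c B k i = if i = k then 1 else 0 := by
    intro B hB i hi k hk
    refine uq B hB k (fun i => if i = k then 1 else 0) ?_ i hi
    simp [hk]
  refine ⟨fun B i f => c B f i, ⟨fun B hB i hi => ?_, fun B hB i hi k hk n => ?_,
    fun B B' hB hB' k hk f => ?_, fun B hB i hi y hy => ?_⟩, fun B hB f => hc B f hB⟩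
  · simp [idd B hB i hi i hi]
  · simp [idd B hB i hi k hk, n]
  · refine uq B' hB' f (fun k => ∑ i ∈ B, c B' i k * c B f i) ?_ k hk
    rw [← hc B f hB]
    simp only [Finset.sum_smul]
    rw [Finset.sum_comm]
    refine Finset.sum_congr rfl (fun i _ => ?_)
    rw [← hc B' i hB', Finset.smul_sum]
    exact Finset.sum_congr rfl (fun k _ => by rw [smul_smul, mul_comm])
  · have ny : y ∉ ((B.erase i : Finset α) : Set α) := fun q =>
      hy (Finset.mem_of_mem_erase (Finset.mem_coe.1 q))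
    rw [Finset.coe_insert]
    constructor
    · intro h q
      have := (hv _).1 h.indep
      rw [linearIndepOn_insert ny] at this
      apply this.2
      refine (Submodule.mem_span_image_finset_iff_exists_fun' K).2 ⟨c B y, ?_⟩
      rw [← hc B y hB, ← Finset.add_sum_erase B _ hi, q, zero_smul, zero_add]
    · intro q
      rw [Finset.coe_erase]
      refine hB.exchange_isBase_of_indep (fun r => hy (Finset.mem_coe.1 r)) ?_
      rw [← Finset.coe_erase, hv, linearIndepOn_insert ny]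
      refine ⟨((hv _).1 hB.indep).mono (Finset.coe_subset.2 (Finset.erase_subset _ _)),
        fun r => q ?_⟩
      obtain ⟨g, hg⟩ := (Submodule.mem_span_image_finset_iff_exists_fun' K).1 r
      have := uq B hB y (fun k => if k = i then 0 else g k) (by
        rw [← hg, ← Finset.add_sum_erase B _ hi, if_pos rfl, zero_smul, zero_add]
        exact Finset.sum_congr rfl (fun k hk => by rw [if_neg (Finset.ne_of_mem_erase hk)])) i hi
      simpa using this

theorem tab_of {n : ℕ} {L : Type*} [CommRing L] (M : Matroid (Fin n))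
    (t : Finset (Fin n) → Fin n → Fin n → L) (h : RT (fun B : Finset (Fin n) => M.IsBase B) t)
    (hu : ∀ B : Finset (Fin n), M.IsBase B → ∀ i ∈ B, ∀ f, t B i f = 0 ∨ IsUnit (t B i f))
    (φ : L →+* R) : ∃ T : Tab (Fin n), ∀ B, T.bs B ↔ M.IsBase B := by
  refine ⟨⟨fun B => M.IsBase B, fun B i f => φ (t B i f), fun B hB i hi f => ?_,
    fun B hB i hi => ?_, fun B hB i hi k hk n => ?_, fun B B' hB hB' k hk f => ?_,
    fun B hB i hi y hy => ?_, fun B B' hB hB' => ?_⟩, fun B => Iff.rfl⟩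
  · rcases hu B hB i hi f with q | q
    · rw [q, map_zero]; exact ok_zero
    · exact ((un_iff_isUnit _).2 (q.map φ)).ok
  · rw [h.id1 B hB i hi, map_one]
  · rw [h.id0 B hB i hi k hk n, map_zero]
  · rw [h.trans B B' hB hB' k hk f, map_sum]
    simp only [map_mul]
  · refine (h.exch B hB i hi y hy).trans ⟨fun q => ?_, fun q r => q (by rw [r, map_zero])⟩
    exact (((hu B hB i hi y).resolve_left q).map φ).ne_zero
  · exact ((isBase_iff_rk M B).1 hB).1.trans ((isBase_iff_rk M B').1 hB').1.symm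

theorem ex_rows {K : Type*} [Field K] {m r : ℕ} (A : Matrix (Fin m) (Fin r) K)
    (h : LinearIndependent K A.transpose.row) :
    ∃ ρ : Fin r → Fin m, (A.submatrix ρ id).det ≠ 0 := by
  have r1 : A.rank = r := by
    rw [← Matrix.rank_transpose, h.rank_matrix, Fintype.card_fin]
  obtain ⟨κ, a, ha, hs, hl⟩ := exists_linearIndependent' K A.row
  have : Finite κ := Finite.of_injective a ha
  have : Fintype κ := Fintype.ofFinite κ
  have c : Fintype.card κ = r := by
    rw [linearIndependent_iff_card_eq_finrank_span.1 hl, Set.finrank, hs,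
      ← Matrix.rank_eq_finrank_span_row, r1]
  let e : Fin r ≃ κ := (Fintype.equivFinOfCardEq c).symm
  refine ⟨a ∘ e, ?_⟩
  have : LinearIndependent K (A.submatrix (a ∘ e) id).row := hl.comp e e.injective
  rw [Matrix.linearIndependent_rows_iff_isUnit, Matrix.isUnit_iff_isUnit_det] at this
  exact this.ne_zero

theorem cramer_tab {K : Type*} [Field K] {m n : ℕ} (A : Matrix (Fin m) (Fin n) K)
    (B : Finset (Fin n)) (hB : LinearIndepOn K A.col B) (c : Fin n → K) (f : Fin n)
    (hc : ∑ i ∈ B, c i • A.col i = A.col f) {i : Fin n} (hi : i ∈ B) :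
    ∃ (s : ℕ) (ρ : Fin s → Fin m) (γ γ' : Fin s → Fin n), (A.submatrix ρ γ).det ≠ 0 ∧
      (A.submatrix ρ γ').det = c i * (A.submatrix ρ γ).det := by
  let b : Fin B.card ≃ B := B.equivFin.symm
  let γ : Fin B.card → Fin n := fun k => b k
  obtain ⟨ρ, hρ⟩ := ex_rows (A.submatrix id γ) (hB.comp b b.injective)
  refine ⟨B.card, ρ, γ, Function.update γ (b.symm ⟨i, hi⟩) f, hρ, ?_⟩
  have key := Matrix.det_updateCol_sum (A.submatrix ρ γ) (b.symm ⟨i, hi⟩) (fun k => c (γ k))
  have e1 : γ (b.symm ⟨i, hi⟩) = i := by simp [γ]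
  rw [e1, smul_eq_mul] at key
  rw [← key]
  congr 1
  ext p q
  rw [Matrix.updateCol_apply, Matrix.submatrix_apply]
  split_ifs with w
  · rw [w, Function.update_self]
    have := congrFun hc (ρ p)
    rw [Finset.sum_apply, ← Finset.sum_coe_sort, ← b.sum_comp] at this
    exact this.symm
  · rw [Function.update_of_ne w, Matrix.submatrix_apply]

open Polynomial in
theorem nr_ring : ∃ (L : Type) (_ : CommRing L) (ι : L →+* RatFunc ℚ) (_ : L →+* R),
    Function.Injective ι ∧ ∀ i j : ℤ, ∃ u : Lˣ, ι u = RatFunc.X ^ i * (RatFunc.X - 1) ^ j := by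
  obtain ⟨ρ, hρ⟩ := fu_ex
  let p : ℤ[X] := X * (X - 1)
  let g : ℤ[X] →+* RatFunc ℚ :=
    (algebraMap ℚ[X] (RatFunc ℚ)).comp (mapRingHom (Int.castRingHom ℚ))
  have gi : Function.Injective g :=
    (RatFunc.algebraMap_injective ℚ).comp (map_injective _ Int.cast_injective)
  have gX : g X = RatFunc.X := by simp [g]
  have gp : IsUnit (g p) := by
    refine IsUnit.mk0 _ (fun q => ?_)
    have : p = 0 := gi (q.trans (map_zero g).symm)
    have := congrArg (eval 2) this
    norm_num [p] at this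
  let g' : ℤ[X] →+* R := eval₂RingHom (Int.castRingHom R) ρ
  have gp' : IsUnit (g' p) := by
    have : g' p = ρ * (ρ - 1) := by simp [g', p]
    rw [this, ← un_iff_isUnit]
    exact ((fu_iff ρ).1 hρ).1.mul ((fu_iff ρ).1 hρ).2
  let ι : Localization.Away p →+* RatFunc ℚ := IsLocalization.Away.lift p gp
  have ιe : ∀ a, ι (algebraMap _ _ a) = g a := IsLocalization.Away.lift_eq p gp
  refine ⟨Localization.Away p, inferInstance, ι, IsLocalization.Away.lift p gp', ?_,
    fun i j => ?_⟩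
  · refine IsLocalization.injective_of_map_algebraMap_zero (M := Submonoid.powers p) _ ι
      (fun a ha => ?_)
    rw [ιe] at ha
    rw [gi (ha.trans (map_zero g).symm), map_zero]
  · have u : IsUnit (algebraMap ℤ[X] (Localization.Away p) (X * (X - 1))) :=
      IsLocalization.Away.algebraMap_isUnit p
    rw [map_mul] at u
    obtain ⟨u1, e1⟩ := isUnit_of_mul_isUnit_left u
    obtain ⟨u2, e2⟩ := isUnit_of_mul_isUnit_right u
    let ψ : (Localization.Away p)ˣ →* RatFunc ℚ :=
      ι.toMonoidHom.comp (Units.coeHom _)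
    have a1 : ψ u1 = RatFunc.X := by
      show ι u1 = _
      rw [e1, ιe, gX]
    have a2 : ψ u2 = RatFunc.X - 1 := by
      show ι u2 = _
      rw [e2, ιe, map_sub, gX, map_one]
    refine ⟨u1 ^ i * u2 ^ j, ?_⟩
    show ψ (u1 ^ i * u2 ^ j) = _
    rw [map_mul, map_zpow, map_zpow, a1, a2]

theorem tab_nr {n m : ℕ} (M : Matroid (Fin n)) (hE : M.E = Set.univ)
    (A : Matrix (Fin m) (Fin n) (RatFunc ℚ))
    (hA : ∀ (s : ℕ) (ρ : Fin s → Fin m) (γ : Fin s → Fin n), (A.submatrix ρ γ).det ≠ 0 →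
      ∃ i j : ℤ, (A.submatrix ρ γ).det = RatFunc.X ^ i * (RatFunc.X - 1) ^ j ∨
        (A.submatrix ρ γ).det = -(RatFunc.X ^ i * (RatFunc.X - 1) ^ j))
    (hv : ∀ I : Set (Fin n), M.Indep I ↔ LinearIndepOn (RatFunc ℚ) A.col I) :
    ∃ T : Tab (Fin n), ∀ B, T.bs B ↔ M.IsBase B := by
  obtain ⟨L, _, ι, φ, hι, hu⟩ := nr_ring
  obtain ⟨t, rt, rep⟩ := field_tab M hE A.col hv
  have du : ∀ (s : ℕ) (ρ : Fin s → Fin m) (γ : Fin s → Fin n), (A.submatrix ρ γ).det ≠ 0 →
      ∃ u : Lˣ, ι u = (A.submatrix ρ γ).det := by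
    intro s ρ γ h
    obtain ⟨i, j, q⟩ := hA s ρ γ h
    obtain ⟨u, e⟩ := hu i j
    rcases q with q | q
    · exact ⟨u, e.trans q.symm⟩
    · exact ⟨-u, by rw [q, ← e, Units.val_neg, map_neg]⟩
  have : ∀ (B : Finset (Fin n)) (i f : Fin n), ∃ l : L, M.IsBase B → i ∈ B →
      ι l = t B i f ∧ (l = 0 ∨ IsUnit l) := by
    intro B i f
    by_cases q : M.IsBase B ∧ i ∈ B
    · by_cases z : t B i f = 0
      · exact ⟨0, fun _ _ => ⟨by rw [z, map_zero], Or.inl rfl⟩⟩
      · obtain ⟨s, ρ, γ, γ', d1, d2⟩ := cramer_tab A B ((hv _).1 q.1.indep) (fun k => t B k f) f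
          (rep B q.1 f) q.2
        obtain ⟨u, e⟩ := du s ρ γ d1
        obtain ⟨u', e'⟩ := du s ρ γ' (by rw [d2]; exact mul_ne_zero z d1)
        refine ⟨↑(u' * u⁻¹), fun _ _ => ⟨?_, Or.inr (Units.isUnit _)⟩⟩
        rw [Units.val_mul, map_mul, map_units_inv, e, e', d2, mul_inv_cancel_right₀ d1]
    · exact ⟨0, fun a b => absurd ⟨a, b⟩ q⟩
  choose l hl using this
  refine tab_of M l ⟨fun B hB i hi => hι ?_, fun B hB i hi k hk ne => hι ?_,
    fun B B' hB hB' k hk f => hι ?_, fun B hB i hi y hy => ?_⟩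
    (fun B hB i hi f => (hl B i f hB hi).2) φ
  · rw [(hl B i i hB hi).1, rt.id1 B hB i hi, map_one]
  · rw [(hl B i k hB hi).1, rt.id0 B hB i hi k hk ne, map_zero]
  · rw [(hl B' k f hB' hk).1, rt.trans B B' hB hB' k hk f, map_sum]
    exact Finset.sum_congr rfl (fun i hi => by
      rw [map_mul, (hl B' k i hB' hk).1, (hl B i f hB hi).1])
  · rw [rt.exch B hB i hi y hy, ← (hl B i y hB hi).1]
    exact map_ne_zero_iff ι hι

def F8 : Type := Fin 8

namespace F8

instance : DecidableEq F8 := inferInstanceAs (DecidableEq (Fin 8))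
instance : Fintype F8 := inferInstanceAs (Fintype (Fin 8))

def mk' (n : ℕ) : F8 := (⟨n % 8, Nat.mod_lt _ (by decide)⟩ : Fin 8)

def v (x : F8) : ℕ := (show Fin 8 from x).val

instance : Zero F8 := ⟨mk' 0⟩
instance : One F8 := ⟨mk' 1⟩
instance : Add F8 := ⟨fun x y => mk' (x.v ^^^ y.v)⟩
instance : Mul F8 := ⟨fun x y => mk' (mul8 x.v y.v)⟩
instance : Neg F8 := ⟨fun x => x⟩

instance decAll (p : F8 → Prop) [DecidablePred p] : Decidable (∀ x, p x) :=
  inferInstanceAs (Decidable (∀ x : Fin 8, p x))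

instance : CommRing F8 where
  add_assoc := by decide +kernel
  zero_add := by decide +kernel
  add_zero := by decide +kernel
  add_comm := by decide +kernel
  nsmul := nsmulRec
  zsmul := zsmulRec
  neg_add_cancel := by decide +kernel
  mul_assoc := by decide +kernel
  mul_comm := by decide +kernel
  one_mul := by decide +kernel
  mul_one := by decide +kernel
  zero_mul := by decide +kernel
  mul_zero := by decide +kernel
  left_distrib := by decide +kernel
  right_distrib := by decide +kernel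

theorem isField : IsField F8 :=
  ⟨⟨0, 1, by decide +kernel⟩, mul_comm, fun {a} ha => ⟨a * a * a * a * a * a,
    (by decide +kernel : ∀ a : F8, a ≠ 0 → a * (a * a * a * a * a * a) = 1) a ha⟩⟩

def toR (a : ZMod 3) (b : F8) : R := R.mk' (a.val * 8 + b.v)

theorem toR_add : ∀ (a a' : ZMod 3) (b b' : F8), toR (a + a') (b + b') = toR a b + toR a' b' := by
  decide +kernel

theorem toR_mul : ∀ (a a' : ZMod 3) (b b' : F8), toR (a * a') (b * b') = toR a b * toR a' b' := by
  decide +kernel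

def hom : ZMod 3 × F8 →+* R where
  toFun p := toR p.1 p.2
  map_one' := by decide +kernel
  map_zero' := by decide +kernel
  map_add' p q := toR_add p.1 q.1 p.2 q.2
  map_mul' p q := toR_mul p.1 q.1 p.2 q.2

end F8

theorem hom38 : Nonempty (ZMod 3 × GaloisField 2 3 →+* R) := by
  let : Field F8 := F8.isField.toField
  let : Fintype (GaloisField 2 3) := Fintype.ofFinite _
  have c : Fintype.card (GaloisField 2 3) = Fintype.card F8 := by
    rw [← Nat.card_eq_fintype_card, GaloisField.card 2 3 (by norm_num)]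
    rfl
  exact ⟨F8.hom.comp (RingHom.prodMap (RingHom.id _)
    (FiniteField.ringEquivOfCardEq c).toRingHom)⟩

theorem tab_38 {n : ℕ} (M : Matroid (Fin n)) (hE : M.E = Set.univ)
    (v : Fin n → Fin n → ZMod 3) (hv : ∀ I : Set (Fin n), M.Indep I ↔ LinearIndepOn (ZMod 3) v I)
    (w : Fin n → Fin n → GaloisField 2 3)
    (hw : ∀ I : Set (Fin n), M.Indep I ↔ LinearIndepOn (GaloisField 2 3) w I) :
    ∃ T : Tab (Fin n), ∀ B, T.bs B ↔ M.IsBase B := by
  obtain ⟨φ⟩ := hom38
  obtain ⟨t, rt, -⟩ := field_tab M hE v hv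
  obtain ⟨s, rs, -⟩ := field_tab M hE w hw
  have same : ∀ B : Finset (Fin n), M.IsBase B → ∀ i ∈ B, ∀ f, t B i f ≠ 0 ↔ s B i f ≠ 0 := by
    intro B hB i hi f
    by_cases q : f ∈ B
    · by_cases r : i = f
      · subst r
        simp [rt.id1 B hB i hi, rs.id1 B hB i hi]
      · simp [rt.id0 B hB i hi f q r, rs.id0 B hB i hi f q r]
    · exact (rt.exch B hB i hi f q).symm.trans (rs.exch B hB i hi f q)
  refine tab_of M (fun B i f => (t B i f, s B i f)) ⟨fun B hB i hi => ?_,
    fun B hB i hi k hk ne => ?_, fun B B' hB hB' k hk f => ?_, fun B hB i hi y hy => ?_⟩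
    (fun B hB i hi f => ?_) φ
  · rw [rt.id1 B hB i hi, rs.id1 B hB i hi]; rfl
  · rw [rt.id0 B hB i hi k hk ne, rs.id0 B hB i hi k hk ne]; rfl
  · rw [rt.trans B B' hB hB' k hk f, rs.trans B B' hB hB' k hk f]
    ext
    · simp [Prod.fst_sum]
    · simp [Prod.snd_sum]
  · rw [rt.exch B hB i hi y hy]
    refine ⟨fun q r => q (congrArg Prod.fst r), fun q r => q ?_⟩
    have := mt (same B hB i hi y).2 (not_not.2 r)
    rw [r, not_not.1 this]; rfl
  · by_cases q : t B i f = 0
    · left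
      have := mt (same B hB i hi f).2 (not_not.2 q)
      rw [q, not_not.1 this]; rfl
    · exact Or.inr (Prod.isUnit_iff.2 ⟨IsUnit.mk0 _ q, IsUnit.mk0 _ ((same B hB i hi f).1 q)⟩)

/-- the same theorem for matroids representable over both GF(3) and GF(8) -/
theorem solv_38 (n : ℕ) : Solv (fun M : Matroid (Fin n) =>
    (∃ v : Fin n → (Fin n → ZMod 3), ∀ I : Set (Fin n), M.Indep I ↔ LinearIndepOn (ZMod 3) v I) ∧
    (∃ v : Fin n → (Fin n → GaloisField 2 3),
      ∀ I : Set (Fin n), M.Indep I ↔ LinearIndepOn (GaloisField 2 3) v I))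
    (100 * n ^ 3 + 100) {M | M.E = Set.univ} :=
  solv_all _ (fun M hE h => by
    obtain ⟨⟨v, hv⟩, w, hw⟩ := h
    exact tab_38 M hE v hv w hw)

end Pool.Agent.NearReg
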