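import Mathlib

/-! The ring GF(3) x GF(8) as an explicit computable ring with 24 elements. -/

set_option autoImplicit false

namespace Pool.Agent.NearReg

def R : Type := Fin 24

namespace R

instance : DecidableEq R := inferInstanceAs (DecidableEq (Fin 24))
instance : Fintype R := inferInstanceAs (Fintype (Fin 24))

def mk' (n : ℕ) : R := (⟨n % 24, Nat.mod_lt _ (by decide)⟩ : Fin 24)

def v (x : R) : ℕ := (show Fin 24 from x).val

def mul8 (b d : ℕ) : ℕ :=
  (2821848294356612419217921029917578219971947684264937521152 >>> (3 * (8 * b + d))) % 8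

instance : Zero R := ⟨mk' 0⟩
instance : One R := ⟨mk' 9⟩
instance : Add R := ⟨fun x y => mk' (((x.v / 8 + y.v / 8) % 3) * 8 + ((x.v % 8) ^^^ (y.v % 8)))⟩
instance : Mul R := ⟨fun x y => mk' (((x.v / 8 * (y.v / 8)) % 3) * 8 + mul8 (x.v % 8) (y.v % 8))⟩
instance : Neg R := ⟨fun x => mk' (((3 - x.v / 8) % 3) * 8 + x.v % 8)⟩
instance : Sub R := ⟨fun x y => mk' (((x.v / 8 + (3 - y.v / 8)) % 3) * 8 + ((x.v % 8) ^^^ (y.v % 8)))⟩

instance decAll (p : R → Prop) [DecidablePred p] : Decidable (∀ x, p x) :=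
  inferInstanceAs (Decidable (∀ x : Fin 24, p x))

instance decEx (p : R → Prop) [DecidablePred p] : Decidable (∃ x, p x) :=
  inferInstanceAs (Decidable (∃ x : Fin 24, p x))

instance : CommRing R where
  add_assoc := by decide +kernel
  zero_add := by decide +kernel
  add_zero := by decide +kernel
  add_comm := by decide +kernel
  nsmul := nsmulRec
  zsmul := zsmulRec
  neg_add_cancel := by decide +kernel
  sub_eq_add_neg := by decide +kernel
  mul_assoc := by decide +kernel
  mul_comm := by decide +kernel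
  one_mul := by decide +kernel
  mul_one := by decide +kernel
  zero_mul := by decide +kernel
  mul_zero := by decide +kernel
  left_distrib := by decide +kernel
  right_distrib := by decide +kernel

/-- units -/
def Un (x : R) : Prop := (Nat.ble 8 x.v && !(x.v % 8 == 0)) = true
instance (x : R) : Decidable (Un x) := by unfold Un; infer_instance

/-- zero or unit -/
def Ok (x : R) : Prop := (x.v == 0 || (Nat.ble 8 x.v && !(x.v % 8 == 0))) = true
instance (x : R) : Decidable (Ok x) := by unfold Ok; infer_instance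

/-- fundamental elements -/
def Fu (x : R) : Prop := Nat.ble 18 x.v = true
instance (x : R) : Decidable (Fu x) := by unfold Fu; infer_instance

/-- inverse of a unit -/
def ri (x : R) : R := mk' ((856191128317800409421197305526091776 >>> (5 * x.v)) % 32)

theorem ok_iff : ∀ x : R, Ok x ↔ x = 0 ∨ Un x := by decide +kernel
theorem ri_mul : ∀ x : R, Un x → ri x * x = 1 := by decide +kernel
theorem un_ri : ∀ x : R, Un x → Un (ri x) := by decide +kernel
theorem un_mul : ∀ x y : R, Un (x * y) ↔ Un x ∧ Un y := by decide +kernel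
theorem un_neg : ∀ x : R, Un (-x) ↔ Un x := by decide +kernel
theorem un_one : Un 1 := by decide +kernel
theorem not_un_zero : ¬ Un 0 := by decide +kernel
theorem ok_neg : ∀ x : R, Ok (-x) ↔ Ok x := by decide +kernel
theorem ok_zero : Ok 0 := by decide +kernel
theorem ok_one : Ok 1 := by decide +kernel
theorem ok_mul : ∀ x y : R, Ok x → Ok y → Ok (x * y) := by decide +kernel
theorem fu_iff : ∀ x : R, Fu x ↔ Un x ∧ Un (x - 1) := by decide +kernel
theorem one_ne_zero' : (1 : R) ≠ 0 := by decide +kernel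

instance : Nontrivial R := ⟨⟨1, 0, one_ne_zero'⟩⟩

theorem un_iff_isUnit (x : R) : Un x ↔ IsUnit x := by
  constructor
  · intro h
    exact IsUnit.of_mul_eq_one (ri x) (by rw [mul_comm]; exact ri_mul x h)
  · rintro ⟨u, rfl⟩
    have h : Un ((u : R) * (↑u⁻¹ : R)) := by rw [Units.mul_inv]; exact un_one
    exact ((un_mul _ _).1 h).1

theorem Un.ne_zero {x : R} (h : Un x) : x ≠ 0 := by
  rintro rfl; exact not_un_zero h

theorem Un.ok {x : R} (h : Un x) : Ok x := (ok_iff x).2 (Or.inr h)

theorem Ok.un {x : R} (h : Ok x) (h0 : x ≠ 0) : Un x := ((ok_iff x).1 h).resolve_left h0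

theorem mul_ri {x : R} (h : Un x) : x * ri x = 1 := by rw [mul_comm]; exact ri_mul x h

theorem Un.mul {x y : R} (hx : Un x) (hy : Un y) : Un (x * y) := (un_mul x y).2 ⟨hx, hy⟩

theorem Un.neg {x : R} (hx : Un x) : Un (-x) := (un_neg x).2 hx

theorem Ok.neg {x : R} (hx : Ok x) : Ok (-x) := (ok_neg x).2 hx

theorem Ok.mul {x y : R} (hx : Ok x) (hy : Ok y) : Ok (x * y) := ok_mul x y hx hy

theorem Un.mul_eq_zero {x y : R} (hx : Un x) (h : x * y = 0) : y = 0 := by
  have : ri x * (x * y) = y := by rw [← mul_assoc, ri_mul x hx, one_mul]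
  rw [← this, h, mul_zero]

theorem Un.mul_eq_zero' {x y : R} (hx : Un x) (h : y * x = 0) : y = 0 :=
  hx.mul_eq_zero (by rw [mul_comm]; exact h)

theorem Un.cancel {x y z : R} (hx : Un x) (h : x * y = x * z) : y = z := by
  have : x * (y - z) = 0 := by rw [mul_sub, h, sub_self]
  exact sub_eq_zero.1 (hx.mul_eq_zero this)

theorem ok_of_mul {x y : R} (hx : Un x) (h : Ok (x * y)) : Ok y := by
  have : y = ri x * (x * y) := by rw [← mul_assoc, ri_mul x hx, one_mul]
  rw [this]; exact (un_ri x hx).ok.mul h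

theorem ok_mul_ne_zero {x y : R} (hx : Ok x) (hy : Ok y) (hx0 : x ≠ 0) (hy0 : y ≠ 0) :
    x * y ≠ 0 := ((hx.un hx0).mul (hy.un hy0)).ne_zero

theorem ok_congr {x y : R} (h : Ok x) (e : x = y) : Ok y := e ▸ h

/-- values of an anchored matrix -/
def Av (x : R) : Prop := (x.v == 0 || x.v == 9 || Nat.ble 18 x.v) = true
instance (x : R) : Decidable (Av x) := by unfold Av; infer_instance

theorem av_iff : ∀ x : R, Av x ↔ x = 0 ∨ x = 1 ∨ Fu x := by decide +kernel
theorem av_iff_ok : ∀ x : R, Av x ↔ Ok x ∧ Ok (x - 1) := by decide +kernel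
theorem fu_eq : ∀ a b : R, Fu a → Fu b → Ok (a - b) → a = b := by decide +kernel
theorem fu_ne_zero : ∀ a : R, Fu a → a ≠ 0 := by decide +kernel
theorem fu_ne_one : ∀ a : R, Fu a → a ≠ 1 := by decide +kernel
theorem fu_one_sub : ∀ a : R, Fu (1 - a) ↔ Fu a := by decide +kernel
theorem fu_ex : ∃ a : R, Fu a := by decide +kernel

/-- among four elements with pairwise differences zero or unit two coincide -/
theorem four_vals : ∀ a b c : R, Ok a → Ok b → Ok c → Ok (a - b) → Ok (a - c) → Ok (b - c) →
    a = 0 ∨ b = 0 ∨ c = 0 ∨ a = b ∨ a = c ∨ b = c := by decide +kernel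

end R

end Pool.Agent.NearReg
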