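import Pool.Agent.Lib.MP_da0a56_lc.Beta

/-! Abstract stuck pairs. -/

set_option autoImplicit false

namespace Pool.Agent.NearReg
open R

variable {α : Type*}

structure SP (P : α → α → R) (S S' : Finset α) (u v : α → R) (a b : R) : Prop where
  uu : ∀ y ∈ S', Un (u y)
  uv : ∀ i ∈ S, Un (v i)
  su : ∑ y ∈ S', u y = 0
  sv : ∑ i ∈ S, v i = 0
  pu : ∀ i ∈ S, ∑ y ∈ S', u y * P i y = a
  vp : ∀ y ∈ S', ∑ i ∈ S, v i * P i y = b
  ua : Un a
  ub : Un b
  ci : ∀ y ∈ S', ∀ y' ∈ S', y ≠ y' → ∀ t, (∀ i ∈ S, P i y - P i y' = t) → S.card = 2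
  ri : ∀ i ∈ S, ∀ i' ∈ S, i ≠ i' → ∀ t, (∀ y ∈ S', P i y - P i' y = t) → S.card = 2
  card : S.card = S'.card
  ne : S.Nonempty

theorem sum_const {S : Finset α} {v f : α → R} (sv : ∑ i ∈ S, v i = 0) {t : R}
    (h : ∀ i ∈ S, f i = t) : ∑ i ∈ S, v i * f i = 0 := by
  rw [Finset.sum_congr rfl (fun i hi => by rw [h i hi]), ← Finset.sum_mul, sv, zero_mul]

theorem sum_off [DecidableEq α] {S : Finset α} {v f : α → R} (sv : ∑ i ∈ S, v i = 0) {t : R}
    {c : α} (hc : c ∈ S) (h : ∀ i ∈ S, i ≠ c → f i = t) :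
    ∑ i ∈ S, v i * f i = v c * (f c - t) := by
  have e : ∑ i ∈ S, v i * f i = ∑ i ∈ S, v i * (f i - t) + ∑ i ∈ S, v i * t := by
    rw [← Finset.sum_add_distrib]
    exact Finset.sum_congr rfl (fun i _ => by ring)
  rw [e, ← Finset.sum_mul, sv, zero_mul, add_zero]
  exact Finset.sum_eq_single_of_mem c hc (fun i hi n => by rw [h i hi n, sub_self, mul_zero])

theorem const_off [DecidableEq α] {S : Finset α} {v f : α → R} (uv : ∀ i ∈ S, Un (v i))
    (sv : ∑ i ∈ S, v i = 0) (sf : ∑ i ∈ S, v i * f i = 0) {t : R}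
    {c : α} (h : ∀ i ∈ S, i ≠ c → f i = t) : ∀ i ∈ S, f i = t := by
  intro i hi
  by_cases e : i = c
  · subst e
    rw [sum_off sv hi h] at sf
    exact sub_eq_zero.1 ((uv i hi).mul_eq_zero sf)
  · exact h i hi e

namespace SP
variable {P : α → α → R} {S S' : Finset α} {u v : α → R} {a b : R}

theorem tr (h : SP P S S' u v a b) : SP (fun c d => P d c) S' S v u b a :=
  { uu := h.uv
    uv := h.uu
    su := h.sv
    sv := h.su
    pu := h.vp
    vp := h.pu
    ua := h.ub
    ub := h.ua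
    ci := fun y hy y' hy' n t ht => h.card ▸ h.ri y hy y' hy' n t ht
    ri := fun y hy y' hy' n t ht => h.card ▸ h.ci y hy y' hy' n t ht
    card := h.card.symm
    ne := Finset.card_pos.1 (h.card ▸ Finset.card_pos.2 h.ne) }

theorem shift (h : SP P S S' u v a b) {κ : R} (hκ : Un κ) (ρ : α → R)
    (hρ : Un (a - ∑ y ∈ S', u y * ρ y)) :
    SP (fun c d => κ * (P c d - ρ d)) S S' u v (κ * (a - ∑ y ∈ S', u y * ρ y)) (κ * b) :=
  { uu := h.uu
    uv := h.uv
    su := h.su
    sv := h.sv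
    pu := fun i hi => by
      rw [← h.pu i hi, ← Finset.sum_sub_distrib, Finset.mul_sum]
      exact Finset.sum_congr rfl (fun y _ => by ring)
    vp := fun y hy => by
      rw [← h.vp y hy, Finset.mul_sum]
      have := sum_const (f := fun _ => κ * ρ y) h.sv (fun _ _ => rfl)
      rw [← sub_zero (∑ i ∈ S, κ * (v i * P i y)), ← this, ← Finset.sum_sub_distrib]
      exact Finset.sum_congr rfl (fun i _ => by ring)
    ua := hκ.mul hρ
    ub := hκ.mul h.ub
    ci := fun y hy y' hy' n t ht => h.ci y hy y' hy' n (R.ri κ * t + ρ y - ρ y') (fun i hi => by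
      rw [← ht i hi]
      linear_combination (P i y' - P i y + ρ y - ρ y') * ri_mul κ hκ)
    ri := fun i hi i' hi' n t ht => h.ri i hi i' hi' n (R.ri κ * t) (fun y hy => by
      rw [← ht y hy]
      linear_combination (P i' y - P i y) * ri_mul κ hκ)
    card := h.card
    ne := h.ne }

theorem col_off [DecidableEq α] (h : SP P S S' u v a b) {y y' : α} (hy : y ∈ S') (hy' : y' ∈ S')
    (n : y ≠ y') {t : R} {c : α} (ht : ∀ i ∈ S, i ≠ c → P i y - P i y' = t) : S.card = 2 := by
  refine h.ci y hy y' hy' n t (const_off (c := c) h.uv h.sv ?_ ht)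
  simp only [mul_sub, Finset.sum_sub_distrib, h.vp y hy, h.vp y' hy', sub_self]

theorem row_off [DecidableEq α] (h : SP P S S' u v a b) {i i' : α} (hi : i ∈ S) (hi' : i' ∈ S)
    (n : i ≠ i') {t : R} {c : α} (ht : ∀ y ∈ S', y ≠ c → P i y - P i' y = t) : S.card = 2 :=
  h.card ▸ h.tr.col_off hi hi' n ht

theorem col_nc (h : SP P S S' u v a b) {y : α} (hy : y ∈ S') {t : R}
    (ht : ∀ i ∈ S, P i y = t) : False :=
  h.ub.ne_zero ((h.vp y hy).symm.trans (sum_const h.sv ht))

theorem row_nc (h : SP P S S' u v a b) {i : α} (hi : i ∈ S) {t : R}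
    (ht : ∀ y ∈ S', P i y = t) : False := h.tr.col_nc hi ht

/-- an anchored stuck pair has size two -/
theorem two_of_anch [DecidableEq α] (h : SP P S S' u v a b) (hA : Anch P S S') : S.card = 2 := by
  by_contra hn
  obtain ⟨i, i', y, y', n1, -, e, -⟩ := hA.ac (fun i hi i' hi' n y0 => by
      by_contra k
      push Not at k
      exact hn (h.row_off (t := 0) (c := y0) hi hi' n
        (fun y hy ny => sub_eq_zero.2 (k y hy ny))))
    (fun y hy y' hy' n i0 => by
      by_contra k
      push Not at k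
      exact hn (h.col_off (t := 0) (c := i0) hy hy' n
        (fun i hi ni => sub_eq_zero.2 (k i hi ni)))) h.ne
    (fun i hi => by
      by_contra k
      push Not at k
      obtain ⟨y, hy⟩ := h.tr.ne
      exact h.row_nc hi (fun y' hy' => k y' hy' y hy))
    (fun y hy => by
      by_contra k
      push Not at k
      obtain ⟨i, hi⟩ := h.ne
      exact h.col_nc hy (fun i' hi' => k i' hi' i hi))
  exact hn (by rw [e, Finset.card_pair n1])

end SP

theorem fin_diag : ∀ a : R, Fu a → ∀ b, Fu b → (1 - a) * (1 - b) = 1 → ∀ m m', O22 m m' a 0 →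
    O22 m m' 0 b → Un (a * b - m * b - m' * a) → m = 0 ∧ m' = 0 := by decide +kernel

theorem fin_T3 : ∀ w0 : R, Un w0 → ∀ w1, Un w1 → ∀ w2, Un w2 →
    w1 * w2 + w0 * w2 + w0 * w1 = 0 → ∀ r0, Ok r0 → Ok (r0 - w0) → ∀ r1, Ok r1 → Ok (r1 - w1) →
    Ok (r0 - r1) → ∀ r2, Ok r2 → Ok (r2 - w2) → Ok (r0 - r2) → Ok (r1 - r2) →
    r0 * (w1 * w2) + r1 * (w0 * w2) + r2 * (w0 * w1) = 0 → r0 = r1 ∧ r0 = r2 := by
  decide +kernel

def Diag [DecidableEq α] (P : α → α → R) (S S' : Finset α) : Prop :=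
  ∃ i0 i1 i2 y0 y1 y2, i0 ≠ i1 ∧ i0 ≠ i2 ∧ i1 ≠ i2 ∧ y0 ≠ y1 ∧ y0 ≠ y2 ∧ y1 ≠ y2 ∧
    S = {i0, i1, i2} ∧ S' = {y0, y1, y2} ∧ P i0 y1 = 0 ∧ P i0 y2 = 0 ∧ P i1 y0 = 0 ∧
    P i1 y2 = 0 ∧ P i2 y0 = 0 ∧ P i2 y1 = 0

theorem Diag.tr [DecidableEq α] {P : α → α → R} {S S' : Finset α}
    (h : Diag (fun c d => P d c) S' S) : Diag P S S' := by
  obtain ⟨i0, i1, i2, y0, y1, y2, a1, a2, a3, b1, b2, b3, e1, e2, c1, c2, c3, c4, c5, c6⟩ := h
  exact ⟨y0, y1, y2, i0, i1, i2, b1, b2, b3, a1, a2, a3, e2, e1, c3, c5, c1, c6, c2, c4⟩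

namespace SP
variable [DecidableEq α] {P : α → α → R} {S S' : Finset α} {u v : α → R} {a b : R}

theorem diag_col (h : SP P S S' u v a b) (hn : S.card ≠ 2) {e x : α}
    (pv : PV P (insert e S) (insert x S')) (z0 : ∀ d, P e d = 0) (zx : ∀ c, P c x = 0)
    {i0 y0 : α} (hi0 : i0 ∈ S) (hy0 : y0 ∈ S') (hz : ∀ i ∈ S, i ≠ i0 → P i y0 = 0) :
    Diag P S S' := by
  have ew : v i0 * P i0 y0 = b := by
    have := sum_off (f := fun i => P i y0) h.sv hi0 hz
    rw [h.vp y0 hy0, sub_zero] at this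
    exact this.symm
  have uw : Un (P i0 y0) := ((un_mul _ _).1 (ew ▸ h.ub)).2
  set κ := R.ri (-P i0 y0) with hκ
  have uκ : Un κ := un_ri _ uw.neg
  have eκ : κ * (-P i0 y0) = 1 := ri_mul _ uw.neg
  set Q : α → α → R := fun c d => κ * sd P i0 x c d with hQ
  have eQ : ∀ c d, Q c d = κ * (P c d - P i0 d) := by
    intro c d
    simp only [hQ, sd, zx]; ring
  have hA : Anch Q (insert e (S.erase i0)) S' := by
    refine (pv.nrm i0 x uκ).anch (z := i0) (x := x) (j := y0) (by simp [hi0]) (by simp)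
      (by simp [hy0]) (Finset.insert_subset_insert _ (Finset.erase_subset _ _))
      (Finset.subset_insert _ _) (fun d => by simp [sd]) (fun c => by simp [sd]) ?_
    intro c hc
    have : P c y0 = 0 := by
      rcases Finset.mem_insert.1 hc with rfl | hc
      · exact z0 _
      · exact hz c (Finset.mem_erase.1 hc).2 (Finset.mem_erase.1 hc).1
    show Q c y0 = 1
    rw [eQ, this, ← eκ]; ring
  have canc : ∀ s t : R, κ * s = κ * t → s = t := fun s t k => uκ.cancel k
  have hc2 : 1 < S.card := by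
    by_contra k
    have := Finset.card_le_one.1 (not_lt.1 k)
    have e1 : ∑ i ∈ S, v i = v i0 :=
      Finset.sum_eq_single_of_mem i0 hi0 (fun i hi n => absurd (this i hi i0 hi0) n)
    exact (h.uv i0 hi0).ne_zero (e1.symm.trans h.sv)
  obtain ⟨i, i', y, y', n1, n2, e1, e2, fa, fb, nab⟩ :=
    (hA.mono (I' := S.erase i0) (Y' := S'.erase y0) (Finset.subset_insert _ _)
      (Finset.erase_subset _ _)).ac
    (fun i hi i' hi' n y1 => by
      by_contra k
      push Not at k
      obtain ⟨a1, hi⟩ := Finset.mem_erase.1 hi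
      obtain ⟨a2, hi'⟩ := Finset.mem_erase.1 hi'
      refine hn (h.row_off (t := 0) (c := y1) hi hi' n (fun y hy ny => ?_))
      by_cases ey : y = y0
      · rw [ey, hz i hi a1, hz i' hi' a2, sub_self]
      · have := k y (Finset.mem_erase.2 ⟨ey, hy⟩) ny
        rw [eQ, eQ] at this
        have := canc _ _ this
        linear_combination this)
    (fun y hy y' hy' n c1 => by
      by_contra k
      push Not at k
      refine hn (h.col_off (t := P i0 y - P i0 y') (c := c1) (Finset.mem_of_mem_erase hy)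
        (Finset.mem_of_mem_erase hy') n (fun i hi ni => ?_))
      by_cases ei : i = i0
      · rw [ei]
      · have := k i (Finset.mem_erase.2 ⟨ei, hi⟩) ni
        rw [eQ, eQ] at this
        have := canc _ _ this
        linear_combination this)
    (by
      rw [← Finset.card_pos, Finset.card_erase_of_mem hi0]; omega)
    (fun i hi => by
      by_contra k
      push Not at k
      obtain ⟨a1, hi⟩ := Finset.mem_erase.1 hi
      obtain ⟨y1, hy1⟩ : (S'.erase y0).Nonempty := by
        rw [← Finset.card_pos, Finset.card_erase_of_mem hy0, ← h.card]; omega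
      refine hn (h.row_off (t := P i y1 - P i0 y1) (c := y0) hi hi0 a1 (fun y hy ny => ?_))
      have := k y (Finset.mem_erase.2 ⟨ny, hy⟩) y1 hy1
      rw [eQ, eQ] at this
      exact canc _ _ this)
    (fun y hy => by
      by_contra k
      push Not at k
      obtain ⟨a1, hy⟩ := Finset.mem_erase.1 hy
      obtain ⟨c1, hc1⟩ : (S.erase i0).Nonempty := by
        rw [← Finset.card_pos, Finset.card_erase_of_mem hi0]; omega
      refine hn (h.col_off (t := P c1 y) (c := i0) hy hy0 a1 (fun i hi ni => ?_))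
      have := k i (Finset.mem_erase.2 ⟨ni, hi⟩) c1 hc1
      rw [eQ, eQ] at this
      have := canc _ _ this
      rw [hz i hi ni]
      linear_combination this)
  have mi : i ∈ S.erase i0 := by rw [e1]; simp
  have mi' : i' ∈ S.erase i0 := by rw [e1]; simp
  have my : y ∈ S'.erase y0 := by rw [e2]; simp
  have my' : y' ∈ S'.erase y0 := by rw [e2]; simp
  obtain ⟨ni, hi⟩ := Finset.mem_erase.1 mi
  obtain ⟨ni', hi'⟩ := Finset.mem_erase.1 mi'
  obtain ⟨ny, hy⟩ := Finset.mem_erase.1 my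
  obtain ⟨ny', hy'⟩ := Finset.mem_erase.1 my'
  have eS : S = {i0, i, i'} := by rw [← e1, Finset.insert_erase hi0]
  have eS' : S' = {y0, y, y'} := by rw [← e2, Finset.insert_erase hy0]
  have sum3 : ∀ f : α → R, ∑ d ∈ S', f d = f y0 + f y + f y' := by
    intro f
    rw [eS', Finset.sum_insert (by simp [ny.symm, ny'.symm]), Finset.sum_pair n2, add_assoc]
  have su := h.su
  have p0 := h.pu i0 hi0
  have p1 := h.pu i hi
  have p2 := h.pu i' hi'
  rw [sum3] at su p0 p1 p2
  rw [hz i hi ni] at p1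
  rw [hz i' hi' ni'] at p2
  have r1 : u y0 + Q i y * u y + Q i y' * u y' = 0 := by
    rw [eQ, eQ]
    linear_combination κ * p1 - κ * p0 - u y0 * eκ
  have r2 : u y0 + Q i' y * u y + Q i' y' * u y' = 0 := by
    rw [eQ, eQ]
    linear_combination κ * p2 - κ * p0 - u y0 * eκ
  have r0 : u y0 + Q e y * u y + Q e y' * u y' = -(κ * a) := by
    rw [eQ, eQ, z0, z0]
    linear_combination -κ * p0 - u y0 * eκ
  have uy := h.uu y hy
  have uy' := h.uu y' hy'
  have mI : i ∈ insert e (S.erase i0) := Finset.mem_insert_of_mem mi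
  have mI' : i' ∈ insert e (S.erase i0) := Finset.mem_insert_of_mem mi'
  have hs : Q i y' ≠ 1 := by
    intro k
    rw [k] at r1
    have : (Q i y - 1) * u y = 0 := by linear_combination r1 - su
    exact fu_ne_one _ fa (sub_eq_zero.1 (uy.mul_eq_zero' this))
  have ht : Q i' y ≠ 1 := by
    intro k
    rw [k] at r2
    have : (Q i' y' - 1) * u y' = 0 := by linear_combination r2 - su
    exact fu_ne_one _ fb (sub_eq_zero.1 (uy'.mul_eq_zero' this))
  rcases hA.two fa fb nab mI mI' hy hy' rfl rfl with g | g | g | g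
  swap
  · exact absurd g.1 hs
  swap
  · exact absurd g.2.1 ht
  swap
  · exact absurd g.1 hs
  obtain ⟨g1, g2, g3⟩ := g
  have mE : e ∈ insert e (S.erase i0) := Finset.mem_insert_self _ _
  have o1 := hA.o22 e mE i mI y hy y' hy'
  have o2 := hA.o22 e mE i' mI' y hy y' hy'
  rw [g1] at o1 r1
  rw [g2] at o2 r2
  have un : Un (Q i y * Q i' y' - Q e y * Q i' y' - Q e y' * Q i y) := by
    have : u y0 * (Q i y * Q i' y' - Q e y * Q i' y' - Q e y' * Q i y) =
        Q i y * Q i' y' * -(κ * a) := by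
      rw [← r0]
      linear_combination (-(Q e y * Q i' y')) * r1 - (Q e y' * Q i y) * r2
    have k : Un (Q i y * Q i' y' * -(κ * a)) :=
      (((fu_iff _).1 fa).1.mul ((fu_iff _).1 fb).1).mul (uκ.mul h.ua).neg
    rw [← this] at k
    exact ((un_mul _ _).1 k).2
  obtain ⟨m1, m2⟩ := fin_diag _ fa _ fb g3 _ _ o1 o2 un
  rw [eQ, z0] at m1 m2
  have z1 : P i0 y = 0 := by
    have := uκ.mul_eq_zero m1
    linear_combination -this
  have z2 : P i0 y' = 0 := by
    have := uκ.mul_eq_zero m2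
    linear_combination -this
  rw [eQ, z2] at g1
  rw [eQ, z1] at g2
  exact ⟨i0, i, i', y0, y, y', ni.symm, ni'.symm, n1, ny.symm, ny'.symm, n2, eS, eS', z1, z2,
    hz i hi ni, by simpa using uκ.mul_eq_zero g1, hz i' hi' ni', by simpa using uκ.mul_eq_zero g2⟩

theorem diag_of_not_robC (h : SP P S S' u v a b) (hn : S.card ≠ 2) {e x : α}
    (pv : PV P (insert e S) (insert x S')) (z0 : ∀ d, P e d = 0) (zx : ∀ c, P c x = 0)
    (he : e ∉ S) (rc : ¬ RobC P (insert e S) (insert x S')) : Diag P S S' := by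
  unfold RobC at rc
  push Not at rc
  obtain ⟨d, hd, d', hd', ne, c0, hc⟩ := rc
  have mE : e ∈ insert e S := Finset.mem_insert_self _ _
  obtain ⟨c1, hc1⟩ := h.ne
  have xcase : ∀ y ∈ S', (∀ c ∈ insert e S, ∀ c' ∈ insert e S, c ≠ c0 → c' ≠ c0 →
      P c y = P c' y) → Diag P S S' := by
    intro y hy k
    by_cases m : c0 ∈ S
    · refine h.diag_col hn pv z0 zx m hy (fun i hi ni => ?_)
      rw [k i (Finset.mem_insert_of_mem hi) e mE ni (fun q => he (q ▸ m)), z0]
    · exact (h.col_nc hy (t := P c1 y) (fun i hi => k i (Finset.mem_insert_of_mem hi) c1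
        (Finset.mem_insert_of_mem hc1) (fun q => m (q ▸ hi)) (fun q => m (q ▸ hc1)))).elim
  rcases Finset.mem_insert.1 hd with rfl | gd
  · rcases Finset.mem_insert.1 hd' with rfl | gd'
    · exact absurd rfl ne
    · refine xcase d' gd' (fun c m c' m' n n' => ?_)
      have := hc c m c' m' n n'
      simp only [sd, zx] at this
      linear_combination -this
  · rcases Finset.mem_insert.1 hd' with rfl | gd'
    · refine xcase d gd (fun c m c' m' n n' => ?_)
      have := hc c m c' m' n n'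
      simp only [sd, zx] at this
      linear_combination this
    · exfalso
      by_cases m : ∃ c2 ∈ S, c2 ≠ c0
      · obtain ⟨c2, m2, n2⟩ := m
        refine hn (h.col_off (t := P c2 d - P c2 d') (c := c0) gd gd' ne (fun i hi ni => ?_))
        have := hc i (Finset.mem_insert_of_mem hi) c2 (Finset.mem_insert_of_mem m2) ni n2
        simp only [sd] at this
        linear_combination this
      · push Not at m
        exact hn (h.col_off (t := 0) (c := c0) gd gd' ne (fun i hi ni => absurd (m i hi) ni))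

theorem diag (h : SP P S S' u v a b) (hn : S.card ≠ 2) {e x : α}
    (pv : PV P (insert e S) (insert x S')) (z0 : ∀ d, P e d = 0) (zx : ∀ c, P c x = 0)
    (he : e ∉ S) (hx : x ∉ S') : Diag P S S' := by
  have hc2 : 1 < S.card := by
    by_contra k
    obtain ⟨i0, hi0⟩ := h.ne
    have := Finset.card_le_one.1 (not_lt.1 k)
    have e1 : ∑ i ∈ S, v i = v i0 :=
      Finset.sum_eq_single_of_mem i0 hi0 (fun i hi n => absurd (this i hi i0 hi0) n)
    exact (h.uv i0 hi0).ne_zero (e1.symm.trans h.sv)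
  by_cases rc : RobC P (insert e S) (insert x S')
  · by_cases rr : RobR P (insert e S) (insert x S')
    · exfalso
      refine weak_sigma (by rw [Finset.card_insert_of_notMem hx, ← h.card]; omega) (S.card - 3)
        _ (by rw [Finset.card_insert_of_notMem he]; omega) pv rr rc
    · exact Diag.tr (h.tr.diag_of_not_robC (h.card ▸ hn) pv.tr zx z0 hx (fun k => rr k.tr))
  · exact h.diag_of_not_robC hn pv z0 zx he rc

/-- a column with the same label at both ends is constant -/
theorem const_col (h : SP P S S' u v a b) {e x j : α}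
    (pv : PV P (insert e S) (insert j (insert x S'))) (z0 : ∀ d, P e d = 0) (zx : ∀ c, P c x = 0)
    (he : e ∉ S) (hx : x ∉ S') (hj : ∑ i ∈ S, v i * P i j = 0) :
    ∀ i ∈ S, ∀ i' ∈ S, P i j = P i' j := by
  by_cases hn : S.card = 2
  · intro i hi i' hi'
    by_cases n : i = i'
    · rw [n]
    · refine const_off (c := i) (f := fun i => P i j) h.uv h.sv hj (fun k hk nk => ?_) i hi
      have : k = i' := by
        by_contra q
        have : ({i, i', k} : Finset α) ⊆ S := by
          intro w hw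
          simp only [Finset.mem_insert, Finset.mem_singleton] at hw
          rcases hw with rfl | rfl | rfl <;> assumption
        have := Finset.card_le_card this
        rw [Finset.card_eq_three.2 ⟨i, i', k, n, nk.symm, fun w => q w.symm, rfl⟩] at this
        omega
      rw [this]
  · obtain ⟨i0, i1, i2, y0, y1, y2, a1, a2, a3, b1, b2, b3, e1, e2, c1, c2, c3, c4, c5, c6⟩ :=
      h.diag hn (pv.mono (subset_refl _) (Finset.subset_insert _ _)) z0 zx he hx
    have sum3 : ∀ f : α → R, ∑ d ∈ S, f d = f i0 + f i1 + f i2 := by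
      intro f
      rw [e1, Finset.sum_insert (by simp [a1, a2]), Finset.sum_pair a3, add_assoc]
    have m0 : i0 ∈ S := by rw [e1]; simp
    have m1 : i1 ∈ S := by rw [e1]; simp
    have m2 : i2 ∈ S := by rw [e1]; simp
    have n0 : y0 ∈ S' := by rw [e2]; simp
    have n1 : y1 ∈ S' := by rw [e2]; simp
    have n2 : y2 ∈ S' := by rw [e2]; simp
    have q0 := h.vp y0 n0
    have q1 := h.vp y1 n1
    have q2 := h.vp y2 n2
    have sv := h.sv
    rw [sum3] at q0 q1 q2 sv hj
    rw [c3, c5] at q0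
    rw [c1, c6] at q1
    rw [c2, c4] at q2
    simp only [mul_zero, add_zero, zero_add] at q0 q1 q2
    have u0 : Un (P i0 y0) := ((un_mul _ _).1 (q0 ▸ h.ub)).2
    have u1 : Un (P i1 y1) := ((un_mul _ _).1 (q1 ▸ h.ub)).2
    have u2 : Un (P i2 y2) := ((un_mul _ _).1 (q2 ▸ h.ub)).2
    have mE : e ∈ insert e S := Finset.mem_insert_self _ _
    have mj : j ∈ insert j (insert x S') := Finset.mem_insert_self _ _
    have mx : x ∈ insert j (insert x S') := by simp
    have k1 : ∀ i ∈ S, Ok (P i j) := fun i hi =>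
      ok_congr (pv.p1 e mE i (Finset.mem_insert_of_mem hi) x mx j mj) (by simp [sd, z0, zx])
    have k2 : ∀ i ∈ S, ∀ y ∈ S', Ok (P i j - P i y) := fun i hi y hy =>
      ok_congr (pv.p1 e mE i (Finset.mem_insert_of_mem hi) y (by simp [hy]) j mj)
        (by simp [sd, z0])
    have k3 : ∀ i ∈ S, ∀ i' ∈ S, Ok (P i j - P i' j) := fun i hi i' hi' =>
      ok_congr (pv.p1 i' (Finset.mem_insert_of_mem hi') i (Finset.mem_insert_of_mem hi) x mx j mj)
        (by simp [sd, zx])
    obtain ⟨f1, f2⟩ := fin_T3 _ u0 _ u1 _ u2 (h.ub.mul_eq_zero (by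
        linear_combination (P i0 y0 * P i1 y1 * P i2 y2) * sv - (P i1 y1 * P i2 y2) * q0 -
          (P i0 y0 * P i2 y2) * q1 - (P i0 y0 * P i1 y1) * q2))
      _ (k1 i0 m0) (k2 i0 m0 y0 n0) _ (k1 i1 m1) (k2 i1 m1 y1 n1) (k3 i0 m0 i1 m1) _ (k1 i2 m2)
      (k2 i2 m2 y2 n2) (k3 i0 m0 i2 m2) (k3 i1 m1 i2 m2) (h.ub.mul_eq_zero (by
        linear_combination (P i0 y0 * P i1 y1 * P i2 y2) * hj -
          (P i0 j * P i1 y1 * P i2 y2) * q0 -
          (P i1 j * P i0 y0 * P i2 y2) * q1 - (P i2 j * P i0 y0 * P i1 y1) * q2))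
    have : ∀ i ∈ S, P i j = P i0 j := by
      intro i hi
      rw [e1] at hi
      simp only [Finset.mem_insert, Finset.mem_singleton] at hi
      rcases hi with rfl | rfl | rfl
      · rfl
      · exact f1.symm
      · exact f2.symm
    intro i hi i' hi'
    rw [this i hi, this i' hi']

/-- anchoring with a reference row -/
theorem two_of_ref (h : SP P S S' u v a b) {z x j : α} {C D : Finset α} (pv : PV P C D)
    (hz : z ∈ C) (hS : S ⊆ C) (hx : x ∈ D) (hj : j ∈ D) (hS' : S' ⊆ D) (zx : ∀ c, P c x = 0)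
    {l : R} (hl : ∀ i ∈ S, P i j = l) (hne : l ≠ P z j)
    (hρ : Un (a - ∑ y ∈ S', u y * P z y)) : S.card = 2 := by
  obtain ⟨i0, hi0⟩ := h.ne
  have ul : Un (l - P z j) := by
    refine Ok.un (ok_congr (pv.p1 z hz i0 (hS hi0) x hx j hj) ?_) (sub_ne_zero.2 hne)
    simp [sd, zx, hl i0 hi0]
  have uκ := un_ri _ ul
  have hA := (pv.nrm z x uκ).anch (I := S) (Y := S') hz hx hj hS hS' (fun d => by simp [sd])
    (fun c => by simp [sd]) (fun c hc => by
      rw [← ri_mul _ ul]
      simp [sd, zx, hl c hc])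
  have e : (fun c d => R.ri (l - P z j) * sd P z x c d) =
      (fun c d => R.ri (l - P z j) * (P c d - P z d)) := by
    funext c d
    simp [sd, zx]
  rw [e] at hA
  exact (h.shift uκ (P z) hρ).two_of_anch hA

end SP

end Pool.Agent.NearReg
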