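import Pool.Agent.Lib.MP_da0a56_lc.Stuck

/-! Systems of tableaux over R. -/

set_option autoImplicit false

namespace Pool.Agent.NearReg
open R

structure Tab (α : Type*) [DecidableEq α] where
  bs : Finset α → Prop
  t : Finset α → α → α → R
  ok : ∀ B, bs B → ∀ i ∈ B, ∀ f, Ok (t B i f)
  id1 : ∀ B, bs B → ∀ i ∈ B, t B i i = 1
  id0 : ∀ B, bs B → ∀ i ∈ B, ∀ k ∈ B, i ≠ k → t B i k = 0
  trans : ∀ B B', bs B → bs B' → ∀ k ∈ B', ∀ f, t B' k f = ∑ i ∈ B, t B' k i * t B i f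
  exch : ∀ B, bs B → ∀ i ∈ B, ∀ y, y ∉ B → (bs (insert y (B.erase i)) ↔ t B i y ≠ 0)
  card : ∀ B B', bs B → bs B' → B.card = B'.card

theorem ri_one : ri 1 = 1 := by decide +kernel

namespace Tab
variable {α : Type*} [DecidableEq α] (T : Tab α)

variable {T}

theorem un {B : Finset α} (hB : T.bs B) {i f : α} (hi : i ∈ B) (h : T.t B i f ≠ 0) :
    Un (T.t B i f) := (T.ok B hB i hi f).un h

theorem eq_of_mem {B : Finset α} (hB : T.bs B) {i f : α} (hi : i ∈ B) (h : T.t B i f ≠ 0)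
    (hf : f ∈ B) : i = f := by
  by_contra n
  exact h (T.id0 B hB i hi f hf n)

theorem piv_bs {B : Finset α} (hB : T.bs B) {i f : α} (hi : i ∈ B) (h : T.t B i f ≠ 0) :
    T.bs (insert f (B.erase i)) := by
  by_cases hf : f ∈ B
  · have := eq_of_mem hB hi h hf
    subst this
    rwa [Finset.insert_erase hi]
  · exact (T.exch B hB i hi f hf).2 h

theorem piv_aux {B : Finset α} (hB : T.bs B) {i f : α} (hi : i ∈ B) (h : T.t B i f ≠ 0)
    {k : α} (hk : k ∈ B) (g : α) :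
    T.t B k g = T.t B k f * T.t (insert f (B.erase i)) f g +
      ∑ m ∈ B.erase i, T.t B k m * T.t (insert f (B.erase i)) m g := by
  have hf : f ∉ B.erase i := by
    intro q
    obtain ⟨n, q⟩ := Finset.mem_erase.1 q
    exact n (eq_of_mem hB hi h q).symm
  rw [T.trans _ B (piv_bs hB hi h) hB k hk g, Finset.sum_insert hf]

theorem piv_new {B : Finset α} (hB : T.bs B) {i f : α} (hi : i ∈ B) (h : T.t B i f ≠ 0)
    (g : α) : T.t (insert f (B.erase i)) f g = ri (T.t B i f) * T.t B i g := by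
  have e := piv_aux hB hi h hi g
  rw [Finset.sum_eq_zero (fun m hm => by
    rw [T.id0 B hB i hi m (Finset.mem_of_mem_erase hm) (Finset.ne_of_mem_erase hm).symm,
      zero_mul]), add_zero] at e
  rw [e, ← mul_assoc, ri_mul _ (un hB hi h), one_mul]

theorem piv_old {B : Finset α} (hB : T.bs B) {i f : α} (hi : i ∈ B) (h : T.t B i f ≠ 0)
    {k : α} (hk : k ∈ B) (n : k ≠ i) (g : α) : T.t (insert f (B.erase i)) k g =
      T.t B k g - T.t B k f * ri (T.t B i f) * T.t B i g := by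
  have e := piv_aux hB hi h hk g
  rw [Finset.sum_eq_single_of_mem k (Finset.mem_erase.2 ⟨n, hk⟩) (fun m hm nm => by
    rw [T.id0 B hB k hk m (Finset.mem_of_mem_erase hm) nm.symm, zero_mul]),
    T.id1 B hB k hk, one_mul, piv_new hB hi h] at e
  rw [e]; ring

theorem d2 {B : Finset α} (hB : T.bs B) {i k : α} (hi : i ∈ B) (hk : k ∈ B) (f g : α) :
    Ok (T.t B i f * T.t B k g - T.t B i g * T.t B k f) := by
  by_cases n : k = i
  · subst n
    exact ok_congr ok_zero (by ring)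
  by_cases h : T.t B i f = 0
  · rw [h]
    exact ok_congr ((T.ok B hB i hi g).mul (T.ok B hB k hk f)).neg (by ring)
  · have o := T.ok _ (piv_bs hB hi h) k
      (Finset.mem_insert_of_mem (Finset.mem_erase.2 ⟨n, hk⟩)) g
    rw [piv_old hB hi h hk n] at o
    refine ok_congr ((T.ok B hB i hi f).mul o) ?_
    linear_combination (-(T.t B k f * T.t B i g)) * ri_mul _ (un hB hi h)

theorem d3_aux {B : Finset α} (hB : T.bs B) {i k l : α} (hi : i ∈ B) (hk : k ∈ B) (hl : l ∈ B)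
    (f g m : α) (h : T.t B i f ≠ 0) :
    Ok (det3 (T.t B i f) (T.t B i g) (T.t B i m) (T.t B k f) (T.t B k g) (T.t B k m)
      (T.t B l f) (T.t B l g) (T.t B l m)) := by
  by_cases n : k = i
  · subst n
    exact ok_congr ok_zero (by simp only [det3]; ring)
  by_cases n' : l = i
  · subst n'
    exact ok_congr ok_zero (by simp only [det3]; ring)
  have o := d2 (piv_bs hB hi h) (Finset.mem_insert_of_mem (Finset.mem_erase.2 ⟨n, hk⟩))
    (Finset.mem_insert_of_mem (Finset.mem_erase.2 ⟨n', hl⟩)) g m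
  rw [piv_old hB hi h hk n, piv_old hB hi h hk n, piv_old hB hi h hl n',
    piv_old hB hi h hl n'] at o
  refine ok_congr ((T.ok B hB i hi f).mul o) ?_
  have e := ri_mul _ (un hB hi h)
  simp only [det3]
  linear_combination (-(T.t B k g * T.t B l f * T.t B i m) - T.t B k f * T.t B i g * T.t B l m +
    T.t B k m * T.t B l f * T.t B i g + T.t B k f * T.t B i m * T.t B l g) * e

theorem d3 {B : Finset α} (hB : T.bs B) {i k l : α} (hi : i ∈ B) (hk : k ∈ B) (hl : l ∈ B)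
    (f g m : α) :
    Ok (det3 (T.t B i f) (T.t B i g) (T.t B i m) (T.t B k f) (T.t B k g) (T.t B k m)
      (T.t B l f) (T.t B l g) (T.t B l m)) := by
  by_cases h1 : T.t B i f = 0
  · by_cases h2 : T.t B i g = 0
    · by_cases h3 : T.t B i m = 0
      · rw [h1, h2, h3]
        exact ok_congr ok_zero (by simp only [det3]; ring)
      · exact ok_congr (d3_aux hB hi hk hl m f g h3) (by simp only [det3]; ring)
    · exact ok_congr (d3_aux hB hi hk hl g m f h2) (by simp only [det3]; ring)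
  · exact d3_aux hB hi hk hl f g m h1

theorem pv_of {P : α → α → R} {C D : Finset α}
    (h : ∀ c0 ∈ C, ∀ d0 ∈ D, ∃ B, T.bs B ∧ ∃ γ : α → R, (∀ d ∈ D, Ok (γ d)) ∧ ∀ c ∈ C,
      ∃ k ∈ B, ∃ κ, Ok κ ∧ ∀ d ∈ D, sd P c0 d0 c d = κ * γ d * T.t B k d) : PV P C D := by
  refine ⟨fun c0 h0 c h1 d0 g0 d g1 => ?_, fun c0 h0 c1 h1 c2 h2 d0 g0 d1 g1 d2' g2 => ?_,
    fun c0 h0 c1 h1 c2 h2 c3 h3 d0 g0 d1 g1 d2' g2 d3' g3 => ?_⟩
  · obtain ⟨B, hB, γ, hγ, hc⟩ := h c0 h0 d0 g0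
    obtain ⟨k, hk, κ, hκ, e⟩ := hc c h1
    rw [e d g1]
    exact (hκ.mul (hγ d g1)).mul (T.ok B hB k hk d)
  · obtain ⟨B, hB, γ, hγ, hc⟩ := h c0 h0 d0 g0
    obtain ⟨k1, hk1, κ1, hκ1, e1⟩ := hc c1 h1
    obtain ⟨k2, hk2, κ2, hκ2, e2⟩ := hc c2 h2
    rw [e1 d1 g1, e1 d2' g2, e2 d1 g1, e2 d2' g2]
    exact ok_congr (((hκ1.mul hκ2).mul ((hγ d1 g1).mul (hγ d2' g2))).mul (d2 hB hk1 hk2 d1 d2'))
      (by ring)
  · obtain ⟨B, hB, γ, hγ, hc⟩ := h c0 h0 d0 g0
    obtain ⟨k1, hk1, κ1, hκ1, e1⟩ := hc c1 h1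
    obtain ⟨k2, hk2, κ2, hκ2, e2⟩ := hc c2 h2
    obtain ⟨k3, hk3, κ3, hκ3, e3⟩ := hc c3 h3
    rw [e1 d1 g1, e1 d2' g2, e1 d3' g3, e2 d1 g1, e2 d2' g2, e2 d3' g3, e3 d1 g1, e3 d2' g2,
      e3 d3' g3]
    exact ok_congr ((((hκ1.mul hκ2).mul hκ3).mul (((hγ d1 g1).mul (hγ d2' g2)).mul
      (hγ d3' g3))).mul (d3 hB hk1 hk2 hk3 d1 d2' d3')) (by simp only [det3]; ring)

/-- exchange, from the side of an element leaving -/
theorem ex_out {B B' : Finset α} (hB : T.bs B) (hB' : T.bs B') {i : α} (hi : i ∈ B)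
    (hi' : i ∉ B') : ∃ y ∈ B', y ∉ B ∧ T.t B i y ≠ 0 := by
  by_contra hn
  push Not at hn
  have e := T.trans B' B hB' hB i hi i
  rw [T.id1 B hB i hi, Finset.sum_eq_zero] at e
  · exact one_ne_zero e
  · intro y hy
    by_cases q : y ∈ B
    · rw [T.id0 B hB i hi y q (fun w => hi' (w ▸ hy)), zero_mul]
    · rw [hn y hy q, zero_mul]

/-- exchange, from the side of an element entering -/
theorem ex_in {B B' : Finset α} (hB : T.bs B) (hB' : T.bs B') {y : α} (hy : y ∈ B')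
    (hy' : y ∉ B) : ∃ i ∈ B, i ∉ B' ∧ T.t B i y ≠ 0 := by
  by_contra hn
  push Not at hn
  have e := T.trans B B' hB hB' y hy y
  rw [T.id1 B' hB' y hy, Finset.sum_eq_zero] at e
  · exact one_ne_zero e
  · intro i hi
    by_cases q : i ∈ B'
    · rw [T.id0 B' hB' y hy i q (fun w => hy' (w ▸ hi)), zero_mul]
    · rw [hn i hi q, mul_zero]

/-- the transition formula split into new and common elements -/
theorem trans_sdiff {B B' : Finset α} (hB : T.bs B) (hB' : T.bs B') {k : α} (hk : k ∈ B')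
    (f : α) : T.t B' k f = ∑ i ∈ B \ B', T.t B' k i * T.t B i f +
      (if k ∈ B then T.t B k f else 0) := by
  rw [T.trans B B' hB hB' k hk f, ← Finset.sum_sdiff (s₁ := B ∩ B') Finset.inter_subset_left,
    Finset.sdiff_inter_self_left]
  congr 1
  split_ifs with q
  · rw [Finset.sum_eq_single_of_mem k (Finset.mem_inter.2 ⟨q, hk⟩) (fun m hm n => by
      rw [T.id0 B' hB' k hk m (Finset.mem_inter.1 hm).2 n.symm, zero_mul]), T.id1 B' hB' k hk,
      one_mul]
  · exact Finset.sum_eq_zero (fun m hm => by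
      rw [T.id0 B' hB' k hk m (Finset.mem_inter.1 hm).2
        (fun w => q (w ▸ (Finset.mem_inter.1 hm).1)), zero_mul])

end Tab

end Pool.Agent.NearReg
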