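import Pool.Agent.Lib.MP_da0a56_lc.Learn

/-! Adaptive query strategies and the recognition algorithm. -/

set_option autoImplicit false

namespace Pool.Agent.NearReg

variable {n : ℕ}

def Solv (P : Matroid (Fin n) → Prop) (t : ℕ) (V : Set (Matroid (Fin n))) : Prop :=
  ∃ q : List ℕ∞ → Set (Fin n), ∃ d : List ℕ∞ → Bool, ∀ M ∈ V, ∀ a : ℕ → ℕ∞,
    (∀ i, i < t → a i = M.eRk (q ((List.range i).map a))) →
      (d ((List.range t).map a) = true ↔ P M)

namespace Solv
variable {P : Matroid (Fin n) → Prop} {t : ℕ} {V W : Set (Matroid (Fin n))}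

theorem yes (h : ∀ M ∈ V, P M) : Solv P t V :=
  ⟨fun _ => ∅, fun _ => true, fun M hM _ _ => by simp [h M hM]⟩

theorem no (h : ∀ M ∈ V, ¬ P M) : Solv P t V :=
  ⟨fun _ => ∅, fun _ => false, fun M hM _ _ => by simp [h M hM]⟩

theorem sub (h : Solv P t V) (hW : W ⊆ V) : Solv P t W := by
  obtain ⟨q, d, h⟩ := h
  exact ⟨q, d, fun M hM => h M (hW hM)⟩

theorem ask (X : Set (Fin n)) (h : ∀ b : ℕ∞, Solv P t {M ∈ V | M.eRk X = b}) :
    Solv P (t + 1) V := by
  choose q d h using h
  refine ⟨fun l => match l with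
    | [] => X
    | b :: l => q b l, fun l => match l with
    | [] => false
    | b :: l => d b l, fun M hM a ha => ?_⟩
  have e : ∀ i, (List.range (i + 1)).map a = a 0 :: (List.range i).map (fun k => a (k + 1)) := by
    intro i
    rw [List.range_succ_eq_map, List.map_cons, List.map_map]
    rfl
  rw [e]
  refine h (a 0) M ⟨hM, (ha 0 (by omega)).symm⟩ (fun k => a (k + 1)) (fun i hi => ?_)
  have := ha (i + 1) (by omega)
  rw [e] at this
  exact this

theorem mono {t' : ℕ} (h : Solv P t V) (ht : t ≤ t') : Solv P t' V := by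
  induction ht with
  | refl => exact h
  | step _ ih => exact ask ∅ (fun b => ih.sub (fun M hM => hM.1))

theorem batch (Q : Finset (Finset (Fin n))) : ∀ V : Set (Matroid (Fin n)),
    (∀ M0 ∈ V, Solv P t {M ∈ V | ∀ X ∈ Q, M.eRk X = M0.eRk X}) → Solv P (t + Q.card) V := by
  induction Q using Finset.induction_on with
  | empty =>
    intro V h
    by_cases q : ∃ M0, M0 ∈ V
    · obtain ⟨M0, h0⟩ := q
      exact (h M0 h0).sub (fun M hM => ⟨hM, by simp⟩)
    · exact no (fun M hM => absurd ⟨M, hM⟩ q)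
  | insert X Q hX ih =>
    intro V h
    rw [Finset.card_insert_of_notMem hX, ← add_assoc]
    refine ask X (fun b => ih _ (fun M0 h0 => (h M0 h0.1).sub ?_))
    rintro M ⟨⟨h1, h2⟩, h3⟩
    refine ⟨h1, fun Y hY => ?_⟩
    rcases Finset.mem_insert.1 hY with rfl | hY
    · exact h2.trans h0.2.symm
    · exact h3 Y hY

theorem batch' (Q : Finset (Finset (Fin n))) {k : ℕ} (hk : Q.card ≤ k)
    (h : ∀ M0 ∈ V, Solv P t {M ∈ V | ∀ X ∈ Q, M.eRk X = M0.eRk X}) : Solv P (t + k) V :=
  (batch Q V h).mono (by omega)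

end Solv

noncomputable def rk (M : Matroid (Fin n)) (X : Finset (Fin n)) : ℕ := (M.eRk X).toNat

theorem coe_rk (M : Matroid (Fin n)) (X : Finset (Fin n)) : (rk M X : ℕ∞) = M.eRk X :=
  ENat.natCast_toNat (ne_top_of_le_ne_top (X.finite_toSet.encard_lt_top).ne (M.eRk_le_encard X))

theorem rk_congr {M N : Matroid (Fin n)} {X : Finset (Fin n)} (h : M.eRk X = N.eRk X) :
    rk M X = rk N X := by
  unfold rk
  rw [h]

theorem rf_rk (M : Matroid (Fin n)) : RF (rk M) := by
  refine ⟨by simp [rk], fun X Y h => ?_, fun a X => ?_, fun X Y => ?_⟩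
  · have := M.eRk_mono (Finset.coe_subset.2 h)
    rw [← coe_rk, ← coe_rk] at this
    exact_mod_cast this
  · have := M.eRk_insert_le_add_one a X
    rw [← Finset.coe_insert, ← coe_rk, ← coe_rk] at this
    exact_mod_cast this
  · have := M.eRk_inter_add_eRk_union_le X Y
    rw [← Finset.coe_inter, ← Finset.coe_union, ← coe_rk, ← coe_rk, ← coe_rk, ← coe_rk] at this
    have : rk M (X ∩ Y) + rk M (X ∪ Y) ≤ rk M X + rk M Y := by exact_mod_cast this
    omega

theorem isBase_iff_rk (M : Matroid (Fin n)) (B : Finset (Fin n)) :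
    M.IsBase B ↔ B.card = rk M Finset.univ ∧ rk M B = rk M Finset.univ := by
  have e : M.eRank = (rk M Finset.univ : ℕ∞) := by
    rw [coe_rk, Finset.coe_univ, M.eRk_univ_eq]
  constructor
  · intro h
    have a := h.encard_eq_eRank
    have b := h.eRk_eq_eRank
    rw [e, Set.encard_coe_eq_coe_finsetCard] at a
    rw [e, ← coe_rk] at b
    exact ⟨by exact_mod_cast a, by exact_mod_cast b⟩
  · rintro ⟨a, b⟩
    have i : M.Indep B := by
      rw [Matroid.indep_iff_eRk_eq_encard_of_finite B.finite_toSet, ← coe_rk,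
        Set.encard_coe_eq_coe_finsetCard, a, b]
    exact i.isBase_of_eRk_ge B.finite_toSet (by rw [e, ← coe_rk, b])

theorem eq_of_bases {M N : Matroid (Fin n)} (hE : M.E = N.E)
    (h : ∀ B : Finset (Fin n), M.IsBase B ↔ N.IsBase B) : M = N := by
  refine Matroid.ext_isBase hE (fun B _ => ?_)
  have := h (Set.toFinite B).toFinset
  rwa [Set.Finite.coe_toFinset] at this

def pre (n k : ℕ) : Finset (Fin n) := Finset.univ.filter (fun i => i.val < k)

theorem greedy {r : Finset (Fin n) → ℕ} (h : RF r) (B : Finset (Fin n))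
    (hB : ∀ i : Fin n, i ∈ B ↔ r (pre n (i.val + 1)) = r (pre n i.val) + 1) :
    B.card = r Finset.univ ∧ r B = r Finset.univ := by
  have key : ∀ k, (B ∩ pre n k).card = r (pre n k) ∧ r (B ∩ pre n k) = r (pre n k) := by
    intro k
    induction k with
    | zero =>
      have : pre n 0 = ∅ := by simp [pre]
      simp [this, h.emp]
    | succ k ih =>
      by_cases q : k < n
      · have e : pre n (k + 1) = insert ⟨k, q⟩ (pre n k) := by
          ext a
          simp only [pre, Finset.mem_filter, Finset.mem_univ, true_and, Finset.mem_insert,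
            Fin.ext_iff]
          omega
        have nm : (⟨k, q⟩ : Fin n) ∉ pre n k := by simp [pre]
        have hk := hB ⟨k, q⟩
        simp only at hk
        by_cases m : (⟨k, q⟩ : Fin n) ∈ B
        · have e1 := hk.1 m
          have d := h.dim (Finset.inter_subset_right (s₁ := B) (s₂ := pre n k)) ⟨k, q⟩
          have i := h.ins ⟨k, q⟩ (B ∩ pre n k)
          rw [e] at e1 ⊢
          rw [Finset.inter_insert_of_mem m, Finset.card_insert_of_notMem
            (fun w => nm (Finset.mem_inter.1 w).2)]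
          constructor <;> omega
        · have e1 := mt hk.2 m
          have i := h.ins ⟨k, q⟩ (pre n k)
          have mo := h.mono _ _ (Finset.subset_insert ⟨k, q⟩ (pre n k))
          rw [e] at e1 ⊢
          rw [Finset.inter_insert_of_notMem m]
          constructor <;> omega
      · have e : pre n (k + 1) = pre n k := by
          ext a
          simp only [pre, Finset.mem_filter, Finset.mem_univ, true_and]
          have := a.isLt
          omega
        rw [e]; exact ih
  have e : pre n n = Finset.univ := by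
    ext a
    simp [pre]
  have := key n
  rwa [e, Finset.inter_univ] at this

theorem solv_all (P : Matroid (Fin n) → Prop)
    (hP : ∀ M, M.E = Set.univ → P M → ∃ T : Tab (Fin n), ∀ B, T.bs B ↔ M.IsBase B) :
    Solv P (100 * n ^ 3 + 100) {M | M.E = Set.univ} := by
  classical
  refine Solv.mono (t := 0 + (2 + n * n * (49 + 48 * n)) + n * n * n + n * n + (n + 1)) ?_ ?_
  swap
  · have a : n ≤ n ^ 3 := Nat.le_self_pow (by omega) n
    have b : n * n ≤ n ^ 3 := by
      rcases Nat.eq_zero_or_pos n with rfl | q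
      · simp
      · calc n * n = n * n * 1 := by ring
          _ ≤ n * n * n := Nat.mul_le_mul_left _ q
          _ = n ^ 3 := by ring
    have c : n * n * (49 + 48 * n) = 49 * (n * n) + 48 * n ^ 3 := by ring
    have d : n * n * n = n ^ 3 := by ring
    omega
  refine Solv.batch' ((Finset.range (n + 1)).image (pre n))
    (Finset.card_image_le.trans (by simp)) (fun M0 _ => ?_)
  set B : Finset (Fin n) := Finset.univ.filter
    (fun i => rk M0 (pre n (i.val + 1)) = rk M0 (pre n i.val) + 1) with hBdef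
  set V1 := {M ∈ {M : Matroid (Fin n) | M.E = Set.univ} |
    ∀ X ∈ (Finset.range (n + 1)).image (pre n), M.eRk X = M0.eRk X} with hV1
  have p1 : ∀ M ∈ V1, ∀ k, k ≤ n → rk M (pre n k) = rk M0 (pre n k) := fun M hM k hk =>
    rk_congr (hM.2 _ (Finset.mem_image_of_mem _ (Finset.mem_range.2 (by omega))))
  have u1 : ∀ M ∈ V1, rk M Finset.univ = rk M0 Finset.univ := by
    intro M hM
    have e : pre n n = Finset.univ := by
      ext a
      simp [pre]
    rw [← e]
    exact p1 M hM n le_rfl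
  have b1 : ∀ M ∈ V1, M.IsBase B := by
    intro M hM
    rw [isBase_iff_rk]
    refine greedy (rf_rk M) B (fun i => ?_)
    rw [p1 M hM _ i.isLt, p1 M hM _ i.isLt.le]
    simp [hBdef]
  have tb : ∀ M ∈ V1, ∀ M' ∈ V1, ∀ X : Finset (Fin n), M.eRk X = M'.eRk X →
      (M.IsBase X ↔ M'.IsBase X) := by
    intro M hM M' hM' X e
    rw [isBase_iff_rk, isBase_iff_rk, u1 M hM, u1 M' hM', rk_congr e]
  refine Solv.batch' (Finset.univ.image (fun p : Fin n × Fin n => insert p.2 (B.erase p.1)))
    (Finset.card_image_le.trans (by simp)) (fun M1 h1 => ?_)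
  obtain ⟨Q, hQ, lQ⟩ := Tab.learn B (fun i y => M1.IsBase (insert y (B.erase i) : Finset (Fin n)))
  refine Solv.batch' Q hQ (fun M2 h2 => ?_)
  set V3 := {M ∈ {M ∈ V1 | ∀ X ∈ Finset.univ.image
    (fun p : Fin n × Fin n => insert p.2 (B.erase p.1)), M.eRk X = M1.eRk X} |
      ∀ X ∈ Q, M.eRk X = M2.eRk X} with hV3
  have half : ∀ N ∈ V3, ∀ N' ∈ V3, P N → P N' → ∀ X : Finset (Fin n),
      N.IsBase X → N'.IsBase X := by
    intro N hN N' hN' pN pN' X hX
    obtain ⟨T, hT⟩ := hP N hN.1.1.1 pN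
    obtain ⟨T', hT'⟩ := hP N' hN'.1.1.1 pN'
    have sp : ∀ N ∈ V3, ∀ T : Tab (Fin n), (∀ B, T.bs B ↔ N.IsBase B) → ∀ i ∈ B, ∀ y, y ∉ B →
        (T.t B i y ≠ 0 ↔ M1.IsBase (insert y (B.erase i) : Finset (Fin n))) := by
      intro N hN T hT i hi y hy
      rw [← T.exch B ((hT B).2 (b1 N hN.1.1)) i hi y hy, hT]
      exact tb N hN.1.1 M1 h1 _ (hN.1.2 _ (Finset.mem_image_of_mem _ (Finset.mem_univ (i, y))))
    rw [← hT']
    refine lQ T T' ((hT B).2 (b1 N hN.1.1)) ((hT' B).2 (b1 N' hN'.1.1)) (sp N hN T hT)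
      (sp N' hN' T' hT') (fun Y hY => ?_) X ((hT X).2 hX)
    rw [hT, hT']
    exact tb N hN.1.1 N' hN'.1.1 Y ((hN.2 Y hY).trans (hN'.2 Y hY).symm)
  have uniq : ∀ N ∈ V3, ∀ N' ∈ V3, P N → P N' → N = N' := fun N hN N' hN' pN pN' =>
    eq_of_bases (hN.1.1.1.trans hN'.1.1.1.symm)
      (fun X => ⟨half N hN N' hN' pN pN' X, half N' hN' N hN pN' pN X⟩)
  by_cases ex : ∃ N ∈ V3, P N
  swap
  · exact Solv.no (fun M hM pM => ex ⟨M, hM, pM⟩)
  obtain ⟨N, hN, pN⟩ := ex
  obtain ⟨T, hT⟩ := hP N hN.1.1.1 pN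
  obtain ⟨Q', hQ', cQ⟩ := Tab.cert (T := T) (rf_rk N) (fun X => by rw [hT, isBase_iff_rk])
  refine Solv.batch' Q' hQ' (fun M3 _ => ?_)
  by_cases ag : ∀ X ∈ Q', M3.eRk X = N.eRk X
  · refine Solv.yes (fun M hM => ?_)
    have := cQ (rk M) (rf_rk M) (fun X hX => rk_congr ((hM.2 X hX).trans (ag X hX)))
    have e : M = N := eq_of_bases (hM.1.1.1.1.trans hN.1.1.1.symm) (fun X => by
      rw [isBase_iff_rk, isBase_iff_rk, this, this])
    rwa [e]
  · refine Solv.no (fun M hM pM => ag (fun X hX => ?_))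
    rw [← hM.2 X hX, uniq M hM.1 N hN pM pN]

end Pool.Agent.NearReg
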