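import Pool.Agent.Lib.MP_da0a56_lc.Blk

/-! Triples of components: basic facts. -/

set_option autoImplicit false

namespace Pool.Agent.NearReg
open R

namespace Tab
variable {α : Type*} [DecidableEq α] (T : Tab α)

structure Cx (e x j : α) (C U : Finset α) : Prop where
  he : e ∉ U
  hx : x ∉ U
  hex : e ≠ x
  hj : j ∈ U
  nd : ∃ X0, T.FB x C U X0 ∧ j ∈ X0

def In (e x : α) (C U X : Finset α) (f : α) : Prop := ∀ Y, T.Conn e x C U X Y → f ∈ Y

def Out (e x : α) (C U X : Finset α) (f : α) : Prop := ∀ Y, T.Conn e x C U X Y → f ∉ Y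

def Flex (e x : α) (C U X : Finset α) (f : α) : Prop :=
  ¬ T.In e x C U X f ∧ ¬ T.Out e x C U X f

structure Cp (e x j : α) (C U : Finset α) (τ : R) (X : Finset α) : Prop where
  fb : T.FB x C U X
  lev : T.w x X x e = 0
  out : T.Out e x C U X j
  lab : T.w x X x j = τ

structure Tri (e x j : α) (C U : Finset α) (τ : R) (X1 X2 X3 : Finset α) : Prop where
  cx : T.Cx e x j C U
  c1 : T.Cp e x j C U τ X1
  c2 : T.Cp e x j C U τ X2
  c3 : T.Cp e x j C U τ X3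
  n12 : ¬ T.Conn e x C U X1 X2
  n13 : ¬ T.Conn e x C U X1 X3
  n23 : ¬ T.Conn e x C U X2 X3

def Typ (e x j z : α) (C U X1 X2 X3 : Finset α) : Prop :=
  ∀ f ∈ U, f ∉ C → f ≠ j → f ≠ z →
    (T.In e x C U X1 f ∨ T.In e x C U X2 f ∨ T.In e x C U X3 f) ∧
    (T.Out e x C U X1 f ∨ T.Out e x C U X2 f ∨ T.Out e x C U X3 f)

def Circ (x : α) (C Z : Finset α) : Prop :=
  ∃ ζ : α → R, (∀ g ∈ Z, Un (ζ g)) ∧ ∀ X', T.bs (insert x X') → C ⊆ X' →
    ∀ k ∈ insert x X', k ∉ C → ∑ g ∈ Z, ζ g * T.w x X' k g = 0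

def Coc (e x : α) (U Z : Finset α) : Prop :=
  ∃ φ : α → R, (∀ f, Ok (φ f)) ∧ φ e = 0 ∧ (∀ f ∈ U, φ f ≠ 0 ↔ f ∈ Z) ∧
    ∀ X', T.bs (insert x X') → x ∉ X' → ∀ f, φ f = ∑ i ∈ X', φ i * T.w x X' i f

variable {T} {e x j z : α} {C U X X' X1 X2 X3 Y : Finset α} {τ : R} {f : α}

theorem In.mem (h : T.In e x C U X f) : f ∈ X := h X (Conn.refl _)

theorem Out.nmem (h : T.Out e x C U X f) : f ∉ X := h X (Conn.refl _)

theorem In.move (h : T.In e x C U X f) (c : T.Conn e x C U X Y) : T.In e x C U Y f :=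
  fun Z hZ => h Z (c.trans hZ)

theorem Out.move (h : T.Out e x C U X f) (c : T.Conn e x C U X Y) : T.Out e x C U Y f :=
  fun Z hZ => h Z (c.trans hZ)

theorem Flex.move (h : T.Flex e x C U X f) (hx : x ∉ U) (c : T.Conn e x C U X Y) :
    T.Flex e x C U Y f :=
  ⟨fun q => h.1 (q.move (c.symm hx)), fun q => h.2 (q.move (c.symm hx))⟩

theorem flex_of (c : T.Conn e x C U X Y) (c' : T.Conn e x C U X X') (h1 : f ∈ Y) (h2 : f ∉ X') :
    T.Flex e x C U X f := ⟨fun q => h2 (q _ c'), fun q => q _ c h1⟩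

theorem Flex.mem (h : T.Flex e x C U X f) (hx : x ∉ U) (hF : T.FB x C U X) : f ∈ U ∧ f ∉ C := by
  obtain ⟨h1, h2⟩ := h
  unfold In at h1
  unfold Out at h2
  push Not at h1 h2
  obtain ⟨Y, c, n⟩ := h1
  obtain ⟨Y', c', n'⟩ := h2
  exact ⟨(c'.fb hx hF).2.1 n', fun q => n ((c.fb hx hF).1 q)⟩

theorem step_mk (hF : T.FB x C U X) {i y : α} (hi : i ∈ X) (hC : i ∉ C) (hy : y ∈ U)
    (hy' : y ∉ X) (hw : T.w x X i y ≠ 0) (q : T.w x X i e = 0 ∨ T.w x X x y = 0) :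
    T.Conn e x C U X (insert y (X.erase i)) :=
  Step.conn ⟨hF, i, hi, hC, y, hy, hy', hw, q, rfl⟩

theorem nmem_piv {i y : α} (hi : i ∈ X) (hy : y ∉ X) : i ∉ insert y (X.erase i) := by
  simp only [Finset.mem_insert, Finset.mem_erase, not_or]
  exact ⟨fun q => hy (q ▸ hi), fun q => q.1 rfl⟩

theorem out_delta (hx : x ∉ U) (hF : T.FB x C U X) (h : T.Out e x C U X f) {X0 : Finset α}
    (h0 : T.FB x C U X0) (hf : f ∈ X0) : T.w x X x f ≠ 0 := by
  intro q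
  obtain ⟨i, hi, ni, hw⟩ := w_ex_in hF.2.2 h0.2.2 (h0.nx hx) hf h.nmem
  exact h _ (step_mk hF hi (fun c => ni (h0.1 c)) (h0.2.1 hf) h.nmem hw (Or.inr q))
    (Finset.mem_insert_self _ _)

theorem in_eps (hx : x ∉ U) (hF : T.FB x C U X) (h : T.In e x C U X f) {X0 : Finset α}
    (h0 : T.FB x C U X0) (hf : f ∉ X0) : T.w x X f e ≠ 0 := by
  intro q
  obtain ⟨y, hy, ny, hw⟩ := w_ex_out hF.2.2 h0.2.2 (hF.nx hx) h.mem hf
  exact nmem_piv h.mem ny
    (h _ (step_mk hF h.mem (fun c => hf (h0.1 c)) (h0.2.1 hy) ny hw (Or.inl q)))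

theorem Cp.ro (h : T.Cp e x j C U τ X) (cx : T.Cx e x j C U) : ∀ i ∈ X, i ∉ C →
    T.w x X i j ≠ 0 → T.w x X i e ≠ 0 := fun _ hi hC hw q =>
  h.out _ (step_mk h.fb hi hC cx.hj h.out.nmem hw (Or.inl q)) (Finset.mem_insert_self _ _)

theorem Cp.nd (h : T.Cp e x j C U τ X) (cx : T.Cx e x j C U) :
    ∃ i ∈ X, i ∉ C ∧ T.w x X i j ≠ 0 := by
  obtain ⟨X0, h0, hj⟩ := cx.nd
  obtain ⟨i, hi, ni, hw⟩ := w_ex_in h.fb.2.2 h0.2.2 (h0.nx cx.hx) hj h.out.nmem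
  exact ⟨i, hi, fun c => ni (h0.1 c), hw⟩

theorem Cp.dj (h : T.Cp e x j C U τ X) (cx : T.Cx e x j C U) : T.w x X x j ≠ 0 := by
  obtain ⟨X0, h0, hj⟩ := cx.nd
  exact out_delta cx.hx h.fb h.out h0 hj

theorem Cp.move (h : T.Cp e x j C U τ X) (hx : x ∉ U) (hj : j ∈ U) (c : T.Conn e x C U X Y) :
    T.Cp e x j C U τ Y := by
  induction c with
  | refl => exact h
  | @tail V _ _ s ih =>
    refine ⟨s.fb hx, (s.lev hx).trans ih.lev, ih.out.move s.conn, ?_⟩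
    obtain ⟨hF, i, hi, hC, y, hy, hy', hw, q, rfl⟩ := s
    rw [w_x hF.2.2 (hF.nx hx) hi hw, ih.lab]
    rcases q with q | q
    · have : T.w x V i j = 0 := by
        by_contra r
        exact ih.out _ (step_mk hF hi hC hj ih.out.nmem r (Or.inl q)) (Finset.mem_insert_self _ _)
      rw [this]; ring
    · rw [q]; ring

theorem Tri.sw12 (h : T.Tri e x j C U τ X1 X2 X3) : T.Tri e x j C U τ X2 X1 X3 :=
  ⟨h.cx, h.c2, h.c1, h.c3, fun q => h.n12 (q.symm h.cx.hx), h.n23, h.n13⟩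

theorem Tri.sw23 (h : T.Tri e x j C U τ X1 X2 X3) : T.Tri e x j C U τ X1 X3 X2 :=
  ⟨h.cx, h.c1, h.c3, h.c2, h.n13, h.n12, fun q => h.n23 (q.symm h.cx.hx)⟩

theorem Tri.move {Y1 Y2 Y3 : Finset α} (h : T.Tri e x j C U τ X1 X2 X3)
    (c1 : T.Conn e x C U X1 Y1) (c2 : T.Conn e x C U X2 Y2) (c3 : T.Conn e x C U X3 Y3) :
    T.Tri e x j C U τ Y1 Y2 Y3 :=
  ⟨h.cx, h.c1.move h.cx.hx h.cx.hj c1, h.c2.move h.cx.hx h.cx.hj c2,
    h.c3.move h.cx.hx h.cx.hj c3,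
    fun q => h.n12 ((c1.trans q).trans (c2.symm h.cx.hx)),
    fun q => h.n13 ((c1.trans q).trans (c3.symm h.cx.hx)),
    fun q => h.n23 ((c2.trans q).trans (c3.symm h.cx.hx))⟩

theorem Typ.sw12 (h : T.Typ e x j z C U X1 X2 X3) : T.Typ e x j z C U X2 X1 X3 := by
  intro f a b c d
  have := h f a b c d
  tauto

theorem Typ.sw23 (h : T.Typ e x j z C U X1 X2 X3) : T.Typ e x j z C U X1 X3 X2 := by
  intro f a b c d
  have := h f a b c d
  tauto

theorem Typ.flex (h : T.Typ e x j z C U X1 X2 X3) (t : T.Tri e x j C U τ X1 X2 X3)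
    (hf : T.Flex e x C U X1 f) (nz : f ≠ z) :
    (T.In e x C U X2 f ∧ T.Out e x C U X3 f) ∨ (T.Out e x C U X2 f ∧ T.In e x C U X3 f) := by
  obtain ⟨m1, m2⟩ := hf.mem t.cx.hx t.c1.fb
  obtain ⟨a, b⟩ := h f m1 m2 (fun q => hf.2 (q ▸ t.c1.out)) nz
  rcases a with a | a | a
  · exact absurd a hf.1
  · rcases b with b | b | b
    · exact absurd b hf.2
    · exact absurd a.mem b.nmem
    · exact Or.inl ⟨a, b⟩
  · rcases b with b | b | b
    · exact absurd b hf.2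
    · exact Or.inr ⟨b, a⟩
    · exact absurd a.mem b.nmem

theorem pair (cx : T.Cx e x j C U) (h : T.Cp e x j C U τ X) (h' : T.Cp e x j C U τ X')
    (n : ¬ T.Conn e x C U X X') : ∃ Y Y', T.Conn e x C U X Y ∧ T.Conn e x C U X' Y' ∧
      T.St e x Y Y' ∧ (Y \ Y').card = 2 ∧ (Y' \ Y).card = 2 ∧
      ∀ i ∈ Y \ Y', ∀ i' ∈ Y \ Y', T.Pm e x Y i j = T.Pm e x Y i' j := by
  obtain ⟨Y, Y', c, c', s1, s2⟩ := descent (e := e) cx.hx _ X X' rfl h.fb h'.fb
  have p := h.move cx.hx cx.hj c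
  have p' := h'.move cx.hx cx.hj c'
  have st : T.St e x Y Y' := ⟨p.fb.2.2, p'.fb.2.2, p.fb.nx cx.hx, p'.fb.nx cx.hx,
    fun q => cx.he (p.fb.2.1 q), fun q => cx.he (p'.fb.2.1 q), s1, s2, p.lev.trans p'.lev.symm,
    fun q => n (c.trans (q ▸ c'.symm cx.hx))⟩
  obtain ⟨k1, k2⟩ := st.k2 cx.hex p.lev (p.dj cx) (p.lab.trans p'.lab.symm) (p'.ro cx) (p.ro cx)
    (p.nd cx)
  exact ⟨Y, Y', c, c', st, k1, st.card ▸ k1, k2⟩

theorem sum_orth {Z : Finset α} {a : α → R} (h : ∑ g ∈ Z, a g = 0) {g : α} (hg : g ∈ Z)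
    (n : a g ≠ 0) : ∃ g' ∈ Z, g' ≠ g ∧ a g' ≠ 0 := by
  by_contra q
  push Not at q
  exact n ((Finset.sum_eq_single_of_mem g hg q).symm.trans h)

theorem Circ.orth {Z : Finset α} (h : T.Circ x C Z) (hB : T.bs (insert x X')) (hC : C ⊆ X')
    {k g : α} (hk : k ∈ insert x X') (nk : k ∉ C) (hg : g ∈ Z) (n : T.w x X' k g ≠ 0) :
    ∃ g' ∈ Z, g' ≠ g ∧ T.w x X' k g' ≠ 0 := by
  obtain ⟨ζ, u, s⟩ := h
  obtain ⟨g', h1, h2, h3⟩ := sum_orth (s X' hB hC k hk nk) hg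
    (fun q => n ((u g hg).mul_eq_zero q))
  exact ⟨g', h1, h2, fun q => h3 (by rw [q, mul_zero])⟩

theorem circ_of (hx : x ∉ U) (hF : T.FB x C U Y) {y : α} (hy : y ∉ Y) (hδ : T.w x Y x y = 0) :
    T.Circ x C (insert y ((Y \ C).filter (fun i => T.w x Y i y ≠ 0))) := by
  have ny : y ∉ (Y \ C).filter (fun i => T.w x Y i y ≠ 0) :=
    fun q => hy (Finset.mem_sdiff.1 (Finset.mem_filter.1 q).1).1
  refine ⟨fun g => if g = y then -1 else T.w x Y g y, fun g hg => ?_, fun X' hB hC k hk nk => ?_⟩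
  · rcases Finset.mem_insert.1 hg with q | q
    · simp only [if_pos q]; exact un_one.neg
    · simp only [if_neg (ne_of_mem_of_not_mem q ny)]
      exact w_un hF.2.2 (Finset.mem_sdiff.1 (Finset.mem_filter.1 q).1).1 (Finset.mem_filter.1 q).2
  · beta_reduce
    rw [Finset.sum_insert ny, if_pos rfl]
    have e1 := T.trans _ _ hF.2.2 hB k hk y
    rw [Finset.sum_insert (hF.nx hx)] at e1
    have e2 : ∑ i ∈ Y, T.t (insert x X') k i * T.t (insert x Y) i y =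
        ∑ g ∈ (Y \ C).filter (fun i => T.w x Y i y ≠ 0),
          (if g = y then -1 else T.w x Y g y) * T.w x X' k g := by
      symm
      rw [Finset.sum_congr rfl (g := fun i => T.t (insert x X') k i * T.t (insert x Y) i y)
        (fun g hg => by rw [if_neg (ne_of_mem_of_not_mem hg ny), mul_comm]; rfl)]
      refine Finset.sum_subset ((Finset.filter_subset _ _).trans Finset.sdiff_subset)
        (fun i hi ni => ?_)
      by_cases q : i ∈ C
      · rw [T.id0 _ hB k hk i (Finset.mem_insert_of_mem (hC q)) (fun r => nk (r ▸ q)), zero_mul]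
      · have : T.w x Y i y = 0 := by
          by_contra r
          exact ni (Finset.mem_filter.2 ⟨Finset.mem_sdiff.2 ⟨hi, q⟩, r⟩)
        unfold w at this
        rw [this, mul_zero]
    rw [← e2]
    unfold w at hδ ⊢
    rw [hδ] at e1
    linear_combination -e1

theorem coc_of (hx : x ∉ U) (hF : T.FB x C U Y) {i : α} (hi : i ∈ Y) (hε : T.w x Y i e = 0) :
    T.Coc e x U (insert i ((U \ Y).filter (fun y => T.w x Y i y ≠ 0))) := by
  refine ⟨fun f => T.w x Y i f, fun f => w_ok hF.2.2 hi f, hε, fun f hf => ?_,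
    fun X' hB nx f => ?_⟩
  · simp only [Finset.mem_insert, Finset.mem_filter, Finset.mem_sdiff]
    constructor
    · intro q
      by_cases r : f ∈ Y
      · left
        by_contra s
        exact q (w_id0 hF.2.2 hi r (fun t => s t.symm))
      · exact Or.inr ⟨⟨hf, r⟩, q⟩
    · rintro (rfl | q)
      · rw [w_id1 hF.2.2 hi]; exact one_ne_zero
      · exact q.2
  · have e1 := T.trans _ _ hB hF.2.2 i (Finset.mem_insert_of_mem hi) f
    rw [Finset.sum_insert nx] at e1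
    have := w_0x hF.2.2 (hF.nx hx) hi
    beta_reduce
    unfold w at this ⊢
    rw [e1, this, zero_mul, zero_add]

theorem circ_two (t : T.Tri e x j C U τ X1 X2 X3) (ty : T.Typ e x j z C U X1 X2 X3)
    {Z : Finset α} (hZ : T.Circ x C Z) (fl : ∀ g ∈ Z, T.Flex e x C U X1 g) (ne : Z.Nonempty)
    (c : T.Conn e x C U X2 Y) (hz : z ∈ Z → z ∈ Y) :
    ∃ g ∈ Z, ∃ g' ∈ Z, g ≠ g' ∧ g ≠ z ∧ g' ≠ z ∧ T.Out e x C U X2 g ∧ T.In e x C U X3 g ∧
      T.Out e x C U X2 g' ∧ T.In e x C U X3 g' := by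
  have hx := t.cx.hx
  have hF := c.fb hx t.c2.fb
  have tp : ∀ g ∈ Z, g ∉ Y → g ≠ z ∧ T.Out e x C U X2 g ∧ T.In e x C U X3 g := by
    intro g hg n
    have nz : g ≠ z := fun q => n (q ▸ hz (q ▸ hg))
    rcases ty.flex t (fl g hg) nz with q | q
    · exact absurd (q.1 _ c) n
    · exact ⟨nz, q⟩
  obtain ⟨g, hg, n⟩ : ∃ g ∈ Z, g ∉ Y := by
    obtain ⟨g0, h0⟩ := ne
    by_cases q : g0 ∈ Y
    · obtain ⟨g, hg, n1, n2⟩ := hZ.orth hF.2.2 hF.1 (Finset.mem_insert_of_mem q)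
        ((fl g0 h0).mem hx t.c1.fb).2 h0 (by rw [w_id1 hF.2.2 q]; exact one_ne_zero)
      exact ⟨g, hg, fun r => n2 (w_id0 hF.2.2 q r n1.symm)⟩
    · exact ⟨g0, h0, q⟩
  obtain ⟨a1, a2, a3⟩ := tp g hg n
  obtain ⟨g', hg', n1, n2⟩ := hZ.orth hF.2.2 hF.1 (Finset.mem_insert_self _ _)
    (fun q => hF.nx hx (hF.1 q)) hg (out_delta hx hF (a2.move c) t.c3.fb a3.mem)
  obtain ⟨b1, b2, b3⟩ := tp g' hg' (fun r => n2 (w_x0 hF.2.2 (hF.nx hx) r))
  exact ⟨g, hg, g', hg', n1.symm, a1, b1, a2, a3, b2, b3⟩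

theorem coc_two (t : T.Tri e x j C U τ X1 X2 X3) (ty : T.Typ e x j j C U X1 X2 X3)
    {Z : Finset α} (hZ : T.Coc e x U Z) (fl : ∀ g ∈ Z, T.Flex e x C U X1 g) (ne : Z.Nonempty) :
    ∃ g ∈ Z, ∃ g' ∈ Z, g ≠ g' ∧ T.In e x C U X2 g ∧ T.Out e x C U X3 g ∧
      T.In e x C U X2 g' ∧ T.Out e x C U X3 g' := by
  have hx := t.cx.hx
  have hF := t.c2.fb
  obtain ⟨φ, o, z0, sp, s⟩ := hZ
  have tp : ∀ g ∈ Z, g ∈ X2 → T.In e x C U X2 g ∧ T.Out e x C U X3 g := by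
    intro g hg n
    rcases ty.flex t (fl g hg) (fun q => (fl g hg).2 (q ▸ t.c1.out)) with q | q
    · exact q
    · exact absurd n q.1.nmem
  obtain ⟨g, hg, n⟩ : ∃ g ∈ Z, g ∈ X2 := by
    obtain ⟨g0, h0⟩ := ne
    have := (sp g0 ((fl g0 h0).mem hx t.c1.fb).1).2 h0
    rw [s X2 hF.2.2 (hF.nx hx) g0] at this
    obtain ⟨i, hi, q⟩ := Finset.exists_ne_zero_of_sum_ne_zero this
    exact ⟨i, (sp i (hF.2.1 hi)).1 (fun r => q (by rw [r, zero_mul])), hi⟩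
  obtain ⟨a1, a2⟩ := tp g hg n
  have e0 := s X2 hF.2.2 (hF.nx hx) e
  rw [z0] at e0
  obtain ⟨g', hg', n1, n2⟩ := sum_orth e0.symm n (ok_mul_ne_zero (o g) (w_ok hF.2.2 n e)
    ((sp g (hF.2.1 n)).2 hg) (in_eps hx hF a1 t.c3.fb a2.nmem))
  have m : g' ∈ Z := (sp g' (hF.2.1 hg')).1 (fun r => n2 (by rw [r, zero_mul]))
  obtain ⟨b1, b2⟩ := tp g' m hg'
  exact ⟨g, hg, g', m, n1.symm, a1, a2, b1, b2⟩

open Classical in
theorem flex_card (hx : x ∉ U) (hF : T.FB x C U X) {V : Finset α} (c : T.Conn e x C U X Y)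
    (c' : T.Conn e x C U X V) :
    (Y.filter (T.Flex e x C U X)).card = (V.filter (T.Flex e x C U X)).card := by
  have key : ∀ Y, T.Conn e x C U X Y → Y.filter (fun f => ¬ T.Flex e x C U X f) =
      X.filter (T.In e x C U X) := by
    intro Y c
    ext f
    simp only [Finset.mem_filter]
    constructor
    · rintro ⟨h1, h2⟩
      have : T.In e x C U X f := by
        by_contra q
        exact h2 ⟨q, fun r => r _ c h1⟩
      exact ⟨this.mem, this⟩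
    · rintro ⟨-, h2⟩
      exact ⟨h2 _ c, fun q => q.1 h2⟩
  have e1 := Finset.card_filter_add_card_filter_not (s := Y) (T.Flex e x C U X)
  have e2 := Finset.card_filter_add_card_filter_not (s := V) (T.Flex e x C U X)
  rw [key Y c] at e1
  rw [key V c'] at e2
  have a := c.fb hx hF
  have b := c'.fb hx hF
  have := w_card a.2.2 b.2.2 (a.nx hx) (b.nx hx)
  omega

theorem eq_pair {S : Finset α} (h : S.card = 2) {a b : α} (ha : a ∈ S) (hb : b ∈ S) (n : a ≠ b) :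
    S = {a, b} := by
  symm
  apply Finset.eq_of_subset_of_card_le
  · intro c hc
    simp only [Finset.mem_insert, Finset.mem_singleton] at hc
    rcases hc with rfl | rfl <;> assumption
  · rw [h, Finset.card_pair n]

theorem mem_pair {S : Finset α} (h : S.card = 2) {a b c : α} (ha : a ∈ S) (hb : b ∈ S)
    (n : a ≠ b) (hc : c ∈ S) : c = a ∨ c = b := by
  rw [eq_pair h ha hb n] at hc
  simpa using hc

theorem ex_step (c : T.Conn e x C U X Y) (h1 : f ∈ X) (h2 : f ∉ Y) :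
    ∃ V y, T.Conn e x C U X V ∧ T.FB x C U V ∧ f ∈ V ∧ f ∉ C ∧ y ∈ U ∧ y ∉ V ∧
      T.w x V f y ≠ 0 ∧ (T.w x V f e = 0 ∨ T.w x V x y = 0) := by
  induction c with
  | refl => exact absurd h1 h2
  | @tail V W c s ih =>
    by_cases q : f ∈ V
    · obtain ⟨hF, i, hi, hC, y, hy, hy', hw, r, rfl⟩ := s
      have : f = i := by
        by_contra n
        exact h2 (Finset.mem_insert_of_mem (Finset.mem_erase.2 ⟨n, q⟩))
      subst this
      exact ⟨V, y, c, hF, hi, hC, hy, hy', hw, r⟩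
    · exact ih q

theorem circ_flex (c : T.Conn e x C U X Y) (hF : T.FB x C U Y) {i y : α} (hi : i ∈ Y)
    (hC : i ∉ C) (hyU : y ∈ U) (hy : y ∉ Y) (hw : T.w x Y i y ≠ 0) (hδ : T.w x Y x y = 0) :
    ∀ g ∈ insert y ((Y \ C).filter (fun i => T.w x Y i y ≠ 0)), T.Flex e x C U X g := by
  intro g hg
  rcases Finset.mem_insert.1 hg with q | q
  · subst q
    exact flex_of (c.trans (step_mk hF hi hC hyU hy hw (Or.inr hδ))) c
      (Finset.mem_insert_self _ _) hy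
  · obtain ⟨q1, q2⟩ := Finset.mem_filter.1 q
    obtain ⟨q0, q1⟩ := Finset.mem_sdiff.1 q1
    exact flex_of c (c.trans (step_mk hF q0 q1 hyU hy q2 (Or.inr hδ))) q0 (nmem_piv q0 hy)

theorem coc_flex (c : T.Conn e x C U X Y) (hF : T.FB x C U Y) {i y : α} (hi : i ∈ Y)
    (hC : i ∉ C) (hyU : y ∈ U) (hy : y ∉ Y) (hw : T.w x Y i y ≠ 0) (hε : T.w x Y i e = 0) :
    ∀ g ∈ insert i ((U \ Y).filter (fun y => T.w x Y i y ≠ 0)), T.Flex e x C U X g := by
  intro g hg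
  rcases Finset.mem_insert.1 hg with q | q
  · subst q
    exact flex_of c (c.trans (step_mk hF hi hC hyU hy hw (Or.inl hε))) hi (nmem_piv hi hy)
  · obtain ⟨q1, q2⟩ := Finset.mem_filter.1 q
    obtain ⟨q0, q1⟩ := Finset.mem_sdiff.1 q1
    exact flex_of (c.trans (step_mk hF hi hC q0 q1 q2 (Or.inl hε))) c
      (Finset.mem_insert_self _ _) q1

end Tab

end Pool.Agent.NearReg
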