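import Pool.Agent.Lib.MP_da0a56_lc.TriC

/-! No three components of level zero avoid an element with the same label. -/

set_option autoImplicit false

namespace Pool.Agent.NearReg
open R

namespace Tab
variable {α : Type*} [DecidableEq α] {T : Tab α}
variable {e x j z : α} {C U X X1 X2 X3 Y : Finset α} {τ : R}

theorem z_only (cx : T.Cx e x j C U) (hz : ∀ X0, T.FB x C U X0 → z ∈ X0 → j ∉ X0)
    (hF : T.FB x C U Y) (m : z ∈ Y) {i : α} (hi : i ∈ Y) (hC : i ∉ C) (n : i ≠ z) :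
    T.w x Y i j = 0 := by
  by_contra q
  exact hz _ (hF.piv cx.hx hi hC cx.hj q)
    (Finset.mem_insert_of_mem (Finset.mem_erase.2 ⟨n.symm, m⟩)) (Finset.mem_insert_self _ _)

theorem z_eps (cx : T.Cx e x j C U) (hz : ∀ X0, T.FB x C U X0 → z ∈ X0 → j ∉ X0)
    (h : T.Cp e x j C U τ Y) (m : z ∈ Y) : T.w x Y z j ≠ 0 ∧ T.w x Y z e ≠ 0 := by
  obtain ⟨i, hi, ni, wi⟩ := h.nd cx
  have : i = z := by
    by_contra q
    exact wi (z_only cx hz h.fb m hi ni q)
  subst this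
  exact ⟨wi, h.ro cx i hi ni wi⟩

theorem a2_aux (t : T.Tri e x j C U τ X1 X2 X3) (hz : ∀ X0, T.FB x C U X0 → z ∈ X0 → j ∉ X0)
    (fl : T.Flex e x C U X1 z) : ∃ Y y, T.Conn e x C U X1 Y ∧ ∃ Z : Finset α, T.Circ x C Z ∧
      (∀ g ∈ Z, T.Flex e x C U X1 g) ∧ z ∈ Z ∧ ∀ g ∈ Z, g ≠ y → g ∈ Y := by
  have hx := t.cx.hx
  obtain ⟨h1, h2⟩ := fl
  unfold In at h1
  unfold Out at h2
  push Not at h1 h2
  obtain ⟨Y1, c1, n1⟩ := h1
  obtain ⟨Y2, c2, n2⟩ := h2
  obtain ⟨V, y, c, hF, m, nC, hyU, hy, hw, q⟩ := ex_step ((c2.symm hx).trans c1) n2 n1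
  have cV := c2.trans c
  have hδ : T.w x V x y = 0 :=
    q.resolve_left (z_eps t.cx hz (t.c1.move hx t.cx.hj cV) m).2
  refine ⟨V, y, cV, _, circ_of hx hF hy hδ, circ_flex cV hF m nC hyU hy hw hδ, ?_, ?_⟩
  · exact Finset.mem_insert_of_mem (Finset.mem_filter.2 ⟨Finset.mem_sdiff.2 ⟨m, nC⟩, hw⟩)
  · intro g hg n
    exact (Finset.mem_sdiff.1 (Finset.mem_filter.1
      ((Finset.mem_insert.1 hg).resolve_left n)).1).1

theorem a2 (t : T.Tri e x j C U τ X1 X2 X3) (ty : T.Typ e x j z C U X1 X2 X3)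
    (hz : ∀ X0, T.FB x C U X0 → z ∈ X0 → j ∉ X0) (i1 : T.In e x C U X1 z)
    (f2 : T.Flex e x C U X2 z) (f3 : T.Flex e x C U X3 z) : False := by
  classical
  have hx := t.cx.hx
  obtain ⟨Y, y, c, Z, hZ, fl, mz, hY⟩ := a2_aux t.sw12 hz f2
  obtain ⟨-, -, -, Z', hZ', fl', mz', -⟩ := a2_aux t.sw23.sw12 hz f3
  obtain ⟨Y3, c3, m3⟩ : ∃ Y3, T.Conn e x C U X3 Y3 ∧ z ∈ Y3 := by
    have := f3.2
    unfold Out at this
    push Not at this
    exact this
  obtain ⟨g, hg, g', hg', n, a0, a0', a1, a2, a3, a4⟩ := circ_two t.sw12 ty.sw12 hZ fl ⟨z, mz⟩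
    (Conn.refl _) (fun _ => i1.mem)
  obtain ⟨h, hh, h', hh', m, b0, b0', b1, b2, b3, b4⟩ := circ_two t.sw12.sw23 ty.sw12.sw23 hZ fl
    ⟨z, mz⟩ c3 (fun _ => m3)
  obtain ⟨k, -, k', -, l, -, -, d1, d2, d3, d4⟩ := circ_two t.sw23.sw12 ty.sw23.sw12 hZ' fl'
    ⟨z, mz'⟩ (Conn.refl _) (fun _ => i1.mem)
  obtain ⟨V1, V2, e1, e2, -, -, k2, -⟩ := pair t.cx t.c1 t.c2 t.n12
  obtain ⟨W1, W3, e1', e3, -, k3, -, -⟩ := pair t.cx t.c1 t.c3 t.n13
  have up : (V2.filter (T.Flex e x C U X2)).card ≤ (insert z (W1 \ W3)).card := by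
    refine Finset.card_le_card (fun f hf => ?_)
    obtain ⟨f1, f2'⟩ := Finset.mem_filter.1 hf
    by_cases q : f = z
    · rw [q]; exact Finset.mem_insert_self _ _
    · refine Finset.mem_insert_of_mem ?_
      rcases ty.sw12.flex t.sw12 f2' q with r | r
      · exact Finset.mem_sdiff.2 ⟨r.1 _ e1', r.2 _ e3⟩
      · exfalso
        rcases mem_pair k2 (Finset.mem_sdiff.2 ⟨d2 _ e2, d1 _ e1⟩)
          (Finset.mem_sdiff.2 ⟨d4 _ e2, d3 _ e1⟩) l (Finset.mem_sdiff.2 ⟨f1, r.1 _ e1⟩) with s | s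
        · exact f2'.1 (s ▸ d2)
        · exact f2'.1 (s ▸ d4)
  have lo : (Z.erase y).card ≤ (Y.filter (T.Flex e x C U X2)).card := by
    refine Finset.card_le_card (fun f hf => ?_)
    obtain ⟨f1, f2'⟩ := Finset.mem_erase.1 hf
    exact Finset.mem_filter.2 ⟨hY f f2' f1, fl f f2'⟩
  have five : ({z, g, g', h, h'} : Finset α).card ≤ Z.card := by
    refine Finset.card_le_card (fun f hf => ?_)
    simp only [Finset.mem_insert, Finset.mem_singleton] at hf
    rcases hf with rfl | rfl | rfl | rfl | rfl <;> assumption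
  have n1 : g ≠ h := fun q => a1.nmem (q ▸ b2.mem)
  have n2 : g ≠ h' := fun q => a1.nmem (q ▸ b4.mem)
  have n3 : g' ≠ h := fun q => a3.nmem (q ▸ b2.mem)
  have n4 : g' ≠ h' := fun q => a3.nmem (q ▸ b4.mem)
  rw [Finset.card_insert_of_notMem (by simp [a0.symm, a0'.symm, b0.symm, b0'.symm]),
    Finset.card_insert_of_notMem (by simp [n, n1, n2]),
    Finset.card_insert_of_notMem (by simp [n3, n4]), Finset.card_pair m] at five
  rw [flex_card hx t.c2.fb c e2] at lo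
  have := Finset.pred_card_le_card_erase (s := Z) (a := y)
  have := Finset.card_insert_le z (W1 \ W3)
  omega

theorem hat_inj {A B : Finset α} (he : e ∉ A) (he' : e ∉ B) (m : z ∈ A) (m' : z ∈ B)
    (h : insert e (A.erase z) = insert e (B.erase z)) : A = B := by
  rw [← piv_piv m he, h, piv_piv m' he']

theorem a1 (t : T.Tri e x j C U τ X1 X2 X3) (hz : ∀ X0, T.FB x C U X0 → z ∈ X0 → j ∉ X0)
    (zU : z ∈ U) (zC : z ∉ C) (zj : z ≠ j)
    (i1 : T.In e x C U X1 z) (i2 : T.In e x C U X2 z) (m3 : z ∈ X3) :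
    ∃ Y1 Y2 Y3, T.Tri z x j (insert e C) (insert e (U.erase z)) τ Y1 Y2 Y3 := by
  have cx := t.cx
  have hx := cx.hx
  obtain ⟨V1, V2, c1, c2, st, -, -, -⟩ := pair cx t.c1 t.c2 t.n12
  have t' := t.move c1 c2 (Conn.refl _)
  have i1' := i1.move c1
  have i2' := i2.move c2
  have hx' : x ∉ insert e (U.erase z) := by
    simp only [Finset.mem_insert, Finset.mem_erase, not_or]
    exact ⟨cx.hex.symm, fun q => hx q.2⟩
  have hj' : j ∈ insert e (U.erase z) :=
    Finset.mem_insert_of_mem (Finset.mem_erase.2 ⟨zj.symm, cx.hj⟩)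
  have τ0 : τ ≠ 0 := t.c1.lab ▸ t.c1.dj cx
  have fb : ∀ Y, T.Cp e x j C U τ Y → z ∈ Y →
      T.FB x (insert e C) (insert e (U.erase z)) (insert e (Y.erase z)) := fun Y h m =>
    ⟨Finset.insert_subset_insert _ (fun c hc => Finset.mem_erase.2
        ⟨fun q => zC (q ▸ hc), h.fb.1 hc⟩),
      Finset.insert_subset_insert _ (Finset.erase_subset_erase _ h.fb.2.1),
      w_bs h.fb.2.2 (h.fb.nx hx) m (z_eps cx hz h m).2⟩
  have dx : ∀ Y, T.Cp e x j C U τ Y → z ∈ Y → ∀ g,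
      T.w x (insert e (Y.erase z)) x g = T.w x Y x g := by
    intro Y h m g
    rw [w_x h.fb.2.2 (h.fb.nx hx) m (z_eps cx hz h m).2, h.lev]; ring
  have m1 := i1'.mem
  have rel : ∀ V, T.bs (insert x V) → C ⊆ V → ∀ k ∈ insert x V, k ∉ C →
      T.w x V k j = τ * T.w x V k x + T.w x V1 z j * T.w x V k z := by
    intro V hB hC k hk nk
    have e1 := T.trans _ _ t'.c1.fb.2.2 hB k hk j
    rw [Finset.sum_insert (t'.c1.fb.nx hx), Finset.sum_eq_single_of_mem z m1] at e1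
    · have := t'.c1.lab
      unfold w at this ⊢
      rw [e1, this]; ring
    · intro i hi n
      by_cases q : i ∈ C
      · rw [T.id0 _ hB k hk i (Finset.mem_insert_of_mem (hC q)) (fun r => nk (r ▸ q)), zero_mul]
      · have := z_only cx hz t'.c1.fb m1 hi q n
        unfold w at this
        rw [this, mul_zero]
  have cp : ∀ Y, T.Cp e x j C U τ Y → z ∈ Y →
      T.Cp z x j (insert e C) (insert e (U.erase z)) τ (insert e (Y.erase z)) := by
    intro Y h m
    have l0 : T.w x (insert e (Y.erase z)) x z = 0 := by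
      rw [dx Y h m, w_x0 h.fb.2.2 (h.fb.nx hx) m]
    refine ⟨fb Y h m, l0, fun V c => ?_, by rw [dx Y h m, h.lab]⟩
    induction c with
    | refl =>
      simp only [Finset.mem_insert, Finset.mem_erase, not_or]
      exact ⟨fun q => cx.he (q ▸ cx.hj), fun q => h.out.nmem q.2⟩
    | @tail V W c s ih =>
      have lV : T.w x V x z = 0 := (Conn.lev c hx').trans l0
      obtain ⟨hF, i, hi, hC, y, hy, hy', hw, q, rfl⟩ := s
      intro r
      rcases Finset.mem_insert.1 r with r | r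
      · subst r
        have nxV := hF.nx hx'
        have CV : C ⊆ V := (Finset.subset_insert _ _).trans hF.1
        have r1 := rel V hF.2.2 CV i (Finset.mem_insert_of_mem hi)
          (fun a => hC (Finset.mem_insert_of_mem a))
        have r2 := rel V hF.2.2 CV x (Finset.mem_insert_self _ _) (fun a => nxV (CV a))
        rw [w_0x hF.2.2 nxV hi] at r1
        rw [w_xx hF.2.2, lV] at r2
        rcases q with q | q
        · exact hw (by rw [r1, q]; ring)
        · exact τ0 (by rw [q] at r2; linear_combination -r2)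
      · exact ih (Finset.mem_of_mem_erase r)
  have clo : ∀ X, T.Cp e x j C U τ X → T.In e x C U X z → ∀ V,
      T.Conn z x (insert e C) (insert e (U.erase z)) (insert e (X.erase z)) V →
      ∃ Y, T.Conn e x C U X Y ∧ V = insert e (Y.erase z) := by
    intro X h iz V c
    induction c with
    | refl => exact ⟨X, Conn.refl _, rfl⟩
    | @tail V W _ s ih =>
      obtain ⟨Y, cY, rfl⟩ := ih
      have hY := h.move hx cx.hj cY
      have mz := iz _ cY
      have εz := (z_eps cx hz hY mz).2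
      have hB := hY.fb.2.2
      have nx := hY.fb.nx hx
      obtain ⟨hF, i, hi, hC, y, hy, hy', hw, q, rfl⟩ := s
      simp only [Finset.mem_insert, Finset.mem_erase, not_or, not_and] at hi hC hy hy'
      obtain ⟨iz', hi⟩ := hi.resolve_left hC.1
      obtain ⟨yz, hy⟩ := hy.resolve_left hy'.1
      have yY : y ∉ Y := hy'.2 yz
      rw [w_old hB nx mz εz (Finset.mem_insert_of_mem hi) iz'] at hw
      rw [w_old hB nx mz εz (Finset.mem_insert_of_mem hi) iz', dx Y hY mz, w_id0 hB hi mz iz',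
        w_id1 hB mz] at q
      have q' : T.w x Y i e = 0 ∨ T.w x Y x y = 0 := by
        refine q.imp (fun r => ?_) id
        exact (un_ri _ (w_un hB mz εz)).mul_eq_zero' (by linear_combination -r)
      by_cases w0 : T.w x Y i y = 0
      · exfalso
        have a1 : T.w x Y i e ≠ 0 := fun r => hw (by rw [w0, r]; ring)
        have a2 : T.w x Y z y ≠ 0 := fun r => hw (by rw [w0, r]; ring)
        exact nmem_piv mz yY (iz _ (cY.trans (step_mk hY.fb mz zC hy yY a2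
          (Or.inr (q'.resolve_left a1)))))
      · refine ⟨_, cY.trans (step_mk hY.fb hi hC.2 hy yY w0 q'), ?_⟩
        ext a
        simp only [Finset.mem_insert, Finset.mem_erase]
        constructor
        · rintro (rfl | ⟨h1, rfl | ⟨h2, h3⟩⟩)
          · exact Or.inr ⟨yz, Or.inl rfl⟩
          · exact Or.inl rfl
          · exact Or.inr ⟨h2, Or.inr ⟨h1, h3⟩⟩
        · rintro (rfl | ⟨h1, rfl | ⟨h2, h3⟩⟩)
          · exact Or.inr ⟨fun r => hC.1 r.symm, Or.inl rfl⟩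
          · exact Or.inl rfl
          · exact Or.inr ⟨h2, Or.inr ⟨h1, h3⟩⟩
  have sep : ∀ X X', T.Cp e x j C U τ X → T.In e x C U X z → T.Cp e x j C U τ X' → z ∈ X' →
      ¬ T.Conn e x C U X X' → ¬ T.Conn z x (insert e C) (insert e (U.erase z))
        (insert e (X.erase z)) (insert e (X'.erase z)) := by
    intro X X' h iz h' m' n c
    obtain ⟨Y, cY, r⟩ := clo X h iz _ c
    have := hat_inj (fun q => cx.he (h'.fb.2.1 q)) (fun q => cx.he ((cY.fb hx h.fb).2.1 q)) m'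
      (iz _ cY) r
    exact n (this ▸ cY)
  refine ⟨_, _, _, ⟨?_, hx', fun q => hx (q ▸ zU), hj', ?_⟩, cp _ t'.c1 m1, cp _ t'.c2 i2'.mem,
    cp _ t'.c3 m3, sep _ _ t'.c1 i1' t'.c2 i2'.mem t'.n12, sep _ _ t'.c1 i1' t'.c3 m3 t'.n13,
    sep _ _ t'.c2 i2' t'.c3 m3 t'.n23⟩
  · simp only [Finset.mem_insert, Finset.mem_erase, not_or]
    exact ⟨fun q => cx.he (q ▸ zU), fun q => q.1 rfl⟩
  · obtain ⟨k, hk⟩ := st.nonempty
    obtain ⟨k1, k2⟩ := Finset.mem_sdiff.1 hk
    have kz : k ≠ z := fun q => k2 (q ▸ i2'.mem)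
    have εk := st.s1.1 k k1 k2
    obtain ⟨wz, εz⟩ := z_eps cx hz t'.c1 m1
    have hB := t'.c1.fb.2.2
    have nx := t'.c1.fb.nx hx
    have hF := fb V1 t'.c1 m1
    have mk : k ∈ insert e (V1.erase z) :=
      Finset.mem_insert_of_mem (Finset.mem_erase.2 ⟨kz, k1⟩)
    have kC : k ∉ insert e C := by
      simp only [Finset.mem_insert, not_or]
      exact ⟨fun q => cx.he (q ▸ t'.c1.fb.2.1 k1), fun q => k2 (t'.c2.fb.1 q)⟩
    refine ⟨_, hF.piv hx' mk kC hj' ?_, Finset.mem_insert_self _ _⟩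
    rw [w_old hB nx m1 εz (Finset.mem_insert_of_mem k1) kz,
      z_only cx hz t'.c1.fb m1 k1 (fun q => k2 (t'.c2.fb.1 q)) kz, zero_sub]
    exact (((w_un hB k1 εk).mul (un_ri _ (w_un hB m1 εz))).mul (w_un hB m1 wz)).neg.ne_zero

theorem ex_of_not_in {f : α} (h : ¬ T.In e x C U X f) : ∃ Y, T.Conn e x C U X Y ∧ f ∉ Y := by
  unfold In at h
  push Not at h
  exact h

theorem ex_of_not_out {f : α} (h : ¬ T.Out e x C U X f) : ∃ Y, T.Conn e x C U X Y ∧ f ∈ Y := by
  unfold Out at h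
  push Not at h
  exact h

theorem Tri.sub {C' U' : Finset α} (t : T.Tri e x j C U τ X1 X2 X3) (hC : C ⊆ C') (hU : U' ⊆ U)
    (hj : j ∈ U') (nd : ∃ X0, T.FB x C' U' X0 ∧ j ∈ X0) (f1 : T.FB x C' U' X1)
    (f2 : T.FB x C' U' X2) (f3 : T.FB x C' U' X3) : T.Tri e x j C' U' τ X1 X2 X3 :=
  ⟨⟨fun q => t.cx.he (hU q), fun q => t.cx.hx (hU q), t.cx.hex, hj, nd⟩,
    ⟨f1, t.c1.lev, fun Y c => t.c1.out Y (c.mono hC hU), t.c1.lab⟩,
    ⟨f2, t.c2.lev, fun Y c => t.c2.out Y (c.mono hC hU), t.c2.lab⟩,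
    ⟨f3, t.c3.lev, fun Y c => t.c3.out Y (c.mono hC hU), t.c3.lab⟩,
    fun c => t.n12 (c.mono hC hU), fun c => t.n13 (c.mono hC hU), fun c => t.n23 (c.mono hC hU)⟩

theorem no_tri : ∀ (n : ℕ) (e : α) (C U X1 X2 X3 : Finset α), (U \ C).card = n →
    T.Tri e x j C U τ X1 X2 X3 → False := by
  intro n
  induction n using Nat.strong_induction_on with
  | _ n ih =>
    intro e C U X1 X2 X3 hn t
    have cx := t.cx
    have hx := cx.hx
    have hin : ∀ f ∈ U, f ∉ C → f ≠ j →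
        T.In e x C U X1 f ∨ T.In e x C U X2 f ∨ T.In e x C U X3 f := by
      intro f hf nC nj
      by_contra q
      push Not at q
      obtain ⟨Y1, c1, n1⟩ := ex_of_not_in q.1
      obtain ⟨Y2, c2, n2⟩ := ex_of_not_in q.2.1
      obtain ⟨Y3, c3, n3⟩ := ex_of_not_in q.2.2
      have t' := t.move c1 c2 c3
      have fb : ∀ Y, T.FB x C U Y → f ∉ Y → T.FB x C (U.erase f) Y := fun Y h m =>
        ⟨h.1, fun a ha => Finset.mem_erase.2 ⟨fun r => m (r ▸ ha), h.2.1 ha⟩, h.2.2⟩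
      have hj' : j ∈ U.erase f := Finset.mem_erase.2 ⟨nj.symm, cx.hj⟩
      refine ih _ ?_ e C (U.erase f) Y1 Y2 Y3 rfl (t'.sub (subset_refl _) (Finset.erase_subset _ _)
        hj' ?_ (fb _ t'.c1.fb n1) (fb _ t'.c2.fb n2) (fb _ t'.c3.fb n3))
      · rw [← hn]
        apply Finset.card_lt_card
        rw [Finset.ssubset_iff_of_subset
          (Finset.sdiff_subset_sdiff (Finset.erase_subset _ _) (subset_refl _))]
        exact ⟨f, Finset.mem_sdiff.2 ⟨hf, nC⟩,
          fun r => (Finset.mem_erase.1 (Finset.mem_sdiff.1 r).1).1 rfl⟩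
      · obtain ⟨i, hi, ni, wi⟩ := t'.c1.nd cx
        exact ⟨_, (fb _ t'.c1.fb n1).piv (fun r => hx (Finset.mem_of_mem_erase r)) hi ni hj' wi,
          Finset.mem_insert_self _ _⟩
    have hout : ∀ f ∈ U, f ∉ C → ¬ (T.Out e x C U X1 f ∨ T.Out e x C U X2 f ∨
        T.Out e x C U X3 f) → ∀ X0, T.FB x C U X0 → f ∈ X0 → j ∉ X0 := by
      intro f hf nC q X0 h0 m0 mj
      push Not at q
      obtain ⟨Y1, c1, n1⟩ := ex_of_not_out q.1
      obtain ⟨Y2, c2, n2⟩ := ex_of_not_out q.2.1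
      obtain ⟨Y3, c3, n3⟩ := ex_of_not_out q.2.2
      have t' := t.move c1 c2 c3
      have fb : ∀ Y, T.FB x C U Y → f ∈ Y → T.FB x (insert f C) U Y := fun Y h m =>
        ⟨Finset.insert_subset m h.1, h.2.1, h.2.2⟩
      refine ih _ ?_ e (insert f C) U Y1 Y2 Y3 rfl (t'.sub (Finset.subset_insert _ _)
        (subset_refl _) cx.hj ⟨X0, fb _ h0 m0, mj⟩ (fb _ t'.c1.fb n1) (fb _ t'.c2.fb n2)
        (fb _ t'.c3.fb n3))
      rw [← hn]
      apply Finset.card_lt_card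
      rw [Finset.ssubset_iff_of_subset
        (Finset.sdiff_subset_sdiff (subset_refl _) (Finset.subset_insert _ _))]
      exact ⟨f, Finset.mem_sdiff.2 ⟨hf, nC⟩,
        fun r => (Finset.mem_sdiff.1 r).2 (Finset.mem_insert_self _ _)⟩
    by_cases hB : ∀ f ∈ U, f ∉ C → f ≠ j →
        T.Out e x C U X1 f ∨ T.Out e x C U X2 f ∨ T.Out e x C U X3 f
    · exact caseB t (fun f a b c _ => ⟨hin f a b c, hB f a b c⟩)
    push Not at hB
    obtain ⟨z, zU, zC, zj, o1, o2, o3⟩ := hB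
    have hz := hout z zU zC (by tauto)
    have fin : ∀ X1 X2 X3, T.Tri e x j C U τ X1 X2 X3 → T.In e x C U X1 z → T.In e x C U X2 z →
        ¬ T.Out e x C U X3 z → False := by
      intro X1 X2 X3 t i1 i2 o3
      obtain ⟨Y3, c3, m3⟩ := ex_of_not_out o3
      obtain ⟨Y1, Y2, Y3, t'⟩ := a1 (t.move (Conn.refl _) (Conn.refl _) c3) hz zU zC zj i1 i2 m3
      refine ih _ ?_ z _ _ Y1 Y2 Y3 rfl t'
      rw [← hn]
      apply Finset.card_lt_card
      rw [Finset.ssubset_iff_of_subset]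
      · refine ⟨z, Finset.mem_sdiff.2 ⟨zU, zC⟩, fun r => t'.cx.he (Finset.mem_sdiff.1 r).1⟩
      · intro a ha
        simp only [Finset.mem_sdiff, Finset.mem_insert, Finset.mem_erase, not_or] at ha ⊢
        exact ⟨(ha.1.resolve_left ha.2.1).2, ha.2.2⟩
    have main : ∀ X1 X2 X3, T.Tri e x j C U τ X1 X2 X3 → T.In e x C U X1 z →
        ¬ T.Out e x C U X2 z → ¬ T.Out e x C U X3 z →
        (∀ f ∈ U, f ∉ C → f ≠ j →
          T.In e x C U X1 f ∨ T.In e x C U X2 f ∨ T.In e x C U X3 f) →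
        (∀ f ∈ U, f ∉ C → ¬ (T.Out e x C U X1 f ∨ T.Out e x C U X2 f ∨
          T.Out e x C U X3 f) → ∀ X0, T.FB x C U X0 → f ∈ X0 → j ∉ X0) → False := by
      intro X1 X2 X3 t i1 o2 o3 hin hout
      by_cases i2 : T.In e x C U X2 z
      · exact fin _ _ _ t i1 i2 o3
      by_cases i3 : T.In e x C U X3 z
      · exact fin _ _ _ t.sw23 i1 i3 o2
      refine a2 t (fun f a b c d => ⟨hin f a b c, ?_⟩) hz i1 ⟨i2, o2⟩ ⟨i3, o3⟩
      by_contra q
      have hf := hout f a b q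
      obtain ⟨Y, c1, m⟩ := ex_of_not_out (fun r => q (Or.inl r))
      have p := t.c1.move hx cx.hj c1
      exact (z_eps cx hf p m).1 (z_only cx hz p.fb (i1 _ c1) m b d)
    rcases hin z zU zC zj with i | i | i
    · exact main _ _ _ t i o2 o3 hin hout
    · exact main _ _ _ t.sw12 i o1 o3 (fun f a b c => by have := hin f a b c; tauto)
        (fun f a b c => hout f a b (by tauto))
    · exact main _ _ _ t.sw23.sw12 i o1 o2 (fun f a b c => by have := hin f a b c; tauto)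
        (fun f a b c => hout f a b (by tauto))

end Tab

end Pool.Agent.NearReg
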