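import Pool.Agent.Lib.MP_da0a56_lc.Tri

/-! Triples of components: the case without an element parallel to the label. -/

set_option autoImplicit false

namespace Pool.Agent.NearReg
open R

theorem two_sets {α : Type*} [DecidableEq α] {S T : Finset α} (hS : S.card = 2)
    (hT : T.card = 2) : (∃ s1 s2, s1 ≠ s2 ∧ S = {s1, s2} ∧ T = {s1, s2}) ∨
    (∃ a s1 s2, s1 ≠ s2 ∧ a ≠ s2 ∧ a ∉ S ∧ s1 ∉ T ∧ S = {s1, s2} ∧ T = {a, s2}) ∨
    (∃ a1 a2 s1 s2, s1 ≠ s2 ∧ a1 ≠ a2 ∧ a1 ∉ S ∧ a2 ∉ S ∧ s1 ∉ T ∧ s2 ∉ T ∧ S = {s1, s2} ∧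
      T = {a1, a2}) := by
  obtain ⟨s1, s2, n, rfl⟩ := Finset.card_eq_two.1 hS
  obtain ⟨t1, t2, m, rfl⟩ := Finset.card_eq_two.1 hT
  by_cases a : t1 = s1
  · subst a
    by_cases b : t2 = s2
    · subst b
      exact Or.inl ⟨t1, t2, n, rfl, rfl⟩
    · exact Or.inr (Or.inl ⟨t2, s2, t1, n.symm, m.symm, by simp [m.symm, b],
        by simp [n.symm, Ne.symm b], Finset.pair_comm _ _, Finset.pair_comm _ _⟩)
  by_cases b : t1 = s2
  · subst b
    by_cases c : t2 = s1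
    · subst c
      exact Or.inl ⟨t2, t1, n, rfl, Finset.pair_comm _ _⟩
    · exact Or.inr (Or.inl ⟨t2, s1, t1, n, m.symm, by simp [m.symm, c],
        by simp [n, Ne.symm c], rfl, Finset.pair_comm _ _⟩)
  by_cases c : t2 = s1
  · subst c
    exact Or.inr (Or.inl ⟨t1, s2, t2, n.symm, m, by simp [m, b],
      by simp [n.symm, Ne.symm b], Finset.pair_comm _ _, rfl⟩)
  by_cases d : t2 = s2
  · subst d
    exact Or.inr (Or.inl ⟨t1, s1, t2, n, m, by simp [m, a], by simp [n, Ne.symm a], rfl, rfl⟩)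
  · exact Or.inr (Or.inr ⟨t1, t2, s1, s2, n, m, by simp [a, b], by simp [c, d],
      by simp [Ne.symm a, Ne.symm c], by simp [Ne.symm b, Ne.symm d], rfl, rfl⟩)

namespace Tab
variable {α : Type*} [DecidableEq α] {T : Tab α}
variable {e x j z : α} {C U X X' X1 X2 X3 Y : Finset α} {τ : R} {f : α}

variable (T) in
def HasStep (e x : α) (C U X : Finset α) : Prop :=
  ∃ Y Y', T.Conn e x C U X Y ∧ T.Step e x C U Y Y'

theorem eq_of_nostep (h : ¬ T.HasStep e x C U X) (c : T.Conn e x C U X Y) : Y = X := by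
  induction c with
  | refl => rfl
  | tail c s _ => exact absurd ⟨_, _, c, s⟩ h

theorem b1 (t : T.Tri e x j C U τ X1 X2 X3) (ty : T.Typ e x j j C U X1 X2 X3)
    (hs : T.HasStep e x C U X1) {V2 V3 : Finset α} (c2 : T.Conn e x C U X2 V2)
    (c3 : T.Conn e x C U X3 V3) (k2 : (V2 \ V3).card = 2) (k3 : (V3 \ V2).card = 2) :
    (∀ g ∈ V2 \ V3, T.In e x C U X2 g ∧ T.Flex e x C U X1 g) ∧
    (∀ g ∈ V3 \ V2, T.Out e x C U X2 g ∧ T.Flex e x C U X1 g) ∧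
    ((T.Circ x C ((V2 \ V3) ∪ (V3 \ V2)) ∧ ∀ V, T.Conn e x C U X1 V →
        ∀ g ∈ (V2 \ V3) ∪ (V3 \ V2), ∀ g' ∈ (V2 \ V3) ∪ (V3 \ V2), g ≠ g' → g ∉ V → g' ∈ V) ∨
      (T.Coc e x U ((V2 \ V3) ∪ (V3 \ V2)) ∧ ∀ V, T.Conn e x C U X1 V →
        ∀ g ∈ (V2 \ V3) ∪ (V3 \ V2), ∀ g' ∈ (V2 \ V3) ∪ (V3 \ V2), g ≠ g' → g ∈ V → g' ∉ V)) := by
  classical
  have hx := t.cx.hx
  set F := (V2 \ V3) ∪ (V3 \ V2) with hFdef
  have sub : ∀ g, T.Flex e x C U X1 g → g ∈ F := by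
    intro g hg
    rcases ty.flex t hg (fun q => hg.2 (q ▸ t.c1.out)) with q | q
    · exact Finset.mem_union_left _ (Finset.mem_sdiff.2 ⟨q.1 _ c2, q.2 _ c3⟩)
    · exact Finset.mem_union_right _ (Finset.mem_sdiff.2 ⟨q.2 _ c3, q.1 _ c2⟩)
  have cF : F.card = 4 := by
    rw [hFdef, Finset.card_union_of_disjoint disjoint_sdiff_sdiff, k2, k3]
  have fin : ∀ Z : Finset α, (∀ g ∈ Z, T.Flex e x C U X1 g) →
      (∃ g ∈ Z, ∃ g' ∈ Z, g ≠ g' ∧ T.In e x C U X2 g ∧ T.Out e x C U X3 g ∧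
        T.In e x C U X2 g' ∧ T.Out e x C U X3 g') →
      (∃ g ∈ Z, ∃ g' ∈ Z, g ≠ g' ∧ T.In e x C U X3 g ∧ T.Out e x C U X2 g ∧
        T.In e x C U X3 g' ∧ T.Out e x C U X2 g') →
      Z = F ∧ (∀ g ∈ V2 \ V3, T.In e x C U X2 g ∧ T.Flex e x C U X1 g) ∧
        (∀ g ∈ V3 \ V2, T.Out e x C U X2 g ∧ T.Flex e x C U X1 g) := by
    rintro Z fl ⟨g, hg, g', hg', n, a1, a2, a3, a4⟩ ⟨h, hh, h', hh', m, b1, b2, b3, b4⟩
    have p1 : ∀ k ∈ V2 \ V3, k = g ∨ k = g' := fun k hk =>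
      mem_pair k2 (Finset.mem_sdiff.2 ⟨a1 _ c2, a2 _ c3⟩) (Finset.mem_sdiff.2 ⟨a3 _ c2, a4 _ c3⟩)
        n hk
    have p2 : ∀ k ∈ V3 \ V2, k = h ∨ k = h' := fun k hk =>
      mem_pair k3 (Finset.mem_sdiff.2 ⟨b1 _ c3, b2 _ c2⟩) (Finset.mem_sdiff.2 ⟨b3 _ c3, b4 _ c2⟩)
        m hk
    refine ⟨Finset.Subset.antisymm (fun k hk => sub k (fl k hk)) (fun k hk => ?_),
      fun k hk => ?_, fun k hk => ?_⟩
    · rcases Finset.mem_union.1 hk with q | q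
      · rcases p1 k q with rfl | rfl <;> assumption
      · rcases p2 k q with rfl | rfl <;> assumption
    · rcases p1 k hk with rfl | rfl
      · exact ⟨a1, fl _ hg⟩
      · exact ⟨a3, fl _ hg'⟩
    · rcases p2 k hk with rfl | rfl
      · exact ⟨b2, fl _ hh⟩
      · exact ⟨b4, fl _ hh'⟩
  obtain ⟨Y, Y', c, hF, i, hi, hC, y, hyU, hy, hw, q, -⟩ := hs
  rcases q with q | q
  · have fl := coc_flex c hF hi hC hyU hy hw q
    have hZ := coc_of hx hF hi q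
    obtain ⟨e1, r1, r2⟩ := fin _ fl (coc_two t ty hZ fl (Finset.insert_nonempty _ _))
      (coc_two t.sw23 ty.sw23 hZ fl (Finset.insert_nonempty _ _))
    refine ⟨r1, r2, Or.inr ⟨e1 ▸ hZ, fun V cV g hg g' hg' n m m' => ?_⟩⟩
    have a1 : (Y.filter (T.Flex e x C U X1)).card ≤ 1 := by
      rw [← Finset.card_singleton i]
      refine Finset.card_le_card (fun k hk => ?_)
      obtain ⟨k1, k2⟩ := Finset.mem_filter.1 hk
      have := sub k k2
      rw [← e1] at this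
      rcases Finset.mem_insert.1 this with r | r
      · simp [r]
      · exact absurd k1 (Finset.mem_sdiff.1 (Finset.mem_filter.1 r).1).2
    rw [flex_card hx t.c1.fb c cV] at a1
    rw [← e1] at hg hg'
    exact n (Finset.card_le_one.1 a1 g (Finset.mem_filter.2 ⟨m, fl g hg⟩) g'
      (Finset.mem_filter.2 ⟨m', fl g' hg'⟩))
  · have fl := circ_flex c hF hi hC hyU hy hw q
    have hZ := circ_of hx hF hy q
    have nj : j ∉ insert y ((Y \ C).filter (fun i => T.w x Y i y ≠ 0)) :=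
      fun r => (fl j r).2 t.c1.out
    obtain ⟨g, hg, g', hg', n, -, -, a1, a2, a3, a4⟩ := circ_two t ty hZ fl
      (Finset.insert_nonempty _ _) (Conn.refl _) (fun r => absurd r nj)
    obtain ⟨h, hh, h', hh', m, -, -, b1, b2, b3, b4⟩ := circ_two t.sw23 ty.sw23 hZ fl
      (Finset.insert_nonempty _ _) (Conn.refl _) (fun r => absurd r nj)
    obtain ⟨e1, r1, r2⟩ := fin _ fl ⟨h, hh, h', hh', m, b2, b1, b4, b3⟩
      ⟨g, hg, g', hg', n, a2, a1, a4, a3⟩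
    refine ⟨r1, r2, Or.inl ⟨e1 ▸ hZ, fun V cV k hk k' hk' nk mk => ?_⟩⟩
    by_contra mk'
    have a1 : (F.erase y).card ≤ (Y.filter (T.Flex e x C U X1)).card := by
      refine Finset.card_le_card (fun l hl => ?_)
      obtain ⟨l1, l2⟩ := Finset.mem_erase.1 hl
      rw [← e1] at l2
      refine Finset.mem_filter.2 ⟨?_, fl l l2⟩
      exact (Finset.mem_sdiff.1 (Finset.mem_filter.1
        ((Finset.mem_insert.1 l2).resolve_left l1)).1).1
    have a2 : (V.filter (T.Flex e x C U X1)).card ≤ ((F.erase k).erase k').card := by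
      refine Finset.card_le_card (fun l hl => ?_)
      obtain ⟨l1, l2⟩ := Finset.mem_filter.1 hl
      exact Finset.mem_erase.2 ⟨fun r => mk' (r ▸ l1),
        Finset.mem_erase.2 ⟨fun r => mk (r ▸ l1), sub l l2⟩⟩
    rw [flex_card hx t.c1.fb c cV] at a1
    have := Finset.pred_card_le_card_erase (s := F) (a := y)
    rw [Finset.card_erase_of_mem (Finset.mem_erase.2 ⟨nk.symm, hk'⟩),
      Finset.card_erase_of_mem hk] at a2
    omega

theorem b2 (t : T.Tri e x j C U τ X1 X2 X3) (ty : T.Typ e x j j C U X1 X2 X3)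
    (hs : T.HasStep e x C U X1) (hs' : T.HasStep e x C U X3) : False := by
  obtain ⟨V1, V2, c1, c2, -, k1, k2, -⟩ := pair t.cx t.c1 t.c2 t.n12
  obtain ⟨p1, p2, -⟩ := b1 t.sw23.sw12 ty.sw23.sw12 hs' c1 c2 k1 k2
  obtain ⟨W2, W3, d2, d3, -, l2, l3, -⟩ := pair t.cx t.c2 t.c3 t.n23
  obtain ⟨q1, q2, q3⟩ := b1 t ty hs d2 d3 l2 l3
  rcases q3 with q3 | q3
  · obtain ⟨y1, y2, n, e1⟩ := Finset.card_eq_two.1 l3
    have m1 : y1 ∈ W3 \ W2 := by rw [e1]; simp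
    have m2 : y2 ∈ W3 \ W2 := by rw [e1]; simp
    have key : ∀ y ∈ W3 \ W2, y ∉ V1 := fun y hy r =>
      (q2 y hy).2.1 (p1 y (Finset.mem_sdiff.2 ⟨r, (q2 y hy).1 _ c2⟩)).1
    exact key y2 m2 (q3.2 V1 c1 y1 (Finset.mem_union_right _ m1) y2 (Finset.mem_union_right _ m2)
      n (key y1 m1))
  · obtain ⟨y1, y2, n, e1⟩ := Finset.card_eq_two.1 l2
    have m1 : y1 ∈ W2 \ W3 := by rw [e1]; simp
    have m2 : y2 ∈ W2 \ W3 := by rw [e1]; simp
    have key : ∀ y ∈ W2 \ W3, y ∈ V1 := fun y hy => by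
      by_contra r
      exact (q1 y hy).2.2 (p2 y (Finset.mem_sdiff.2 ⟨(q1 y hy).1 _ c2, r⟩)).1
    exact q3.2 V1 c1 y1 (Finset.mem_union_left _ m1) y2 (Finset.mem_union_left _ m2)
      n (key y1 m1) (key y2 m2)

theorem St.blk (h : T.St e x X X') {s1 s2 y1 y2 : α} (e1 : X \ X' = {s1, s2})
    (e2 : X' \ X = {y1, y2}) (n : s1 ≠ s2) (n' : y1 ≠ y2) :
    Blk (T.Pm e x X) s1 s2 y1 y2 ∧
    (∀ a ∈ X, a ∈ X' → T.w x X a e ≠ 0 → T.w x X' a e ≠ 0 →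
      T.Pm e x X a y1 - T.Pm e x X a y2 ≠ T.Pm e x X s1 y1 - T.Pm e x X s1 y2) ∧
    (∀ b, T.w x X x b ≠ 0 → T.w x X' x b ≠ 0 →
      T.Pm e x X s1 b - T.Pm e x X s2 b ≠ T.Pm e x X s1 y1 - T.Pm e x X s2 y1) := by
  have sp := h.sp
  rw [e1, e2] at sp
  obtain ⟨b, r1, r2⟩ := sp.blk n n'
  refine ⟨b, fun a ha ha' u u' => r1 a ?_, fun b u u' => r2 b ?_⟩
  · rw [← e2, h.ref_row ha u, if_pos ha']
    intro q
    exact ((un_ri _ (w_un h.hB ha u)).mul (w_un h.hB' ha' u')).ne_zero (by linear_combination -q)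
  · rw [← e1, h.ref_col u]
    intro q
    exact ((un_ri _ (w_unx h.hB u)).mul (w_unx h.hB' u')).ne_zero (by linear_combination -q)

theorem Circ.cols {s1 s2 y1 y2 : α} (h : T.Circ x C ({s1, s2} ∪ {y1, y2}))
    (hB : T.bs (insert x X)) (hx : x ∉ X) (hC : C ⊆ X) (m1 : s1 ∈ X) (m2 : s2 ∈ X)
    (k1 : y1 ∉ X) (k2 : y2 ∉ X) (n : s1 ≠ s2) (n' : y1 ≠ y2) (d1 : T.w x X x y1 ≠ 0)
    (d2 : T.w x X x y2 ≠ 0) {a : α} (ha : a ∈ X) (na : a ∉ C) (a1 : a ≠ s1) (a2 : a ≠ s2)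
    (hε : T.w x X a e ≠ 0) : T.Pm e x X a y2 = T.Pm e x X a y1 := by
  obtain ⟨ζ, u, s⟩ := h
  have dj : Disjoint ({s1, s2} : Finset α) {y1, y2} := by
    rw [Finset.disjoint_left]
    intro k hk hk'
    simp only [Finset.mem_insert, Finset.mem_singleton] at hk hk'
    rcases hk with rfl | rfl <;> rcases hk' with rfl | rfl <;> contradiction
  have q1 := s X hB hC x (Finset.mem_insert_self _ _) (fun q => hx (hC q))
  have q2 := s X hB hC a (Finset.mem_insert_of_mem ha) na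
  rw [Finset.sum_union dj, Finset.sum_pair n, Finset.sum_pair n'] at q1 q2
  rw [w_x0 hB hx m1, w_x0 hB hx m2] at q1
  rw [w_id0 hB ha m1 a1, w_id0 hB ha m2 a2, w_Pm (d := y1) hB ha hε d1,
    w_Pm (d := y2) hB ha hε d2] at q2
  have u1 := ((u y1 (by simp)).mul (w_unx hB d1)).mul (w_un hB ha hε)
  refine u1.cancel ?_
  linear_combination (T.w x X a e * T.Pm e x X a y2) * q1 - q2

theorem Coc.rows {s1 s2 : α} {Z : Finset α} (h : T.Coc e x U Z) (hB : T.bs (insert x X))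
    (hx : x ∉ X) (hU : X ⊆ U) (m1 : s1 ∈ X) (m2 : s2 ∈ X) (n : s1 ≠ s2) (z1 : s1 ∈ Z)
    (hZ : ∀ i ∈ X, i ∈ Z → i = s1 ∨ i = s2) (d1 : T.w x X s1 e ≠ 0) (d2 : T.w x X s2 e ≠ 0)
    {b : α} (hb : b ∈ U) (nb : b ∉ Z) (hδ : T.w x X x b ≠ 0) :
    T.Pm e x X s1 b = T.Pm e x X s2 b := by
  obtain ⟨φ, o, z0, sp, s⟩ := h
  have key : ∀ f, φ f = φ s1 * T.w x X s1 f + φ s2 * T.w x X s2 f := by
    intro f
    rw [s X hB hx f, ← Finset.sum_pair (f := fun i => φ i * T.w x X i f) n]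
    symm
    refine Finset.sum_subset (fun k hk => ?_) (fun k hk nk => ?_)
    · simp only [Finset.mem_insert, Finset.mem_singleton] at hk
      rcases hk with rfl | rfl <;> assumption
    · have : φ k = 0 := by
        by_contra q
        exact nk (by simpa using hZ k hk ((sp k (hU hk)).1 q))
      rw [this, zero_mul]
  have q1 := key e
  have q2 := key b
  have zb : φ b = 0 := by
    by_contra q
    exact nb ((sp b hb).1 q)
  rw [z0] at q1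
  rw [zb, w_Pm (d := b) hB m1 d1 hδ, w_Pm (d := b) hB m2 d2 hδ] at q2
  have u1 := (((o s1).un ((sp s1 (hU m1)).2 z1)).mul (w_un hB m1 d1)).mul (w_unx hB hδ)
  refine u1.cancel ?_
  linear_combination (T.w x X x b * T.Pm e x X s2 b) * q1 - q2

end Tab

end Pool.Agent.NearReg
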