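import Pool.Agent.Lib.MP_da0a56_lc.TriB

/-! Triples of components: two of them are single bases. -/

set_option autoImplicit false

namespace Pool.Agent.NearReg
open R

theorem mem_l {α : Type*} [DecidableEq α] {S : Finset α} {a b : α} (h : S = {a, b}) : a ∈ S := by
  rw [h]; simp

theorem mem_r {α : Type*} [DecidableEq α] {S : Finset α} {a b : α} (h : S = {a, b}) : b ∈ S := by
  rw [h]; simp

namespace Tab
variable {α : Type*} [DecidableEq α] {T : Tab α}
variable {e x j : α} {C U X1 X X' : Finset α} {τ : R}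

theorem b3 (t : T.Tri e x j C U τ X1 X X') (ty : T.Typ e x j j C U X1 X X')
    (h2 : ¬ T.HasStep e x C U X) (h3 : ¬ T.HasStep e x C U X') : False := by
  have hx := t.cx.hx
  obtain ⟨V2, V3, c2, c3, st, kS, kS', cjS⟩ := pair t.cx t.c2 t.c3 t.n23
  rw [eq_of_nostep h2 c2, eq_of_nostep h3 c3] at st kS kS' cjS
  obtain ⟨W2, V, c2', cV, stV, kT, kT', cjT⟩ := pair t.cx t.c2 t.c1 t.sw12.n12
  rw [eq_of_nostep h2 c2'] at stV kT kT' cjT
  obtain ⟨W3, V', c3', cV', stV', kR, kR', -⟩ := pair t.cx t.c3 t.c1 t.sw12.sw23.n23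
  rw [eq_of_nostep h3 c3'] at stV' kR kR'
  clear c2 c3 c2' c3' V2 V3 W2 W3
  have fV := cV.fb hx t.c1.fb
  have hB := st.hB
  have inA : ∀ a ∈ X, a ∈ X' → a ∉ C → T.Out e x C U X1 a := by
    intro a h h' n
    have nj : a ≠ j := fun q => t.c2.out.nmem (q ▸ h)
    rcases (ty a (t.c2.fb.2.1 h) n nj nj).2 with q | q | q
    · exact q
    · exact absurd h q.nmem
    · exact absurd h' q.nmem
  have inB : ∀ b ∈ U, b ∉ X → b ∉ X' → b ≠ j → T.In e x C U X1 b := by
    intro b hb h h' nj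
    rcases (ty b hb (fun q => h (t.c2.fb.1 q)) nj nj).1 with q | q | q
    · exact q
    · exact absurd q.mem h
    · exact absurd q.mem h'
  have fA : ∀ a ∈ X \ V, a ∉ X \ X' → a ∈ X ∧ a ∈ X' ∧ a ∉ C ∧ T.w x X a e ≠ 0 ∧
      T.w x X' a e ≠ 0 := by
    intro a ha na
    obtain ⟨a1, a2⟩ := Finset.mem_sdiff.1 ha
    have a3 : a ∈ X' := by
      by_contra q
      exact na (Finset.mem_sdiff.2 ⟨a1, q⟩)
    have a4 : a ∉ C := fun q => a2 (fV.1 q)
    exact ⟨a1, a3, a4, stV.s1.1 a a1 a2, stV'.s1.1 a a3 (inA a a1 a3 a4 _ cV')⟩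
  have fB : ∀ b ∈ V \ X, b ∉ X' \ X → b ∈ U ∧ b ∉ X' ∧ T.w x X x b ≠ 0 ∧ T.w x X' x b ≠ 0 := by
    intro b hb nb
    obtain ⟨b1, b2⟩ := Finset.mem_sdiff.1 hb
    have b3 : b ∉ X' := fun q => nb (Finset.mem_sdiff.2 ⟨q, b2⟩)
    have b4 : b ≠ j := fun q => t.c1.out _ cV (q ▸ b1)
    exact ⟨fV.2.1 b1, b3, stV.s1.2 b b1 b2, stV'.s1.2 b (inB b (fV.2.1 b1) b2 b3 b4 _ cV') b3⟩
  set P := T.Pm e x X with hP
  have zx : ∀ c, P c x = 0 := Pm_x hB st.hx
  have z0 : ∀ d, P e d = 0 := Pm_e st.he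
  have dj := t.c2.dj t.cx
  have hε : ∀ c ∈ (X \ X') ∪ (X \ V), c ∈ X ∧ T.w x X c e ≠ 0 := by
    intro c hc
    rcases Finset.mem_union.1 hc with q | q
    · exact ⟨(Finset.mem_sdiff.1 q).1,
        st.s1.1 c (Finset.mem_sdiff.1 q).1 (Finset.mem_sdiff.1 q).2⟩
    · exact ⟨(Finset.mem_sdiff.1 q).1,
        stV.s1.1 c (Finset.mem_sdiff.1 q).1 (Finset.mem_sdiff.1 q).2⟩
  have hδ : ∀ d ∈ (X' \ X) ∪ (V \ X), T.w x X x d ≠ 0 := by
    intro d hd
    rcases Finset.mem_union.1 hd with q | q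
    · exact st.s1.2 d (Finset.mem_sdiff.1 q).1 (Finset.mem_sdiff.1 q).2
    · exact stV.s1.2 d (Finset.mem_sdiff.1 q).1 (Finset.mem_sdiff.1 q).2
  set I := (X \ X') ∪ (X \ V) with hI
  set D := insert x (insert j ((X' \ X) ∪ (V \ X))) with hD
  have pvP : PV P (insert e I) D := by
    refine pv hB st.hx st.he t.cx.hex t.c2.lev (fun c hc => ?_) (fun d hd => ?_)
    · rcases Finset.mem_insert.1 hc with q | q
      · exact Or.inl q
      · exact Or.inr (hε c q)
    · rcases Finset.mem_insert.1 hd with q | q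
      · rw [q, w_xx hB]; exact one_ne_zero
      · rcases Finset.mem_insert.1 q with q | q
        · rw [q]; exact dj
        · exact hδ d q
  have mx : x ∈ D := Finset.mem_insert_self _ _
  have mj : j ∈ D := Finset.mem_insert_of_mem (Finset.mem_insert_self _ _)
  have iS : ∀ {c}, c ∈ X \ X' → c ∈ I := fun h => Finset.mem_union_left _ h
  have iT : ∀ {c}, c ∈ X \ V → c ∈ I := fun h => Finset.mem_union_right _ h
  have dS : ∀ {c}, c ∈ X' \ X → c ∈ D := fun h =>
    Finset.mem_insert_of_mem (Finset.mem_insert_of_mem (Finset.mem_union_left _ h))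
  have dT : ∀ {c}, c ∈ V \ X → c ∈ D := fun h =>
    Finset.mem_insert_of_mem (Finset.mem_insert_of_mem (Finset.mem_union_right _ h))
  have anch : ∀ s ∈ X \ X', ∀ a ∈ X \ V, P s j = P a j →
      ∃ κ, Un κ ∧ Anch (fun c d => κ * P c d) I D := by
    intro s hs a ha q
    have cst : ∀ c ∈ I, P c j = P s j := by
      intro c hc
      rcases Finset.mem_union.1 hc with r | r
      · exact cjS c r s hs
      · rw [q]; exact cjT c r a ha
    obtain ⟨i, hi, ni, wi⟩ := t.c2.nd t.cx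
    have mi : i ∈ I := by
      by_cases r : i ∈ X'
      · exact iT (Finset.mem_sdiff.2 ⟨hi, inA i hi r ni _ cV⟩)
      · exact iS (Finset.mem_sdiff.2 ⟨hi, r⟩)
    have ul : Un (P s j) := by
      have := w_un hB hi wi
      rw [w_Pm hB hi (hε i mi).2 dj] at this
      rw [← cst i mi]
      exact ((un_mul _ _).1 this).2
    exact ⟨_, un_ri _ ul, pvP.anch1 (Finset.mem_insert_self _ _) mx mj (Finset.subset_insert _ _)
      z0 zx ul cst⟩
  have stepF := fun hs => (b1 t ty hs (Conn.refl _) (Conn.refl _) kS kS').2.2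
  have nostep : ¬ T.HasStep e x C U X1 → V' = V := fun hs =>
    (eq_of_nostep hs cV').trans (eq_of_nostep hs cV).symm
  have inV : ∀ s ∈ X \ X', s ∉ X \ V → s ∈ V := fun s hs ns => by
    by_contra q
    exact ns (Finset.mem_sdiff.2 ⟨(Finset.mem_sdiff.1 hs).1, q⟩)
  have outV : ∀ y ∈ X' \ X, y ∉ V \ X → y ∉ V := fun y hy ny q =>
    ny (Finset.mem_sdiff.2 ⟨q, (Finset.mem_sdiff.1 hy).2⟩)
  rcases two_sets kS kT with ⟨s1, s2, ns, eS, eT⟩ | ⟨a, s1, s2, ns, na, aS, sT, eS, eT⟩ |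
    ⟨a1, a2, s1, s2, ns, na, aS1, aS2, sT1, sT2, eS, eT⟩ <;>
  rcases two_sets kS' kT' with ⟨y1, y2, ny, eS', eT'⟩ | ⟨b, y2, y1, ny, nb, bS, yT, eS', eT'⟩ |
    ⟨b1, b2, y1, y2, ny, nb, bS1, bS2, yT1, yT2, eS', eT'⟩
  · have e1 : X \ V = X \ X' := eT.trans eS.symm
    have e2 : V \ X = X' \ X := eT'.trans eS'.symm
    have : V = X' := by
      ext a
      have q1 := Finset.ext_iff.1 e1 a
      have q2 := Finset.ext_iff.1 e2 a
      simp only [Finset.mem_sdiff] at q1 q2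
      tauto
    exact t.n13 (this ▸ cV)
  · rw [Finset.pair_comm] at eS'
    obtain ⟨k1, -, k3⟩ := st.blk eS eS' ns ny.symm
    obtain ⟨l1, -, -⟩ := stV.blk eT eT' ns nb
    obtain ⟨-, -, f3, f4⟩ := fB b (mem_l eT') bS
    exact k3 b f3 f4 (by linear_combination l1.1)
  · obtain ⟨k1, -, k3⟩ := st.blk eS eS' ns ny
    obtain ⟨l1, -, -⟩ := stV.blk eT eT' ns nb
    obtain ⟨-, -, f3, f4⟩ := fB b1 (mem_l eT') bS1
    obtain ⟨κ, uκ, hA⟩ := anch s1 (mem_l eS) s1 (mem_l eT) rfl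
    have := hA.tr.c2 (dS (mem_l eS')) (dS (mem_r eS')) (dT (mem_l eT')) (dT (mem_r eT'))
      (iS (mem_l eS)) (iS (mem_r eS)) (k1.scale uκ).tr (l1.scale uκ).tr
    exact k3 b1 f3 f4 (uκ.cancel (by linear_combination this))
  · obtain ⟨k1, k2, -⟩ := st.blk eS eS' ns ny
    obtain ⟨l1, -, -⟩ := stV.blk eT eT' na ny
    obtain ⟨f1, f2, -, f4, f5⟩ := fA a (mem_l eT) aS
    exact k2 a f1 f2 f4 f5 (by linear_combination l1.1 - k1.1)
  · rw [Finset.pair_comm] at eS'
    have hs : ¬ T.HasStep e x C U X1 := by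
      intro hs
      have s1V := inV s1 (mem_l eS) sT
      have y1V := (Finset.mem_sdiff.1 (mem_r eT')).1
      have s2V := (Finset.mem_sdiff.1 (mem_r eT)).2
      have y2V := outV y2 (mem_r eS') yT
      have n1 : s2 ≠ y2 := fun q =>
        (Finset.mem_sdiff.1 (mem_r eS')).2 (q ▸ (Finset.mem_sdiff.1 (mem_r eS)).1)
      have n2 : s1 ≠ y1 := fun q =>
        (Finset.mem_sdiff.1 (mem_l eS')).2 (q ▸ (Finset.mem_sdiff.1 (mem_l eS)).1)
      rcases stepF hs with q | q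
      · exact y2V (q.2 V cV s2 (Finset.mem_union_left _ (mem_r eS)) y2
          (Finset.mem_union_right _ (mem_r eS')) n1 s2V)
      · exact q.2 V cV s1 (Finset.mem_union_left _ (mem_l eS)) y1
          (Finset.mem_union_right _ (mem_l eS')) n2 s1V y1V
    rw [nostep hs] at stV'
    obtain ⟨k1, -, k3⟩ := st.blk eS eS' ns ny.symm
    obtain ⟨l1, -, l3⟩ := stV.blk eT eT' na nb
    obtain ⟨-, -, f3, f4⟩ := fB b (mem_l eT') bS
    obtain ⟨κ, uκ, hA⟩ := anch s2 (mem_r eS) s2 (mem_r eT) rfl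
    rcases hA.c3 (iS (mem_l eS)) (iS (mem_r eS)) (iT (mem_l eT)) (dS (mem_l eS'))
      (dS (mem_r eS')) (dT (mem_l eT')) (k1.scale uκ) (l1.scale uκ) with q | q
    · exact k3 b f3 f4 (uκ.cancel (by linear_combination q))
    · refine l3 y2 (hδ y2 (Finset.mem_union_left _ (mem_r eS')))
        (stV'.s2.2 y2 (Finset.mem_sdiff.1 (mem_r eS')).1 (outV y2 (mem_r eS') yT)) ?_
      have := uκ.cancel (y := P a y2 - P s2 y2) (z := P a y1 - P s2 y1) (by linear_combination q)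
      linear_combination this - l1.1
  · have s1V := inV s1 (mem_l eS) sT
    have s2V := (Finset.mem_sdiff.1 (mem_r eT)).2
    by_cases hs : T.HasStep e x C U X1
    · rcases stepF hs with q | q
      · exact outV y2 (mem_r eS') yT2 (q.2 V cV y1 (Finset.mem_union_right _ (mem_l eS')) y2
          (Finset.mem_union_right _ (mem_r eS')) ny (outV y1 (mem_l eS') yT1))
      · obtain ⟨k1, -, -⟩ := st.blk eS eS' ns ny
        obtain ⟨l1, -, -⟩ := stV.blk eT eT' na nb
        have rows : ∀ b ∈ V \ X, b ∉ X' \ X → P s1 b = P s2 b := by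
          intro b hb nb
          obtain ⟨f1, f2, f3, f4⟩ := fB b hb nb
          refine q.1.rows hB st.hx t.c2.fb.2.1 (hε s1 (iS (mem_l eS))).1 (hε s2 (iS (mem_r eS))).1
            ns (Finset.mem_union_left _ (mem_l eS)) (fun i hi hz => ?_) (hε s1 (iS (mem_l eS))).2
            (hε s2 (iS (mem_r eS))).2 f1 (fun hz => ?_) f3
          · rcases Finset.mem_union.1 hz with r | r
            · rw [eS] at r; simpa using r
            · exact absurd hi (Finset.mem_sdiff.1 r).2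
          · rcases Finset.mem_union.1 hz with r | r
            · exact (Finset.mem_sdiff.1 hb).2 (Finset.mem_sdiff.1 r).1
            · exact nb r
        obtain ⟨κ, uκ, hA⟩ := anch s2 (mem_r eS) s2 (mem_r eT) rfl
        exact hA.tr.c4 (dS (mem_l eS')) (dS (mem_r eS')) (dT (mem_l eT')) (dT (mem_r eT'))
          (iS (mem_r eS)) (iS (mem_l eS)) (iT (mem_l eT)) (k1.scale uκ).swr.tr (l1.scale uκ).tr
          (by simp only [rows b1 (mem_l eT') bS1]) (by simp only [rows b2 (mem_r eT') bS2])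
    · rw [nostep hs] at kR'
      have m1 : b1 ∈ V \ X' := Finset.mem_sdiff.2 ⟨(Finset.mem_sdiff.1 (mem_l eT')).1,
        (fB b1 (mem_l eT') bS1).2.1⟩
      have m2 : b2 ∈ V \ X' := Finset.mem_sdiff.2 ⟨(Finset.mem_sdiff.1 (mem_r eT')).1,
        (fB b2 (mem_r eT') bS2).2.1⟩
      have m3 : s1 ∈ V \ X' := Finset.mem_sdiff.2 ⟨s1V, (Finset.mem_sdiff.1 (mem_l eS)).2⟩
      have sX := (Finset.mem_sdiff.1 (mem_l eS)).1
      rcases mem_pair kR' m1 m2 nb m3 with r | r
      · exact (Finset.mem_sdiff.1 (mem_l eT')).2 (r ▸ sX)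
      · exact (Finset.mem_sdiff.1 (mem_r eT')).2 (r ▸ sX)
  · obtain ⟨k1, k2, -⟩ := st.blk eS eS' ns ny
    obtain ⟨l1, -, -⟩ := stV.blk eT eT' na ny
    obtain ⟨f1, f2, -, f4, f5⟩ := fA a1 (mem_l eT) aS1
    refine k2 a1 f1 f2 f4 f5 ?_
    by_cases q : P s1 j = P a1 j
    · obtain ⟨κ, uκ, hA⟩ := anch s1 (mem_l eS) a1 (mem_l eT) q
      have := hA.c2 (iS (mem_l eS)) (iS (mem_r eS)) (iT (mem_l eT)) (iT (mem_r eT))
        (dS (mem_l eS')) (dS (mem_r eS')) (k1.scale uκ) (l1.scale uκ)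
      exact uκ.cancel (by linear_combination this)
    · exact pvP.twolab mx mj (Finset.mem_insert_of_mem (iS (mem_l eS)))
        (Finset.mem_insert_of_mem (iS (mem_r eS))) (Finset.mem_insert_of_mem (iT (mem_l eT)))
        (Finset.mem_insert_of_mem (iT (mem_r eT))) (dS (mem_l eS')) (dS (mem_r eS')) zx
        (cjS _ (mem_r eS) _ (mem_l eS)) (cjT _ (mem_r eT) _ (mem_l eT)) q k1.2.2 k1.swc.2.2
        l1.2.2 l1.swc.2.2
  · rw [Finset.pair_comm] at eS'
    have s1V := inV s1 (mem_l eS) sT1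
    have s2V := inV s2 (mem_r eS) sT2
    by_cases hs : T.HasStep e x C U X1
    · rcases stepF hs with q | q
      · obtain ⟨k1, -, -⟩ := st.blk eS eS' ns ny.symm
        obtain ⟨l1, -, -⟩ := stV.blk eT eT' na nb
        have q1 := q.1
        rw [eS, eS'] at q1
        have cols : ∀ a ∈ X \ V, a ∉ X \ X' → P a y2 = P a y1 := by
          intro a ha na
          obtain ⟨f1, f2, f3, f4, f5⟩ := fA a ha na
          exact q1.cols hB st.hx t.c2.fb.1 (hε s1 (iS (mem_l eS))).1 (hε s2 (iS (mem_r eS))).1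
            (Finset.mem_sdiff.1 (mem_l eS')).2 (Finset.mem_sdiff.1 (mem_r eS')).2 ns ny.symm
            (hδ _ (Finset.mem_union_left _ (mem_l eS'))) (hδ _ (Finset.mem_union_left _ (mem_r eS')))
            f1 f3 (fun r => na (r ▸ mem_l eS)) (fun r => na (r ▸ mem_r eS)) f4
        have g1 := cols a1 (mem_l eT) aS1
        have g2 := cols a2 (mem_r eT) aS2
        by_cases r : P s1 j = P a1 j
        · obtain ⟨κ, uκ, hA⟩ := anch s1 (mem_l eS) a1 (mem_l eT) r
          exact hA.c4 (iS (mem_l eS)) (iS (mem_r eS)) (iT (mem_l eT)) (iT (mem_r eT))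
            (dS (mem_l eS')) (dS (mem_r eS')) (dT (mem_l eT')) (k1.scale uκ) (l1.scale uκ)
            (by simp only [g1]) (by simp only [g2])
        · have := pvP.twolab mx mj (Finset.mem_insert_of_mem (iS (mem_l eS)))
            (Finset.mem_insert_of_mem (iS (mem_r eS))) (Finset.mem_insert_of_mem (iT (mem_l eT)))
            (Finset.mem_insert_of_mem (iT (mem_r eT))) (dS (mem_l eS')) (dS (mem_r eS')) zx
            (cjS _ (mem_r eS) _ (mem_l eS)) (cjT _ (mem_r eT) _ (mem_l eT)) r k1.2.2 k1.swc.2.2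
            l1.swc.2.2 (by rw [g1, g2]; exact l1.swc.2.2)
          exact k1.2.1 (by linear_combination -this - g1)
      · exact q.2 V cV s1 (Finset.mem_union_left _ (mem_l eS)) s2
          (Finset.mem_union_left _ (mem_r eS)) ns s1V s2V
    · rw [nostep hs] at kR
      have m1 : a1 ∈ X' \ V := Finset.mem_sdiff.2 ⟨(fA a1 (mem_l eT) aS1).2.1,
        (Finset.mem_sdiff.1 (mem_l eT)).2⟩
      have m2 : a2 ∈ X' \ V := Finset.mem_sdiff.2 ⟨(fA a2 (mem_r eT) aS2).2.1,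
        (Finset.mem_sdiff.1 (mem_r eT)).2⟩
      have m3 : y2 ∈ X' \ V := Finset.mem_sdiff.2 ⟨(Finset.mem_sdiff.1 (mem_r eS')).1,
        outV y2 (mem_r eS') yT⟩
      have yX := (Finset.mem_sdiff.1 (mem_r eS')).2
      rcases mem_pair kR m1 m2 na m3 with r | r
      · exact yX (r ▸ (Finset.mem_sdiff.1 (mem_l eT)).1)
      · exact yX (r ▸ (Finset.mem_sdiff.1 (mem_r eT)).1)
  · by_cases hs : T.HasStep e x C U X1
    · rcases stepF hs with q | q
      · exact outV y2 (mem_r eS') yT2 (q.2 V cV y1 (Finset.mem_union_right _ (mem_l eS')) y2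
          (Finset.mem_union_right _ (mem_r eS')) ny (outV y1 (mem_l eS') yT1))
      · exact q.2 V cV s1 (Finset.mem_union_left _ (mem_l eS)) s2
          (Finset.mem_union_left _ (mem_r eS)) ns (inV s1 (mem_l eS) sT1) (inV s2 (mem_r eS) sT2)
    · rw [nostep hs] at kR
      have m1 : a1 ∈ X' \ V := Finset.mem_sdiff.2 ⟨(fA a1 (mem_l eT) aS1).2.1,
        (Finset.mem_sdiff.1 (mem_l eT)).2⟩
      have m2 : a2 ∈ X' \ V := Finset.mem_sdiff.2 ⟨(fA a2 (mem_r eT) aS2).2.1,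
        (Finset.mem_sdiff.1 (mem_r eT)).2⟩
      have m3 : y2 ∈ X' \ V := Finset.mem_sdiff.2 ⟨(Finset.mem_sdiff.1 (mem_r eS')).1,
        outV y2 (mem_r eS') yT2⟩
      have yX := (Finset.mem_sdiff.1 (mem_r eS')).2
      rcases mem_pair kR m1 m2 na m3 with r | r
      · exact yX (r ▸ (Finset.mem_sdiff.1 (mem_l eT)).1)
      · exact yX (r ▸ (Finset.mem_sdiff.1 (mem_r eT)).1)

theorem caseB {X2 X3 : Finset α} (t : T.Tri e x j C U τ X1 X2 X3)
    (ty : T.Typ e x j j C U X1 X2 X3) : False := by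
  by_cases h1 : T.HasStep e x C U X1
  · exact b3 t ty (fun h => b2 t.sw23 ty.sw23 h1 h) (fun h => b2 t ty h1 h)
  · by_cases h2 : T.HasStep e x C U X2
    · exact b3 t.sw12 ty.sw12 h1 (fun h => b2 t.sw12 ty.sw12 h2 h)
    · exact b3 t.sw23.sw12 ty.sw23.sw12 h1 h2

end Tab

end Pool.Agent.NearReg
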